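import Pool.Agent.LeafDeck.LinDefs
import Pool.Agent.DeckB.Compare

/-!
The comparison with a small constant (package C2, helper30), by the comparison lemma of
`Pool.Agent.DeckB.Compare`.
-/

set_option autoImplicit false

namespace LeafDeck

open Finset BTree PowerSeries

namespace C2

theorem c2_uu_rec : uu = 1 + PowerSeries.X * uu := Pool.Agent.DeckB.Cmp.E_eq

theorem ww_eq : ww = Pool.Agent.DeckB.H := by
  ext n
  unfold Pool.Agent.DeckB.H Pool.Agent.DeckB.E ww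
  rw [map_add, coeff_mk, coeff_one, pow_two, mul_assoc]
  rcases n with _ | _ | n
  · rw [coeff_zero_X_mul]; simp
  · rw [coeff_succ_X_mul, coeff_zero_X_mul]; simp
  · rw [coeff_succ_X_mul, coeff_succ_X_mul, coeff_mk]; simp

theorem ww_uu : ww = 1 + PowerSeries.X ^ 2 * uu := ww_eq

theorem uu_le : Cle uu ((1 + PowerSeries.X) * ww) := by
  have h : (1 + PowerSeries.X) * ww = uu + PowerSeries.X ^ 3 * uu := by
    rw [ww_uu]
    have h1 := c2_uu_rec
    have h2 : uu = 1 + PowerSeries.X + PowerSeries.X ^ 2 * uu := by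
      calc uu = 1 + PowerSeries.X * uu := h1
        _ = 1 + PowerSeries.X * (1 + PowerSeries.X * uu) := by rw [← h1]; exact h1
        _ = _ := by ring
    conv_rhs => arg 1; rw [h2]
    ring
  rw [h]
  exact Cle.add_right _ _

theorem uu_sq_le : Cle (uu ^ 2) ((1 + 2 * PowerSeries.X) * ww ^ 3) := by
  have h1 := c2_uu_rec
  have h2 : uu = 1 + PowerSeries.X + PowerSeries.X ^ 2 * uu := by
    calc uu = 1 + PowerSeries.X * uu := h1
      _ = 1 + PowerSeries.X * (1 + PowerSeries.X * uu) := by rw [← h1]; exact h1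
      _ = _ := by ring
  have h3 : uu ^ 2 = (1 + PowerSeries.X + PowerSeries.X ^ 2 * uu) ^ 2 := by rw [← h2]
  have h : (1 + 2 * PowerSeries.X) * ww ^ 3 = uu ^ 2 + (5 * PowerSeries.X ^ 3 * uu +
      2 * PowerSeries.X ^ 4 * uu ^ 2 + 6 * PowerSeries.X ^ 5 * uu ^ 2 +
      PowerSeries.X ^ 6 * uu ^ 3 + 2 * PowerSeries.X ^ 7 * uu ^ 3) := by
    have h4 : (1 + 2 * PowerSeries.X) * ww ^ 3 = (1 + 2 * PowerSeries.X +
        2 * PowerSeries.X ^ 2 * uu + 6 * PowerSeries.X ^ 3 * uu + 3 * PowerSeries.X ^ 4 * uu ^ 2 +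
        6 * PowerSeries.X ^ 5 * uu ^ 2 + PowerSeries.X ^ 6 * uu ^ 3 +
        2 * PowerSeries.X ^ 7 * uu ^ 3) + PowerSeries.X ^ 2 * uu := by
      rw [ww_uu]; ring
    have h5 : PowerSeries.X ^ 2 * uu = PowerSeries.X ^ 2 * (1 + PowerSeries.X * uu) := by
      rw [← h1]
    rw [h4]
    conv_lhs => arg 2; rw [h5]
    conv_rhs => arg 1; rw [h3]
    ring
  rw [h]
  exact Cle.add_right _ _

theorem uu_pow_le (c : ℕ) : Cle (uu ^ c) ((1 + 2 * PowerSeries.X) ^ (c / 2) *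
    (1 + PowerSeries.X) ^ (c % 2) * ww ^ (3 * (c / 2) + c % 2)) := by
  have h0 : uu ^ c = (uu ^ 2) ^ (c / 2) * uu ^ (c % 2) := by
    rw [← pow_mul, ← pow_add]
    congr 1
    omega
  have h1 := (uu_sq_le.pow (c / 2)).mul (uu_le.pow (c % 2))
  rw [← h0] at h1
  have h2 : ((1 + 2 * PowerSeries.X) * ww ^ 3) ^ (c / 2) * ((1 + PowerSeries.X) * ww) ^ (c % 2) =
      (1 + 2 * PowerSeries.X) ^ (c / 2) * (1 + PowerSeries.X) ^ (c % 2) *
        ww ^ (3 * (c / 2) + c % 2) := by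
    rw [mul_pow, mul_pow, pow_add, ← pow_mul]
    ring
  rwa [h2] at h1

end C2

open C2 in
/-- package C2 -/
theorem compare90 {K c e x N b d : ℕ} (hd : 1 ≤ d) (hb1 : 1 ≤ b) (hb2 : b ≤ 2)
    (h : 2 * K + c + x = 2 * N + b) (hce : c + e ≤ 6 * x + 5) (hx1 : 1 ≤ x)
    (hN : 90 * d ≤ N) :
    coeff d (tt ^ K * uu ^ c * ww ^ e) < coeff d (tt ^ N * (1 + PowerSeries.X) ^ b) := by
  have h1 : Cle (tt ^ K * uu ^ c * ww ^ e) ((1 + 2 * PowerSeries.X) ^ (K + c / 2) *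
      (1 + PowerSeries.X) ^ (c % 2) * Pool.Agent.DeckB.H ^ (e + 3 * (c / 2) + c % 2)) := by
    have h2 := ((Cle.refl (tt ^ K)).mul (uu_pow_le c)).mul (Cle.refl (ww ^ e))
    have h3 : tt ^ K * ((1 + 2 * PowerSeries.X) ^ (c / 2) * (1 + PowerSeries.X) ^ (c % 2) *
        ww ^ (3 * (c / 2) + c % 2)) * ww ^ e = (1 + 2 * PowerSeries.X) ^ (K + c / 2) *
      (1 + PowerSeries.X) ^ (c % 2) * Pool.Agent.DeckB.H ^ (e + 3 * (c / 2) + c % 2) := by
      rw [ww_eq, tt, pow_add, show e + 3 * (c / 2) + c % 2 = e + (3 * (c / 2) + c % 2) by ring,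
        pow_add _ e]
      ring
    rwa [h3] at h2
  have h4 := Pool.Agent.DeckB.compare (N := 2 * N + b) (d := d) (mu := K + c / 2) (nu := c % 2)
    (sg := e + 3 * (c / 2) + c % 2) (u := x) hd (by omega) (by omega) hx1 (by omega) (by omega)
  refine (h1 d).trans_lt (h4.trans_le ?_)
  rcases (by omega : b = 1 ∨ b = 2) with rfl | rfl
  · rw [show (2 * N + 1) / 2 = N by omega, show (2 * N + 1) % 2 = 1 by omega, tt]
  · rw [show (2 * N + 2) / 2 = N + 1 by omega, show (2 * N + 2) % 2 = 0 by omega, pow_zero,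
      mul_one, pow_succ, tt]
    have h5 : (1 + 2 * PowerSeries.X : PowerSeries ℕ) ^ N * (1 + PowerSeries.X) ^ 2 =
        (1 + 2 * PowerSeries.X) ^ N * (1 + 2 * PowerSeries.X) +
          (1 + 2 * PowerSeries.X) ^ N * PowerSeries.X ^ 2 := by ring
    rw [h5, map_add]
    exact Nat.le_add_right _ _

end LeafDeck
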