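import Pool.Agent.LeafDeck.OneNum
import Pool.Agent.LeafDeck.Cmp90

/-!
The comparison with the constant `15`, near part (helper86).
-/

set_option autoImplicit false

namespace LeafDeck

open Finset BTree PowerSeries

namespace N15

open S5

theorem coeff_zero_mul_ww (F : PowerSeries ℕ) : coeff 0 (F * ww) = coeff 0 F := by
  rw [C2.ww_eq]
  exact Pool.Agent.DeckB.Cmp.coeff_zero_mul_H F

theorem mul_ww_le {r d : ℕ} {F : PowerSeries ℕ} (h : GrS r d F) (j : ℕ) (hj : j + 1 ≤ d) :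
    r * coeff (j + 1) (F * ww) ≤ r * coeff (j + 1) F + coeff j F := by
  have h1 : F * ww = F + PowerSeries.X ^ 2 * (F * uu) := by rw [C2.ww_uu]; ring
  rw [h1, map_add, pow_two, mul_assoc, coeff_succ_X_mul, mul_add]
  refine Nat.add_le_add_left ?_ _
  cases j with
  | zero => rw [coeff_zero_X_mul]; simp
  | succ j =>
    rw [coeff_succ_X_mul, coeff_mul_uu]
    exact h.sum _ (by omega)

theorem iterA {d : ℕ} {F : PowerSeries ℕ} (h : GrS 12 d F) (k : ℕ) (hk : k ≤ 9) :
    coeff 0 (F * ww ^ k) = coeff 0 F ∧ ∀ j, j + 1 ≤ d →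
      100 * coeff (j + 1) (F * ww ^ k) ≤ 100 * coeff (j + 1) F + 9 * k * coeff j F := by
  induction k with
  | zero => simp
  | succ k ih =>
    obtain ⟨h0, h1⟩ := ih (by omega)
    have hgr : GrS 12 d (F * ww ^ k) := h.mul _
    refine ⟨by rw [pow_succ, ← mul_assoc, coeff_zero_mul_ww, h0], fun j hj => ?_⟩
    rw [pow_succ, ← mul_assoc]
    have h2 := mul_ww_le hgr j hj
    have h3 := h1 j hj
    cases j with
    | zero =>
      rw [h0] at h2
      have h4 : 9 * (k + 1) * coeff 0 F = 9 * k * coeff 0 F + 9 * coeff 0 F := by ring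
      rw [h4]
      omega
    | succ j =>
      have h4 := h1 j (by omega)
      have h5 := h j (by omega)
      have h6 : 9 * k * coeff j F * 13 ≤ 9 * k * coeff (j + 1) F := by
        calc 9 * k * coeff j F * 13 = 9 * k * ((12 + 1) * coeff j F) := by ring
          _ ≤ _ := Nat.mul_le_mul_left _ h5
      have h7 : 9 * k * coeff (j + 1) F ≤ 72 * coeff (j + 1) F :=
        Nat.mul_le_mul_right _ (by omega)
      have h8 : 9 * (k + 1) * coeff (j + 1) F =
          9 * k * coeff (j + 1) F + 9 * coeff (j + 1) F := by ring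
      rw [h8]
      omega

theorem iterB {d : ℕ} {F : PowerSeries ℕ} (h : GrS 27 d F) (k : ℕ) (hk : k ≤ 16) :
    coeff 0 (F * ww ^ k) = coeff 0 F ∧ ∀ j, j + 1 ≤ d →
      100 * coeff (j + 1) (F * ww ^ k) ≤ 100 * coeff (j + 1) F + 4 * k * coeff j F := by
  induction k with
  | zero => simp
  | succ k ih =>
    obtain ⟨h0, h1⟩ := ih (by omega)
    have hgr : GrS 27 d (F * ww ^ k) := h.mul _
    refine ⟨by rw [pow_succ, ← mul_assoc, coeff_zero_mul_ww, h0], fun j hj => ?_⟩
    rw [pow_succ, ← mul_assoc]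
    have h2 := mul_ww_le hgr j hj
    have h3 := h1 j hj
    cases j with
    | zero =>
      rw [h0] at h2
      have h4 : 4 * (k + 1) * coeff 0 F = 4 * k * coeff 0 F + 4 * coeff 0 F := by ring
      rw [h4]
      omega
    | succ j =>
      have h4 := h1 j (by omega)
      have h5 := h j (by omega)
      have h6 : 4 * k * coeff j F * 28 ≤ 4 * k * coeff (j + 1) F := by
        calc 4 * k * coeff j F * 28 = 4 * k * ((27 + 1) * coeff j F) := by ring
          _ ≤ _ := Nat.mul_le_mul_left _ h5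
      have h7 : 4 * k * coeff (j + 1) F ≤ 60 * coeff (j + 1) F :=
        Nat.mul_le_mul_right _ (by omega)
      have h8 : 4 * (k + 1) * coeff (j + 1) F =
          4 * k * coeff (j + 1) F + 4 * coeff (j + 1) F := by ring
      rw [h8]
      omega

theorem coeff_one_add {r d e : ℕ} {A : PowerSeries ℕ} (h : GrS r (d + 1) A) (he : e ≤ 1) :
    (r + 1) * coeff d (A * (1 + PowerSeries.X) ^ e) ≤ (r + 2) * coeff d A := by
  rcases Nat.le_one_iff_eq_zero_or_eq_one.1 he with rfl | rfl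
  · rw [pow_zero, mul_one]
    exact Nat.mul_le_mul_right _ (by omega)
  · rw [pow_one]
    cases d with
    | zero =>
      rw [Pool.Agent.DeckB.Cmp.coeff_zero_one]
      exact Nat.mul_le_mul_right _ (by omega)
    | succ d =>
      rw [Pool.Agent.DeckB.Cmp.coeff_succ_one]
      have h1 := h d (by omega)
      have h2 : (r + 2) * coeff (d + 1) A = (r + 1) * coeff (d + 1) A + coeff (d + 1) A := by ring
      rw [h2, mul_add]
      omega

/-- one step, the small factor -/
theorem stepA {d m e s : ℕ} (hd : 1 ≤ d) (hm : 15 * d ≤ 2 * m) (he : e ≤ 1) :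
    coeff d (tt ^ m * (1 + PowerSeries.X) ^ e * ww ^ (s + 9)) ≤
      coeff d (tt ^ m * (1 + PowerSeries.X) ^ e * ww ^ s +
        PowerSeries.X * (tt ^ m * ww ^ s)) := by
  have hgL : GrS 12 d (tt ^ m) := grS_tt fun j hj => by omega
  set L : PowerSeries ℕ := tt ^ m with hL
  set A : PowerSeries ℕ := L * ww ^ s with hA
  set A' : PowerSeries ℕ := L * (1 + PowerSeries.X) ^ e * ww ^ s with hA'
  have hgA : GrS 12 d A := hgL.mul _
  have hgA' : GrS 12 d A' := (hgL.mul _).mul _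
  obtain ⟨d, rfl⟩ : ∃ d', d = d' + 1 := ⟨d - 1, by omega⟩
  have h1 := (iterA hgA' 9 le_rfl).2 d le_rfl
  rw [map_add, coeff_succ_X_mul]
  have h2 : L * (1 + PowerSeries.X) ^ e * ww ^ (s + 9) = A' * ww ^ 9 := by
    rw [hA', pow_add]; ring
  rw [h2]
  have hAA : A' = A * (1 + PowerSeries.X) ^ e := by rw [hA', hA]; ring
  have h3 := coeff_one_add hgA he
  rw [← hAA] at h3
  omega

/-- one step, the large factor -/
theorem stepB {d m e s : ℕ} (hd : 1 ≤ d) (hm : 15 * d ≤ m) (he : e ≤ 1) :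
    coeff d (tt ^ m * (1 + PowerSeries.X) ^ e * ww ^ (s + 16)) <
      coeff d (tt ^ m * (1 + PowerSeries.X) ^ e * ww ^ s +
        PowerSeries.X * (tt ^ m * ww ^ s)) := by
  have hgL : GrS 27 d (tt ^ m) := grS_tt fun j hj => by omega
  have hp : 0 < coeff (d - 1) (tt ^ m * ww ^ s) := by
    refine lt_of_lt_of_le (coeff_tt_pos (m := m) (j := d - 1) (by omega)) ?_
    rw [C2.ww_eq]
    exact Pool.Agent.DeckB.Cmp.le_coeff_mul_H_pow _ s _
  set L : PowerSeries ℕ := tt ^ m with hL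
  set A : PowerSeries ℕ := L * ww ^ s with hA
  set A' : PowerSeries ℕ := L * (1 + PowerSeries.X) ^ e * ww ^ s with hA'
  have hgA : GrS 27 d A := hgL.mul _
  have hgA' : GrS 27 d A' := (hgL.mul _).mul _
  obtain ⟨d, rfl⟩ : ∃ d', d = d' + 1 := ⟨d - 1, by omega⟩
  have h1 := (iterB hgA' 16 le_rfl).2 d le_rfl
  rw [map_add, coeff_succ_X_mul]
  have h2 : L * (1 + PowerSeries.X) ^ e * ww ^ (s + 16) = A' * ww ^ 16 := by
    rw [hA', pow_add]; ring
  rw [h2]
  have hAA : A' = A * (1 + PowerSeries.X) ^ e := by rw [hA', hA]; ring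
  have h3 := coeff_one_add hgA he
  rw [← hAA] at h3
  rw [Nat.add_sub_cancel] at hp
  omega

/-- `tt ^ (w / 2) (1 + X) ^ (w % 2)` -/
noncomputable def Qt (w : ℕ) : PowerSeries ℕ := tt ^ (w / 2) * (1 + PowerSeries.X) ^ (w % 2)

theorem Qt_succ (w : ℕ) : Qt (w + 1) = Qt w + PowerSeries.X * tt ^ (w / 2) :=
  Pool.Agent.DeckB.Cmp.Q_succ w

theorem stepA' {d w s : ℕ} (hd : 1 ≤ d) (hm : 15 * d + 1 ≤ w) :
    coeff d (Qt w * ww ^ (s + 9)) ≤ coeff d (Qt (w + 1) * ww ^ s) := by
  have h := stepA (s := s) (m := w / 2) (e := w % 2) hd (by omega) (by omega)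
  have h2 : Qt (w + 1) * ww ^ s = tt ^ (w / 2) * (1 + PowerSeries.X) ^ (w % 2) * ww ^ s +
      PowerSeries.X * (tt ^ (w / 2) * ww ^ s) := by
    rw [Qt_succ]; unfold Qt; ring
  rw [h2]
  exact h

theorem stepB' {d w s : ℕ} (hd : 1 ≤ d) (hm : 15 * d ≤ w / 2) :
    coeff d (Qt w * ww ^ (s + 16)) < coeff d (Qt (w + 1) * ww ^ s) := by
  have h := stepB (s := s) (m := w / 2) (e := w % 2) hd hm (by omega)
  have h2 : Qt (w + 1) * ww ^ s = tt ^ (w / 2) * (1 + PowerSeries.X) ^ (w % 2) * ww ^ s +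
      PowerSeries.X * (tt ^ (w / 2) * ww ^ s) := by
    rw [Qt_succ]; unfold Qt; ring
  rw [h2]
  exact h

theorem ww_mono (F : PowerSeries ℕ) {s t : ℕ} (h : s ≤ t) (j : ℕ) :
    coeff j (F * ww ^ s) ≤ coeff j (F * ww ^ t) := by
  rw [C2.ww_eq]
  exact Pool.Agent.DeckB.Cmp.coeff_mul_H_pow_mono F h j

/-- the descent: `w` with `t` missing units, `t < 15 d` -/
theorem descent {d W : ℕ} (hd : 1 ≤ d) (hW : 30 * d + 1 ≤ W) (t : ℕ) (ht : 1 ≤ t)
    (ht2 : t < 15 * d) : coeff d (Qt (W - t) * ww ^ (9 * t + 7)) < coeff d (Qt W) := by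
  induction t with
  | zero => omega
  | succ t ih =>
    rcases Nat.eq_zero_or_pos t with rfl | ht'
    · have h1 := stepB' (s := 0) (w := W - 1) hd (by omega)
      rw [pow_zero, mul_one, show W - 1 + 1 = W by omega] at h1
      exact h1
    · have h1 := stepA' (s := 9 * t + 7) (w := W - (t + 1)) hd (by omega)
      rw [show W - (t + 1) + 1 = W - t by omega] at h1
      exact lt_of_le_of_lt h1 (ih (by omega) (by omega))

end N15

open C2 N15 in
/-- the near part of the comparison with the constant `15` -/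
theorem compare_near15 {K c e x N b d : ℕ} (hd : 1 ≤ d) (hb1 : 1 ≤ b) (hb2 : b ≤ 2)
    (h : 2 * K + c + x = 2 * N + b) (hce : c + e ≤ 6 * x + 4) (hx1 : 1 ≤ x)
    (hx : x < 15 * d) (hN : 15 * d ≤ N) :
    coeff d (tt ^ K * uu ^ c * ww ^ e) < coeff d (tt ^ N * (1 + PowerSeries.X) ^ b) := by
  have h1 : Cle (tt ^ K * uu ^ c * ww ^ e) (Qt (2 * N + b - x) *
      ww ^ (e + (3 * (c / 2) + c % 2))) := by
    have h2 := ((Cle.refl (tt ^ K)).mul (uu_pow_le c)).mul (Cle.refl (ww ^ e))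
    have h3 : tt ^ K * ((1 + 2 * PowerSeries.X) ^ (c / 2) * (1 + PowerSeries.X) ^ (c % 2) *
        ww ^ (3 * (c / 2) + c % 2)) * ww ^ e = Qt (2 * N + b - x) *
        ww ^ (e + (3 * (c / 2) + c % 2)) := by
      unfold Qt
      rw [show (2 * N + b - x) / 2 = K + c / 2 by omega, show (2 * N + b - x) % 2 = c % 2 by omega,
        pow_add _ e, pow_add tt, tt]
      ring
    rwa [h3] at h2
  have h4 := descent (W := 2 * N + b) hd (by omega) x hx1 hx
  refine (h1 d).trans_lt ((ww_mono _ (t := 9 * x + 7) (by omega) d).trans_lt (h4.trans_le ?_))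
  unfold Qt
  rcases (by omega : b = 1 ∨ b = 2) with rfl | rfl
  · rw [show (2 * N + 1) / 2 = N by omega, show (2 * N + 1) % 2 = 1 by omega]
  · rw [show (2 * N + 2) / 2 = N + 1 by omega, show (2 * N + 2) % 2 = 0 by omega, pow_zero,
      mul_one, pow_succ, tt]
    have h5 : (1 + 2 * PowerSeries.X : PowerSeries ℕ) ^ N * (1 + PowerSeries.X) ^ 2 =
        (1 + 2 * PowerSeries.X) ^ N * (1 + 2 * PowerSeries.X) +
          (1 + 2 * PowerSeries.X) ^ N * PowerSeries.X ^ 2 := by ring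
    rw [h5, map_add]
    exact Nat.le_add_right _ _

end LeafDeck
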