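import Pool.Agent.LeafDeck.CompareFar15
import Pool.Agent.LeafDeck.CompareNear15

/-!
The comparison for `N ≥ 15 d`.
-/

set_option autoImplicit false

namespace LeafDeck

open PowerSeries

theorem compare15 {K c e x N b d : ℕ} (hd : 1 ≤ d) (hb1 : 1 ≤ b) (hb2 : b ≤ 2)
    (h : 2 * K + c + x = 2 * N + b) (hce : c + e ≤ 6 * x + 4) (hx1 : 1 ≤ x) (hN : 15 * d ≤ N) :
    coeff d (tt ^ K * uu ^ c * ww ^ e) < coeff d (tt ^ N * (1 + PowerSeries.X) ^ b) := by
  rcases Nat.lt_or_ge x (15 * d) with hx | hx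
  · exact compare_near15 hd hb1 hb2 h hce hx1 hx hN
  · exact F15.compare_far15 hd hb1 hb2 h hce hx hN

end LeafDeck
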