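import Pool.Agent.LeafDeck.Sep

/-!
The collision lemma (helper56): the pairs (member of `P`, member of `Q`) are almost injectively
mapped to the members of the tree with the two subtrees `P` and `Q`.
-/

set_option autoImplicit false

namespace LeafDeck

open Finset BTree

open scoped Classical in
/-- the loss through exchanges of the two subtrees -/
noncomputable def swapLoss (d p q : ℕ) : ℝ :=
  if p = q then 10 * 4 ^ d * √(p : ℝ) * ((p + q).choose (d - 1) : ℕ)
  else if p ≤ q + d ∧ q ≤ p + d then ((p + q - 1).choose (d - 1) : ℕ)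
  else 0

open scoped Classical in
/-- the pairs of members -/
noncomputable def pairsB (P Q : BTree) (d : ℕ) : Finset (Option TreeClass × Option TreeClass) :=
  (antidiagonal d).biUnion fun x => fam P x.1 ×ˢ fam Q x.2

lemma mem_pairsB {P Q : BTree} {d : ℕ} {z : Option TreeClass × Option TreeClass} :
    z ∈ pairsB P Q d ↔ ∃ i j, i + j = d ∧ z.1 ∈ fam P i ∧ z.2 ∈ fam Q j := by
  simp only [pairsB, mem_biUnion, HasAntidiagonal.mem_antidiagonal, mem_product, Prod.exists]

lemma card_pairsB (P Q : BTree) (d : ℕ) :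
    (pairsB P Q d).card = ∑ x ∈ antidiagonal d, (fam P x.1).card * (fam Q x.2).card := by
  classical
  rw [pairsB, card_biUnion]
  · exact sum_congr rfl fun x _ => card_product _ _
  · rintro ⟨i, j⟩ hx ⟨i', j'⟩ hy hne
    rw [Function.onFun, Finset.disjoint_left]
    rintro ⟨a, b⟩ h1 h2
    rw [mem_product] at h1 h2
    have e1 := fam_qsize h1.1
    have e2 := fam_qsize h2.1
    have e3 := fam_qsize h1.2
    have e4 := fam_qsize h2.2
    simp only at e1 e2 e3 e4
    exact hne (by ext <;> simp only <;> omega)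

open scoped Classical in
/-- the exchangeable pairs -/
noncomputable def swapB (P Q : BTree) (d : ℕ) : Finset (Option TreeClass × Option TreeClass) :=
  (pairsB P Q d).filter fun z => (z.2, z.1) ∈ pairsB P Q d ∧ z.1 ≠ z.2

open scoped Classical in
/-- the pairs with an empty member -/
noncomputable def noneB (P Q : BTree) (d : ℕ) : Finset (Option TreeClass × Option TreeClass) :=
  (pairsB P Q d).filter fun z => z.1 = none ∨ z.2 = none

lemma choose_le_shift (a b k : ℕ) : a.choose b ≤ (a + k).choose (b + k) := by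
  induction k with
  | zero => exact le_rfl
  | succ k ih =>
    refine ih.trans ?_
    show (a + k).choose (b + k) ≤ (a + k + 1).choose (b + k + 1)
    rw [Nat.choose_succ_succ']
    exact Nat.le_add_right _ _

lemma card_noneB_le (P Q : BTree) (hP : 2 ≤ P.size) (hQ : 2 ≤ Q.size) (d : ℕ) (hd : 2 ≤ d) :
    (noneB P Q d).card ≤ 2 * (P.size + Q.size - 2).choose (d - 2) := by
  classical
  have hsub : noneB P Q d ⊆
      ((if P.size ≤ d then (fam Q (d - P.size)).image fun b => ((none : Option TreeClass), b)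
        else ∅) ∪
      (if Q.size ≤ d then (fam P (d - Q.size)).image fun a => (a, (none : Option TreeClass))
        else ∅)) := by
    rintro ⟨a, b⟩ hz
    simp only [noneB, mem_filter, mem_pairsB] at hz
    obtain ⟨⟨i, j, hij, ha, hb⟩, h⟩ := hz
    rw [mem_union]
    rcases h with h | h
    · subst h
      have h1 := none_mem_fam.1 ha
      have h2 : P.size ≤ d := by omega
      left
      rw [if_pos h2, mem_image]
      exact ⟨b, by rwa [show d - P.size = j by omega], rfl⟩
    · subst h
      have h1 := none_mem_fam.1 hb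
      have h2 : Q.size ≤ d := by omega
      right
      rw [if_pos h2, mem_image]
      exact ⟨a, by rwa [show d - Q.size = i by omega], rfl⟩
  refine (card_le_card hsub).trans ((card_union_le _ _).trans ?_)
  have h1 : (if P.size ≤ d then (fam Q (d - P.size)).image
      fun b => ((none : Option TreeClass), b) else ∅).card ≤
      (P.size + Q.size - 2).choose (d - 2) := by
    split_ifs with h
    · refine card_image_le.trans ((card_fam_le _ _).trans ?_)
      have := choose_le_shift Q.size (d - P.size) (P.size - 2)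
      rwa [show Q.size + (P.size - 2) = P.size + Q.size - 2 by omega,
        show d - P.size + (P.size - 2) = d - 2 by omega] at this
    · simp
  have h2 : (if Q.size ≤ d then (fam P (d - Q.size)).image
      fun a => (a, (none : Option TreeClass)) else ∅).card ≤
      (P.size + Q.size - 2).choose (d - 2) := by
    split_ifs with h
    · refine card_image_le.trans ((card_fam_le _ _).trans ?_)
      have := choose_le_shift P.size (d - Q.size) (Q.size - 2)
      rwa [show P.size + (Q.size - 2) = P.size + Q.size - 2 by omega,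
        show d - Q.size + (Q.size - 2) = d - 2 by omega] at this
    · simp
  omega

/-- off the two exceptional sets the join is injective -/
lemma card_pairsB_le (P Q : BTree) (d : ℕ) :
    (pairsB P Q d).card ≤ (fam (.node P Q) d).card + (noneB P Q d).card +
      (swapB P Q d).card := by
  classical
  have h1 : (pairsB P Q d \ (noneB P Q d ∪ swapB P Q d)).card ≤ (fam (.node P Q) d).card := by
    refine card_le_card_of_injOn (fun z => joinQ z.1 z.2) ?_ ?_
    · rintro ⟨a, b⟩ hz
      rw [mem_coe, mem_sdiff, mem_pairsB] at hz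
      obtain ⟨⟨i, j, hij, ha, hb⟩, -⟩ := hz
      exact mem_coe.2 (mem_fam_node.2 ⟨i, j, hij, a, ha, b, hb, rfl⟩)
    · rintro ⟨a, b⟩ hz ⟨a', b'⟩ hz' h
      rw [mem_coe, mem_sdiff, mem_union, not_or] at hz hz'
      obtain ⟨hz1, hz2, hz3⟩ := hz
      obtain ⟨hz1', hz2', -⟩ := hz'
      simp only [noneB, mem_filter, not_and, not_or] at hz2 hz2'
      have hn := hz2 hz1
      have hn' := hz2' hz1'
      rcases joinQ_inj hn.1 hn.2 hn'.1 hn'.2 h with ⟨rfl, rfl⟩ | ⟨rfl, rfl⟩
      · rfl
      · by_cases hab : a = b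
        · rw [hab]
        · exact absurd (by
            simp only [swapB, mem_filter]
            exact ⟨hz1, hz1', hab⟩) hz3
  have h2 : (pairsB P Q d).card ≤ (pairsB P Q d \ (noneB P Q d ∪ swapB P Q d)).card +
      (noneB P Q d ∪ swapB P Q d).card := by
    rw [card_sdiff_add_card]
    exact card_le_card subset_union_left
  have h3 := card_union_le (noneB P Q d) (swapB P Q d)
  omega

/-- the exchangeable pairs for the sizes `q < p` -/
lemma card_swapB_lt (P Q : BTree) (h : Q.size < P.size) (d : ℕ) :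
    (swapB P Q d).card ≤
      if P.size ≤ Q.size + d then (P.size + Q.size - 1).choose (d - 1) else 0 := by
  classical
  by_cases hs : P.size ≤ Q.size + d
  · rw [if_pos hs]
    have hsub : swapB P Q d ⊆
        (antidiagonal (d - (P.size - Q.size))).biUnion fun x => fam Q x.1 ×ˢ fam Q x.2 := by
      rintro ⟨a, b⟩ hz
      simp only [swapB, mem_filter, mem_pairsB] at hz
      obtain ⟨⟨i, j, hij, ha, hb⟩, ⟨i', j', hij', hb', ha'⟩, -⟩ := hz
      simp only [mem_biUnion, HasAntidiagonal.mem_antidiagonal, mem_product, Prod.exists]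
      have e1 := fam_qsize ha
      have e2 := fam_qsize ha'
      refine ⟨j', j, by omega, ha', hb⟩
    refine (card_le_card hsub).trans (card_biUnion_le.trans ?_)
    have h1 : ∑ x ∈ antidiagonal (d - (P.size - Q.size)), (fam Q x.1 ×ˢ fam Q x.2).card ≤
        (Q.size + Q.size).choose (d - (P.size - Q.size)) := by
      rw [Nat.add_choose_eq]
      refine sum_le_sum fun x _ => ?_
      rw [card_product]
      exact Nat.mul_le_mul (card_fam_le _ _) (card_fam_le _ _)
    refine h1.trans ?_
    have h2 := choose_le_shift (Q.size + Q.size) (d - (P.size - Q.size)) (P.size - Q.size - 1)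
    rwa [show Q.size + Q.size + (P.size - Q.size - 1) = P.size + Q.size - 1 by omega,
      show d - (P.size - Q.size) + (P.size - Q.size - 1) = d - 1 by omega] at h2
  · rw [if_neg hs, Nat.le_zero, card_eq_zero, Finset.eq_empty_iff_forall_notMem]
    rintro ⟨a, b⟩ hz
    simp only [swapB, mem_filter, mem_pairsB] at hz
    obtain ⟨⟨i, j, hij, ha, hb⟩, ⟨i', j', hij', hb', ha'⟩, -⟩ := hz
    have e1 := fam_qsize ha
    have e2 := fam_qsize ha'
    omega

/-- the exchange of the two subtrees -/
lemma card_swapB_comm (P Q : BTree) (d : ℕ) : (swapB P Q d).card = (swapB Q P d).card := by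
  classical
  refine card_bij (fun z _ => (z.2, z.1)) ?_ ?_ ?_
  · rintro ⟨a, b⟩ hz
    simp only [swapB, mem_filter, mem_pairsB] at hz ⊢
    obtain ⟨⟨i, j, hij, ha, hb⟩, ⟨i', j', hij', hb', ha'⟩, hne⟩ := hz
    exact ⟨⟨j, i, by omega, hb, ha⟩, ⟨j', i', by omega, ha', hb'⟩, hne.symm⟩
  · rintro ⟨a, b⟩ _ ⟨a', b'⟩ _ h
    simp only [Prod.mk.injEq] at h ⊢
    exact ⟨h.2, h.1⟩
  · rintro ⟨a, b⟩ hz
    simp only [swapB, mem_filter, mem_pairsB] at hz
    obtain ⟨⟨i, j, hij, ha, hb⟩, ⟨i', j', hij', hb', ha'⟩, hne⟩ := hz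
    refine ⟨(b, a), ?_, rfl⟩
    simp only [swapB, mem_filter, mem_pairsB]
    exact ⟨⟨j, i, by omega, hb, ha⟩, ⟨j', i', by omega, ha', hb'⟩, hne.symm⟩

/-- the exchangeable pairs for equal sizes -/
lemma card_swapB_eq (P Q : BTree) (h : P.size = Q.size)
    (hne : (⟦P⟧ : TreeClass) ≠ ⟦Q⟧) (d : ℕ) (hd : 2 ≤ d) :
    ((swapB P Q d).card : ℝ) ≤
      10 * 4 ^ d * √(P.size : ℝ) * ((P.size + Q.size).choose (d - 1) : ℕ) := by
  classical
  have hsub : swapB P Q d ⊆
      (antidiagonal (d - 1)).biUnion fun x =>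
        (fam P (x.1 + 1) ∩ fam Q (x.1 + 1)) ×ˢ fam Q x.2 := by
    rintro ⟨a, b⟩ hz
    simp only [swapB, mem_filter, mem_pairsB] at hz
    obtain ⟨⟨i, j, hij, ha, hb⟩, ⟨i', j', hij', hb', ha'⟩, -⟩ := hz
    have e1 := fam_qsize ha
    have e2 := fam_qsize ha'
    have e3 : j' = i := by omega
    subst e3
    have hi : j' ≠ 0 := by
      rintro rfl
      rw [fam_zero, mem_singleton] at ha ha'
      rw [ha] at ha'
      exact hne (Option.some_injective _ ha')
    simp only [mem_biUnion, HasAntidiagonal.mem_antidiagonal, mem_product, mem_inter,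
      Prod.exists]
    refine ⟨j' - 1, j, by omega, ⟨?_, ?_⟩, hb⟩
    · rwa [show j' - 1 + 1 = j' by omega]
    · rwa [show j' - 1 + 1 = j' by omega]
  have h1 : ((swapB P Q d).card : ℝ) ≤
      ∑ x ∈ antidiagonal (d - 1),
        ((fam P (x.1 + 1) ∩ fam Q (x.1 + 1)).card : ℝ) * ((fam Q x.2).card : ℝ) := by
    have h2 := (card_le_card hsub).trans card_biUnion_le
    have h3 : ((swapB P Q d).card : ℝ) ≤ ((∑ x ∈ antidiagonal (d - 1),
        ((fam P (x.1 + 1) ∩ fam Q (x.1 + 1)) ×ˢ fam Q x.2).card : ℕ) : ℝ) := by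
      exact_mod_cast h2
    refine h3.trans (le_of_eq ?_)
    push_cast
    refine sum_congr rfl fun x _ => ?_
    rw [card_product]
    push_cast
    rfl
  refine h1.trans ?_
  rw [Nat.add_choose_eq]
  push_cast
  rw [mul_sum]
  refine sum_le_sum fun x hx => ?_
  rw [HasAntidiagonal.mem_antidiagonal] at hx
  have h2 := separation P Q h hne x.1
  have h3 : ((fam Q x.2).card : ℝ) ≤ (Q.size.choose x.2 : ℝ) := by
    exact_mod_cast card_fam_le Q x.2
  have h4 : kap (x.1 + 1) ≤ 10 * 4 ^ d := by
    unfold kap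
    have : (4 : ℝ) ^ (x.1 + 1) ≤ 4 ^ d := pow_le_pow_right₀ (by norm_num) (by omega)
    linarith
  have h5 : 0 ≤ √(P.size : ℝ) := Real.sqrt_nonneg _
  have h6 : (0 : ℝ) ≤ (P.size.choose x.1 : ℝ) := Nat.cast_nonneg _
  have h7 : kap (x.1 + 1) * √(P.size : ℝ) * (P.size.choose x.1 : ℝ) ≤
      10 * 4 ^ d * √(P.size : ℝ) * (P.size.choose x.1 : ℝ) :=
    mul_le_mul_of_nonneg_right (mul_le_mul_of_nonneg_right h4 h5) h6
  calc ((fam P (x.1 + 1) ∩ fam Q (x.1 + 1)).card : ℝ) * ((fam Q x.2).card : ℝ)
      ≤ (10 * 4 ^ d * √(P.size : ℝ) * (P.size.choose x.1 : ℝ)) * (Q.size.choose x.2 : ℝ) :=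
        mul_le_mul (h2.trans h7) h3 (Nat.cast_nonneg _) (by positivity)
    _ = 10 * 4 ^ d * √(P.size : ℝ) * ((P.size.choose x.1 : ℝ) * (Q.size.choose x.2 : ℝ)) := by
        ring

theorem collision (P Q : BTree) (hP : 2 ≤ P.size) (hQ : 2 ≤ Q.size)
    (hne : (⟦P⟧ : TreeClass) ≠ ⟦Q⟧) (d : ℕ) (hd : 2 ≤ d) :
    ((∑ x ∈ antidiagonal d, (fam P x.1).card * (fam Q x.2).card : ℕ) : ℝ) ≤
      ((fam (.node P Q) d).card : ℝ) + 2 * ((P.size + Q.size - 2).choose (d - 2) : ℕ) +
        swapLoss d P.size Q.size := by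
  have h1 : ((swapB P Q d).card : ℝ) ≤ swapLoss d P.size Q.size := by
    unfold swapLoss
    split_ifs with h h'
    · exact card_swapB_eq P Q h hne d hd
    · rcases Nat.lt_or_gt_of_ne h with hlt | hlt
      · rw [card_swapB_comm]
        have := card_swapB_lt Q P hlt d
        rw [if_pos h'.2, add_comm Q.size P.size] at this
        exact_mod_cast this
      · have := card_swapB_lt P Q hlt d
        rw [if_pos h'.1] at this
        exact_mod_cast this
    · rcases Nat.lt_or_gt_of_ne h with hlt | hlt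
      · rw [card_swapB_comm]
        have := card_swapB_lt Q P hlt d
        rw [if_neg (by intro h2; exact h' ⟨by omega, h2⟩)] at this
        exact_mod_cast this
      · have := card_swapB_lt P Q hlt d
        rw [if_neg (by intro h2; exact h' ⟨h2, by omega⟩)] at this
        exact_mod_cast this
  have h2 := card_noneB_le P Q hP hQ d hd
  have h3 := card_pairsB_le P Q d
  rw [card_pairsB] at h3
  have h4 : ((∑ x ∈ antidiagonal d, (fam P x.1).card * (fam Q x.2).card : ℕ) : ℝ) ≤
      ((fam (.node P Q) d).card : ℝ) + ((noneB P Q d).card : ℝ) + ((swapB P Q d).card : ℝ) := by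
    exact_mod_cast h3
  have h5 : ((noneB P Q d).card : ℝ) ≤ 2 * ((P.size + Q.size - 2).choose (d - 2) : ℕ) := by
    exact_mod_cast h2
  linarith

end LeafDeck
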