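import Pool.Agent.LeafDeck.LinDefs

set_option autoImplicit false

namespace LeafDeck.F15

open LeafDeck Finset BTree PowerSeries

/-- the coefficients up to the degree `d` are at most those of `exp (a z)` -/
private def Ex (d : ℕ) (g : PowerSeries ℕ) (a : ℕ) : Prop :=
  ∀ i ≤ d, i.factorial * coeff i g ≤ a ^ i

private theorem Ex.mul {d : ℕ} {g h : PowerSeries ℕ} {a a' : ℕ} (hg : Ex d g a) (hh : Ex d h a') :
    Ex d (g * h) (a + a') := by
  intro i hi
  rw [coeff_mul, mul_sum, (Commute.all a a').add_pow']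
  refine sum_le_sum fun p hp => ?_
  have hpi : p.1 + p.2 = i := mem_antidiagonal.1 hp
  have h1 := hg p.1 (by omega)
  have h2 := hh p.2 (by omega)
  have h3 : i.choose p.1 * p.1.factorial * p.2.factorial = i.factorial := by
    subst hpi
    have := Nat.add_choose_mul_factorial_mul_factorial p.1 p.2
    rw [← this]
    congr 2
    exact Nat.choose_symm_add
  calc i.factorial * (coeff p.1 g * coeff p.2 h)
      = i.choose p.1 * ((p.1.factorial * coeff p.1 g) * (p.2.factorial * coeff p.2 h)) := by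
        rw [← h3]
        ring
    _ ≤ i.choose p.1 * (a ^ p.1 * a' ^ p.2) :=
        Nat.mul_le_mul_left _ (Nat.mul_le_mul h1 h2)
    _ = _ := by rw [smul_eq_mul]

private theorem Ex.pow {d : ℕ} {g : PowerSeries ℕ} {a : ℕ} (hg : Ex d g a) (K : ℕ) :
    Ex d (g ^ K) (K * a) := by
  induction K with
  | zero =>
    intro i _
    rw [pow_zero, zero_mul, coeff_one]
    rcases Nat.eq_zero_or_pos i with h | h
    · subst h
      simp
    · rw [if_neg (by omega), mul_zero]
      exact Nat.zero_le _
  | succ K ih =>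
    rw [pow_succ, Nat.succ_mul]
    exact ih.mul hg

private theorem coeff_tt' (i : ℕ) : coeff i tt = if i = 0 then 1 else if i = 1 then 2 else 0 := by
  unfold tt
  rw [map_add, coeff_one]
  have h : (2 : PowerSeries ℕ) = C 2 := by
    rw [map_ofNat]
  rw [h, coeff_C_mul, coeff_X]
  rcases Nat.lt_trichotomy i 1 with h | h | h
  · have : i = 0 := by omega
    subst this
    simp
  · subst h
    simp
  · rw [if_neg (by omega), if_neg (by omega), if_neg (by omega), if_neg (by omega)]
    simp

private theorem ex_tt (d : ℕ) : Ex d tt 2 := by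
  intro i _
  rw [coeff_tt']
  rcases Nat.lt_trichotomy i 1 with h | h | h
  · have : i = 0 := by omega
    subst this
    simp
  · subst h
    simp
  · rw [if_neg (by omega), if_neg (by omega), mul_zero]
    exact Nat.zero_le _

private theorem multi_le (c m : ℕ) : m.factorial * Nat.multichoose c m ≤ (c + m) ^ m := by
  rw [Nat.multichoose_eq, ← Nat.ascFactorial_eq_factorial_mul_choose']
  rcases Nat.eq_zero_or_pos c with h | h
  · subst h
    rcases Nat.eq_zero_or_pos m with h' | h'
    · subst h'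
      simp
    · have : Nat.ascFactorial 0 m = 0 := by
        obtain ⟨m', rfl⟩ : ∃ m', m = m' + 1 := ⟨m - 1, by omega⟩
        exact Nat.zero_ascFactorial m'
      rw [this]
      exact Nat.zero_le _
  · obtain ⟨c', rfl⟩ : ∃ c', c = c' + 1 := ⟨c - 1, by omega⟩
    refine (Nat.ascFactorial_le_pow_add c' m).trans (Nat.pow_le_pow_left ?_ m)
    omega

private theorem ex_uu (d c : ℕ) : Ex d (uu ^ c) (c + d) := by
  intro i hi
  rw [coeff_uu]
  exact (multi_le c i).trans (Nat.pow_le_pow_left (by omega) i)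

private theorem ww_eq : ww = 1 + PowerSeries.X ^ 2 * uu := by
  ext i
  unfold ww uu
  rw [coeff_mk, map_add, coeff_one, coeff_X_pow_mul']
  rcases Nat.lt_trichotomy i 1 with h | h | h
  · have : i = 0 := by omega
    subst this
    simp
  · subst h
    simp
  · rw [if_neg (by omega), if_neg (by omega), if_pos (by omega), coeff_mk]

private theorem coeff_ww (e i : ℕ) : coeff i (ww ^ e) =
    ∑ j ∈ range (e + 1), if 2 * j ≤ i then e.choose j * Nat.multichoose j (i - 2 * j) else 0 := by
  rw [ww_eq, add_comm, add_pow, map_sum]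
  refine sum_congr rfl fun j _ => ?_
  rw [one_pow, mul_one, mul_pow, ← pow_mul]
  have h : ((e.choose j : ℕ) : PowerSeries ℕ) = C (e.choose j) := by
    have := (map_natCast (C (R := ℕ)) (e.choose j)).symm
    rwa [Nat.cast_id] at this
  rw [h, coeff_mul_C, coeff_X_pow_mul']
  by_cases h2 : 2 * j ≤ i
  · rw [if_pos h2, if_pos h2, coeff_uu, mul_comm]
  · rw [if_neg h2, if_neg h2, zero_mul]

private theorem term_le {d e s i j : ℕ} (hs : d * e ≤ s ^ 2) (hi : i ≤ d) (hj : 2 * j ≤ i) :
    i.factorial * (e.choose j * Nat.multichoose j (i - 2 * j)) ≤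
      s ^ (2 * j) * d ^ (i - 2 * j) * i.choose (2 * j) := by
  have h1 : i.choose (2 * j) * (2 * j).factorial * (i - 2 * j).factorial = i.factorial :=
    Nat.choose_mul_factorial_mul_factorial hj
  have h2 : (2 * j).factorial * e.choose j ≤ s ^ (2 * j) := by
    have h3 : (2 * j).factorial = j.factorial * (j + 1).ascFactorial j := by
      rw [Nat.factorial_mul_ascFactorial]
      congr 1
      omega
    have h4 : (j + 1).ascFactorial j ≤ d ^ j :=
      (Nat.ascFactorial_le_pow_add j j).trans (Nat.pow_le_pow_left (by omega) j)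
    have h5 : j.factorial * e.choose j ≤ e ^ j := by
      rw [← Nat.descFactorial_eq_factorial_mul_choose]
      exact Nat.descFactorial_le_pow e j
    calc (2 * j).factorial * e.choose j
        = (j + 1).ascFactorial j * (j.factorial * e.choose j) := by
          rw [h3]
          ring
      _ ≤ d ^ j * e ^ j := Nat.mul_le_mul h4 h5
      _ = (d * e) ^ j := (mul_pow d e j).symm
      _ ≤ (s ^ 2) ^ j := Nat.pow_le_pow_left hs j
      _ = s ^ (2 * j) := (pow_mul s 2 j).symm
  have h6 : (i - 2 * j).factorial * Nat.multichoose j (i - 2 * j) ≤ d ^ (i - 2 * j) :=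
    (multi_le j (i - 2 * j)).trans (Nat.pow_le_pow_left (by omega) _)
  calc i.factorial * (e.choose j * Nat.multichoose j (i - 2 * j))
      = ((2 * j).factorial * e.choose j) *
          ((i - 2 * j).factorial * Nat.multichoose j (i - 2 * j)) * i.choose (2 * j) := by
        rw [← h1]
        ring
    _ ≤ s ^ (2 * j) * d ^ (i - 2 * j) * i.choose (2 * j) :=
        Nat.mul_le_mul_right _ (Nat.mul_le_mul h2 h6)

private theorem ex_ww {d e s : ℕ} (hs : d * e ≤ s ^ 2) : Ex d (ww ^ e) (s + d) := by
  intro i hi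
  rw [coeff_ww, mul_sum, add_pow]
  rw [← sum_filter_add_sum_filter_not (range (e + 1)) (fun j => 2 * j ≤ i)]
  have h0 : ∑ j ∈ (range (e + 1)).filter (fun j => ¬ 2 * j ≤ i), i.factorial *
      (if 2 * j ≤ i then e.choose j * Nat.multichoose j (i - 2 * j) else 0) = 0 := by
    refine sum_eq_zero fun j hj => ?_
    rw [if_neg (mem_filter.1 hj).2, mul_zero]
  rw [h0, add_zero]
  calc ∑ j ∈ (range (e + 1)).filter (fun j => 2 * j ≤ i), i.factorial *
        (if 2 * j ≤ i then e.choose j * Nat.multichoose j (i - 2 * j) else 0)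
      ≤ ∑ j ∈ (range (e + 1)).filter (fun j => 2 * j ≤ i),
          s ^ (2 * j) * d ^ (i - 2 * j) * i.choose (2 * j) := by
        refine sum_le_sum fun j hj => ?_
        have hj' := (mem_filter.1 hj).2
        rw [if_pos hj']
        exact term_le hs hi hj'
    _ = ∑ l ∈ ((range (e + 1)).filter (fun j => 2 * j ≤ i)).image (fun j => 2 * j),
          s ^ l * d ^ (i - l) * i.choose l := by
        rw [sum_image]
        intro a _ b _ hab
        have : 2 * a = 2 * b := hab
        omega
    _ ≤ ∑ l ∈ range (i + 1), s ^ l * d ^ (i - l) * i.choose l := by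
        refine sum_le_sum_of_subset fun l hl => ?_
        obtain ⟨j, hj, rfl⟩ := mem_image.1 hl
        have := (mem_filter.1 hj).2
        exact mem_range.2 (by omega)
    _ = _ := by simp

private theorem coeff_tt_pow (N d : ℕ) : coeff d (tt ^ N) = 2 ^ d * N.choose d := by
  induction N generalizing d with
  | zero =>
    rw [pow_zero, coeff_one]
    rcases Nat.eq_zero_or_pos d with h | h
    · subst h
      simp
    · rw [if_neg (by omega), Nat.choose_eq_zero_of_lt h, mul_zero]
  | succ N ih =>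
    have e : tt ^ (N + 1) = tt ^ N + C 2 * (PowerSeries.X * tt ^ N) := by
      have h : (C 2 : PowerSeries ℕ) = 2 := map_ofNat _ 2
      rw [pow_succ, h]
      conv_lhs => rw [show tt ^ N * tt = tt ^ N * (1 + 2 * PowerSeries.X) from rfl]
      ring
    rw [e, map_add, coeff_C_mul]
    rcases Nat.eq_zero_or_pos d with h | h
    · subst h
      rw [ih, coeff_zero_X_mul]
      simp
    · obtain ⟨d', rfl⟩ : ∃ d', d = d' + 1 := ⟨d - 1, by omega⟩
      rw [coeff_succ_X_mul, ih, ih, Nat.choose_succ_succ, pow_succ]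
      ring

/-- package F15 -/
theorem compare_far15 {K c e x N b d : ℕ} (hd : 1 ≤ d) (hb1 : 1 ≤ b) (hb2 : b ≤ 2)
    (h : 2 * K + c + x = 2 * N + b) (hce : c + e ≤ 6 * x + 4) (hx : 15 * d ≤ x)
    (hN : 15 * d ≤ N) :
    coeff d (tt ^ K * uu ^ c * ww ^ e) < coeff d (tt ^ N * (1 + PowerSeries.X) ^ b) := by
  obtain ⟨y, rfl⟩ : ∃ y, x = 15 * d + y := ⟨x - 15 * d, by omega⟩
  obtain ⟨s, hs⟩ : ∃ s, s + 4 * d + 1 = 15 * d + y := ⟨11 * d + y - 1, by omega⟩
  have hsq : d * e ≤ s ^ 2 := by
    have h1 : d * e ≤ d * (6 * (15 * d + y) + 4) := Nat.mul_le_mul_left _ (by omega)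
    obtain ⟨d', rfl⟩ : ∃ d', d = d' + 1 := ⟨d - 1, by omega⟩
    have hs' : s = 11 * d' + 10 + y := by omega
    rw [hs']
    refine h1.trans ?_
    nlinarith [Nat.zero_le (d' * y), Nat.zero_le (d' * d'), Nat.zero_le (y * y)]
  have hL := (((ex_tt d).pow K).mul (ex_uu d c)).mul (ex_ww hsq) d le_rfl
  have hR : coeff d (tt ^ N) ≤ coeff d (tt ^ N * (1 + PowerSeries.X) ^ b) := by
    rw [coeff_mul]
    have h0 : coeff 0 ((1 + PowerSeries.X : PowerSeries ℕ) ^ b) = 1 := by
      simp
    calc coeff d (tt ^ N) = coeff d (tt ^ N) *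
          coeff 0 ((1 + PowerSeries.X : PowerSeries ℕ) ^ b) := by rw [h0, mul_one]
      _ ≤ _ := single_le_sum (f := fun p : ℕ × ℕ => coeff p.1 (tt ^ N) *
          coeff p.2 ((1 + PowerSeries.X : PowerSeries ℕ) ^ b)) (fun _ _ => Nat.zero_le _)
          (mem_antidiagonal.2 (show (d, 0).1 + (d, 0).2 = d from Nat.add_zero d))
  rw [coeff_tt_pow] at hR
  have hD : (N + 1 - d) ^ d ≤ d.factorial * N.choose d := by
    rw [← Nat.descFactorial_eq_factorial_mul_choose]
    exact Nat.pow_sub_le_descFactorial N d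
  have hlt : (K * 2 + (c + d) + (s + d)) ^ d < (2 * (N + 1 - d)) ^ d := by
    refine Nat.pow_lt_pow_left ?_ (by omega)
    omega
  have hpos := Nat.factorial_pos d
  refine Nat.lt_of_mul_lt_mul_left (a := d.factorial) ?_
  calc d.factorial * coeff d (tt ^ K * uu ^ c * ww ^ e)
      ≤ (K * 2 + (c + d) + (s + d)) ^ d := hL
    _ < (2 * (N + 1 - d)) ^ d := hlt
    _ = 2 ^ d * (N + 1 - d) ^ d := mul_pow _ _ _
    _ ≤ 2 ^ d * (d.factorial * N.choose d) := Nat.mul_le_mul_left _ hD
    _ = d.factorial * (2 ^ d * N.choose d) := by ring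
    _ ≤ _ := Nat.mul_le_mul_left _ hR

end LeafDeck.F15
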