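import Mathlib

/-!
Rooted binary trees up to isomorphism, their leaf-induced subtrees and decks.
-/

set_option autoImplicit false

namespace LeafDeck

/-- rooted binary trees, drawn in the plane: every vertex is a leaf or has exactly two children -/
inductive BTree : Type
  | leaf : BTree
  | node : BTree → BTree → BTree

namespace BTree

/-- the number of leaves -/
def size : BTree → ℕ
  | leaf => 1
  | node l r => size l + size r

/-- the leaves of a tree -/
def Leaves : BTree → Type
  | leaf => Unit
  | node l r => Leaves l ⊕ Leaves r

/-- isomorphism of rooted trees (the order of the two children does not matter) -/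
inductive Iso : BTree → BTree → Prop
  | leaf : Iso leaf leaf
  | node {a b a' b' : BTree} : Iso a a' → Iso b b' → Iso (node a b) (node a' b')
  | swap {a b a' b' : BTree} : Iso a a' → Iso b b' → Iso (node a b) (node b' a')

lemma Iso.refl : ∀ a : BTree, Iso a a
  | .leaf => .leaf
  | .node a b => .node (Iso.refl a) (Iso.refl b)

lemma Iso.symm {a b : BTree} (h : Iso a b) : Iso b a := by
  induction h with
  | leaf => exact .leaf
  | node _ _ h1 h2 => exact .node h1 h2
  | swap _ _ h1 h2 => exact .swap h2 h1

lemma Iso.trans {a b c : BTree} (h : Iso a b) (h' : Iso b c) : Iso a c := by
  induction h generalizing c with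
  | leaf => exact h'
  | node _ _ h1 h2 =>
    cases h' with
    | node k1 k2 => exact .node (h1 k1) (h2 k2)
    | swap k1 k2 => exact .swap (h1 k1) (h2 k2)
  | swap _ _ h1 h2 =>
    cases h' with
    | node k1 k2 => exact .swap (h1 k2) (h2 k1)
    | swap k1 k2 => exact .node (h1 k2) (h2 k1)

/-- isomorphism as an equivalence relation -/
instance setoid : Setoid BTree := ⟨Iso, Iso.refl, Iso.symm, Iso.trans⟩

/-- the join of two results of a restriction: an empty one is dropped, so that a vertex with
exactly one child is suppressed -/
def join : Option BTree → Option BTree → Option BTree
  | none, y => y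
  | some a, none => some a
  | some a, some b => some (node a b)

/-- the restriction of a tree to a set of leaves: the smallest subtree containing them, rooted
at their last common ancestor, with the vertices with one child suppressed (nothing if the set
is empty) -/
def restrict : (T : BTree) → Finset (Leaves T) → Option BTree
  | leaf, S => if S.card = 0 then none else some leaf
  | node l r, S => join (restrict l (Finset.toLeft (α := Leaves l) (β := Leaves r) S))
      (restrict r (Finset.toRight (α := Leaves l) (β := Leaves r) S))

end BTree

/-- rooted binary trees up to isomorphism -/
abbrev TreeClass : Type := Quotient BTree.setoid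

/-- the size-`j` deck: the isomorphism classes of the restrictions to `j`-element leaf sets -/
def deck (T : BTree) (j : ℕ) : Set TreeClass :=
  {u | ∃ S : Finset T.Leaves, S.card = j ∧ ∃ U, T.restrict S = some U ∧ ⟦U⟧ = u}

/-- the largest number of elements of the size-`j` deck of a tree with `n` leaves -/
noncomputable def maxDeck (n j : ℕ) : ℕ :=
  sSup {k | ∃ T : BTree, T.size = n ∧ (deck T j).ncard = k}

/-- the tree with two leaves -/
def cherry : BTree := .node .leaf .leaf

/-- `base r` has `4 + r` leaves: `r` leaves attached one above the other to the balanced tree
with four leaves -/
def base : ℕ → BTree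
  | 0 => .node cherry cherry
  | r + 1 => .node .leaf (base r)

/-- `m` blocks, each consisting of a leaf and, below it, a cherry, attached one above the other to
`base r` -/
def comb (r : ℕ) : ℕ → BTree
  | 0 => base r
  | m + 1 => .node .leaf (.node cherry (comb r m))

/-- the alternating caterpillar with `n` leaves (`n ≥ 4`): going down from the root, a leaf and a
cherry are attached alternately, `(n - 4) / 3` times -/
def altCat (n : ℕ) : BTree := comb ((n - 4) % 3) ((n - 4) / 3)

end LeafDeck
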