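import Pool.Agent.LeafDeck.Token

/-!
Package Q5: the exact numbers of members of the decks of the extremal trees.
-/

set_option autoImplicit false

namespace LeafDeck

open Finset BTree PowerSeries

/-! ### the power series -/

lemma q5_coeff_tt_zero (a : PowerSeries ℕ) : coeff 0 (tt * a) = coeff 0 a := by
  have h : tt * a = a + 2 * (PowerSeries.X * a) := by
    rw [tt]
    ring
  rw [h, map_add, coeff_two_mul, coeff_zero_X_mul]
  rfl

lemma q5_coeff_tt_succ (a : PowerSeries ℕ) (d : ℕ) :
    coeff (d + 1) (tt * a) = coeff (d + 1) a + 2 * coeff d a := by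
  have h : tt * a = a + 2 * (PowerSeries.X * a) := by
    rw [tt]
    ring
  rw [h, map_add, coeff_two_mul, coeff_succ_X_mul]

lemma q5_coeff_tt_pow (N d : ℕ) : coeff d (tt ^ N) = 2 ^ d * N.choose d := by
  induction N generalizing d with
  | zero =>
    rw [pow_zero, coeff_one]
    cases d with
    | zero => simp
    | succ d => simp
  | succ N ih =>
    rw [pow_succ']
    cases d with
    | zero =>
      rw [q5_coeff_tt_zero, ih]
      simp
    | succ d =>
      rw [q5_coeff_tt_succ, ih, ih, Nat.choose_succ_succ]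
      ring

lemma q5_term (b j m d : ℕ) :
    coeff d (PowerSeries.X ^ (3 * j) * tt ^ m * (1 + PowerSeries.X) ^ b) =
      ∑ i ∈ range (b + 1), if 3 * j + i ≤ d then
        b.choose i * 2 ^ (d - 3 * j - i) * m.choose (d - 3 * j - i) else 0 := by
  have h : (1 + PowerSeries.X : PowerSeries ℕ) ^ b =
      ∑ i ∈ range (b + 1), PowerSeries.X ^ i * (b.choose i : PowerSeries ℕ) := by
    rw [add_comm, add_pow]
    refine sum_congr rfl fun i _ => ?_
    rw [one_pow, mul_one]
  rw [h, mul_sum, map_sum]
  refine sum_congr rfl fun i _ => ?_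
  have h2 : (PowerSeries.X : PowerSeries ℕ) ^ (3 * j) * tt ^ m *
      (PowerSeries.X ^ i * (b.choose i : PowerSeries ℕ)) =
      PowerSeries.X ^ (3 * j + i) * ((b.choose i : PowerSeries ℕ) * tt ^ m) := by
    rw [pow_add]
    ring
  have h3 : ∀ (n : ℕ) (a : PowerSeries ℕ) (e : ℕ), coeff e ((n : PowerSeries ℕ) * a) =
      n * coeff e a := by
    intro n a e
    rw [← nsmul_eq_mul, map_nsmul, smul_eq_mul]
  rw [h2, coeff_X_pow_mul', h3, q5_coeff_tt_pow]
  split_ifs with h4
  · rw [Nat.sub_sub, mul_assoc]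
  · rfl

lemma q5_val_eq (b N d : ℕ) : val b N d = ∑ j ∈ range (d / 3 + 1),
    coeff d (PowerSeries.X ^ (3 * j) * tt ^ (N - j) * (1 + PowerSeries.X) ^ b) := by
  rw [val]
  exact sum_congr rfl fun j _ => (q5_term b j (N - j) d).symm

/-- package Q5 (i) -/
theorem coeff_le_val (b N d : ℕ) :
    coeff d (tt ^ N * (1 + PowerSeries.X) ^ b) ≤ val b N d := by
  rw [q5_val_eq]
  have h := single_le_sum (f := fun j =>
    coeff d (PowerSeries.X ^ (3 * j) * tt ^ (N - j) * (1 + PowerSeries.X) ^ b : PowerSeries ℕ))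
    (fun _ _ => Nat.zero_le _) (mem_range.2 (Nat.succ_pos (d / 3)))
  simpa using h

/-- the generating function of the exact numbers -/
noncomputable def q5V (b N : ℕ) : PowerSeries ℕ :=
  ∑ j ∈ range (N + 1), PowerSeries.X ^ (3 * j) * tt ^ (N - j) * (1 + PowerSeries.X) ^ b

lemma q5V_zero (b : ℕ) : q5V b 0 = (1 + PowerSeries.X) ^ b := by
  simp [q5V]

lemma q5V_succ (b N : ℕ) : q5V b (N + 1) =
    tt * q5V b N + PowerSeries.X ^ (3 * N + 3) * (1 + PowerSeries.X) ^ b := by
  rw [q5V, sum_range_succ, q5V, mul_sum]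
  congr 1
  · refine sum_congr rfl fun j hj => ?_
    have hj' : j ≤ N := Nat.lt_succ_iff.1 (mem_range.1 hj)
    rw [show N + 1 - j = (N - j) + 1 by omega, pow_succ]
    ring
  · rw [Nat.sub_self, pow_zero, mul_one]
    rfl

lemma q5_val_coeff (b N d : ℕ) (hd : d ≤ 3 * N + 2) : val b N d = coeff d (q5V b N) := by
  rw [q5_val_eq, q5V, map_sum]
  refine sum_subset (fun j hj => ?_) fun j _ hj => ?_
  · rw [mem_range] at hj ⊢
    omega
  · have h : ¬ 3 * j ≤ d := by
      intro h
      exact hj (mem_range.2 (by omega))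
    rw [mul_assoc, coeff_X_pow_mul', if_neg h]

lemma q5_coeff_last (b N d : ℕ) : coeff d (PowerSeries.X ^ (3 * N + 3) *
    (1 + PowerSeries.X : PowerSeries ℕ) ^ b) =
      if 3 * N + 3 ≤ d then b.choose (d - (3 * N + 3)) else 0 := by
  rw [coeff_X_pow_mul']
  split_ifs with h
  · have h1 : (1 + PowerSeries.X : PowerSeries ℕ) ^ b =
        ((1 + Polynomial.X : Polynomial ℕ) ^ b : Polynomial ℕ) := by simp
    rw [h1, Polynomial.coeff_coe, Polynomial.coeff_one_add_X_pow]
    simp
  · rfl

lemma q5V_coeff_zero (b N : ℕ) : coeff 0 (q5V b (N + 1)) = coeff 0 (q5V b N) := by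
  rw [q5V_succ, map_add, q5_coeff_tt_zero, q5_coeff_last, if_neg (by omega), add_zero]

lemma q5V_coeff_succ (b N d : ℕ) : coeff (d + 1) (q5V b (N + 1)) =
    coeff (d + 1) (q5V b N) + 2 * coeff d (q5V b N) +
      if 3 * N + 3 ≤ d + 1 then b.choose (d + 1 - (3 * N + 3)) else 0 := by
  rw [q5V_succ, map_add, q5_coeff_tt_succ, q5_coeff_last]

lemma q5V_top (b N : ℕ) : coeff (3 * N + b) (q5V b N) = 1 ∧
    ∀ d, 3 * N + b < d → coeff d (q5V b N) = 0 := by
  induction N with
  | zero =>
    have h : ∀ d, coeff d (q5V b 0) = b.choose d := by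
      intro d
      have h1 : (1 + PowerSeries.X : PowerSeries ℕ) ^ b =
          ((1 + Polynomial.X : Polynomial ℕ) ^ b : Polynomial ℕ) := by simp
      rw [q5V_zero, h1, Polynomial.coeff_coe, Polynomial.coeff_one_add_X_pow]
      simp
    refine ⟨by rw [h]; simp, fun d hd => by rw [h]; exact Nat.choose_eq_zero_of_lt (by omega)⟩
  | succ N ih =>
    obtain ⟨h1, h2⟩ := ih
    constructor
    · rw [show 3 * (N + 1) + b = (3 * N + b + 2) + 1 by ring, q5V_coeff_succ,
        h2 _ (by omega), h2 _ (by omega), if_pos (by omega),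
        show 3 * N + b + 2 + 1 - (3 * N + 3) = b by omega, Nat.choose_self]
    · intro d hd
      obtain ⟨e, rfl⟩ : ∃ e, d = e + 1 := ⟨d - 1, by omega⟩
      rw [q5V_coeff_succ, h2 _ (by omega), h2 _ (by omega), if_pos (by omega),
        Nat.choose_eq_zero_of_lt (by omega)]

/-! ### trees with few leaves -/

lemma q5_nonempty (T : BTree) : ∀ d, d ≤ T.size → (fam T d).Nonempty := by
  induction T with
  | leaf =>
    intro d hd
    have hs : (BTree.leaf).size = 1 := rfl
    rcases Nat.lt_or_ge d 1 with h | h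
    · have : d = 0 := by omega
      subst this
      exact ⟨_, self_mem_fam _⟩
    · have : d = 1 := by omega
      subst this
      exact ⟨none, mem_fam_leaf.2 (Or.inr ⟨rfl, rfl⟩)⟩
  | node l r ihl ihr =>
    intro d hd
    have hs : (BTree.node l r).size = l.size + r.size := rfl
    obtain ⟨a, ha⟩ := ihl (min d l.size) (min_le_right _ _)
    obtain ⟨b, hb⟩ := ihr (d - min d l.size) (by omega)
    exact ⟨_, mem_fam_node.2 ⟨min d l.size, d - min d l.size, by omega, a, ha, b, hb, rfl⟩⟩

lemma q5_small {T : BTree} {d : ℕ} (h : T.size ≤ d + 3) (h' : d ≤ T.size) :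
    (fam T d).card = 1 :=
  le_antisymm (small_fam h) (card_pos.2 (q5_nonempty T d h'))

lemma q5_four {T : BTree} (h : T.size = 4) :
    Iso T (.node .leaf cat3) ∨ Iso T (.node cherry cherry) := by
  cases T with
  | leaf => exact absurd h (by decide)
  | node a b =>
    have ha := size_pos a
    have hb := size_pos b
    have hs : a.size + b.size = 4 := h
    rcases (by omega : a.size = 1 ∨ a.size = 2 ∨ a.size = 3) with h1 | h1 | h1
    · left
      rw [eq_leaf_of_size (T := a) (by omega)]
      exact Iso.node (Iso.refl _) (iso_cat3 (by omega))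
    · right
      rw [eq_cherry h1, eq_cherry (T := b) (by omega)]
      exact Iso.refl _
    · left
      rw [eq_leaf_of_size (T := b) (by omega)]
      exact Iso.swap (iso_cat3 h1) (Iso.refl _)

lemma q5_card_four {T : BTree} {d : ℕ} (h : T.size = d + 4) : (fam T d).card ≤ 2 := by
  classical
  have h1 : fam T d ⊆ {some ⟦.node .leaf cat3⟧, some ⟦.node cherry cherry⟧} := by
    intro o ho
    have h2 := fam_qsize ho
    cases o with
    | none =>
      rw [qsize_none] at h2
      omega
    | some x =>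
      induction x using Quotient.inductionOn with
      | h s =>
      rw [qsize_some, csize_mk] at h2
      rcases q5_four (T := s) (by omega) with h3 | h3
      · have h4 : (⟦s⟧ : TreeClass) = ⟦.node .leaf cat3⟧ := Quotient.sound h3
        rw [h4]
        simp
      · have h4 : (⟦s⟧ : TreeClass) = ⟦.node cherry cherry⟧ := Quotient.sound h3
        rw [h4]
        simp
  exact (card_le_card h1).trans card_le_two

/-! ### blocks and cherries: lower bounds -/

lemma q5_mem1 {P : BTree} {d : ℕ} {p : Option TreeClass} (hp : p ∈ fam P d) :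
    joinQ (some leafQ) (joinQ (some ⟦cherry⟧) p) ∈ fam (.node .leaf (.node cherry P)) d :=
  mem_fam_node.2 ⟨0, d, by omega, some leafQ, mem_fam_leaf.2 (Or.inl ⟨rfl, rfl⟩), _,
    mem_fam_node.2 ⟨0, d, by omega, _, self_mem_fam _, p, hp, rfl⟩, rfl⟩

lemma q5_mem2 {P : BTree} {d : ℕ} {p : Option TreeClass} (hp : p ∈ fam P d) :
    joinQ (some leafQ) (joinQ (some leafQ) p) ∈ fam (.node .leaf (.node cherry P)) (d + 1) :=
  mem_fam_node.2 ⟨0, d + 1, by omega, some leafQ, mem_fam_leaf.2 (Or.inl ⟨rfl, rfl⟩), _,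
    mem_fam_node.2 ⟨1, d, by omega, some leafQ, leafQ_mem_cherry, p, hp, rfl⟩, rfl⟩

lemma q5_mem3 {P : BTree} {d : ℕ} {p : Option TreeClass} (hp : p ∈ fam P d) :
    joinQ (some ⟦cherry⟧) p ∈ fam (.node .leaf (.node cherry P)) (d + 1) :=
  mem_fam_node.2 ⟨1, d, by omega, none, mem_fam_leaf.2 (Or.inr ⟨rfl, rfl⟩), _,
    mem_fam_node.2 ⟨0, d, by omega, _, self_mem_fam _, p, hp, rfl⟩, joinQ_none_left _⟩

lemma q5_ne {x y : Option TreeClass} (hx : 2 ≤ qsize x) :
    joinQ (some ⟦cherry⟧) x ≠ joinQ (some leafQ) y := by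
  intro h
  have hc : cherry.size = 2 := rfl
  have h0 := congrArg qsize h
  rw [qsize_joinQ, qsize_joinQ, qsize_some, qsize_some, csize_mk, csize_leafQ, hc] at h0
  exact t3_ne (a := some leafQ) (b := y) (c := some ⟦cherry⟧) (e := x) (by simp) (by omega)
    (by simp [hc]) (by omega) (by simp [hc]) (by simp; omega) h.symm

lemma q5_low_token {P : BTree} {d : ℕ} (hd : d + 3 ≤ P.size) :
    (fam P (d + 1)).card + 2 * (fam P d).card ≤
      (fam (.node .leaf (.node cherry P)) (d + 1)).card := by
  classical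
  set A1 := (fam P (d + 1)).image fun p => joinQ (some leafQ) (joinQ (some ⟦cherry⟧) p) with hA1
  set A2 := (fam P d).image fun p => joinQ (some leafQ) (joinQ (some leafQ) p) with hA2
  set A3 := (fam P d).image fun p => joinQ (some ⟦cherry⟧) p with hA3
  have c1 : A1.card = (fam P (d + 1)).card := by
    refine card_image_of_injective _ fun a b h => ?_
    exact t3_inj ⟦cherry⟧ (t3_inj leafQ h)
  have c2 : A2.card = (fam P d).card := by
    refine card_image_of_injective _ fun a b h => ?_
    exact t3_inj leafQ (t3_inj leafQ h)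
  have c3 : A3.card = (fam P d).card := card_image_of_injective _ (t3_inj _)
  have d12 : Disjoint A1 A2 := by
    rw [Finset.disjoint_left]
    intro o h1 h2
    obtain ⟨p, hp, rfl⟩ := mem_image.1 h1
    obtain ⟨q, hq, h3⟩ := mem_image.1 h2
    have hs := fam_qsize hp
    exact q5_ne (by omega) (t3_inj leafQ h3).symm
  have d123 : Disjoint (A1 ∪ A2) A3 := by
    rw [Finset.disjoint_left]
    intro o h1 h2
    obtain ⟨q, hq, rfl⟩ := mem_image.1 h2
    have hs := fam_qsize hq
    rcases mem_union.1 h1 with h1 | h1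
    · obtain ⟨p, hp, h3⟩ := mem_image.1 h1
      exact q5_ne (by omega) h3.symm
    · obtain ⟨p, hp, h3⟩ := mem_image.1 h1
      exact q5_ne (by omega) h3.symm
  have hsub : (A1 ∪ A2) ∪ A3 ⊆ fam (.node .leaf (.node cherry P)) (d + 1) := by
    intro o ho
    rcases mem_union.1 ho with ho | ho
    · rcases mem_union.1 ho with ho | ho
      · obtain ⟨p, hp, rfl⟩ := mem_image.1 ho
        exact q5_mem1 hp
      · obtain ⟨p, hp, rfl⟩ := mem_image.1 ho
        exact q5_mem2 hp
    · obtain ⟨p, hp, rfl⟩ := mem_image.1 ho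
      exact q5_mem3 hp
  have h := card_le_card hsub
  rw [card_union_of_disjoint d123, card_union_of_disjoint d12, c1, c2, c3] at h
  omega

lemma q5_low_cherry {P : BTree} {d : ℕ} (hd : d + 3 ≤ P.size) :
    (fam P (d + 1)).card + (fam P d).card ≤ (fam (.node cherry P) (d + 1)).card := by
  classical
  set A1 := (fam P (d + 1)).image fun p => joinQ (some ⟦cherry⟧) p with hA1
  set A2 := (fam P d).image fun p => joinQ (some leafQ) p with hA2
  have c1 : A1.card = (fam P (d + 1)).card := card_image_of_injective _ (t3_inj _)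
  have c2 : A2.card = (fam P d).card := card_image_of_injective _ (t3_inj _)
  have d12 : Disjoint A1 A2 := by
    rw [Finset.disjoint_left]
    intro o h1 h2
    obtain ⟨p, hp, rfl⟩ := mem_image.1 h1
    obtain ⟨q, hq, h3⟩ := mem_image.1 h2
    have hs := fam_qsize hp
    exact q5_ne (by omega) h3.symm
  have hsub : A1 ∪ A2 ⊆ fam (.node cherry P) (d + 1) := by
    intro o ho
    rcases mem_union.1 ho with ho | ho
    · obtain ⟨p, hp, rfl⟩ := mem_image.1 ho
      exact mem_fam_node.2 ⟨0, d + 1, by omega, _, self_mem_fam _, p, hp, rfl⟩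
    · obtain ⟨p, hp, rfl⟩ := mem_image.1 ho
      exact mem_fam_node.2 ⟨1, d, by omega, some leafQ, leafQ_mem_cherry, p, hp, rfl⟩
  have h := card_le_card hsub
  rw [card_union_of_disjoint d12, c1, c2] at h
  omega

/-! ### the large classes -/

lemma q5_bb_small {T : BTree} (h : T.size ≤ 5) : bb T = 0 := by
  classical
  ext d
  have h1 : bam T d = ∅ := by
    rw [Finset.eq_empty_iff_forall_notMem]
    intro o ho
    rw [bam, mem_filter] at ho
    obtain ⟨h2, x, y, hx, hy, rfl⟩ := ho
    have h3 := fam_qsize h2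
    rw [qsize_some, csize_nodeQ] at h3
    omega
  rw [bb, coeff_mk, h1]
  rfl

lemma q5_bb_of_le {a : PowerSeries ℕ} (h : Cle a 0) : a = 0 := by
  ext d
  have := h d
  simpa using this

lemma q5_bb_token {P : BTree} (hP : 2 ≤ P.size) (h : bb P = 0) :
    bb (.node .leaf (.node cherry P)) = 0 := by
  have h1 := token_bb hP
  rw [h, mul_zero] at h1
  exact q5_bb_of_le h1

lemma q5_bb_cherry {P : BTree} (hP : 2 ≤ P.size) (h : bb P = 0) :
    bb (.node cherry P) = 0 := by
  have h1 := cherry_bb hP
  rw [h, mul_zero] at h1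
  exact q5_bb_of_le h1

lemma q5_bb_alt {Z : BTree} (hZ : 2 ≤ Z.size) (h : bb Z = 0) (k : ℕ) : bb (alt k Z) = 0 := by
  induction k with
  | zero => exact h
  | succ k ih => exact q5_bb_token (by rw [size_alt]; omega) ih

/-! ### one block -/

lemma q5_token {P : BTree} {d : ℕ} (hb : bb P = 0) (hd : d + 3 ≤ P.size) :
    (fam (.node .leaf (.node cherry P)) (d + 1)).card =
      (fam P (d + 1)).card + 2 * (fam P d).card := by
  refine le_antisymm ?_ (q5_low_token hd)
  have h := token_upper (P := P) (by omega) (d := d + 1) (by omega)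
  rw [hb, mul_zero, add_zero, q5_coeff_tt_succ, coeff_ff, coeff_ff, coeff_ff] at h
  exact h

lemma q5_cherry {P : BTree} {d : ℕ} (hb : bb P = 0) (hd : d + 3 ≤ P.size) :
    (fam (.node cherry P) (d + 1)).card = (fam P (d + 1)).card + (fam P d).card := by
  refine le_antisymm ?_ (q5_low_cherry hd)
  have h := cherry_upper (P := P) (by omega) (d := d + 1) (by omega)
  rw [hb, mul_zero, add_zero, add_mul, one_mul, map_add, coeff_succ_X_mul, coeff_ff, coeff_ff,
    coeff_ff] at h
  exact h

/-- four leaves are left -/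
lemma q5_token_four {P : BTree} {n : ℕ} (hP : P.size = n + 2) :
    (fam (.node .leaf (.node cherry P)) (n + 1)).card = 2 := by
  classical
  have hs : (BTree.node .leaf (.node cherry P)).size = 1 + (2 + P.size) := rfl
  refine le_antisymm (q5_card_four (by omega)) ?_
  obtain ⟨p, hp⟩ := q5_nonempty P n (by omega)
  obtain ⟨q, hq⟩ := q5_nonempty P (n + 1) (by omega)
  have hps := fam_qsize hp
  have h1 := q5_mem3 hp
  have h2 := q5_mem1 hq
  have h3 : joinQ (some ⟦cherry⟧) p ≠ joinQ (some leafQ) (joinQ (some ⟦cherry⟧) q) :=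
    q5_ne (by omega)
  exact one_lt_card.2 ⟨_, h1, _, h2, h3⟩

lemma q5_step1 {P : BTree} {N : ℕ} (hP : P.size = 3 * N + 3) (hb : bb P = 0)
    (h : ∀ d ≤ 3 * N + 1, (fam P d).card = coeff d (q5V 1 N)) :
    ∀ d ≤ 3 * (N + 1) + 1, (fam (.node .leaf (.node cherry P)) d).card =
      coeff d (q5V 1 (N + 1)) := by
  intro d hd
  have hs : (BTree.node .leaf (.node cherry P)).size = 1 + (2 + P.size) := rfl
  obtain ⟨ht, hz⟩ := q5V_top 1 N
  cases d with
  | zero => rw [card_zero, q5V_coeff_zero, ← h 0 (by omega), card_zero]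
  | succ d =>
    rw [q5V_coeff_succ]
    rcases (by omega : d ≤ 3 * N ∨ d = 3 * N + 1 ∨ d = 3 * N + 2 ∨ d = 3 * N + 3) with
      h1 | rfl | rfl | rfl
    · rw [q5_token hb (by omega), h _ (by omega), h _ (by omega), if_neg (by omega), add_zero]
    · rw [q5_token_four (by omega), hz _ (by omega), ht, if_neg (by omega)]
    · rw [q5_small (by omega) (by omega), hz _ (by omega), hz _ (by omega), if_pos (by omega),
        show 3 * N + 2 + 1 - (3 * N + 3) = 0 by omega]
      simp
    · rw [q5_small (by omega) (by omega), hz _ (by omega), hz _ (by omega), if_pos (by omega),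
        show 3 * N + 3 + 1 - (3 * N + 3) = 1 by omega]
      simp

lemma q5_step2 {P : BTree} {N : ℕ} (hP : P.size = 3 * N + 5) (hb : bb P = 0)
    (h : ∀ d ≤ 3 * N + 2, (fam P d).card = coeff d (q5V 2 N)) :
    ∀ d ≤ 3 * (N + 1) + 2, (fam (.node .leaf (.node cherry P)) d).card =
      coeff d (q5V 2 (N + 1)) := by
  intro d hd
  have hs : (BTree.node .leaf (.node cherry P)).size = 1 + (2 + P.size) := rfl
  obtain ⟨ht, hz⟩ := q5V_top 2 N
  cases d with
  | zero => rw [card_zero, q5V_coeff_zero, ← h 0 (by omega), card_zero]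
  | succ d =>
    rw [q5V_coeff_succ]
    rcases (by omega : d ≤ 3 * N + 1 ∨ d = 3 * N + 2 ∨ d = 3 * N + 3 ∨ d = 3 * N + 4) with
      h1 | rfl | rfl | rfl
    · rw [q5_token hb (by omega), h _ (by omega), h _ (by omega), if_neg (by omega), add_zero]
    · rw [q5_token hb (by omega), h _ le_rfl, q5_small (T := P) (by omega) (by omega),
        hz (3 * N + 2 + 1) (by omega), ht, if_pos (by omega),
        show 3 * N + 2 + 1 - (3 * N + 3) = 0 by omega]
      simp
    · rw [q5_token_four (by omega), hz _ (by omega), hz _ (by omega), if_pos (by omega),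
        show 3 * N + 3 + 1 - (3 * N + 3) = 1 by omega]
      simp
    · rw [q5_small (by omega) (by omega), hz _ (by omega), hz _ (by omega), if_pos (by omega),
        show 3 * N + 4 + 1 - (3 * N + 3) = 2 by omega]
      simp

/-! ### the three families -/

lemma q5_alt (k : ℕ) : ∀ d ≤ 3 * k + 1, (fam (alt k cat3) d).card = coeff d (q5V 1 k) := by
  have hc : cat3.size = 3 := rfl
  induction k with
  | zero =>
    intro d hd
    rcases (by omega : d = 0 ∨ d = 1) with rfl | rfl
    · rw [card_zero, q5V_zero]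
      simp
    · show (fam cat3 1).card = _
      rw [f1_cat3]
      exact (q5V_top 1 0).1.symm
  | succ k ih =>
    exact q5_step1 (by rw [size_alt, hc]) (q5_bb_alt (by omega) (q5_bb_small (by omega)) k) ih

/-- package Q5 (ii) -/
theorem card_alt (k d : ℕ) (hd : d ≤ 3 * k + 1) : (fam (alt k cat3) d).card = val 1 k d := by
  rw [q5_alt k d hd, q5_val_coeff 1 k d (by omega)]

lemma q5_V_two (N d : ℕ) : coeff (d + 1) (q5V 2 N) =
    coeff (d + 1) (q5V 1 N) + coeff d (q5V 1 N) := by
  have h : q5V 2 N = q5V 1 N + PowerSeries.X * q5V 1 N := by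
    rw [q5V, q5V, mul_sum, ← sum_add_distrib]
    refine sum_congr rfl fun j _ => ?_
    ring
  rw [h, map_add, coeff_succ_X_mul]

lemma q5_cher_base (j : ℕ) : ∀ d ≤ 3 * j + 2, (fam (.node cherry (alt j cat3)) d).card =
    coeff d (q5V 2 j) := by
  intro d hd
  have hc : cat3.size = 3 := rfl
  have hs : (BTree.node cherry (alt j cat3)).size = 2 + (alt j cat3).size := rfl
  rw [size_alt, hc] at hs
  have hbb := q5_bb_alt (Z := cat3) (by omega) (q5_bb_small (by omega)) j
  obtain ⟨ht, hz⟩ := q5V_top 1 j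
  cases d with
  | zero =>
    have h : coeff 0 (q5V 2 j) = 1 := by
      clear hs hbb ht hz hd
      induction j with
      | zero => simp [q5V_zero]
      | succ j ih => rw [q5V_coeff_zero, ih]
    rw [card_zero, h]
  | succ d =>
    rw [q5_V_two]
    rcases (by omega : d ≤ 3 * j ∨ d = 3 * j + 1) with h1 | rfl
    · rw [q5_cherry hbb (by rw [size_alt, hc]; omega), q5_alt j _ (by omega),
        q5_alt j _ (by omega)]
    · rw [q5_small (by omega) (by omega), ht, hz _ (by omega)]

lemma q5_cher (i j : ℕ) : ∀ d ≤ 3 * (i + j) + 2,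
    (fam (alt i (.node cherry (alt j cat3))) d).card = coeff d (q5V 2 (i + j)) := by
  have hc : cat3.size = 3 := rfl
  have hs : (BTree.node cherry (alt j cat3)).size = 2 + (alt j cat3).size := rfl
  rw [size_alt, hc] at hs
  have hbb := q5_bb_cherry (P := alt j cat3) (by rw [size_alt, hc]; omega)
    (q5_bb_alt (Z := cat3) (by omega) (q5_bb_small (by omega)) j)
  induction i with
  | zero =>
    rw [Nat.zero_add]
    exact q5_cher_base j
  | succ i ih =>
    rw [show i + 1 + j = (i + j) + 1 by ring]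
    exact q5_step2 (by rw [size_alt, hs]; ring) (q5_bb_alt (by omega) hbb i) ih

/-- package Q5 (iii) -/
theorem card_cher (i j d : ℕ) (hd : d ≤ 3 * (i + j) + 2) :
    (fam (alt i (.node cherry (alt j cat3))) d).card = val 2 (i + j) d := by
  rw [q5_cher i j d hd, q5_val_coeff 2 (i + j) d (by omega)]

lemma q5_base (i : ℕ) : ∀ d ≤ 3 * i + 2,
    (fam (alt i (.node .leaf (.node cherry cherry))) d).card = coeff d (q5V 2 i) := by
  have hs : (BTree.node .leaf (.node cherry cherry)).size = 5 := rfl
  induction i with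
  | zero =>
    intro d hd
    obtain ⟨ht, hz⟩ := q5V_top 2 0
    rcases (by omega : d = 0 ∨ d = 1 ∨ d = 2) with rfl | rfl | rfl
    · rw [card_zero, q5V_zero]
      simp
    · show (fam (.node .leaf (.node cherry cherry)) (0 + 1)).card = coeff (0 + 1) _
      rw [q5_token_four (P := cherry) rfl, q5_V_two, q5V_zero, pow_one, map_add, map_add]
      simp [coeff_one, coeff_X]
    · show (fam (.node .leaf (.node cherry cherry)) 2).card = _
      rw [q5_small (by omega) (by omega)]
      exact ht.symm
  | succ i ih =>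
    exact q5_step2 (by rw [size_alt, hs]) (q5_bb_alt (by omega) (q5_bb_small (by omega)) i) ih

/-- package Q5 (iv) -/
theorem card_base (i d : ℕ) (hd : d ≤ 3 * i + 2) :
    (fam (alt i (.node .leaf (.node cherry cherry))) d).card = val 2 i d := by
  rw [q5_base i d hd, q5_val_coeff 2 i d (by omega)]

end LeafDeck
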