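import Pool.Agent.LeafDeck.OneDefs

/-!
The exact solution for few deleted leaves, `n = 3 N + 4`: the comparisons `compare_five` and
`compare_bottom` (package S5, helper30).
-/

set_option autoImplicit false

namespace LeafDeck

open Finset BTree PowerSeries

namespace S5

/-- the coefficients up to `D` grow at least by the factor `r + 1` -/
def GrS (r D : ℕ) (F : PowerSeries ℕ) : Prop :=
  ∀ j, j + 1 ≤ D → (r + 1) * coeff j F ≤ coeff (j + 1) F

theorem GrS.mul {r D : ℕ} {F : PowerSeries ℕ} (h : GrS r D F) (K : PowerSeries ℕ) :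
    GrS r D (F * K) := by
  intro j hj
  rw [coeff_mul, coeff_mul, Finset.Nat.antidiagonal_succ, Finset.sum_cons, Finset.sum_map,
    Finset.mul_sum]
  refine le_trans (Finset.sum_le_sum fun p hp => ?_) (Nat.le_add_left _ _)
  have hp' := Finset.HasAntidiagonal.mem_antidiagonal.1 hp
  rw [← mul_assoc]
  exact Nat.mul_le_mul_right _ (h _ (by omega))

theorem GrS.sum {r D : ℕ} {F : PowerSeries ℕ} (h : GrS r D F) (j : ℕ) (hj : j ≤ D) :
    r * ∑ i ∈ Finset.range j, coeff i F ≤ coeff j F := by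
  induction j with
  | zero => simp
  | succ j ih =>
    rw [Finset.sum_range_succ, mul_add]
    have h1 := ih (by omega)
    have h2 := h j (by omega)
    have h3 : (r + 1) * coeff j F = r * coeff j F + coeff j F := by ring
    omega

theorem coeff_mul_uu (F : PowerSeries ℕ) (j : ℕ) :
    coeff j (F * uu) = ∑ i ∈ Finset.range (j + 1), coeff i F := by
  rw [coeff_mul, Finset.Nat.sum_antidiagonal_eq_sum_range_succ_mk]
  refine Finset.sum_congr rfl fun i _ => ?_
  simp [uu]

theorem GrS.mul_uu {r D : ℕ} {F : PowerSeries ℕ} (h : GrS r D F) (j : ℕ) (hj : j ≤ D) :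
    r * coeff j (F * uu) ≤ (r + 1) * coeff j F := by
  rw [coeff_mul_uu, Finset.sum_range_succ, mul_add]
  have h1 := h.sum j hj
  have h3 : (r + 1) * coeff j F = r * coeff j F + coeff j F := by ring
  omega

theorem coeff_tt_pow (m j : ℕ) : coeff j (tt ^ m) = 2 ^ j * m.choose j := by
  induction m generalizing j with
  | zero =>
    rw [pow_zero, coeff_one]
    cases j <;> simp
  | succ m ih =>
    have : tt ^ (m + 1) = tt ^ m + (tt ^ m * PowerSeries.X + tt ^ m * PowerSeries.X) := by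
      rw [pow_succ]
      conv_lhs => rw [show tt = 1 + 2 * PowerSeries.X from rfl]
      conv_rhs => rw [show tt = 1 + 2 * PowerSeries.X from rfl]
      ring
    rw [this, map_add, map_add]
    cases j with
    | zero => rw [coeff_zero_mul_X, ih]; simp
    | succ j =>
      rw [coeff_succ_mul_X, ih, ih, Nat.choose_succ_succ]
      ring

theorem grS_tt {r D m : ℕ} (h : ∀ j, j + 1 ≤ D → (r + 1) * (j + 1) ≤ 2 * (m - j)) :
    GrS r D (tt ^ m) := by
  intro j hj
  rw [coeff_tt_pow, coeff_tt_pow]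
  have h1 := Nat.choose_succ_right_eq m j
  have h3 : (r + 1) * (2 ^ j * m.choose j) * (j + 1) ≤
      2 ^ (j + 1) * m.choose (j + 1) * (j + 1) := by
    calc (r + 1) * (2 ^ j * m.choose j) * (j + 1)
        = 2 ^ j * m.choose j * ((r + 1) * (j + 1)) := by ring
      _ ≤ 2 ^ j * m.choose j * (2 * (m - j)) := Nat.mul_le_mul_left _ (h j hj)
      _ = 2 ^ (j + 1) * (m.choose j * (m - j)) := by ring
      _ = 2 ^ (j + 1) * m.choose (j + 1) * (j + 1) := by rw [← h1]; ring
  exact Nat.le_of_mul_le_mul_right h3 (Nat.succ_pos j)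

theorem coeff_tt_pos {m j : ℕ} (h : j ≤ m) : 0 < coeff j (tt ^ m) := by
  rw [coeff_tt_pow]
  exact Nat.mul_pos (by positivity) (Nat.choose_pos h)

theorem VV_first {N : ℕ} (hN : 1 ≤ N) : ∃ R : PowerSeries ℕ,
    VV N = tt ^ (N - 1) * ((1 + PowerSeries.X) * (1 + 2 * PowerSeries.X + 2 * PowerSeries.X ^ 2)) +
      R := by
  obtain ⟨M, rfl⟩ : ∃ M, N = M + 1 := ⟨N - 1, by omega⟩
  unfold VV
  rw [Finset.sum_range_succ', add_comm]
  have h : PowerSeries.X ^ (3 * 0) * tt ^ (M + 1 - 1 - 0) *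
      ((1 + PowerSeries.X) * (1 + 2 * PowerSeries.X + 2 * PowerSeries.X ^ 2) +
        ((0 : ℕ) : PowerSeries ℕ) * (1 + PowerSeries.X) ^ 2) =
      tt ^ (M + 1 - 1) *
        ((1 + PowerSeries.X) * (1 + 2 * PowerSeries.X + 2 * PowerSeries.X ^ 2)) := by
    simp
  rw [h]
  exact ⟨_, rfl⟩

end S5

open S5 in
theorem compare_five {N d : ℕ} (hd : 2 ≤ d) (hN : 15 * d ≤ N) :
    coeff d (tt ^ (N - 1) * (1 + 3 * PowerSeries.X + 3 * PowerSeries.X ^ 2 +
      20 * PowerSeries.X ^ 3 * uu ^ 3)) < coeff d (VV N) := by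
  obtain ⟨R, hR⟩ := VV_first (N := N) (by omega)
  obtain ⟨e, rfl⟩ : ∃ e, d = e + 2 := ⟨d - 2, by omega⟩
  set F := tt ^ (N - 1) with hF
  have h1 : F * ((1 + PowerSeries.X) * (1 + 2 * PowerSeries.X + 2 * PowerSeries.X ^ 2)) =
      F * (1 + 3 * PowerSeries.X + 3 * PowerSeries.X ^ 2) + PowerSeries.X ^ 2 * F +
        2 * PowerSeries.X ^ 3 * F := by ring
  have h2 : F * (1 + 3 * PowerSeries.X + 3 * PowerSeries.X ^ 2 +
      20 * PowerSeries.X ^ 3 * uu ^ 3) = F * (1 + 3 * PowerSeries.X + 3 * PowerSeries.X ^ 2) +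
        PowerSeries.X ^ 2 * (PowerSeries.C 20 * (PowerSeries.X * (F * uu * uu * uu))) := by
    have : (PowerSeries.C 20 : PowerSeries ℕ) = 20 := by simp
    rw [this]; ring
  rw [hR, h1, h2, map_add, map_add, map_add, map_add, coeff_X_pow_mul, coeff_X_pow_mul,
    coeff_C_mul]
  have hg : GrS 27 (e + 1) F := grS_tt fun j hj => by omega
  have h0 : 0 < coeff e F := coeff_tt_pos (by omega)
  have h3 : 20 * coeff e (PowerSeries.X * (F * uu * uu * uu)) < coeff e F := by
    cases e with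
    | zero => rw [coeff_zero_X_mul]; omega
    | succ e =>
      rw [coeff_succ_X_mul]
      have a1 := hg.mul_uu e (by omega)
      have a2 := (hg.mul uu).mul_uu e (by omega)
      have a3 := ((hg.mul uu).mul uu).mul_uu e (by omega)
      have a4 := hg e (by omega)
      omega
  omega

open S5 in
theorem compare_bottom {i j d : ℕ} (h1 : 3 * j + 1 ≤ d) (h2 : 10 * d ≤ i) :
    coeff d (3 * (tt ^ i * PowerSeries.X ^ (3 * j + 2) * uu)) <
      coeff d (tt ^ i * PowerSeries.X ^ (3 * j + 1)) := by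
  obtain ⟨e, rfl⟩ : ∃ e, d = e + (3 * j + 1) := ⟨d - (3 * j + 1), by omega⟩
  have h3 : 3 * (tt ^ i * PowerSeries.X ^ (3 * j + 2) * uu) =
      PowerSeries.X ^ (3 * j + 1) * (PowerSeries.C 3 * (PowerSeries.X * (tt ^ i * uu))) := by
    have : (PowerSeries.C 3 : PowerSeries ℕ) = 3 := by simp
    rw [this]; ring
  have h4 : tt ^ i * PowerSeries.X ^ (3 * j + 1) = PowerSeries.X ^ (3 * j + 1) * tt ^ i := by ring
  rw [h3, h4, coeff_X_pow_mul, coeff_X_pow_mul, coeff_C_mul]
  have hg : GrS 17 e (tt ^ i) := grS_tt fun j hj => by omega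
  have h0 : 0 < coeff e (tt ^ i) := coeff_tt_pos (by omega)
  cases e with
  | zero => rw [coeff_zero_X_mul]; omega
  | succ e =>
    rw [coeff_succ_X_mul]
    have a1 := hg.mul_uu e (by omega)
    have a4 := hg e (by omega)
    omega

end LeafDeck
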