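import Pool.Agent.LeafDeck.OneDefs

/-!
The exact solution for few deleted leaves, `n = 3 N + 4`: power series.
-/

set_option autoImplicit false

namespace LeafDeck

open Finset PowerSeries

namespace S3

/-- the number of pairs `(l, l')` with `l ≤ j`, `l' < i`, `l + l' + 1 = m` -/
def cnt (i j m : ℕ) : ℕ := (((range (j + 1)) ×ˢ (range i)).filter fun p => p.1 + p.2 + 1 = m).card

lemma cnt_le (i j m : ℕ) : cnt i j m ≤ m := by
  unfold cnt
  calc _ ≤ (range m).card := by
        refine card_le_card_of_injOn (fun p => p.2) ?_ ?_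
        · intro p hp
          have h := (mem_filter.1 (mem_coe.1 hp)).2
          simp only [coe_range, Set.mem_Iio]
          omega
        · intro p hp q hq hpq
          have h1 := (mem_filter.1 (mem_coe.1 hp)).2
          have h2 := (mem_filter.1 (mem_coe.1 hq)).2
          have h3 : p.2 = q.2 := hpq
          exact Prod.ext (by omega) h3
    _ = m := card_range m

lemma cnt_le' (i j m : ℕ) : cnt i j m ≤ i := by
  unfold cnt
  calc _ ≤ (range i).card := by
        refine card_le_card_of_injOn (fun p => p.2) ?_ ?_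
        · intro p hp
          have h := (mem_product.1 (mem_filter.1 (mem_coe.1 hp)).1).2
          exact mem_coe.2 h
        · intro p hp q hq hpq
          have h1 := (mem_filter.1 (mem_coe.1 hp)).2
          have h2 := (mem_filter.1 (mem_coe.1 hq)).2
          have h3 : p.2 = q.2 := hpq
          exact Prod.ext (by omega) h3
    _ = i := card_range i

lemma cnt_eq {i j m : ℕ} (h1 : m ≤ i) (h2 : m ≤ j + 1) : cnt i j m = m := by
  refine le_antisymm (cnt_le i j m) ?_
  unfold cnt
  calc m = (range m).card := (card_range m).symm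
    _ ≤ _ := by
        refine card_le_card_of_injOn (fun l => (m - 1 - l, l)) ?_ ?_
        · intro l hl
          have h := mem_range.1 (mem_coe.1 hl)
          refine mem_coe.2 (mem_filter.2 ⟨mem_product.2 ⟨mem_range.2 ?_, mem_range.2 ?_⟩, ?_⟩)
          · change m - 1 - l < j + 1
            omega
          · change l < i
            omega
          · change m - 1 - l + l + 1 = m
            omega
        · intro p _ q _ hpq
          exact congrArg Prod.snd hpq

/-- the polynomial of the first kind -/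
noncomputable def P : PowerSeries ℕ :=
  (1 + PowerSeries.X) * (1 + 2 * PowerSeries.X + 2 * PowerSeries.X ^ 2)

/-- the polynomial of the second kind -/
noncomputable def Q : PowerSeries ℕ := (1 + PowerSeries.X) ^ 2

lemma VV_eq (N : ℕ) : VV N = ∑ m ∈ range N, PowerSeries.X ^ (3 * m) * tt ^ (N - 1 - m) *
    (P + (m : PowerSeries ℕ) * Q) := rfl

lemma WW_form (i j : ℕ) : WW i j = ∑ m ∈ range (i + j + 1),
    PowerSeries.X ^ (3 * m) * tt ^ (i + j - m) *
      ((if m ≤ j then P else 0) + (cnt i j m : PowerSeries ℕ) * Q) := by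
  have hA : tt ^ i * (1 + 2 * PowerSeries.X + 2 * PowerSeries.X ^ 2) * AA j =
      ∑ m ∈ range (i + j + 1), PowerSeries.X ^ (3 * m) * tt ^ (i + j - m) *
        (if m ≤ j then P else 0) := by
    have h1 : ∑ m ∈ range (i + j + 1), PowerSeries.X ^ (3 * m) * tt ^ (i + j - m) *
        (if m ≤ j then P else 0) = ∑ m ∈ range (j + 1), PowerSeries.X ^ (3 * m) *
          tt ^ (i + j - m) * (if m ≤ j then P else 0) := by
      symm
      refine sum_subset (range_subset_range.2 (by omega)) ?_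
      intro m _ hm
      rw [mem_range, not_lt] at hm
      rw [if_neg (by omega), mul_zero]
    rw [h1, AA, mul_sum]
    refine sum_congr rfl fun m hm => ?_
    rw [mem_range] at hm
    rw [if_pos (by omega), P, show i + j - m = i + (j - m) by omega, pow_add]
    ring
  have hB : PowerSeries.X ^ 3 * (1 + PowerSeries.X) * AA j *
      ∑ l ∈ range i, tt ^ (i - 1 - l) * PowerSeries.X ^ (3 * l) =
      ∑ m ∈ range (i + j + 1), PowerSeries.X ^ (3 * m) * tt ^ (i + j - m) *
        ((cnt i j m : PowerSeries ℕ) * Q) := by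
    have h1 : PowerSeries.X ^ 3 * (1 + PowerSeries.X) * AA j *
        ∑ l ∈ range i, tt ^ (i - 1 - l) * PowerSeries.X ^ (3 * l) =
        ∑ p ∈ (range (j + 1)) ×ˢ (range i),
          PowerSeries.X ^ (3 * (p.1 + p.2 + 1)) * tt ^ (i + j - (p.1 + p.2 + 1)) * Q := by
      rw [sum_product, AA, mul_assoc (PowerSeries.X ^ 3 * (1 + PowerSeries.X)), sum_mul_sum,
        mul_sum]
      refine sum_congr rfl fun l hl => ?_
      rw [mul_sum]
      refine sum_congr rfl fun l' hl' => ?_
      rw [mem_range] at hl hl'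
      rw [show i + j - (l + l' + 1) = (j - l) + (i - 1 - l') by omega, pow_add, Q]
      ring
    rw [h1, ← sum_fiberwise_of_maps_to (t := range (i + j + 1)) (g := fun p => p.1 + p.2 + 1)]
    · refine sum_congr rfl fun m _ => ?_
      rw [sum_congr rfl (g := fun _ => PowerSeries.X ^ (3 * m) * tt ^ (i + j - m) * Q)]
      · rw [sum_const, cnt, nsmul_eq_mul]
        ring
      · intro p hp
        rw [(mem_filter.1 hp).2]
    · intro p hp
      obtain ⟨h2, h3⟩ := mem_product.1 hp
      rw [mem_range] at h2 h3 ⊢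
      omega
  rw [WW, hA, hB, ← sum_add_distrib]
  exact sum_congr rfl fun m _ => by ring

lemma Cle_nat {a b : ℕ} (h : a ≤ b) : Cle (a : PowerSeries ℕ) (b : PowerSeries ℕ) := by
  obtain ⟨c, rfl⟩ := Nat.exists_eq_add_of_le h
  rw [Nat.cast_add]
  exact Cle.add_right _ _

lemma Cle_zero (a : PowerSeries ℕ) : Cle 0 a := by
  intro d
  rw [map_zero]
  exact Nat.zero_le _

lemma Cle_sum {ι : Type*} {s : Finset ι} {f g : ι → PowerSeries ℕ}
    (h : ∀ i ∈ s, Cle (f i) (g i)) : Cle (∑ i ∈ s, f i) (∑ i ∈ s, g i) := by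
  intro d
  rw [map_sum, map_sum]
  exact sum_le_sum fun i hi => h i hi d

lemma term_le (i j m : ℕ) :
    Cle (PowerSeries.X ^ (3 * m) * tt ^ (i + j - m) *
      ((if m ≤ j then P else 0) + (cnt i j m : PowerSeries ℕ) * Q))
    (PowerSeries.X ^ (3 * m) * tt ^ (i + j - m) * (P + (m : PowerSeries ℕ) * Q)) := by
  refine (Cle.refl _).mul (Cle.add ?_ ((Cle_nat (cnt_le i j m)).mul (Cle.refl _)))
  split_ifs
  · exact Cle.refl _
  · exact Cle_zero _

lemma coeff_tt_pow (e n : ℕ) : coeff n (tt ^ e) = 2 ^ n * e.choose n := by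
  have h : tt ^ e = ∑ m ∈ range (e + 1), ((2 ^ m * e.choose m : ℕ) : PowerSeries ℕ) *
      PowerSeries.X ^ m := by
    rw [tt, add_comm, add_pow]
    refine sum_congr rfl fun m _ => ?_
    rw [one_pow, mul_one, mul_pow]
    push_cast
    ring
  rw [h, map_sum]
  have h2 : ∀ m, coeff n (((2 ^ m * e.choose m : ℕ) : PowerSeries ℕ) * PowerSeries.X ^ m) =
      if n = m then 2 ^ m * e.choose m else 0 := by
    intro m
    rw [← nsmul_eq_mul, map_nsmul, coeff_X_pow]
    split_ifs <;> simp
  simp_rw [h2]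
  rw [sum_ite_eq]
  split_ifs with h3
  · rfl
  · rw [mem_range, not_lt] at h3
    rw [Nat.choose_eq_zero_of_lt (by omega), mul_zero]

lemma coeff_shift' (m d : ℕ) (f : PowerSeries ℕ) :
    coeff d (PowerSeries.X ^ m * f) = if m ≤ d then coeff (d - m) f else 0 :=
  coeff_X_pow_mul' f m d

lemma R_eq (m : ℕ) : P + (m : PowerSeries ℕ) * Q =
    ∑ i ∈ range 4, (cf m i : PowerSeries ℕ) * PowerSeries.X ^ i := by
  rw [P, Q]
  simp only [sum_range_succ, range_zero, sum_empty, cf]
  norm_num
  ring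

end S3

open S3

theorem WW_le (i j : ℕ) : Cle (WW i j) (VV (i + j + 1)) := by
  rw [WW_form, VV_eq]
  exact Cle_sum fun m _ => term_le i j m

theorem WW_eq {i j d : ℕ} (h1 : d < 3 * i + 3) (h2 : d ≤ 3 * j) :
    coeff d (WW i j) = coeff d (VV (i + j + 1)) := by
  rw [WW_form, VV_eq, map_sum, map_sum]
  refine sum_congr rfl fun m _ => ?_
  rw [Nat.add_sub_cancel]
  rcases Nat.lt_or_ge d (3 * m) with h | h
  · rw [mul_assoc, mul_assoc, coeff_shift', coeff_shift', if_neg (by omega), if_neg (by omega)]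
  · rw [if_pos (by omega), cnt_eq (by omega) (by omega)]

theorem WW_lt {i j d : ℕ} (h1 : 3 * i + 3 ≤ d) (h2 : d ≤ j) :
    coeff d (WW i j) < coeff d (VV (i + j + 1)) := by
  rw [WW_form, VV_eq, map_sum, map_sum]
  refine sum_lt_sum (fun m _ => term_le i j m d) ⟨i + 1, mem_range.2 (by omega), ?_⟩
  rw [Nat.add_sub_cancel]
  have hle : cnt i j (i + 1) ≤ i := cnt_le' i j (i + 1)
  rw [if_pos (by omega)]
  obtain ⟨c, hc⟩ := Nat.exists_eq_add_of_le hle
  have h3 : PowerSeries.X ^ (3 * (i + 1)) * tt ^ (i + j - (i + 1)) *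
      (P + ((i + 1 : ℕ) : PowerSeries ℕ) * Q) =
      PowerSeries.X ^ (3 * (i + 1)) * tt ^ (i + j - (i + 1)) *
        (P + (cnt i j (i + 1) : PowerSeries ℕ) * Q) +
      PowerSeries.X ^ (3 * (i + 1)) * (tt ^ (i + j - (i + 1)) *
        (((c + 1 : ℕ) : PowerSeries ℕ) * Q)) := by
    have h4 : i + 1 = cnt i j (i + 1) + (c + 1) := by omega
    have h5 : ((i + 1 : ℕ) : PowerSeries ℕ) =
        (cnt i j (i + 1) : PowerSeries ℕ) + ((c + 1 : ℕ) : PowerSeries ℕ) := by
      rw [← Nat.cast_add, ← h4]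
    rw [h5]
    ring
  rw [h3, map_add]
  refine Nat.lt_add_of_pos_right ?_
  rw [coeff_shift', if_pos (by omega)]
  have h6 : Cle (tt ^ (i + j - (i + 1)))
      (tt ^ (i + j - (i + 1)) * (((c + 1 : ℕ) : PowerSeries ℕ) * Q)) := by
    have h7 : Cle (1 : PowerSeries ℕ) (((c + 1 : ℕ) : PowerSeries ℕ) * Q) := by
      have h8 : ((c + 1 : ℕ) : PowerSeries ℕ) * Q = 1 +
          ((c : PowerSeries ℕ) * Q + (2 * PowerSeries.X + PowerSeries.X ^ 2)) := by
        rw [Q]
        push_cast
        ring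
      rw [h8]
      exact Cle.add_right _ _
    have h9 := (Cle.refl (tt ^ (i + j - (i + 1)))).mul h7
    rwa [mul_one] at h9
  refine lt_of_lt_of_le ?_ (h6 _)
  rw [coeff_tt_pow]
  have h10 : 0 < (i + j - (i + 1)).choose (d - 3 * (i + 1)) := Nat.choose_pos (by omega)
  positivity

theorem coeff_VV {N d : ℕ} (h : d < 3 * N) : coeff d (VV N) = valO N d := by
  rw [VV_eq, map_sum, valO]
  have h1 : ∑ m ∈ range (d / 3 + 1), coeff d (PowerSeries.X ^ (3 * m) * tt ^ (N - 1 - m) *
      (P + (m : PowerSeries ℕ) * Q)) = ∑ m ∈ range N, coeff d (PowerSeries.X ^ (3 * m) *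
        tt ^ (N - 1 - m) * (P + (m : PowerSeries ℕ) * Q)) := by
    refine sum_subset (range_subset_range.2 (by omega)) ?_
    intro m _ hm
    rw [mem_range, not_lt] at hm
    rw [mul_assoc, coeff_shift', if_neg (by omega)]
  rw [← h1]
  refine sum_congr rfl fun m _ => ?_
  rw [R_eq, mul_sum, map_sum]
  refine sum_congr rfl fun i _ => ?_
  have h2 : PowerSeries.X ^ (3 * m) * tt ^ (N - 1 - m) *
      ((cf m i : PowerSeries ℕ) * PowerSeries.X ^ i) =
      PowerSeries.X ^ (3 * m + i) * ((cf m i : PowerSeries ℕ) * tt ^ (N - 1 - m)) := by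
    rw [pow_add]
    ring
  rw [h2, coeff_shift']
  by_cases h3 : 3 * m + i ≤ d
  · rw [if_pos h3, if_pos h3, ← nsmul_eq_mul, map_nsmul, coeff_tt_pow, smul_eq_mul,
      show d - (3 * m + i) = d - 3 * m - i by omega, mul_assoc]
  · rw [if_neg h3, if_neg h3]

theorem tt_le_VV {N : ℕ} (h : 1 ≤ N) : Cle (tt ^ N * (1 + PowerSeries.X)) (VV N) := by
  obtain ⟨M, rfl⟩ := Nat.exists_eq_add_of_le' h
  rw [VV_eq, sum_range_succ']
  have h1 : PowerSeries.X ^ (3 * 0) * tt ^ (M + 1 - 1 - 0) * (P + ((0 : ℕ) : PowerSeries ℕ) * Q) =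
      tt ^ (M + 1) * (1 + PowerSeries.X) +
        tt ^ M * (1 + PowerSeries.X) * (2 * PowerSeries.X ^ 2) := by
    have h2 : tt ^ (M + 1) = tt ^ M * (1 + 2 * PowerSeries.X) := pow_succ tt M
    rw [h2, P, Nat.cast_zero, zero_mul, add_zero, mul_zero, pow_zero, one_mul,
      Nat.add_sub_cancel, Nat.sub_zero]
    ring
  refine Cle.trans (Cle.add_right _ (tt ^ M * (1 + PowerSeries.X) * (2 * PowerSeries.X ^ 2))) ?_
  rw [← h1]
  intro d
  rw [map_add]
  exact Nat.le_add_left _ _

end LeafDeck
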