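import Pool.Agent.LeafDeck.OneDefs
import Pool.Agent.LeafDeck.ExactVal

/-!
Package S2: the trees `TT i j`.
-/

set_option autoImplicit false

namespace LeafDeck

open Finset BTree PowerSeries

/-! ### power series -/

lemma s2_AA (j : ℕ) : AA j = q5V 1 j := by
  rw [AA, q5V]
  exact sum_congr rfl fun l _ => by rw [pow_one]

lemma s2_WW_zero (j : ℕ) : WW 0 j =
    (1 + 2 * PowerSeries.X + 2 * PowerSeries.X ^ 2) * AA j := by
  rw [WW, sum_range_zero, mul_zero, add_zero, pow_zero, one_mul]

lemma s2_WW_succ (i j : ℕ) : WW (i + 1) j = tt * WW i j +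
    PowerSeries.X ^ 3 * (1 + PowerSeries.X) * AA j * PowerSeries.X ^ (3 * i) := by
  have h : ∑ l ∈ range i, (tt ^ (i + 1 - 1 - l) * PowerSeries.X ^ (3 * l) : PowerSeries ℕ) =
      tt * ∑ l ∈ range i, tt ^ (i - 1 - l) * PowerSeries.X ^ (3 * l) := by
    rw [mul_sum]
    refine sum_congr rfl fun l hl => ?_
    have hl' := mem_range.1 hl
    rw [show i + 1 - 1 - l = (i - 1 - l) + 1 by omega, pow_succ]
    ring
  rw [WW, sum_range_succ, h, WW, show i + 1 - 1 - i = 0 by omega, pow_zero, one_mul]
  ring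

lemma s2_congr {f g h : PowerSeries ℕ} {D : ℕ} (hfg : ∀ e ≤ D, coeff e f = coeff e g) :
    ∀ e ≤ D, coeff e (h * f) = coeff e (h * g) := by
  intro e he
  rw [coeff_mul, coeff_mul]
  refine sum_congr rfl fun p hp => ?_
  have := HasAntidiagonal.mem_antidiagonal.1 hp
  rw [hfg p.2 (by omega)]

lemma s2_G_succ (a : PowerSeries ℕ) (d : ℕ) :
    coeff (d + 1) ((1 + 2 * PowerSeries.X + 2 * PowerSeries.X ^ 2) * a) =
      coeff (d + 1) a + coeff d a + coeff d (tt * a) := by
  have h : (1 + 2 * PowerSeries.X + 2 * PowerSeries.X ^ 2) * a =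
      a + PowerSeries.X * a + PowerSeries.X * (tt * a) := by
    rw [tt]
    ring
  rw [h, map_add, map_add, coeff_succ_X_mul, coeff_succ_X_mul]

lemma s2_tt_AA {j d : ℕ} (hd : d ≤ 3 * j + 2) :
    coeff d (q5V 1 (j + 1)) = coeff d (tt * AA j) := by
  rw [q5V_succ, map_add, q5_coeff_last, if_neg (by omega), add_zero, s2_AA]

lemma s2_one_le (n : ℕ) : Cle 1 (tt ^ n) := by
  intro d
  rw [q5_coeff_tt_pow, coeff_one]
  split_ifs with h
  · subst h
    simp
  · exact Nat.zero_le _

/-! ### five leaves -/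

lemma s2_five {T : BTree} (h : T.size = 5) :
    Iso T (.node .leaf (.node .leaf cat3)) ∨ Iso T (.node .leaf (.node cherry cherry)) ∨
      Iso T (.node cherry cat3) := by
  cases T with
  | leaf => exact absurd h (by decide)
  | node a b =>
    have ha := size_pos a
    have hb := size_pos b
    have hs : a.size + b.size = 5 := h
    rcases (by omega : a.size = 1 ∨ a.size = 2 ∨ a.size = 3 ∨ a.size = 4) with h1 | h1 | h1 | h1
    · rw [eq_leaf_of_size (T := a) (by omega)]
      rcases q5_four (T := b) (by omega) with h2 | h2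
      · exact Or.inl (Iso.node (Iso.refl _) h2)
      · exact Or.inr (Or.inl (Iso.node (Iso.refl _) h2))
    · rw [eq_cherry h1]
      exact Or.inr (Or.inr (Iso.node (Iso.refl _) (iso_cat3 (by omega))))
    · rw [eq_cherry (T := b) (by omega)]
      exact Or.inr (Or.inr (Iso.swap (iso_cat3 h1) (Iso.refl _)))
    · rw [eq_leaf_of_size (T := b) (by omega)]
      rcases q5_four (T := a) h1 with h2 | h2
      · exact Or.inl (Iso.swap h2 (Iso.refl _))
      · exact Or.inr (Or.inl (Iso.swap h2 (Iso.refl _)))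

lemma s2_card_five {T : BTree} {d : ℕ} (h : T.size = d + 5) : (fam T d).card ≤ 3 := by
  classical
  have h1 : fam T d ⊆ {some ⟦.node .leaf (.node .leaf cat3)⟧,
      some ⟦.node .leaf (.node cherry cherry)⟧, some ⟦.node cherry cat3⟧} := by
    intro o ho
    have h2 := fam_qsize ho
    cases o with
    | none =>
      rw [qsize_none] at h2
      omega
    | some x =>
      induction x using Quotient.inductionOn with
      | h s =>
      rw [qsize_some, csize_mk] at h2
      rcases s2_five (T := s) (by omega) with h3 | h3 | h3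
      · have h4 : (⟦s⟧ : TreeClass) = ⟦.node .leaf (.node .leaf cat3)⟧ := Quotient.sound h3
        rw [h4]
        simp
      · have h4 : (⟦s⟧ : TreeClass) = ⟦.node .leaf (.node cherry cherry)⟧ := Quotient.sound h3
        rw [h4]
        simp
      · have h4 : (⟦s⟧ : TreeClass) = ⟦.node cherry cat3⟧ := Quotient.sound h3
        rw [h4]
        simp
  exact (card_le_card h1).trans card_le_three

lemma s2_card_small {T : BTree} {d : ℕ} (h : T.size ≤ d + 5) : (fam T d).card ≤ 3 := by
  rcases (by omega : T.size = d + 5 ∨ T.size = d + 4 ∨ T.size ≤ d + 3) with h1 | h1 | h1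
  · exact s2_card_five h1
  · exact (q5_card_four h1).trans (by omega)
  · exact (small_fam h1).trans (by omega)

/-! ### the tree `(leaf, (cat3, P))` -/

lemma s2_cat {e : ℕ} {o : Option TreeClass} (h : o ∈ fam cat3 e) :
    (e = 0 ∧ o = some ⟦cat3⟧) ∨ ∃ f, e = f + 1 ∧ o ∈ fam cherry f := by
  cases e with
  | zero =>
    rw [fam_zero, mem_singleton] at h
    exact Or.inl ⟨rfl, h⟩
  | succ f =>
    refine Or.inr ⟨f, rfl, ?_⟩
    obtain ⟨i, j, hij, a, ha, b, hb, rfl⟩ := mem_fam_node.1 h
    rcases mem_fam_leaf.1 ha with ⟨rfl, rfl⟩ | ⟨rfl, rfl⟩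
    · rcases mem_fam_cherry hb with ⟨h1, rfl⟩ | ⟨h1, rfl⟩ | ⟨h1, rfl⟩
      · omega
      · obtain rfl : f = 0 := by omega
        exact self_mem_fam cherry
      · obtain rfl : f = 1 := by omega
        exact leafQ_mem_cherry
    · obtain rfl : j = f := by omega
      rw [joinQ_none_left]
      exact hb

lemma s2_mem {P : BTree} {d : ℕ} {o : Option TreeClass}
    (h : o ∈ fam (.node .leaf (.node cat3 P)) (d + 1)) :
    (∃ p ∈ fam P (d + 1), joinQ (some leafQ) (joinQ (some ⟦cat3⟧) p) = o) ∨
      (∃ p ∈ fam P d, joinQ (some ⟦cat3⟧) p = o) ∨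
        o ∈ fam (.node .leaf (.node cherry P)) d := by
  obtain ⟨i, j, hij, a, ha, b, hb, rfl⟩ := mem_fam_node.1 h
  obtain ⟨k, l, hkl, c, hc, p, hp, rfl⟩ := mem_fam_node.1 hb
  rcases mem_fam_leaf.1 ha with ⟨rfl, rfl⟩ | ⟨rfl, rfl⟩
  · rcases s2_cat hc with ⟨rfl, rfl⟩ | ⟨f, rfl, hf⟩
    · obtain rfl : l = d + 1 := by omega
      exact Or.inl ⟨p, hp, rfl⟩
    · refine Or.inr (Or.inr ?_)
      exact mem_fam_node.2 ⟨0, d, by omega, some leafQ, mem_fam_leaf.2 (Or.inl ⟨rfl, rfl⟩), _,
        mem_fam_node.2 ⟨f, l, by omega, c, hf, p, hp, rfl⟩, rfl⟩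
  · rw [joinQ_none_left]
    rcases s2_cat hc with ⟨rfl, rfl⟩ | ⟨f, rfl, hf⟩
    · obtain rfl : l = d := by omega
      exact Or.inr (Or.inl ⟨p, hp, rfl⟩)
    · refine Or.inr (Or.inr ?_)
      exact mem_fam_node.2 ⟨1, f + l, by omega, none, mem_fam_leaf.2 (Or.inr ⟨rfl, rfl⟩), _,
        mem_fam_node.2 ⟨f, l, rfl, c, hf, p, hp, rfl⟩, joinQ_none_left _⟩

lemma s2_mem1 {P : BTree} {d : ℕ} {p : Option TreeClass} (hp : p ∈ fam P d) :
    joinQ (some leafQ) (joinQ (some ⟦cat3⟧) p) ∈ fam (.node .leaf (.node cat3 P)) d :=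
  mem_fam_node.2 ⟨0, d, by omega, some leafQ, mem_fam_leaf.2 (Or.inl ⟨rfl, rfl⟩), _,
    mem_fam_node.2 ⟨0, d, by omega, _, self_mem_fam _, p, hp, rfl⟩, rfl⟩

lemma s2_mem2 {P : BTree} {d : ℕ} {p : Option TreeClass} (hp : p ∈ fam P d) :
    joinQ (some ⟦cat3⟧) p ∈ fam (.node .leaf (.node cat3 P)) (d + 1) :=
  mem_fam_node.2 ⟨1, d, by omega, none, mem_fam_leaf.2 (Or.inr ⟨rfl, rfl⟩), _,
    mem_fam_node.2 ⟨0, d, by omega, _, self_mem_fam _, p, hp, rfl⟩, joinQ_none_left _⟩

lemma s2_mem3 {P : BTree} {d : ℕ} {o : Option TreeClass}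
    (ho : o ∈ fam (.node .leaf (.node cherry P)) d) :
    o ∈ fam (.node .leaf (.node cat3 P)) (d + 1) := by
  rw [add_comm]
  refine fam_trans (U := .node .leaf (.node cherry P)) ?_ ho
  exact mem_fam_node.2 ⟨0, 1, rfl, some leafQ, mem_fam_leaf.2 (Or.inl ⟨rfl, rfl⟩), _,
    mem_fam_node.2 ⟨1, 0, rfl, _, cherry_mem_cat3, _, self_mem_fam P, rfl⟩, rfl⟩

lemma s2_isB {p : Option TreeClass} (hp : 3 ≤ qsize p) : isB (joinQ (some ⟦cat3⟧) p) := by
  cases p with
  | none => simp at hp
  | some x => exact ⟨⟦cat3⟧, x, le_rfl, hp, rfl⟩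

lemma s2_notB {T : BTree} (h : bb T = 0) {d : ℕ} {o : Option TreeClass} (ho : o ∈ fam T d) :
    ¬ isB o := by
  classical
  intro hB
  have h1 : coeff d (bb T) = 0 := by rw [h]; simp
  rw [bb, coeff_mk, card_eq_zero] at h1
  have h2 : o ∈ bam T d := mem_bam.2 ⟨ho, hB⟩
  rw [h1] at h2
  simp at h2

lemma s2_not_leaf (q : Option TreeClass) : ¬ isB (joinQ (some leafQ) q) :=
  not_isB (by simp) q

lemma s2_not_cherry (q : Option TreeClass) : ¬ isB (joinQ (some ⟦cherry⟧) q) :=
  not_isB (le_of_eq rfl) q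

/-- all members have a third child with at least three leaves -/
lemma s2_card {P : BTree} {d : ℕ} (hT : bb (.node .leaf (.node cherry P)) = 0)
    (hd : d + 4 ≤ P.size) :
    (fam (.node .leaf (.node cat3 P)) (d + 1)).card = (fam P (d + 1)).card + (fam P d).card +
      (fam (.node .leaf (.node cherry P)) d).card := by
  classical
  set A1 := (fam P (d + 1)).image fun p => joinQ (some leafQ) (joinQ (some ⟦cat3⟧) p) with hA1
  set A2 := (fam P d).image fun p => joinQ (some ⟦cat3⟧) p with hA2
  have c1 : A1.card = (fam P (d + 1)).card := by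
    refine card_image_of_injective _ fun a b h => ?_
    exact t3_inj ⟦cat3⟧ (t3_inj leafQ h)
  have c2 : A2.card = (fam P d).card := card_image_of_injective _ (t3_inj _)
  have B2 : ∀ o ∈ A2, isB o := by
    intro o ho
    obtain ⟨p, hp, rfl⟩ := mem_image.1 ho
    have hs := fam_qsize hp
    exact s2_isB (by omega)
  have d12 : Disjoint A1 A2 := by
    rw [Finset.disjoint_left]
    intro o h1 h2
    obtain ⟨p, hp, rfl⟩ := mem_image.1 h1
    exact s2_not_leaf _ (B2 _ h2)
  have d3 : Disjoint (A1 ∪ A2) (fam (.node .leaf (.node cherry P)) d) := by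
    rw [Finset.disjoint_left]
    intro o h1 h2
    rcases mem_union.1 h1 with h1 | h1
    · obtain ⟨p, hp, rfl⟩ := mem_image.1 h1
      have hs := fam_qsize hp
      rw [joinQ_comm] at h2
      exact s2_notB hT (fam_greedy h2) (s2_isB (by omega))
    · exact s2_notB hT h2 (B2 _ h1)
  have hsub : (A1 ∪ A2) ∪ fam (.node .leaf (.node cherry P)) d =
      fam (.node .leaf (.node cat3 P)) (d + 1) := by
    ext o
    constructor
    · intro ho
      rcases mem_union.1 ho with ho | ho
      · rcases mem_union.1 ho with ho | ho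
        · obtain ⟨p, hp, rfl⟩ := mem_image.1 ho
          exact s2_mem1 hp
        · obtain ⟨p, hp, rfl⟩ := mem_image.1 ho
          exact s2_mem2 hp
      · exact s2_mem3 ho
    · intro ho
      rcases s2_mem ho with ⟨p, hp, rfl⟩ | ⟨p, hp, rfl⟩ | h
      · exact mem_union_left _ (mem_union_left _ (mem_image_of_mem _ hp))
      · exact mem_union_left _ (mem_union_right _ (mem_image_of_mem _ hp))
      · exact mem_union_right _ h
  rw [← hsub, card_union_of_disjoint d3, card_union_of_disjoint d12, c1, c2]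

/-- the members of the first kind are of the third kind -/
lemma s2_card_top {P : BTree} {d : ℕ} (hP : P.size = d + 3) :
    (fam (.node .leaf (.node cat3 P)) (d + 1)).card ≤ (fam P d).card +
      (fam (.node .leaf (.node cherry P)) d).card := by
  classical
  have h : fam (.node .leaf (.node cat3 P)) (d + 1) ⊆
      ((fam P d).image fun p => joinQ (some ⟦cat3⟧) p) ∪
        fam (.node .leaf (.node cherry P)) d := by
    intro o ho
    rcases s2_mem ho with ⟨p, hp, rfl⟩ | ⟨p, hp, rfl⟩ | h
    · refine mem_union_right _ ?_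
      have hs := fam_qsize hp
      have h1 : p = some ⟦cherry⟧ := by
        cases p with
        | none =>
          rw [qsize_none] at hs
          omega
        | some x =>
          induction x using Quotient.inductionOn with
          | h s =>
          rw [qsize_some, csize_mk] at hs
          rw [eq_cherry (T := s) (by omega)]
      obtain ⟨q, hq⟩ := q5_nonempty P d (by omega)
      have hqs := fam_qsize hq
      have h2 : q = some ⟦cat3⟧ := by
        cases q with
        | none =>
          rw [qsize_none] at hqs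
          omega
        | some x =>
          induction x using Quotient.inductionOn with
          | h s =>
          rw [qsize_some, csize_mk] at hqs
          have h3 : (⟦s⟧ : TreeClass) = ⟦cat3⟧ := Quotient.sound (iso_cat3 (by omega))
          rw [h3]
      rw [h1, joinQ_comm (some ⟦cat3⟧)]
      rw [h2] at hq
      exact q5_mem1 hq
    · exact mem_union_left _ (mem_image_of_mem _ hp)
    · exact mem_union_right _ h
  refine (card_le_card h).trans ((card_union_le _ _).trans ?_)
  exact Nat.add_le_add_right card_image_le _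

/-! ### the large classes -/

open scoped Classical in
lemma s2_bam_sub {P : BTree} {d : ℕ} (hT : bb (.node .leaf (.node cherry P)) = 0) :
    bam (.node .leaf (.node cat3 P)) (d + 1) ⊆
      (fam P d).image fun p => joinQ (some ⟦cat3⟧) p := by
  intro o ho
  obtain ⟨h1, h2⟩ := mem_bam.1 ho
  rcases s2_mem h1 with ⟨p, hp, rfl⟩ | ⟨p, hp, rfl⟩ | h
  · exact absurd h2 (s2_not_leaf _)
  · exact mem_image_of_mem _ hp
  · exact absurd h2 (s2_notB hT h)

lemma s2_isB_size {p : Option TreeClass} (h : isB (joinQ (some ⟦cat3⟧) p)) : 3 ≤ qsize p := by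
  obtain ⟨x, y, hx, hy, h1⟩ := h
  cases p with
  | none =>
    rw [joinQ_none_right] at h1
    have h2 := congrArg qsize h1
    rw [qsize_some, qsize_some, csize_nodeQ, csize_mk, size_cat3] at h2
    omega
  | some z =>
    have h2 : nodeQ ⟦cat3⟧ z = nodeQ x y := Option.some.inj h1
    rw [qsize_some]
    rcases nodeQ_inj h2 with ⟨_, h3⟩ | ⟨_, h3⟩
    · rw [h3]
      exact hy
    · rw [h3]
      exact hx

lemma s2_bb_zero {P : BTree} : coeff 0 (bb (.node .leaf (.node cat3 P))) = 0 := by
  classical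
  rw [bb, coeff_mk, card_eq_zero, Finset.eq_empty_iff_forall_notMem]
  intro o ho
  obtain ⟨h1, h2⟩ := mem_bam.1 ho
  rw [fam_zero, mem_singleton] at h1
  have h3 : o = joinQ (some leafQ) (some ⟦.node cat3 P⟧) := h1
  rw [h3] at h2
  exact s2_not_leaf _ h2

lemma s2_bb_eq {P : BTree} {d : ℕ} (hT : bb (.node .leaf (.node cherry P)) = 0)
    (hd : d + 3 ≤ P.size) :
    coeff (d + 1) (bb (.node .leaf (.node cat3 P))) = (fam P d).card := by
  classical
  rw [bb, coeff_mk]
  refine le_antisymm ((card_le_card (s2_bam_sub hT)).trans card_image_le) ?_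
  rw [← card_image_of_injective (fam P d) (t3_inj ⟦cat3⟧)]
  refine card_le_card fun o ho => ?_
  obtain ⟨p, hp, rfl⟩ := mem_image.1 ho
  have hs := fam_qsize hp
  exact mem_bam.2 ⟨s2_mem2 hp, s2_isB (by omega)⟩

lemma s2_bb_none {P : BTree} {d : ℕ} (hT : bb (.node .leaf (.node cherry P)) = 0)
    (hd : P.size < d + 3) :
    coeff (d + 1) (bb (.node .leaf (.node cat3 P))) = 0 := by
  classical
  rw [bb, coeff_mk, card_eq_zero, Finset.eq_empty_iff_forall_notMem]
  intro o ho
  obtain ⟨p, hp, rfl⟩ := mem_image.1 (s2_bam_sub hT ho)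
  have hs := fam_qsize hp
  have := s2_isB_size (mem_bam.1 ho).2
  omega

lemma s2_bb_token {Q : BTree} (hQ : 2 ≤ Q.size) :
    bb (.node .leaf (.node cherry Q)) = PowerSeries.X ^ 3 * bb Q := by
  classical
  ext d
  refine le_antisymm (token_bb hQ d) ?_
  rw [← card_shF_bam, bb, coeff_mk]
  refine card_le_card fun o ho => ?_
  rw [shF] at ho
  split_ifs at ho with h
  · obtain ⟨h1, h2⟩ := mem_bam.1 ho
    refine mem_bam.2 ⟨?_, h2⟩
    exact mem_fam_node.2 ⟨1, d - 1, by omega, none, mem_fam_leaf.2 (Or.inr ⟨rfl, rfl⟩), o,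
      mem_fam_node.2 ⟨2, d - 3, by omega, none, none_cherry, o, h1, joinQ_none_left _⟩,
      joinQ_none_left _⟩
  · simp at ho

/-! ### one block: the lower bound -/

lemma s2_mem_shF {F : ℕ → Finset (Option TreeClass)} {i d : ℕ} {o : Option TreeClass}
    (h : o ∈ shF F i d) : i ≤ d ∧ o ∈ F (d - i) := by
  rw [shF] at h
  split_ifs at h with h1
  · exact ⟨h1, h⟩
  · simp at h

lemma s2_low {Q : BTree} {d : ℕ} (hd : d + 2 ≤ Q.size) :
    coeff d (tt * ff Q + (PowerSeries.X ^ 2 + PowerSeries.X ^ 3) * bb Q) ≤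
      coeff d (ff (.node .leaf (.node cherry Q))) := by
  classical
  have e1 : tt * ff Q + (PowerSeries.X ^ 2 + PowerSeries.X ^ 3) * bb Q =
      ff Q + 2 * (PowerSeries.X ^ 1 * ff Q) + PowerSeries.X ^ 2 * bb Q +
        PowerSeries.X ^ 3 * bb Q := by
    rw [tt]
    ring
  rw [e1, map_add, map_add, map_add, coeff_two_mul, ← card_shF_fam, ← card_shF_bam,
    ← card_shF_bam, coeff_ff, coeff_ff]
  set B1 := (fam Q d).image fun p => joinQ (some ⟦cherry⟧) p with hB1
  set B2 := (shF (fam Q) 1 d).image fun p => joinQ (some leafQ) p with hB2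
  set A3 := (shF (fam Q) 1 d).image fun p => joinQ (some ⟦cherry⟧) p with hA3
  set B4 := shF (bam Q) 2 d with hB4
  set A5 := shF (bam Q) 3 d with hA5
  set A := ((B1 ∪ B2) ∪ B4).image fun p => joinQ (some leafQ) p with hA
  have c1 : B1.card = (fam Q d).card := card_image_of_injective _ (t3_inj _)
  have c2 : B2.card = (shF (fam Q) 1 d).card := card_image_of_injective _ (t3_inj _)
  have c3 : A3.card = (shF (fam Q) 1 d).card := card_image_of_injective _ (t3_inj _)
  have n12 : ∀ o ∈ B1 ∪ B2, ¬ isB o := by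
    intro o ho
    rcases mem_union.1 ho with ho | ho
    · obtain ⟨p, hp, rfl⟩ := mem_image.1 ho
      exact s2_not_cherry _
    · obtain ⟨p, hp, rfl⟩ := mem_image.1 ho
      exact s2_not_leaf _
  have d12 : Disjoint B1 B2 := by
    rw [Finset.disjoint_left]
    intro o h1 h2
    obtain ⟨p, hp, rfl⟩ := mem_image.1 h1
    obtain ⟨q, hq, h3⟩ := mem_image.1 h2
    have hs := fam_qsize hp
    exact q5_ne (by omega) h3.symm
  have d4 : Disjoint (B1 ∪ B2) B4 := by
    rw [Finset.disjoint_left]
    intro o h1 h2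
    exact n12 o h1 (mem_bam.1 (s2_mem_shF h2).2).2
  have cA : A.card = (fam Q d).card + (shF (fam Q) 1 d).card + B4.card := by
    rw [hA, card_image_of_injective _ (t3_inj _), card_union_of_disjoint d4,
      card_union_of_disjoint d12, c1, c2]
  have dA3 : Disjoint A A3 := by
    rw [Finset.disjoint_left]
    intro o h1 h2
    obtain ⟨p, hp, rfl⟩ := mem_image.1 h1
    obtain ⟨q, hq, h3⟩ := mem_image.1 h2
    obtain ⟨h4, h5⟩ := s2_mem_shF hq
    have hs := fam_qsize h5
    exact q5_ne (by omega) h3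
  have dA5 : Disjoint (A ∪ A3) A5 := by
    rw [Finset.disjoint_left]
    intro o h1 h2
    have h3 := (mem_bam.1 (s2_mem_shF h2).2).2
    rcases mem_union.1 h1 with h1 | h1
    · obtain ⟨p, hp, rfl⟩ := mem_image.1 h1
      exact s2_not_leaf _ h3
    · obtain ⟨p, hp, rfl⟩ := mem_image.1 h1
      exact s2_not_cherry _ h3
  have hsub : (A ∪ A3) ∪ A5 ⊆ fam (.node .leaf (.node cherry Q)) d := by
    intro o ho
    rcases mem_union.1 ho with ho | ho
    · rcases mem_union.1 ho with ho | ho
      · obtain ⟨x, hx, rfl⟩ := mem_image.1 ho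
        rcases mem_union.1 hx with hx | hx
        · rcases mem_union.1 hx with hx | hx
          · obtain ⟨p, hp, rfl⟩ := mem_image.1 hx
            exact q5_mem1 hp
          · obtain ⟨p, hp, rfl⟩ := mem_image.1 hx
            obtain ⟨h4, h5⟩ := s2_mem_shF hp
            have h6 := q5_mem2 h5
            rwa [Nat.sub_add_cancel h4] at h6
        · obtain ⟨h4, h5⟩ := s2_mem_shF hx
          exact mem_fam_node.2 ⟨0, d, by omega, some leafQ, mem_fam_leaf.2 (Or.inl ⟨rfl, rfl⟩), x,
            mem_fam_node.2 ⟨2, d - 2, by omega, none, none_cherry, x, (mem_bam.1 h5).1,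
              joinQ_none_left _⟩, rfl⟩
      · obtain ⟨p, hp, rfl⟩ := mem_image.1 ho
        obtain ⟨h4, h5⟩ := s2_mem_shF hp
        have h6 := q5_mem3 h5
        rwa [Nat.sub_add_cancel h4] at h6
    · obtain ⟨h4, h5⟩ := s2_mem_shF ho
      exact mem_fam_node.2 ⟨1, d - 1, by omega, none, mem_fam_leaf.2 (Or.inr ⟨rfl, rfl⟩), o,
        mem_fam_node.2 ⟨2, d - 3, by omega, none, none_cherry, o, (mem_bam.1 h5).1,
          joinQ_none_left _⟩, joinQ_none_left _⟩
  have h := card_le_card hsub
  rw [card_union_of_disjoint dA5, card_union_of_disjoint dA3, cA, c3] at h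
  omega

/-! ### the trees `TT 0 j` -/

lemma s2_size (i j : ℕ) : (TT i j).size = 3 * i + 3 * j + 7 := by
  rw [TT, size_alt]
  show 3 * i + (1 + (cat3.size + (alt j cat3).size)) = _
  rw [size_alt, size_cat3]
  ring

lemma s2_bbT (j : ℕ) : bb (.node .leaf (.node cherry (alt j cat3))) = 0 :=
  q5_bb_alt (Z := cat3) (by rw [size_cat3]; omega) (q5_bb_small (by rw [size_cat3]; omega)) (j + 1)

lemma s2_bb_Z (j d : ℕ) (hd : d ≤ 3 * j + 1) :
    coeff d (bb (TT 0 j)) = coeff d (PowerSeries.X * AA j) := by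
  cases d with
  | zero =>
    rw [coeff_zero_X_mul]
    exact s2_bb_zero
  | succ d =>
    rw [coeff_succ_X_mul, s2_AA, ← q5_alt j d (by omega)]
    exact s2_bb_eq (s2_bbT j) (by rw [size_alt, size_cat3]; omega)

lemma s2_bb_Z_le (j : ℕ) : Cle (bb (TT 0 j)) (PowerSeries.X * AA j) := by
  intro d
  rcases Nat.lt_or_ge (3 * j + 1) d with h | h
  · obtain ⟨e, rfl⟩ : ∃ e, d = e + 1 := ⟨d - 1, by omega⟩
    have h1 : coeff (e + 1) (bb (TT 0 j)) = 0 :=
      s2_bb_none (s2_bbT j) (by rw [size_alt, size_cat3]; omega)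
    rw [h1]
    exact Nat.zero_le _
  · exact (s2_bb_Z j d h).le

lemma s2_bb_TT (i j : ℕ) : bb (TT i j) = PowerSeries.X ^ (3 * i) * bb (TT 0 j) := by
  induction i with
  | zero => rw [mul_zero, pow_zero, one_mul]
  | succ i ih =>
    have h : bb (TT (i + 1) j) = PowerSeries.X ^ 3 * bb (TT i j) :=
      s2_bb_token (Q := TT i j) (by rw [s2_size]; omega)
    rw [h, ih, mul_add, pow_add]
    ring

lemma s2_base (j d : ℕ) (hd : d ≤ 3 * j) :
    coeff d (ff (TT 0 j)) = coeff d (WW 0 j) := by
  rw [s2_WW_zero]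
  cases d with
  | zero =>
    rw [coeff_ff, card_zero]
    have h1 : coeff 0 (AA j) = 1 := by
      rw [s2_AA, ← q5_alt j 0 (by omega), card_zero]
    simp only [coeff_zero_eq_constantCoeff, map_mul, map_add, map_one, map_pow,
      constantCoeff_X] at h1 ⊢
    rw [h1]
    simp
  | succ d =>
    have h : (fam (TT 0 j) (d + 1)).card = _ :=
      s2_card (d := d) (s2_bbT j) (by rw [size_alt, size_cat3]; omega)
    have h2 : (fam (.node .leaf (.node cherry (alt j cat3))) d).card =
        coeff d (q5V 1 (j + 1)) := q5_alt (j + 1) d (by omega)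
    rw [coeff_ff, h, s2_G_succ, q5_alt j _ (by omega), q5_alt j _ (by omega), h2,
      s2_tt_AA (by omega), s2_AA]

theorem TT_exact {i j d : ℕ} (_ : 1 ≤ j) (hd : d ≤ 3 * j) :
    coeff d (ff (TT i j)) = coeff d (WW i j) := by
  have key : ∀ i, ∀ d ≤ 3 * j, coeff d (ff (TT i j)) = coeff d (WW i j) := by
    intro i
    induction i with
    | zero => exact fun d hd => s2_base j d hd
    | succ i ih =>
      intro d hd
      have hs := s2_size i j
      have h1 : coeff d (ff (TT (i + 1) j)) =
          coeff d (tt * ff (TT i j) + (PowerSeries.X ^ 2 + PowerSeries.X ^ 3) * bb (TT i j)) :=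
        le_antisymm (token_upper (P := TT i j) (by omega) (by omega))
          (s2_low (Q := TT i j) (by omega))
      have h2 : coeff d (tt * ff (TT i j)) = coeff d (tt * WW i j) := s2_congr ih d hd
      have h3 : coeff d ((PowerSeries.X ^ 2 + PowerSeries.X ^ 3) * bb (TT i j)) =
          coeff d (PowerSeries.X ^ 3 * (1 + PowerSeries.X) * AA j *
            PowerSeries.X ^ (3 * i)) := by
        have h4 : (PowerSeries.X ^ 2 + PowerSeries.X ^ 3) * bb (TT i j) =
            ((PowerSeries.X ^ 2 + PowerSeries.X ^ 3) * PowerSeries.X ^ (3 * i)) *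
              bb (TT 0 j) := by
          rw [s2_bb_TT]
          ring
        have h5 : PowerSeries.X ^ 3 * (1 + PowerSeries.X) * AA j * PowerSeries.X ^ (3 * i) =
            ((PowerSeries.X ^ 2 + PowerSeries.X ^ 3) * PowerSeries.X ^ (3 * i)) *
              (PowerSeries.X * AA j) := by
          ring
        rw [h4, h5]
        exact s2_congr (D := 3 * j + 1) (fun e he => s2_bb_Z j e he) d (by omega)
      rw [h1, map_add, h2, h3, s2_WW_succ, map_add]
  exact key i d hd

lemma s2_upper_base (j : ℕ) : Cle (ff (TT 0 j) + PowerSeries.X ^ (3 * j + 1))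
    (WW 0 j + 3 * (PowerSeries.X ^ (3 * j + 2) * uu)) := by
  intro d
  have hu : ∀ d, coeff d (3 * (PowerSeries.X ^ (3 * j + 2) * uu) : PowerSeries ℕ) =
      if 3 * j + 2 ≤ d then 3 else 0 := by
    intro d
    have h3 : (3 : PowerSeries ℕ) * (PowerSeries.X ^ (3 * j + 2) * uu) =
        PowerSeries.X ^ (3 * j + 2) * uu + PowerSeries.X ^ (3 * j + 2) * uu +
          PowerSeries.X ^ (3 * j + 2) * uu := by ring
    rw [h3, map_add, map_add, coeff_X_pow_mul']
    split_ifs with h
    · rw [uu, coeff_mk]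
    · rfl
  rw [map_add, map_add, hu, coeff_X_pow]
  rcases (by omega : d ≤ 3 * j ∨ d = 3 * j + 1 ∨ 3 * j + 2 ≤ d) with h | rfl | h
  · rw [if_neg (by omega), if_neg (by omega), s2_base j d h]
  · rw [if_pos rfl, if_neg (by omega), add_zero, s2_WW_zero, coeff_ff, s2_G_succ]
    have h1 : (fam (TT 0 j) (3 * j + 1)).card ≤ _ :=
      s2_card_top (P := alt j cat3) (d := 3 * j) (by rw [size_alt, size_cat3])
    have h2 : (fam (.node .leaf (.node cherry (alt j cat3))) (3 * j)).card =
        coeff (3 * j) (q5V 1 (j + 1)) := q5_alt (j + 1) (3 * j) (by omega)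
    rw [h2, q5_alt j _ (by omega), s2_tt_AA (by omega)] at h1
    rw [s2_AA] at h1 ⊢
    rw [(q5V_top 1 j).1]
    omega
  · rw [if_neg (by omega), if_pos h, coeff_ff]
    have h1 := s2_card_small (T := TT 0 j) (d := d) (by rw [s2_size]; omega)
    omega

theorem TT_upper {i j d : ℕ} (_ : 1 ≤ j) :
    coeff d (ff (TT i j)) + coeff d (tt ^ i * PowerSeries.X ^ (3 * j + 1)) ≤
      coeff d (WW i j + 3 * (tt ^ i * PowerSeries.X ^ (3 * j + 2) * uu)) := by
  have key : ∀ i, Cle (ff (TT i j) + tt ^ i * PowerSeries.X ^ (3 * j + 1))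
      (WW i j + 3 * (tt ^ i * PowerSeries.X ^ (3 * j + 2) * uu)) := by
    intro i
    induction i with
    | zero =>
      rw [pow_zero, one_mul, one_mul]
      exact s2_upper_base j
    | succ i ih =>
      intro d
      have hs := s2_size i j
      have hs' := s2_size (i + 1) j
      rcases Nat.lt_or_ge ((TT i j).size + 1) d with h | h
      · have h1 : (fam (TT (i + 1) j) d).card ≤ 1 := small_fam (by omega)
        have h2 : coeff d (tt ^ (i + 1) * PowerSeries.X ^ (3 * j + 1)) = 0 := by
          rw [coeff_mul_X_pow', if_pos (by omega), q5_coeff_tt_pow,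
            Nat.choose_eq_zero_of_lt (by omega), mul_zero]
        have h3 : 1 ≤ coeff d (tt ^ (i + 1) * PowerSeries.X ^ (3 * j + 2) * uu) := by
          have h4 : Cle (1 * (PowerSeries.X ^ (3 * j + 2) * uu))
              (tt ^ (i + 1) * (PowerSeries.X ^ (3 * j + 2) * uu)) :=
            Cle.mul (s2_one_le _) (Cle.refl _)
          have h5 := h4 d
          rw [one_mul, coeff_X_pow_mul', if_pos (by omega), uu, coeff_mk, ← mul_assoc] at h5
          exact h5
        have h6 : coeff d (3 * (tt ^ (i + 1) * PowerSeries.X ^ (3 * j + 2) * uu) :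
            PowerSeries ℕ) = 3 * coeff d (tt ^ (i + 1) * PowerSeries.X ^ (3 * j + 2) * uu) := by
          have h7 : ∀ a : PowerSeries ℕ, 3 * a = a + a + a := fun a => by ring
          rw [h7, map_add, map_add]
          ring
        rw [map_add, map_add, coeff_ff, h2, h6]
        omega
      · have h1 : coeff d (ff (TT (i + 1) j)) ≤
            coeff d (tt * ff (TT i j) + (PowerSeries.X ^ 2 + PowerSeries.X ^ 3) *
              bb (TT i j)) := token_upper (P := TT i j) (by omega) (by omega)
        have h2 := Cle.mul (Cle.refl tt) ih d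
        have h3 : Cle ((PowerSeries.X ^ 2 + PowerSeries.X ^ 3) * bb (TT i j))
            (PowerSeries.X ^ 3 * (1 + PowerSeries.X) * AA j * PowerSeries.X ^ (3 * i)) := by
          have h4 : (PowerSeries.X ^ 2 + PowerSeries.X ^ 3) * bb (TT i j) =
              ((PowerSeries.X ^ 2 + PowerSeries.X ^ 3) * PowerSeries.X ^ (3 * i)) *
                bb (TT 0 j) := by
            rw [s2_bb_TT]
            ring
          have h5 : PowerSeries.X ^ 3 * (1 + PowerSeries.X) * AA j * PowerSeries.X ^ (3 * i) =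
              ((PowerSeries.X ^ 2 + PowerSeries.X ^ 3) * PowerSeries.X ^ (3 * i)) *
                (PowerSeries.X * AA j) := by
            ring
          rw [h4, h5]
          exact Cle.mul (Cle.refl _) (s2_bb_Z_le j)
        have h3' := h3 d
        have e1 : tt * (ff (TT i j) + tt ^ i * PowerSeries.X ^ (3 * j + 1)) =
            tt * ff (TT i j) + tt ^ (i + 1) * PowerSeries.X ^ (3 * j + 1) := by
          rw [pow_succ]
          ring
        have e2 : tt * (WW i j + 3 * (tt ^ i * PowerSeries.X ^ (3 * j + 2) * uu)) =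
            tt * WW i j + 3 * (tt ^ (i + 1) * PowerSeries.X ^ (3 * j + 2) * uu) := by
          rw [pow_succ]
          ring
        rw [e1, e2, map_add, map_add] at h2
        rw [map_add] at h1
        rw [s2_WW_succ, map_add, map_add, map_add]
        omega
  have h := key i d
  rw [map_add] at h
  exact h

end LeafDeck
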