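import Pool.Agent.LeafDeck.TwoDefs

/-!
Package T3: lower bounds for the numbers of classes obtained from the extremal trees by deleting
two leaves.
-/

set_option autoImplicit false

namespace LeafDeck

open Finset BTree

lemma t3_inj (q : TreeClass) :
    Function.Injective (fun a : Option TreeClass => joinQ (some q) a) := by
  intro a b h
  have h0 : joinQ (some q) a = joinQ (some q) b := h
  have h1 : qsize a = qsize b := by
    have := congrArg qsize h0
    rw [qsize_joinQ, qsize_joinQ] at this
    omega
  cases a with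
  | none => exact (qsize_eq_zero.1 h1.symm).symm
  | some x =>
    have hb : b ≠ none := by
      rintro rfl
      have := csize_pos x
      simp at h1
      omega
    rcases joinQ_inj (by simp) (by simp) (by simp) hb h0 with ⟨_, h2⟩ | ⟨h2, h3⟩
    · exact h2
    · rw [h3, h2]

lemma t3_ne {a b c e : Option TreeClass} (ha : 1 ≤ qsize a) (hb : 1 ≤ qsize b)
    (hc : 1 ≤ qsize c) (he : 1 ≤ qsize e) (h1 : qsize a ≠ qsize c) (h2 : qsize a ≠ qsize e) :
    joinQ a b ≠ joinQ c e := by
  have hn : ∀ {o : Option TreeClass}, 1 ≤ qsize o → o ≠ none := by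
    rintro o ho rfl
    simp at ho
  intro h
  rcases joinQ_inj (hn ha) (hn hb) (hn hc) (hn he) h with ⟨h3, _⟩ | ⟨h3, _⟩
  · exact h1 (congrArg qsize h3)
  · exact h2 (congrArg qsize h3)

open scoped Classical in
/-- a leaf on top: members of `fam Q 2` and of `fam Q 1` -/
lemma t3_top (Q : BTree) (c : ℕ)
    (h : ((fam Q 1).filter fun o => ∃ a, o = joinQ (some leafQ) a).card ≤ c) :
    (fam Q 2).card + (fam Q 1).card ≤ (fam (.node .leaf Q) 2).card + c := by
  have h1 : ((fam Q 2).image fun a => joinQ (some leafQ) a) ∪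
      ((fam Q 1).filter fun o => ¬ ∃ a, o = joinQ (some leafQ) a) ⊆
      fam (.node .leaf Q) 2 := by
    intro o ho
    rw [mem_union, mem_image, mem_filter] at ho
    rcases ho with ⟨a, ha, rfl⟩ | ⟨ho, -⟩
    · exact mem_fam_node.2 ⟨0, 2, rfl, some leafQ, mem_fam_leaf.2 (Or.inl ⟨rfl, rfl⟩), a, ha, rfl⟩
    · exact mem_fam_node.2 ⟨1, 1, rfl, none, mem_fam_leaf.2 (Or.inr ⟨rfl, rfl⟩), o, ho,
        joinQ_none_left _⟩
  have h2 : Disjoint ((fam Q 2).image fun a => joinQ (some leafQ) a)
      ((fam Q 1).filter fun o => ¬ ∃ a, o = joinQ (some leafQ) a) := by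
    rw [Finset.disjoint_left]
    intro o h3 h4
    rw [mem_image] at h3
    rw [mem_filter] at h4
    obtain ⟨a, -, rfl⟩ := h3
    exact h4.2 ⟨a, rfl⟩
  have h3 := card_le_card h1
  rw [card_union_of_disjoint h2, card_image_of_injective _ (t3_inj leafQ)] at h3
  have h4 := card_filter_add_card_filter_not (s := fam Q 1)
    (fun o => ∃ a, o = joinQ (some leafQ) a)
  omega

open scoped Classical in
lemma t3_overlap {L R : BTree} (hL : 2 ≤ L.size) (hR : 3 ≤ R.size) :
    ((fam (.node L R) 1).filter fun o => ∃ a, o = joinQ (some leafQ) a) ⊆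
      if L.size = 2 then {joinQ (some leafQ) (some ⟦R⟧)} else ∅ := by
  intro o ho
  rw [mem_filter, mem_fam_one_node] at ho
  obtain ⟨h1, x, hx⟩ := ho
  have sL : qsize (some ⟦L⟧ : Option TreeClass) = L.size := rfl
  have sR : qsize (some ⟦R⟧ : Option TreeClass) = R.size := rfl
  have s1 : qsize (some leafQ : Option TreeClass) = 1 := rfl
  rcases h1 with ⟨b, hb, rfl⟩ | ⟨a, ha, rfl⟩
  · exfalso
    have h2 := fam_qsize hb
    have h3 := congrArg qsize hx
    rw [qsize_joinQ, qsize_joinQ, sL, s1] at h3
    exact t3_ne (by rw [s1]) (by omega) (by rw [sL]; omega) (by omega) (by rw [s1, sL]; omega)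
      (by rw [s1]; omega) hx.symm
  · have h2 := fam_qsize ha
    have h3 := congrArg qsize hx
    rw [qsize_joinQ, qsize_joinQ, sR, s1] at h3
    by_cases hs : L.size = 2
    · rw [if_pos hs, mem_singleton]
      have ha0 : a ≠ none := by
        rintro rfl
        simp at h2
        omega
      have hx0 : x ≠ none := by
        rintro rfl
        simp at h3
        omega
      rcases joinQ_inj ha0 (by simp) (by simp) hx0 hx with ⟨h4, _⟩ | ⟨_, h5⟩
      · rw [h4]
      · have h6 := congrArg qsize h5
        rw [sR, s1] at h6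
        omega
    · exfalso
      exact t3_ne (by rw [s1]) (by omega) (by omega) (by rw [sR]; omega) (by rw [s1]; omega)
        (by rw [s1, sR]; omega) hx.symm

lemma leafQ_mem_cherry : some leafQ ∈ fam cherry 1 :=
  mem_fam_one_node.2 (Or.inl ⟨none, mem_fam_leaf.2 (Or.inr ⟨rfl, rfl⟩), joinQ_none_right _⟩)

lemma cherry_mem_cat3 : (some ⟦cherry⟧ : Option TreeClass) ∈ fam cat3 1 :=
  mem_fam_one_node.2 (Or.inr ⟨none, mem_fam_leaf.2 (Or.inr ⟨rfl, rfl⟩), joinQ_none_left _⟩)

lemma leafQ_mem_cat3 : some leafQ ∈ fam cat3 2 :=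
  mem_fam_node.2 ⟨1, 1, rfl, none, mem_fam_leaf.2 (Or.inr ⟨rfl, rfl⟩), some leafQ,
    leafQ_mem_cherry, joinQ_none_left _⟩

lemma self_mem_fam (T : BTree) : (some ⟦T⟧ : Option TreeClass) ∈ fam T 0 := by
  rw [fam_zero]
  simp

/-- a cherry beside a tree with at least five leaves -/
lemma t3_cherry (P : BTree) (hP : 5 ≤ P.size) :
    (fam P 2).card + (fam P 1).card ≤ (fam (.node cherry P) 2).card := by
  classical
  have h1 : ((fam P 2).image fun a => joinQ (some ⟦cherry⟧) a) ∪
      ((fam P 1).image fun a => joinQ (some leafQ) a) ⊆ fam (.node cherry P) 2 := by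
    intro o ho
    rw [mem_union, mem_image, mem_image] at ho
    rcases ho with ⟨a, ha, rfl⟩ | ⟨a, ha, rfl⟩
    · exact mem_fam_node.2 ⟨0, 2, rfl, _, self_mem_fam _, a, ha, rfl⟩
    · exact mem_fam_node.2 ⟨1, 1, rfl, _, leafQ_mem_cherry, a, ha, rfl⟩
  have h2 : Disjoint ((fam P 2).image fun a => joinQ (some ⟦cherry⟧) a)
      ((fam P 1).image fun a => joinQ (some leafQ) a) := by
    rw [Finset.disjoint_left]
    intro o h3 h4
    rw [mem_image] at h3 h4
    obtain ⟨a, ha, rfl⟩ := h3
    obtain ⟨b, hb, h5⟩ := h4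
    have e1 := fam_qsize ha
    have e2 := fam_qsize hb
    have s1 : qsize (some leafQ : Option TreeClass) = 1 := rfl
    have s2 : qsize (some ⟦cherry⟧ : Option TreeClass) = 2 := rfl
    exact t3_ne (by rw [s1]) (by omega) (by rw [s2]; omega) (by omega) (by rw [s1, s2]; omega)
      (by rw [s1]; omega) h5
  have h3 := card_le_card h1
  rw [card_union_of_disjoint h2, card_image_of_injective _ (t3_inj _),
    card_image_of_injective _ (t3_inj _)] at h3
  exact h3

/-- the tree with three leaves beside a tree with at least six leaves -/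
lemma t3_cat3 (P : BTree) (hP : 6 ≤ P.size) :
    (fam P 2).card + (fam P 1).card + 1 ≤ (fam (.node cat3 P) 2).card := by
  classical
  have s1 : qsize (some leafQ : Option TreeClass) = 1 := rfl
  have s2 : qsize (some ⟦cherry⟧ : Option TreeClass) = 2 := rfl
  have s3 : qsize (some ⟦cat3⟧ : Option TreeClass) = 3 := rfl
  have sP : qsize (some ⟦P⟧ : Option TreeClass) = P.size := rfl
  have h1 : ((fam P 2).image fun a => joinQ (some ⟦cat3⟧) a) ∪
      ((fam P 1).image fun a => joinQ (some ⟦cherry⟧) a) ∪ {joinQ (some leafQ) (some ⟦P⟧)} ⊆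
      fam (.node cat3 P) 2 := by
    intro o ho
    rw [mem_union, mem_union, mem_image, mem_image, mem_singleton] at ho
    rcases ho with (⟨a, ha, rfl⟩ | ⟨a, ha, rfl⟩) | rfl
    · exact mem_fam_node.2 ⟨0, 2, rfl, _, self_mem_fam _, a, ha, rfl⟩
    · exact mem_fam_node.2 ⟨1, 1, rfl, _, cherry_mem_cat3, a, ha, rfl⟩
    · exact mem_fam_node.2 ⟨2, 0, rfl, _, leafQ_mem_cat3, _, self_mem_fam _, rfl⟩
  have h2 : Disjoint ((fam P 2).image fun a => joinQ (some ⟦cat3⟧) a)
      ((fam P 1).image fun a => joinQ (some ⟦cherry⟧) a) := by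
    rw [Finset.disjoint_left]
    intro o h3 h4
    rw [mem_image] at h3 h4
    obtain ⟨a, ha, rfl⟩ := h3
    obtain ⟨b, hb, h5⟩ := h4
    have e1 := fam_qsize ha
    have e2 := fam_qsize hb
    exact t3_ne (by rw [s2]; omega) (by omega) (by rw [s3]; omega) (by omega)
      (by rw [s2, s3]; omega) (by rw [s2]; omega) h5
  have h2' : Disjoint (((fam P 2).image fun a => joinQ (some ⟦cat3⟧) a) ∪
      ((fam P 1).image fun a => joinQ (some ⟦cherry⟧) a))
      {joinQ (some leafQ) (some ⟦P⟧)} := by
    rw [Finset.disjoint_singleton_right, mem_union, mem_image, mem_image]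
    rintro (⟨a, ha, h5⟩ | ⟨b, hb, h5⟩)
    · have e1 := fam_qsize ha
      exact t3_ne (by rw [s1]) (by rw [sP]; omega) (by rw [s3]; omega) (by omega)
        (by rw [s1, s3]; omega) (by rw [s1]; omega) h5.symm
    · have e1 := fam_qsize hb
      exact t3_ne (by rw [s1]) (by rw [sP]; omega) (by rw [s2]; omega) (by omega)
        (by rw [s1, s2]; omega) (by rw [s1]; omega) h5.symm
  have h3 := card_le_card h1
  rw [card_union_of_disjoint h2', card_union_of_disjoint h2,
    card_image_of_injective _ (t3_inj _), card_image_of_injective _ (t3_inj _),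
    card_singleton] at h3
  exact h3

lemma not_iso_of_size {a b : BTree} (h : a.size ≠ b.size) : ¬ Iso a b := fun hi =>
  h (size_iso hi)

lemma f1_cherry : (fam cherry 1).card = 1 := by
  show (fam (.node .leaf .leaf) 1).card = 1
  rw [card_fam_one_leaf]
  show (fam .leaf 1).card + 0 = 1
  simp [fam]

lemma f1_cat3 : (fam cat3 1).card = 1 := by
  show (fam (.node .leaf cherry) 1).card = 1
  rw [card_fam_one_leaf, f1_cherry]
  rfl

lemma f1_side {L P : BTree} (hL : 2 ≤ L.size) (hP : L.size < P.size) :
    (fam (.node L P) 1).card = (fam L 1).card + (fam P 1).card := by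
  classical
  rw [card_fam_one_node hL (by omega), if_neg (not_iso_of_size (by omega))]

/-- a leaf above a branching -/
lemma f1_top {L P : BTree} (hL : 2 ≤ L.size) (hP : 2 ≤ P.size) :
    (fam (.node .leaf (.node L P)) 1).card = (fam (.node L P) 1).card + 1 := by
  rw [card_fam_one_leaf, branching_node hL hP]

lemma f1_block {P : BTree} (hP : 3 ≤ P.size) :
    (fam (.node .leaf (.node cherry P)) 1).card = (fam P 1).card + 2 := by
  have h : cherry.size = 2 := rfl
  rw [f1_top (by omega) (by omega), f1_side (by omega) (by omega), f1_cherry]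
  omega

/-- one block more -/
lemma t3_block {P : BTree} (hP : 5 ≤ P.size) :
    (fam P 2).card + 2 * (fam P 1).card ≤ (fam (.node .leaf (.node cherry P)) 2).card := by
  classical
  have h : cherry.size = 2 := rfl
  have h1 := t3_cherry P hP
  have h2 := t3_top (.node cherry P) 1 (by
    refine (card_le_card (t3_overlap (by omega) (by omega))).trans ?_
    rw [if_pos h, card_singleton])
  have h3 := f1_side (L := cherry) (P := P) (by omega) (by omega)
  rw [f1_cherry] at h3
  omega

lemma f1_alt (k : ℕ) {Z : BTree} (hZ : 3 ≤ Z.size) :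
    (fam (alt k Z) 1).card = (fam Z 1).card + 2 * k := by
  induction k with
  | zero => rfl
  | succ k ih =>
    show (fam (.node .leaf (.node cherry (alt k Z))) 1).card = _
    rw [f1_block (by rw [size_alt]; omega), ih]
    ring

lemma f2_alt (k : ℕ) {Z : BTree} (hZ : 5 ≤ Z.size) :
    (fam Z 2).card + 2 * k * (fam Z 1).card + 2 * k * k ≤ (fam (alt k Z) 2).card + 2 * k := by
  induction k with
  | zero => simp [alt]
  | succ k ih =>
    have h1 := t3_block (P := alt k Z) (by rw [size_alt]; omega)
    rw [f1_alt k (by omega)] at h1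
    show _ ≤ (fam (.node .leaf (.node cherry (alt k Z))) 2).card + _
    nlinarith

lemma fam_two_pos {T : BTree} (h : 2 ≤ T.size) : 1 ≤ (fam T 2).card := by
  have key : ∀ (T : BTree) (d : ℕ), d ≤ T.size → (fam T d).Nonempty := by
    intro T
    induction T with
    | leaf =>
      intro d hd
      have hs : (BTree.leaf).size = 1 := rfl
      rcases Nat.lt_or_ge d 1 with h | h
      · have : d = 0 := by omega
        subst this
        exact ⟨_, self_mem_fam _⟩
      · have : d = 1 := by omega
        subst this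
        exact ⟨none, mem_fam_leaf.2 (Or.inr ⟨rfl, rfl⟩)⟩
    | node l r ihl ihr =>
      intro d hd
      have hs : (BTree.node l r).size = l.size + r.size := rfl
      obtain ⟨a, ha⟩ := ihl (min d l.size) (min_le_right _ _)
      obtain ⟨b, hb⟩ := ihr (d - min d l.size) (by omega)
      exact ⟨_, mem_fam_node.2 ⟨min d l.size, d - min d l.size, by omega, a, ha, b, hb, rfl⟩⟩
  exact card_pos.2 (key T 2 h)

lemma low_base : 2 ≤ (fam (alt 1 cat3) 2).card := by
  classical
  have h : cherry.size = 2 := rfl
  have h' : cat3.size = 3 := rfl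
  have hs : (BTree.node cherry cat3).size = 5 := rfl
  show 2 ≤ (fam (.node .leaf (.node cherry cat3)) 2).card
  have h2 := t3_top (.node cherry cat3) 1 (by
    refine (card_le_card (t3_overlap (by omega) (by omega))).trans ?_
    rw [if_pos h, card_singleton])
  have h3 := f1_side (L := cherry) (P := cat3) (by omega) (by omega)
  rw [f1_cherry, f1_cat3] at h3
  have h4 := fam_two_pos (T := .node cherry cat3) (by omega)
  omega

theorem low_A (m : ℕ) (hm : 1 ≤ m) : 2 * m ^ 2 ≤ (fam (alt m cat3) 2).card := by
  induction m, hm using Nat.le_induction with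
  | base => exact low_base
  | succ m hm ih =>
    have h1 := t3_block (P := alt m cat3) (by rw [size_alt, size_cat3]; omega)
    rw [f1_alt m (by rw [size_cat3]), f1_cat3] at h1
    show _ ≤ (fam (.node .leaf (.node cherry (alt m cat3))) 2).card
    nlinarith

theorem low_B (i j : ℕ) (hj : 1 ≤ j) : 2 * (i + j) ^ 2 + 4 * (i + j) + 4 ≤
    (fam (alt i (.node .leaf (.node cat3 (alt j cat3)))) 2).card := by
  classical
  have h' : cat3.size = 3 := rfl
  have hP : (alt j cat3).size = 3 * j + 3 := size_alt j cat3
  have h1 := low_A j hj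
  have h2 := t3_cat3 (alt j cat3) (by omega)
  have h3 := t3_top (.node cat3 (alt j cat3)) 0 (by
    refine (card_le_card (t3_overlap (by omega) (by omega))).trans ?_
    rw [if_neg (by omega), card_empty])
  have h4 := f1_side (L := cat3) (P := alt j cat3) (by omega) (by omega)
  have h5 := f1_alt j (Z := cat3) (by omega)
  rw [f1_cat3] at h4 h5
  have h6 := f1_top (L := cat3) (P := alt j cat3) (by omega) (by omega)
  have hs : (BTree.node .leaf (.node cat3 (alt j cat3))).size = 1 + (3 + (alt j cat3).size) := rfl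
  have h7 := f2_alt i (Z := .node .leaf (.node cat3 (alt j cat3))) (by omega)
  rw [h6, h4, h5] at h7
  nlinarith

theorem low_E (i j : ℕ) : 2 * (i + j) ^ 2 + 2 * (i + j) + 1 ≤
    (fam (alt i (.node cherry (alt j cat3))) 2).card := by
  have h : cherry.size = 2 := rfl
  have h' : cat3.size = 3 := rfl
  have hP : (alt j cat3).size = 3 * j + 3 := size_alt j cat3
  have h4 := f1_side (L := cherry) (P := alt j cat3) (by omega) (by omega)
  have h5 := f1_alt j (Z := cat3) (by omega)
  rw [f1_cat3] at h5
  rw [f1_cherry] at h4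
  have hs : (BTree.node cherry (alt j cat3)).size = 2 + (alt j cat3).size := rfl
  have h7 := f2_alt i (Z := .node cherry (alt j cat3)) (by omega)
  rw [h4, h5] at h7
  have h8 : 2 * j ^ 2 + 2 * j + 1 ≤ (fam (.node cherry (alt j cat3)) 2).card := by
    rcases Nat.eq_zero_or_pos j with rfl | hj
    · exact fam_two_pos (by omega)
    · have h1 := low_A j hj
      have h2 := t3_cherry (alt j cat3) (by omega)
      rw [h5] at h2
      omega
  nlinarith

theorem low_E' (i : ℕ) : 2 * i ^ 2 + 2 * i + 1 ≤
    (fam (alt i (.node .leaf (.node cherry cherry))) 2).card := by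
  classical
  have h : cherry.size = 2 := rfl
  have h4 : (fam (.node cherry cherry) 1).card = 1 := by
    rw [card_fam_one_node (by omega) (by omega), if_pos (Iso.refl _), f1_cherry]
  have h6 := f1_top (L := cherry) (P := cherry) (by omega) (by omega)
  have hs : (BTree.node .leaf (.node cherry cherry)).size = 5 := rfl
  have h7 := f2_alt i (Z := .node .leaf (.node cherry cherry)) (by omega)
  rw [h6, h4] at h7
  have h8 := fam_two_pos (T := .node .leaf (.node cherry cherry)) (by omega)
  nlinarith

end LeafDeck
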