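import Pool.Agent.LeafDeck.TwoMain
import Pool.Agent.LeafDeck.TwoLower

/-!
Two deleted leaves: the exact maximum and all trees attaining it.
-/

set_option autoImplicit false

namespace LeafDeck

open Finset BTree

lemma isoT_size {T U : BTree} (h : Iso T U) : T.size = U.size := size_iso h

/-- `n = 3 m` -/
lemma up_A {T : BTree} {m : ℕ} (hm : 3 ≤ m) (hT : T.size = 3 * m) :
    F2 T ≤ 2 * ((m : ℤ) - 1) ^ 2 ∧
      (F2 T = 2 * ((m : ℤ) - 1) ^ 2 → Iso T (alt (m - 1) cat3)) := by
  obtain ⟨x, hg, h⟩ := hyp T (by omega)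
  obtain ⟨h3, h4, h5⟩ := low_of h
  have hm' : (3 : ℤ) ≤ m := by exact_mod_cast hm
  have hx0 : 0 ≤ x := (F1_nonneg T).trans hg.1
  have hs : (T.size : ℤ) = 3 * m := by exact_mod_cast hT
  rw [dd, hs] at h3
  rw [psi, hs] at h4 h5
  obtain ⟨k, hk⟩ : ∃ k : ℤ, x = 2 * m - 1 - k := ⟨2 * m - 1 - x, by ring⟩
  have hk0 : 0 ≤ k := by omega
  have hg2 := hg.2
  rcases eq_or_lt_of_le hk0 with h0 | h0
  · have hx : x = 2 * m - 1 := by omega
    constructor
    · rw [hx] at h4
      nlinarith
    · intro he
      obtain ⟨a, b, h6, h7⟩ := h5 (by rw [he, hx]; ring)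
      have h8 := h6.size
      have hb : b = 0 := by omega
      have ha : a = m - 1 := by omega
      rw [← ha]
      exact h6.zero hb
  · have key : F2 T < 2 * ((m : ℤ) - 1) ^ 2 := by
      rcases lt_or_ge k (4 * m - 10) with h6 | h6
      · have h7 : k * (4 * m - 10 - k) ≥ 1 := by nlinarith
        rw [hk] at h4
        nlinarith
      · have h7 : x ≤ 3 := by omega
        nlinarith
    exact ⟨key.le, fun he => absurd he (by linarith)⟩

/-- `n = 3 m + 1` -/
lemma up_B {T : BTree} {m : ℕ} (hm : 3 ≤ m) (hT : T.size = 3 * m + 1) :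
    F2 T ≤ 2 * ((m : ℤ) - 1) ^ 2 + 2 ∧
      (F2 T = 2 * ((m : ℤ) - 1) ^ 2 + 2 → ∃ i j, i + j = m - 2 ∧ 1 ≤ j ∧
        Iso T (alt i (.node .leaf (.node cat3 (alt j cat3))))) := by
  obtain ⟨x, hg, h⟩ := hyp T (by omega)
  obtain ⟨h3, h4, h5⟩ := low_of h
  have hm' : (3 : ℤ) ≤ m := by exact_mod_cast hm
  have hx0 : 0 ≤ x := (F1_nonneg T).trans hg.1
  have hs : (T.size : ℤ) = 3 * m + 1 := by exact_mod_cast hT
  rw [dd, hs] at h3
  rw [psi, hs] at h4 h5
  obtain ⟨k, hk⟩ : ∃ k : ℤ, x = 2 * m - 1 - k := ⟨2 * m - 1 - x, by ring⟩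
  have hk0 : 0 ≤ k := by omega
  have hg2 := hg.2
  rcases eq_or_lt_of_le hk0 with h0 | h0
  · have hx : x = 2 * m - 1 := by omega
    constructor
    · rw [hx] at h4
      nlinarith
    · intro he
      obtain ⟨a, b, h6, h7⟩ := h5 (by rw [he, hx]; ring)
      have h8 := h6.size
      have hb : b = 1 := by omega
      have ha : a = m - 2 := by omega
      rw [← ha]
      exact h6.one hb
  · have key : F2 T < 2 * ((m : ℤ) - 1) ^ 2 + 2 := by
      rcases lt_or_ge k (4 * m - 10) with h6 | h6
      · have h7 : k * (4 * m - 10 - k) ≥ 1 := by nlinarith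
        rw [hk] at h4
        nlinarith
      · have h7 : x ≤ 3 := by omega
        nlinarith
    exact ⟨key.le, fun he => absurd he (by linarith)⟩

/-- `n = 3 m + 2` -/
lemma up_E {T : BTree} {m : ℕ} (hm : 3 ≤ m) (hT : T.size = 3 * m + 2) :
    F2 T ≤ 2 * (m : ℤ) * (m - 1) + 1 ∧
      (F2 T = 2 * (m : ℤ) * (m - 1) + 1 →
        (∃ i j, i + j = m - 1 ∧ Iso T (alt i (.node cherry (alt j cat3)))) ∨
          Iso T (alt (m - 1) (.node .leaf (.node cherry cherry)))) := by
  obtain ⟨x, hg, h⟩ := hyp T (by omega)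
  obtain ⟨h3, h4, -⟩ := low_of h
  have hm' : (3 : ℤ) ≤ m := by exact_mod_cast hm
  have hx0 : 0 ≤ x := (F1_nonneg T).trans hg.1
  have hs : (T.size : ℤ) = 3 * m + 2 := by exact_mod_cast hT
  rw [dd, hs] at h3
  rw [psi, hs] at h4
  obtain ⟨k, hk⟩ : ∃ k : ℤ, x = 2 * m - k := ⟨2 * m - x, by ring⟩
  have hk0 : 0 ≤ k := by omega
  have hg2 := hg.2
  rcases eq_or_lt_of_le hk0 with h0 | h0
  · have hx : x = 2 * m := by omega
    constructor
    · have h6 : 2 * F2 T ≤ 2 * (2 * (m : ℤ) * (m - 1) + 1) + 1 := by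
        rw [hx] at h4
        nlinarith
      omega
    · intro he
      have hp : psi T x = 6 := by
        rw [psi, hs, he, hx]
        ring
      have hd : dd T x = 4 := by
        rw [dd, hs, hx]
        ring
      have form : (∃ i j, Iso T (alt i (.node cherry (alt j cat3)))) ∨
          ∃ i, Iso T (alt i (.node .leaf (.node cherry cherry))) := by
        rcases h with h | h | h
        · obtain ⟨Q, _, _, _, _, _, h7, _⟩ := h
          exact (h7 hp hd).form
        · obtain ⟨P, _, h8, _, _, h7, _⟩ := h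
          obtain ⟨a, b, h9, h10⟩ := h7 hp
          have h11 := h9.size
          have h12 : T.size = 2 + P.size := by
            rw [size_iso h8]
            rfl
          have hb : b = 0 := by omega
          exact Or.inl ⟨0, a, h8.trans (Iso.node (Iso.refl _) (h9.zero hb))⟩
        · obtain ⟨X, Y, _, _, _, _, h7, _⟩ := h
          exfalso
          linarith
      rcases form with ⟨i, j, h7⟩ | ⟨i, h7⟩
      · left
        refine ⟨i, j, ?_, h7⟩
        have h8 := size_iso h7
        rw [size_alt, hT] at h8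
        have h9 : (BTree.node cherry (alt j cat3)).size = 2 + (alt j cat3).size := rfl
        rw [h9, size_alt, size_cat3] at h8
        omega
      · right
        have h8 := size_iso h7
        rw [size_alt, hT] at h8
        have h9 : (BTree.node .leaf (.node cherry cherry)).size = 5 := rfl
        rw [h9] at h8
        have hi : i = m - 1 := by omega
        rw [← hi]
        exact h7
  · have key : F2 T < 2 * (m : ℤ) * (m - 1) + 1 := by
      rcases lt_or_ge k (4 * m - 8) with h6 | h6
      · have h7 : k * (4 * m - 8 - k) ≥ 2 := by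
          rcases eq_or_lt_of_le (by linarith : (1 : ℤ) ≤ k) with h8 | h8
          · rw [← h8]
            linarith
          · nlinarith
        rw [hk] at h4
        nlinarith
      · have h7 : x ≤ 2 := by omega
        nlinarith
    exact ⟨key.le, fun he => absurd he (by linarith)⟩

/-! ### decks -/

lemma maxDeck_eq {n j v : ℕ} (h1 : ∀ T : BTree, T.size = n → (deck T j).ncard ≤ v)
    (h2 : ∃ T : BTree, T.size = n ∧ (deck T j).ncard = v) : maxDeck n j = v := by
  refine IsGreatest.csSup_eq ⟨h2, ?_⟩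
  rintro k ⟨T, hT, rfl⟩
  exact h1 T hT

lemma deck_two {T : BTree} {n : ℕ} (hn : 3 ≤ n) (hT : T.size = n) :
    ((deck T (n - 2)).ncard : ℤ) = F2 T := by
  rw [F2, card_fam_eq (T := T) (d := 2) (by omega), hT]

/-- the line `j = n - 2` -/
theorem two_main (m : ℕ) (hm : 3 ≤ m) :
    (maxDeck (3 * m) (3 * m - 2) = 2 * (m - 1) ^ 2 ∧
      ∀ T : BTree, T.size = 3 * m →
        ((deck T (3 * m - 2)).ncard = maxDeck (3 * m) (3 * m - 2) ↔
          Iso T (alt (m - 1) cat3))) ∧
    (maxDeck (3 * m + 1) (3 * m - 1) = 2 * (m - 1) ^ 2 + 2 ∧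
      ∀ T : BTree, T.size = 3 * m + 1 →
        ((deck T (3 * m - 1)).ncard = maxDeck (3 * m + 1) (3 * m - 1) ↔
          ∃ i j, i + j = m - 2 ∧ 1 ≤ j ∧
            Iso T (alt i (.node .leaf (.node cat3 (alt j cat3)))))) ∧
    (maxDeck (3 * m + 2) (3 * m) = 2 * m * (m - 1) + 1 ∧
      ∀ T : BTree, T.size = 3 * m + 2 →
        ((deck T (3 * m)).ncard = maxDeck (3 * m + 2) (3 * m) ↔
          (∃ i j, i + j = m - 1 ∧ Iso T (alt i (.node cherry (alt j cat3)))) ∨
            Iso T (alt (m - 1) (.node .leaf (.node cherry cherry))))) := by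
  obtain ⟨m, rfl⟩ : ∃ k, m = k + 2 := ⟨m - 2, by omega⟩
  have e1 : m + 2 - 1 = m + 1 := by omega
  have e2 : m + 2 - 2 = m := by omega
  rw [e1, e2]
  refine ⟨?_, ?_, ?_⟩
  · have up : ∀ T : BTree, T.size = 3 * (m + 2) →
        (deck T (3 * (m + 2) - 2)).ncard ≤ 2 * (m + 1) ^ 2 := by
      intro T hT
      have h1 := (up_A hm hT).1
      rw [← deck_two (by omega) hT] at h1
      push_cast at h1
      have h2 : ((deck T (3 * (m + 2) - 2)).ncard : ℤ) ≤ 2 * (m + 1) ^ 2 := by
        nlinarith
      exact_mod_cast h2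
    have low : ∀ T : BTree, Iso T (alt (m + 1) cat3) →
        2 * (m + 1) ^ 2 ≤ (deck T (3 * (m + 2) - 2)).ncard := by
      intro T hT
      have hsz : T.size = 3 * (m + 2) := by
        rw [size_iso hT, size_alt, size_cat3]
        ring
      have h1 := low_A (m + 1) (by omega)
      rw [← fam_iso hT] at h1
      have h2 := deck_two (by omega) hsz
      have h3 : (deck T (3 * (m + 2) - 2)).ncard = (fam T 2).card := by exact_mod_cast h2
      rw [h3]
      exact h1
    have hmax : maxDeck (3 * (m + 2)) (3 * (m + 2) - 2) = 2 * (m + 1) ^ 2 := by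
      have hsz : (alt (m + 1) cat3).size = 3 * (m + 2) := by
        rw [size_alt, size_cat3]
        ring
      exact maxDeck_eq up ⟨_, hsz, le_antisymm (up _ hsz) (low _ (Iso.refl _))⟩
    refine ⟨hmax, fun T hT => ?_⟩
    rw [hmax]
    constructor
    · intro h
      have h1 := (up_A hm hT).2
      rw [← deck_two (by omega) hT, h] at h1
      refine h1 ?_
      push_cast
      ring
    · intro h
      exact le_antisymm (up T hT) (low T h)
  · have up : ∀ T : BTree, T.size = 3 * (m + 2) + 1 →
        (deck T (3 * (m + 2) - 1)).ncard ≤ 2 * (m + 1) ^ 2 + 2 := by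
      intro T hT
      have h1 := (up_B hm hT).1
      rw [← deck_two (by omega) hT] at h1
      push_cast at h1
      have h2 : ((deck T (3 * (m + 2) - 1)).ncard : ℤ) ≤ 2 * (m + 1) ^ 2 + 2 := by
        nlinarith
      exact_mod_cast h2
    have low : ∀ (T : BTree) (i j : ℕ), i + j = m → 1 ≤ j →
        Iso T (alt i (.node .leaf (.node cat3 (alt j cat3)))) →
        2 * (m + 1) ^ 2 + 2 ≤ (deck T (3 * (m + 2) - 1)).ncard := by
      intro T i j hij hj hT
      have hsz : T.size = 3 * (m + 2) + 1 := by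
        rw [size_iso hT, size_alt]
        show 3 * i + (1 + (3 + (alt j cat3).size)) = _
        rw [size_alt, size_cat3]
        omega
      have h1 := low_B i j hj
      rw [← fam_iso hT, hij] at h1
      have h2 := deck_two (by omega) hsz
      have e : 3 * (m + 2) + 1 - 2 = 3 * (m + 2) - 1 := by omega
      rw [e] at h2
      have h3 : (deck T (3 * (m + 2) - 1)).ncard = (fam T 2).card := by exact_mod_cast h2
      rw [h3]
      nlinarith
    have hmax : maxDeck (3 * (m + 2) + 1) (3 * (m + 2) - 1) = 2 * (m + 1) ^ 2 + 2 := by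
      have hsz : (alt 0 (.node .leaf (.node cat3 (alt m cat3)))).size = 3 * (m + 2) + 1 := by
        show 1 + (3 + (alt m cat3).size) = _
        rw [size_alt, size_cat3]
        ring
      exact maxDeck_eq up ⟨_, hsz, le_antisymm (up _ hsz)
        (low _ 0 m (by omega) (by omega) (Iso.refl _))⟩
    refine ⟨hmax, fun T hT => ?_⟩
    rw [hmax]
    constructor
    · intro h
      have h1 := (up_B hm hT).2
      have e : 3 * (m + 2) + 1 - 2 = 3 * (m + 2) - 1 := by omega
      rw [← deck_two (by omega) hT, e, h] at h1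
      have h2 := h1 (by push_cast; ring)
      rwa [e2] at h2
    · rintro ⟨i, j, h1, h2, h3⟩
      exact le_antisymm (up T hT) (low T i j h1 h2 h3)
  · have up : ∀ T : BTree, T.size = 3 * (m + 2) + 2 →
        (deck T (3 * (m + 2))).ncard ≤ 2 * (m + 2) * (m + 1) + 1 := by
      intro T hT
      have h1 := (up_E hm hT).1
      rw [← deck_two (by omega) hT] at h1
      push_cast at h1
      have h2 : ((deck T (3 * (m + 2))).ncard : ℤ) ≤ 2 * (m + 2) * (m + 1) + 1 := by
        nlinarith
      exact_mod_cast h2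
    have lowE : ∀ (T : BTree) (i j : ℕ), i + j = m + 1 →
        Iso T (alt i (.node cherry (alt j cat3))) →
        2 * (m + 2) * (m + 1) + 1 ≤ (deck T (3 * (m + 2))).ncard := by
      intro T i j hij hT
      have hsz : T.size = 3 * (m + 2) + 2 := by
        rw [size_iso hT, size_alt]
        show 3 * i + (2 + (alt j cat3).size) = _
        rw [size_alt, size_cat3]
        omega
      have h1 := low_E i j
      rw [← fam_iso hT, hij] at h1
      have h2 := deck_two (by omega) hsz
      have e : 3 * (m + 2) + 2 - 2 = 3 * (m + 2) := by omega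
      rw [e] at h2
      have h3 : (deck T (3 * (m + 2))).ncard = (fam T 2).card := by exact_mod_cast h2
      rw [h3]
      nlinarith
    have lowE' : ∀ T : BTree, Iso T (alt (m + 1) (.node .leaf (.node cherry cherry))) →
        2 * (m + 2) * (m + 1) + 1 ≤ (deck T (3 * (m + 2))).ncard := by
      intro T hT
      have hsz : T.size = 3 * (m + 2) + 2 := by
        rw [size_iso hT, size_alt]
        show 3 * (m + 1) + 5 = _
        omega
      have h1 := low_E' (m + 1)
      rw [← fam_iso hT] at h1
      have h2 := deck_two (by omega) hsz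
      have e : 3 * (m + 2) + 2 - 2 = 3 * (m + 2) := by omega
      rw [e] at h2
      have h3 : (deck T (3 * (m + 2))).ncard = (fam T 2).card := by exact_mod_cast h2
      rw [h3]
      nlinarith
    have hmax : maxDeck (3 * (m + 2) + 2) (3 * (m + 2)) = 2 * (m + 2) * (m + 1) + 1 := by
      have hsz : (alt 0 (.node cherry (alt (m + 1) cat3))).size = 3 * (m + 2) + 2 := by
        show 2 + (alt (m + 1) cat3).size = _
        rw [size_alt, size_cat3]
        ring
      exact maxDeck_eq up ⟨_, hsz, le_antisymm (up _ hsz)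
        (lowE _ 0 (m + 1) (by omega) (Iso.refl _))⟩
    refine ⟨hmax, fun T hT => ?_⟩
    rw [hmax]
    constructor
    · intro h
      have h1 := (up_E hm hT).2
      have e : 3 * (m + 2) + 2 - 2 = 3 * (m + 2) := by omega
      rw [← deck_two (by omega) hT, e, h] at h1
      have h2 := h1 (by push_cast; ring)
      rwa [e1] at h2
    · rintro (⟨i, j, h1, h3⟩ | h3)
      · exact le_antisymm (up T hT) (lowE T i j h1 h3)
      · exact le_antisymm (up T hT) (lowE' T h3)

end LeafDeck
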