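import Pool.Agent.LeafDeck.Lin3
import Pool.Agent.LeafDeck.Two
import Pool.Agent.LeafDeck.ExactVal
import Pool.Agent.LeafDeck.OneSer
import Pool.Agent.LeafDeck.OneTT
import Pool.Agent.LeafDeck.OneNum
import Pool.Agent.LeafDeck.Cmp15

/-!
The exact solution for few deleted leaves: assembly.
-/

set_option autoImplicit false

namespace LeafDeck

open Finset BTree PowerSeries

/-- the trees which are not extremal -/
lemma gen_lt {T : BTree} {N b d : ℕ} (hd : 1 ≤ d) (hb1 : 1 ≤ b) (hb2 : b ≤ 2)
    (hN : 15 * d ≤ N) (hT : T.size = 3 * N + 1 + 2 * b) (h : Gen T) :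
    (fam T d).card < val b N d := by
  obtain ⟨K, c, e, h1, h2, h3, h4⟩ := h
  rw [← coeff_ff]
  refine ((((ff_le_gg T).trans h2) d).trans_lt ?_).trans_le (coeff_le_val b N d)
  obtain ⟨x, hx⟩ : ∃ x, 2 * K + c + x = 2 * N + b := ⟨2 * N + b - (2 * K + c), by omega⟩
  exact compare15 hd hb1 hb2 hx (by omega) (by omega) (by omega)

/-- the extremal trees for `n = 3 N + 5` -/
def IsE (N : ℕ) (T : BTree) : Prop :=
  (∃ i j, i + j = N ∧ Iso T (alt i (.node cherry (alt j cat3)))) ∨
    Iso T (alt N (.node .leaf (.node cherry cherry)))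

lemma card_isE {N d : ℕ} (hd : d ≤ 3 * N + 2) {T : BTree} (h : IsE N T) :
    (fam T d).card = val 2 N d := by
  rcases h with ⟨i, j, rfl, h⟩ | h
  · rw [fam_iso h]
    exact card_cher i j d hd
  · rw [fam_iso h]
    exact card_base N d hd

lemma EE.isE {T : BTree} {N : ℕ} (h : EE T) (hT : T.size = 3 * N + 5) : IsE N T := by
  rcases h.form with ⟨i, j, h7⟩ | ⟨i, h7⟩
  · left
    refine ⟨i, j, ?_, h7⟩
    have h8 := size_iso h7
    rw [size_alt, hT] at h8
    have h9 : (BTree.node cherry (alt j cat3)).size = 2 + (alt j cat3).size := rfl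
    rw [h9, size_alt, size_cat3] at h8
    omega
  · right
    have h8 := size_iso h7
    rw [size_alt, hT] at h8
    have h9 : (BTree.node .leaf (.node cherry cherry)).size = 5 := rfl
    rw [h9] at h8
    have hi : i = N := by omega
    rw [← hi]
    exact h7

/-- the exact solution for `n = 3 N + 3` -/
theorem exact_zero {N d : ℕ} (hd : 1 ≤ d) (hN : 15 * d ≤ N) :
    maxDeck (3 * N + 3) (3 * N + 3 - d) = val 1 N d ∧
      ∀ T : BTree, T.size = 3 * N + 3 →
        ((deck T (3 * N + 3 - d)).ncard = maxDeck (3 * N + 3) (3 * N + 3 - d) ↔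
          Iso T (alt N cat3)) := by
  have hsz : (alt N cat3).size = 3 * N + 3 := by rw [size_alt, size_cat3]
  have hA : ∀ T : BTree, Iso T (alt N cat3) →
      (deck T (3 * N + 3 - d)).ncard = val 1 N d := by
    intro T hT
    have h1 : T.size = 3 * N + 3 := by rw [size_iso hT, hsz]
    have h2 := card_fam_eq (T := T) (d := d) (by omega)
    rw [h1] at h2
    rw [← h2, fam_iso hT]
    exact card_alt N d (by omega)
  have up : ∀ T : BTree, T.size = 3 * N + 3 → (Iso T (alt N cat3)) ∨
      (deck T (3 * N + 3 - d)).ncard < val 1 N d := by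
    intro T hT
    rcases hyp2 T (by omega) with ⟨k, h⟩ | h | h
    · left
      have h1 := size_iso h
      rw [hT, size_alt, size_cat3] at h1
      have hk : k = N := by omega
      rw [← hk]
      exact h
    · obtain ⟨k, h1, _⟩ := h.gg
      omega
    · right
      have h2 := card_fam_eq (T := T) (d := d) (by omega)
      rw [hT] at h2
      rw [← h2]
      exact gen_lt hd le_rfl (by omega) hN (by omega) h
  have hmax : maxDeck (3 * N + 3) (3 * N + 3 - d) = val 1 N d := by
    refine maxDeck_eq (fun T hT => ?_) ⟨_, hsz, hA _ (Iso.refl _)⟩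
    rcases up T hT with h | h
    · exact (hA T h).le
    · exact h.le
  refine ⟨hmax, fun T hT => ?_⟩
  rw [hmax]
  constructor
  · intro h
    rcases up T hT with h1 | h1
    · exact h1
    · omega
  · exact hA T

/-- the exact solution for `n = 3 N + 5` -/
theorem exact_two {N d : ℕ} (hd : 1 ≤ d) (hN : 15 * d ≤ N) :
    maxDeck (3 * N + 5) (3 * N + 5 - d) = val 2 N d ∧
      ∀ T : BTree, T.size = 3 * N + 5 →
        ((deck T (3 * N + 5 - d)).ncard = maxDeck (3 * N + 5) (3 * N + 5 - d) ↔ IsE N T) := by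
  have hE : ∀ T : BTree, T.size = 3 * N + 5 → IsE N T →
      (deck T (3 * N + 5 - d)).ncard = val 2 N d := by
    intro T h1 hT
    have h2 := card_fam_eq (T := T) (d := d) (by omega)
    rw [h1] at h2
    rw [← h2]
    exact card_isE (by omega) hT
  have up : ∀ T : BTree, T.size = 3 * N + 5 → IsE N T ∨
      (deck T (3 * N + 5 - d)).ncard < val 2 N d := by
    intro T hT
    rcases hyp2 T (by omega) with ⟨k, h⟩ | h | h
    · have h1 := size_iso h
      rw [hT, size_alt, size_cat3] at h1
      omega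
    · exact Or.inl (h.isE hT)
    · right
      have h2 := card_fam_eq (T := T) (d := d) (by omega)
      rw [hT] at h2
      rw [← h2]
      exact gen_lt hd (by omega) le_rfl hN (by omega) h
  have hmax : maxDeck (3 * N + 5) (3 * N + 5 - d) = val 2 N d := by
    have hsz : (alt N (.node .leaf (.node cherry cherry))).size = 3 * N + 5 := by
      rw [size_alt]
      rfl
    refine maxDeck_eq (fun T hT => ?_) ⟨_, hsz, hE _ hsz (Or.inr (Iso.refl _))⟩
    rcases up T hT with h | h
    · exact (hE T hT h).le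
    · exact h.le
  refine ⟨hmax, fun T hT => ?_⟩
  rw [hmax]
  constructor
  · intro h
    rcases up T hT with h1 | h1
    · exact h1
    · omega
  · exact hE T hT

/-! ### `n = 3 N + 4` -/

lemma gen6_lt {T : BTree} {N d : ℕ} (hd : 1 ≤ d) (hN : 15 * d ≤ N) (hT : T.size = 3 * N + 4)
    (h : Gen6 T) : (fam T d).card < coeff d (VV N) := by
  obtain ⟨K, c, e, h1, h2, h3, h4⟩ := h
  rw [← coeff_ff]
  obtain ⟨x, hx⟩ : ∃ x, 2 * K + c + x = 2 * N + 1 := ⟨2 * N + 1 - (2 * K + c), by omega⟩
  have h5 := compare15 hd le_rfl (by omega) hx (e := e) (by omega) (by omega) (by omega)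
  rw [pow_one] at h5
  exact ((((ff_le_gg T).trans h2) d).trans_lt h5).trans_le (tt_le_VV (by omega) d)

/-- the trees `TT i j` -/
lemma TT_cases {i j N d : ℕ} (hj : 1 ≤ j) (hij : i + j + 1 = N) (_ : 2 ≤ d)
    (hN : 15 * d ≤ N) : ((d < 3 * i + 3 ∧ d < 3 * j + 1) ∧
      (fam (TT i j) d).card = coeff d (VV N)) ∨
      (¬ (d < 3 * i + 3 ∧ d < 3 * j + 1) ∧ (fam (TT i j) d).card < coeff d (VV N)) := by
  subst hij
  rw [← coeff_ff]
  rcases Nat.lt_or_ge d (3 * j + 1) with h1 | h1
  · rw [TT_exact hj (by omega)]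
    rcases Nat.lt_or_ge d (3 * i + 3) with h2 | h2
    · exact Or.inl ⟨⟨h2, h1⟩, WW_eq h2 (by omega)⟩
    · exact Or.inr ⟨by omega, WW_lt h2 (by omega)⟩
  · right
    refine ⟨by omega, ?_⟩
    have h2 := TT_upper (i := i) (d := d) hj
    have h3 := compare_bottom (i := i) h1 (by omega)
    have h4 := WW_le i j d
    rw [map_add] at h2
    omega

/-- the exact solution for `n = 3 N + 4` -/
theorem exact_one {N d : ℕ} (hd : 2 ≤ d) (hN : 15 * d ≤ N) :
    maxDeck (3 * N + 4) (3 * N + 4 - d) = valO N d ∧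
      ∀ T : BTree, T.size = 3 * N + 4 →
        ((deck T (3 * N + 4 - d)).ncard = maxDeck (3 * N + 4) (3 * N + 4 - d) ↔
          ∃ i j, i + j + 1 = N ∧ d < 3 * i + 3 ∧ d < 3 * j + 1 ∧ Iso T (TT i j)) := by
  rw [← coeff_VV (by omega)]
  have hE : ∀ T : BTree, T.size = 3 * N + 4 →
      (∃ i j, i + j + 1 = N ∧ d < 3 * i + 3 ∧ d < 3 * j + 1 ∧ Iso T (TT i j)) →
      (deck T (3 * N + 4 - d)).ncard = coeff d (VV N) := by
    rintro T h1 ⟨i, j, hij, hi, hj, hT⟩
    have h2 := card_fam_eq (T := T) (d := d) (by omega)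
    rw [h1] at h2
    rw [← h2, fam_iso hT]
    rcases TT_cases (by omega) hij hd hN with ⟨_, h3⟩ | ⟨h3, _⟩
    · exact h3
    · exact absurd ⟨hi, hj⟩ h3
  have up : ∀ T : BTree, T.size = 3 * N + 4 →
      (∃ i j, i + j + 1 = N ∧ d < 3 * i + 3 ∧ d < 3 * j + 1 ∧ Iso T (TT i j)) ∨
      (deck T (3 * N + 4 - d)).ncard < coeff d (VV N) := by
    intro T hT
    have h2 := card_fam_eq (T := T) (d := d) (by omega)
    rw [hT] at h2
    rw [← h2]
    rcases hyp3 T (by omega) with ⟨k, h⟩ | h | h | h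
    · have h1 := size_iso h
      rw [hT, size_alt, size_cat3] at h1
      omega
    · obtain ⟨k, h1, _⟩ := h.gg
      omega
    · rcases h with ⟨i, j, hj, h⟩ | h
      · have h1 := size_iso h
        rw [hT, size_TT] at h1
        rw [fam_iso h]
        rcases TT_cases (i := i) (j := j) hj (by omega) hd hN with ⟨h3, _⟩ | ⟨_, h3⟩
        · exact Or.inl ⟨i, j, by omega, h3.1, h3.2, h⟩
        · exact Or.inr h3
      · right
        rw [← coeff_ff]
        exact ((((ff_le_gg T).trans (five_bound (by omega) hT h)) d).trans_lt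
          (compare_five hd (by omega)))
    · exact Or.inr (gen6_lt (by omega) hN hT h)
  have hmax : maxDeck (3 * N + 4) (3 * N + 4 - d) = coeff d (VV N) := by
    have hex : ∃ i j, i + j + 1 = N ∧ d < 3 * i + 3 ∧ d < 3 * j + 1 ∧
        Iso (TT d (N - 1 - d)) (TT i j) :=
      ⟨d, N - 1 - d, by omega, by omega, by omega, Iso.refl _⟩
    have hsz : (TT d (N - 1 - d)).size = 3 * N + 4 := by
      rw [size_TT]
      omega
    refine maxDeck_eq (fun T hT => ?_) ⟨_, hsz, hE _ hsz hex⟩
    rcases up T hT with h | h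
    · exact (hE T hT h).le
    · exact h.le
  refine ⟨hmax, fun T hT => ?_⟩
  rw [hmax]
  constructor
  · intro h
    rcases up T hT with h1 | h1
    · exact h1
    · omega
  · exact hE T hT

end LeafDeck
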