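import Pool.Agent.LeafDeck.Exact

/-!
The exact solution for few deleted leaves: the final statement.
-/

set_option autoImplicit false

namespace LeafDeck

open Finset BTree

lemma two_choose_two (N : ℕ) : 2 * N.choose 2 + N = N * N := by
  induction N with
  | zero => rfl
  | succ N ih =>
    have h : (N + 1).choose 2 = N.choose 1 + N.choose 2 := rfl
    rw [h, Nat.choose_one_right]
    nlinarith

lemma val_one_two (N : ℕ) : val 1 N 2 = 2 * N ^ 2 := by
  have h : val 1 N 2 = 4 * N.choose 2 + 2 * N.choose 1 := by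
    simp [val, sum_range_succ]
  have h2 := two_choose_two N
  rw [h, Nat.choose_one_right]
  nlinarith

lemma val_two_two (N : ℕ) : val 2 N 2 = 2 * (N + 1) * N + 1 := by
  have h : val 2 N 2 = 4 * N.choose 2 + 2 * 2 * N.choose 1 + 1 := by
    simp [val, sum_range_succ]
  have h2 := two_choose_two N
  rw [h, Nat.choose_one_right]
  nlinarith

lemma valO_two (N : ℕ) : valO (N + 1) 2 = 2 * (N + 1) ^ 2 + 2 := by
  have h : valO (N + 1) 2 = 4 * N.choose 2 + 3 * 2 * N.choose 1 + 4 := by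
    simp [valO, cf, sum_range_succ]
  have h2 := two_choose_two N
  rw [h, Nat.choose_one_right]
  nlinarith

/-- the exact solution -/
theorem exact_main {N d : ℕ} (h : (1 ≤ d ∧ 15 * d ≤ N) ∨ (d = 2 ∧ 2 ≤ N)) :
    (maxDeck (3 * N + 3) (3 * N + 3 - d) = val 1 N d ∧
      ∀ T : BTree, T.size = 3 * N + 3 →
        ((deck T (3 * N + 3 - d)).ncard = maxDeck (3 * N + 3) (3 * N + 3 - d) ↔
          Iso T (alt N cat3))) ∧
    (maxDeck (3 * N + 5) (3 * N + 5 - d) = val 2 N d ∧
      ∀ T : BTree, T.size = 3 * N + 5 →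
        ((deck T (3 * N + 5 - d)).ncard = maxDeck (3 * N + 5) (3 * N + 5 - d) ↔
          (∃ i j, i + j = N ∧ Iso T (alt i (.node cherry (alt j cat3)))) ∨
            Iso T (alt N (.node .leaf (.node cherry cherry))))) ∧
    (2 ≤ d → maxDeck (3 * N + 4) (3 * N + 4 - d) = valO N d ∧
      ∀ T : BTree, T.size = 3 * N + 4 →
        ((deck T (3 * N + 4 - d)).ncard = maxDeck (3 * N + 4) (3 * N + 4 - d) ↔
          ∃ i j, i + j + 1 = N ∧ d < 3 * i + 3 ∧ d < 3 * j + 1 ∧
            Iso T (alt i (.node .leaf (.node cat3 (alt j cat3)))))) := by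
  rcases h with ⟨hd, hN⟩ | ⟨rfl, hN⟩
  · exact ⟨exact_zero hd hN, exact_two hd hN, fun hd2 => exact_one hd2 hN⟩
  · have h := two_main (N + 1) (by omega)
    obtain ⟨⟨a1, a2⟩, ⟨b1, b2⟩, ⟨c1, c2⟩⟩ := h
    have e1 : 3 * (N + 1) = 3 * N + 3 := by ring
    have e2 : 3 * (N + 1) - 2 = 3 * N + 3 - 2 := by omega
    have e3 : 3 * (N + 1) + 1 = 3 * N + 4 := by ring
    have e4 : 3 * (N + 1) - 1 = 3 * N + 4 - 2 := by omega
    have e5 : 3 * (N + 1) + 2 = 3 * N + 5 := by ring
    have e6 : 3 * (N + 1) = 3 * N + 5 - 2 := by omega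
    have e7 : N + 1 - 1 = N := by omega
    have e8 : N + 1 - 2 = N - 1 := by omega
    refine ⟨⟨?_, ?_⟩, ⟨?_, ?_⟩, fun _ => ⟨?_, ?_⟩⟩
    · rw [e7] at a1
      rw [val_one_two]
      exact a1
    · rw [e7] at a2
      exact a2
    · rw [e5, e7] at c1
      rw [e6] at c1
      rw [c1, val_two_two]
    · rw [e5, e7] at c2
      rw [e6] at c2
      exact c2
    · rw [e3, e4, e7] at b1
      obtain ⟨M, rfl⟩ : ∃ M, N = M + 1 := ⟨N - 1, by omega⟩
      rw [b1, valO_two]
    · rw [e3, e4, e8] at b2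
      intro T hT
      rw [b2 T hT]
      constructor
      · rintro ⟨i, j, h1, h2, h3⟩
        exact ⟨i, j, by omega, by omega, by omega, h3⟩
      · rintro ⟨i, j, h1, _, h2, h3⟩
        exact ⟨i, j, by omega, by omega, h3⟩

end LeafDeck
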