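import Pool.Agent.LeafDeck.Fam

/-!
The upper bound (helper76) by generating series, `upper`, `coeff_uu`, `coeff_uv`.
Part 1: coefficientwise comparison of power series with natural coefficients, and the
series `(1 - z)⁻¹` and `(1 - z ^ 2)⁻¹`. Part 2: the families of deletions.
-/

set_option autoImplicit false

namespace LeafDeck

open Finset BTree

section Series

open PowerSeries

/-- `(1 - z)⁻¹` -/
noncomputable def uu : PowerSeries ℕ := PowerSeries.mk fun _ => 1

/-- `(1 - z ^ 2)⁻¹` -/
noncomputable def vv : PowerSeries ℕ := PowerSeries.mk fun d => if d % 2 = 0 then 1 else 0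

/-- coefficientwise comparison -/
def Cle (a b : PowerSeries ℕ) : Prop := ∀ d, coeff d a ≤ coeff d b

lemma Cle.refl (a : PowerSeries ℕ) : Cle a a := fun _ => le_rfl

lemma Cle.trans {a b c : PowerSeries ℕ} (h1 : Cle a b) (h2 : Cle b c) : Cle a c :=
  fun d => (h1 d).trans (h2 d)

lemma Cle.exists {a b : PowerSeries ℕ} (h : Cle a b) : ∃ e, b = a + e := by
  refine ⟨PowerSeries.mk fun d => coeff d b - coeff d a, ?_⟩
  ext d
  rw [map_add, coeff_mk]
  have := h d
  omega

lemma Cle.add_right (a e : PowerSeries ℕ) : Cle a (a + e) := by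
  intro d
  rw [map_add]
  exact Nat.le_add_right _ _

lemma Cle.add {a b c e : PowerSeries ℕ} (h1 : Cle a b) (h2 : Cle c e) :
    Cle (a + c) (b + e) := by
  intro d
  rw [map_add, map_add]
  exact Nat.add_le_add (h1 d) (h2 d)

lemma Cle.mul {a b c e : PowerSeries ℕ} (h1 : Cle a b) (h2 : Cle c e) :
    Cle (a * c) (b * e) := by
  intro d
  rw [coeff_mul, coeff_mul]
  exact sum_le_sum fun p _ => Nat.mul_le_mul (h1 _) (h2 _)

lemma Cle.pow {a b : PowerSeries ℕ} (h : Cle a b) (n : ℕ) : Cle (a ^ n) (b ^ n) := by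
  induction n with
  | zero =>
    rw [pow_zero, pow_zero]
    exact Cle.refl _
  | succ n ih =>
    rw [pow_succ, pow_succ]
    exact ih.mul h

lemma coeff_two_mul (d : ℕ) (a : PowerSeries ℕ) : coeff d (2 * a) = 2 * coeff d a := by
  rw [two_mul, map_add, two_mul]

lemma Cle.of_two_mul {a b : PowerSeries ℕ} (h : Cle (2 * a) (2 * b)) : Cle a b := by
  intro d
  have := h d
  rw [coeff_two_mul, coeff_two_mul] at this
  omega

lemma vv_le_uu : Cle vv uu := by
  intro d
  rw [vv, uu, coeff_mk, coeff_mk]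
  split_ifs <;> omega

lemma one_le_uu_pow (n : ℕ) : Cle 1 (uu ^ n) := by
  have h : Cle 1 uu := by
    intro d
    rw [uu, coeff_mk, coeff_one]
    split_ifs <;> omega
  have h1 := h.pow n
  rwa [one_pow] at h1

lemma one_le_vv_pow (n : ℕ) : Cle 1 (vv ^ n) := by
  have h : Cle 1 vv := by
    intro d
    rw [vv, coeff_mk, coeff_one]
    split_ifs with h1 h2
    · omega
    · omega
    · omega
    · omega
  have h1 := h.pow n
  rwa [one_pow] at h1

lemma uv_le_uu {r s : ℕ} : Cle (uu ^ r * vv ^ s) (uu ^ (r + s)) := by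
  rw [pow_add]
  exact (Cle.refl _).mul (vv_le_uu.pow s)

/-- the exchange inequality -/
lemma exchange {a b a' b' : PowerSeries ℕ} (h : Cle b a) (h' : Cle b' a') :
    Cle ((a + b) * (a' + b')) (2 * (a * a' + b * b')) := by
  obtain ⟨e, rfl⟩ := h.exists
  obtain ⟨e', rfl⟩ := h'.exists
  have : 2 * ((b + e) * (b' + e') + b * b') = (b + e + b) * (b' + e' + b') + e * e' := by ring
  rw [this]
  exact Cle.add_right _ _

/-- the substitution `z ↦ z ^ 2` -/
noncomputable def ee (g : PowerSeries ℕ) : PowerSeries ℕ :=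
  PowerSeries.mk fun d => if d % 2 = 0 then coeff (d / 2) g else 0

lemma coeff_ee (g : PowerSeries ℕ) (d : ℕ) :
    coeff d (ee g) = if d % 2 = 0 then coeff (d / 2) g else 0 := by
  rw [ee, coeff_mk]

lemma ee_mul (g h : PowerSeries ℕ) : ee (g * h) = ee g * ee h := by
  ext d
  rw [coeff_ee, coeff_mul]
  split_ifs with hd
  · rw [coeff_mul]
    obtain ⟨k, rfl⟩ : ∃ k, d = 2 * k := ⟨d / 2, by omega⟩
    have hk : 2 * k / 2 = k := by omega
    rw [hk]
    have h1 : (antidiagonal k).image (fun p : ℕ × ℕ => (2 * p.1, 2 * p.2)) ⊆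
        antidiagonal (2 * k) := by
      intro p hp
      obtain ⟨q, hq, rfl⟩ := mem_image.1 hp
      rw [HasAntidiagonal.mem_antidiagonal] at hq ⊢
      simp only
      omega
    rw [← sum_subset h1, sum_image]
    · refine sum_congr rfl fun p _ => ?_
      simp only [coeff_ee]
      rw [if_pos (by omega), if_pos (by omega), Nat.mul_div_cancel_left _ (by norm_num),
        Nat.mul_div_cancel_left _ (by norm_num)]
    · rintro ⟨a, b⟩ _ ⟨c, e⟩ _ h2
      simp only [Prod.mk.injEq] at h2 ⊢
      omega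
    · rintro ⟨i, j⟩ hij hn
      rw [HasAntidiagonal.mem_antidiagonal] at hij
      simp only at hij
      rw [coeff_ee, coeff_ee]
      split_ifs with hi hj
      · exfalso
        refine hn (mem_image.2 ⟨(i / 2, j / 2), ?_, ?_⟩)
        · rw [HasAntidiagonal.mem_antidiagonal]
          simp only at hi hj ⊢
          omega
        · simp only at hi hj
          rw [Prod.mk.injEq]
          exact ⟨by simp only; omega, by simp only; omega⟩
      · simp
      · simp
      · simp
  · symm
    rw [PowerSeries.coeff_mul]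
    refine sum_eq_zero ?_
    rintro ⟨i, j⟩ hij
    rw [HasAntidiagonal.mem_antidiagonal] at hij
    simp only at hij
    rw [coeff_ee, coeff_ee]
    split_ifs with hi hj
    · exfalso
      simp only at hi hj
      omega
    · simp
    · simp
    · simp

lemma ee_one : ee 1 = 1 := by
  ext d
  rw [coeff_ee, coeff_one, coeff_one]
  split_ifs <;> omega

lemma ee_pow (g : PowerSeries ℕ) (n : ℕ) : ee (g ^ n) = ee g ^ n := by
  induction n with
  | zero => rw [pow_zero, pow_zero, ee_one]
  | succ n ih => rw [pow_succ, pow_succ, ee_mul, ih]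

lemma ee_uu : ee uu = vv := by
  ext d
  rw [coeff_ee, uu, vv, coeff_mk, coeff_mk]

lemma ee_mono {a b : PowerSeries ℕ} (h : Cle a b) : Cle (ee a) (ee b) := by
  intro d
  rw [coeff_ee, coeff_ee]
  split_ifs
  · exact h _
  · exact le_rfl

/-- the coefficients of `(1 - z)⁻ᴿ` -/
theorem coeff_uu (R d : ℕ) : coeff d (uu ^ R) = Nat.multichoose R d := by
  induction R generalizing d with
  | zero =>
    rw [pow_zero, coeff_one]
    cases d with
    | zero => simp
    | succ d => simp
  | succ R ih =>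
    rw [pow_succ, coeff_mul, ← vandermonde]
    refine sum_congr rfl fun p _ => ?_
    rw [ih, uu, coeff_mk, Nat.multichoose_one]

lemma multichoose_le_pow (n k : ℕ) : Nat.multichoose n k ≤ (n + k) ^ k := by
  rw [Nat.multichoose_eq]
  refine (Nat.choose_le_pow _ _).trans ?_
  exact Nat.pow_le_pow_left (by omega) _

theorem coeff_uv (r s d : ℕ) : coeff d (uu ^ r * vv ^ s) ≤
    Nat.multichoose r d + d * (r + s + d) ^ (d - 1) := by
  rw [coeff_mul, Finset.Nat.sum_antidiagonal_eq_sum_range_succ_mk, sum_range_succ, add_comm]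
  have h0 : coeff (d - d) (vv ^ s) = 1 := by
    rw [Nat.sub_self, ← ee_uu, ← ee_pow, coeff_ee, if_pos (by omega), coeff_uu]
    simp
  simp only
  rw [h0, mul_one, coeff_uu]
  refine Nat.add_le_add_left ?_ _
  have h1 : ∀ i ∈ range d, coeff i (uu ^ r) * coeff (d - i) (vv ^ s) ≤
      (r + s + d) ^ (d - 1) := by
    intro i hi
    have hid : i < d := mem_range.1 hi
    rw [coeff_uu, ← ee_uu, ← ee_pow, coeff_ee]
    split_ifs with h2
    · rw [coeff_uu]
      have h3 : Nat.multichoose r i ≤ (r + s + d) ^ i :=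
        (multichoose_le_pow r i).trans (Nat.pow_le_pow_left (by omega) _)
      have h4 : Nat.multichoose s ((d - i) / 2) ≤ (r + s + d) ^ ((d - i) / 2) :=
        (multichoose_le_pow s _).trans (Nat.pow_le_pow_left (by omega) _)
      refine (Nat.mul_le_mul h3 h4).trans ?_
      rw [← pow_add]
      exact Nat.pow_le_pow_right (by omega) (by omega)
    · rw [mul_zero]
      exact Nat.zero_le _
  refine (sum_le_sum h1).trans ?_
  rw [sum_const, card_range, smul_eq_mul]

end Series

open PowerSeries (coeff coeff_mk)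

/-- the generating series of the numbers of classes -/
noncomputable def ff (T : BTree) : PowerSeries ℕ := PowerSeries.mk fun d => (fam T d).card

lemma coeff_ff (T : BTree) (d : ℕ) : coeff d (ff T) = (fam T d).card := by
  rw [ff, coeff_mk]

lemma ff_iso {T T' : BTree} (h : Iso T T') : ff T = ff T' := by
  rw [ff, ff, fam_iso h]

lemma ff_node (l r : BTree) : Cle (ff (.node l r)) (ff l * ff r) := by
  classical
  intro d
  rw [coeff_ff, PowerSeries.coeff_mul]
  simp only [fam]
  refine (Finset.card_biUnion_le).trans (sum_le_sum fun p _ => ?_)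
  refine (Finset.card_image_le).trans ?_
  rw [card_product, coeff_ff, coeff_ff]

lemma two_ff_node_same {l r : BTree} (h : Iso l r) :
    Cle (2 * ff (.node l r)) (ff l * ff l + ee (ff l)) := by
  classical
  intro d
  rw [coeff_two_mul, map_add, PowerSeries.coeff_mul, coeff_ee, coeff_ff]
  simp only [coeff_ff]
  set P : Finset (Option TreeClass × Option TreeClass) :=
    (antidiagonal d).biUnion fun p => fam l p.1 ×ˢ fam l p.2 with hPdef
  have memP : ∀ a b : Option TreeClass, (a, b) ∈ P ↔
      ∃ i j, i + j = d ∧ a ∈ fam l i ∧ b ∈ fam l j := by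
    intro a b
    simp only [hPdef, mem_biUnion, mem_product, HasAntidiagonal.mem_antidiagonal, Prod.exists]
  have hP : P.card ≤ ∑ p ∈ antidiagonal d, (fam l p.1).card * (fam l p.2).card := by
    refine (Finset.card_biUnion_le).trans (sum_le_sum fun p _ => ?_)
    rw [card_product]
  have hD : (P.filter fun x => x.1 = x.2).card ≤
      if d % 2 = 0 then (fam l (d / 2)).card else 0 := by
    have hsz : ∀ x ∈ P.filter (fun x => x.1 = x.2), d % 2 = 0 ∧ x.1 ∈ fam l (d / 2) := by
      rintro ⟨a, b⟩ hx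
      rw [mem_filter] at hx
      obtain ⟨hx1, hx2⟩ := hx
      simp only at hx2
      subst hx2
      obtain ⟨i, j, hij, ha, hb⟩ := (memP _ _).1 hx1
      have h1 := fam_qsize ha
      have h2 := fam_qsize hb
      have h3 : i = d / 2 := by omega
      exact ⟨by omega, h3 ▸ ha⟩
    split_ifs with hd
    · refine card_le_card_of_injOn Prod.fst (fun x hx => (hsz x hx).2) ?_
      rintro ⟨a, b⟩ hx ⟨c, e⟩ hy hxy
      have hx2 : a = b := (mem_filter.1 (mem_coe.1 hx)).2
      have hy2 : c = e := (mem_filter.1 (mem_coe.1 hy)).2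
      have hxy' : a = c := hxy
      rw [← hx2, ← hy2, hxy']
    · rw [Nat.le_zero, card_eq_zero, eq_empty_iff_forall_notMem]
      intro x hx
      exact hd (hsz x hx).1
  have hmaps : ∀ x ∈ P, joinQ x.1 x.2 ∈ fam (.node l r) d := by
    rintro ⟨a, b⟩ hx
    obtain ⟨i, j, hij, ha, hb⟩ := (memP _ _).1 hx
    rw [fam_iso h] at hb
    exact mem_fam_node.2 ⟨i, j, hij, a, ha, b, hb, rfl⟩
  have h1 := card_eq_sum_card_fiberwise (f := fun x : Option TreeClass × Option TreeClass =>
    joinQ x.1 x.2) (s := P) (t := fam (.node l r) d) hmaps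
  have h2 := card_eq_sum_card_fiberwise (f := fun x : Option TreeClass × Option TreeClass =>
    joinQ x.1 x.2) (s := P.filter fun x => x.1 = x.2) (t := fam (.node l r) d)
    (fun x hx => hmaps x (mem_of_mem_filter x hx))
  have key : ∀ o ∈ fam (.node l r) d, 2 ≤ (P.filter fun x => joinQ x.1 x.2 = o).card +
      ((P.filter fun x => x.1 = x.2).filter fun x => joinQ x.1 x.2 = o).card := by
    intro o ho
    obtain ⟨i, j, hij, a, ha, b, hb, rfl⟩ := mem_fam_node.1 ho
    rw [← fam_iso h] at hb
    have hab : (a, b) ∈ P := (memP _ _).2 ⟨i, j, hij, ha, hb⟩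
    have hba : (b, a) ∈ P := (memP _ _).2 ⟨j, i, by omega, hb, ha⟩
    by_cases hne : a = b
    · subst hne
      have h3 : 0 < (P.filter fun x => joinQ x.1 x.2 = joinQ a a).card :=
        card_pos.2 ⟨(a, a), mem_filter.2 ⟨hab, rfl⟩⟩
      have h4 : 0 < ((P.filter fun x => x.1 = x.2).filter
          fun x => joinQ x.1 x.2 = joinQ a a).card :=
        card_pos.2 ⟨(a, a), mem_filter.2 ⟨mem_filter.2 ⟨hab, rfl⟩, rfl⟩⟩
      omega
    · have h3 : ({(a, b), (b, a)} : Finset (Option TreeClass × Option TreeClass)) ⊆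
          P.filter fun x => joinQ x.1 x.2 = joinQ a b := by
        intro x hx
        rw [mem_insert, mem_singleton] at hx
        rcases hx with rfl | rfl
        · exact mem_filter.2 ⟨hab, rfl⟩
        · exact mem_filter.2 ⟨hba, joinQ_comm b a⟩
      have h4 := card_le_card h3
      rw [card_pair (by
        intro h5
        exact hne (Prod.mk.inj h5).1)] at h4
      omega
  have h3 := sum_le_sum key
  rw [sum_const, smul_eq_mul, sum_add_distrib, ← h1, ← h2] at h3
  rw [mul_comm]
  exact h3.trans (Nat.add_le_add hP hD)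

lemma ne_none_of_fam_one {l : BTree} (hl : 2 ≤ l.size) {a : Option TreeClass}
    (ha : a ∈ fam l 1) : a ≠ none := by
  rintro rfl
  have := none_mem_fam.1 ha
  omega

lemma joinQ_right_injOn {l : BTree} (hl : 2 ≤ l.size) (q : TreeClass) :
    Set.InjOn (fun a => joinQ a (some q)) (fam l 1 : Set (Option TreeClass)) := by
  intro a ha b hb hab
  have ha' := ne_none_of_fam_one hl (mem_coe.1 ha)
  have hb' := ne_none_of_fam_one hl (mem_coe.1 hb)
  rcases joinQ_inj ha' (by simp) hb' (by simp) hab with ⟨h, _⟩ | ⟨h1, h2⟩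
  · exact h
  · rw [h1, h2]

lemma joinQ_fam_left {l r : BTree} {a : Option TreeClass} (ha : a ∈ fam l 1) :
    joinQ a (some ⟦r⟧) ∈ fam (.node l r) 1 :=
  mem_fam_node.2 ⟨1, 0, rfl, a, ha, some ⟦r⟧, by rw [fam_zero]; simp, rfl⟩

lemma joinQ_fam_right {l r : BTree} {b : Option TreeClass} (hb : b ∈ fam r 1) :
    joinQ b (some ⟦l⟧) ∈ fam (.node l r) 1 :=
  mem_fam_node.2 ⟨0, 1, rfl, some ⟦l⟧, by rw [fam_zero]; simp, b, hb, joinQ_comm _ _⟩

lemma fam_one_left {l r : BTree} (hl : 2 ≤ l.size) :
    (fam l 1).card ≤ (fam (.node l r) 1).card :=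
  card_le_card_of_injOn (fun a => joinQ a (some ⟦r⟧)) (fun _ ha => joinQ_fam_left ha)
    (joinQ_right_injOn hl _)

lemma fam_one_add {l r : BTree} (hl : 2 ≤ l.size) (hr : 2 ≤ r.size)
    (hne : (⟦l⟧ : TreeClass) ≠ ⟦r⟧) :
    (fam l 1).card + (fam r 1).card ≤ (fam (.node l r) 1).card := by
  classical
  have h1 : ((fam l 1).image fun a => joinQ a (some ⟦r⟧)) ∪
      ((fam r 1).image fun b => joinQ b (some ⟦l⟧)) ⊆ fam (.node l r) 1 := by
    refine union_subset ?_ ?_
    · intro x hx
      obtain ⟨a, ha, rfl⟩ := mem_image.1 hx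
      exact joinQ_fam_left ha
    · intro x hx
      obtain ⟨a, ha, rfl⟩ := mem_image.1 hx
      exact joinQ_fam_right ha
  have h2 : Disjoint ((fam l 1).image fun a => joinQ a (some ⟦r⟧))
      ((fam r 1).image fun b => joinQ b (some ⟦l⟧)) := by
    rw [disjoint_left]
    intro x hx hy
    obtain ⟨a, ha, rfl⟩ := mem_image.1 hx
    obtain ⟨b, hb, hab⟩ := mem_image.1 hy
    have ha' := ne_none_of_fam_one hl ha
    have hb' := ne_none_of_fam_one hr hb
    rcases joinQ_inj hb' (by simp) ha' (by simp) hab with ⟨_, h4⟩ | ⟨h3, _⟩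
    · exact hne (Option.some_injective _ h4)
    · have h5 := fam_qsize hb
      rw [h3] at h5
      simp at h5
  have h3 := card_le_card h1
  rwa [card_union_of_disjoint h2, card_image_of_injOn (joinQ_right_injOn hl _),
    card_image_of_injOn (joinQ_right_injOn hr _)] at h3

/-- `m` leaves one above the other, above `B` -/
def chain (B : BTree) : ℕ → BTree
  | 0 => B
  | m + 1 => .node .leaf (chain B m)

lemma size_chain (B : BTree) (m : ℕ) : (chain B m).size = m + B.size := by
  induction m with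
  | zero => simp [chain]
  | succ m ih =>
    show 1 + (chain B m).size = _
    rw [ih]
    ring

lemma eq_leaf {l : BTree} (hl : l.size < 2) : l = .leaf := by
  cases l with
  | leaf => rfl
  | node a c =>
    have h1 := size_pos a
    have h2 := size_pos c
    have h3 : (BTree.node a c).size = a.size + c.size := rfl
    omega

lemma exists_chain (T : BTree) : ∃ (m : ℕ) (B : BTree), Iso T (chain B m) ∧
    (B = .leaf ∨ ∃ X Y, B = .node X Y ∧ 2 ≤ X.size ∧ 2 ≤ Y.size) := by
  induction T with
  | leaf => exact ⟨0, .leaf, Iso.refl _, Or.inl rfl⟩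
  | node l r ihl ihr =>
    rcases Nat.lt_or_ge l.size 2 with hl | hl
    · obtain ⟨m, B, h, hB⟩ := ihr
      rw [eq_leaf hl]
      exact ⟨m + 1, B, Iso.node Iso.leaf h, hB⟩
    · rcases Nat.lt_or_ge r.size 2 with hr | hr
      · obtain ⟨m, B, h, hB⟩ := ihl
        rw [eq_leaf hr]
        exact ⟨m + 1, B, Iso.swap h Iso.leaf, hB⟩
      · exact ⟨0, .node l r, Iso.refl _, Or.inr ⟨l, r, rfl, hl, hr⟩⟩

lemma del_chain (B : BTree) (m : ℕ) : del (chain B m) = addF^[m] (del B) := by
  induction m with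
  | zero => rfl
  | succ m ih =>
    show del (.node .leaf (chain B m)) = _
    rw [del_leaf_node, ih, Function.iterate_succ_apply']

lemma ncard_iter {A : ℕ → Set (Option TreeClass)} {g : PowerSeries ℕ}
    (hA : ∀ d, (A d).Finite ∧ (A d).ncard ≤ coeff d g) (m d : ℕ) :
    (addF^[m] A d).ncard ≤ coeff d (uu * g) := by
  have hsub : addF^[m] A d ⊆ ⋃ p ∈ antidiagonal d, (lam^[m - p.1]) '' (A p.2) := by
    intro o ho
    obtain ⟨i, j, h1, h2, a, ha, rfl⟩ := iter_sub A m d o ho
    simp only [Set.mem_iUnion]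
    exact ⟨(i, j), by simpa using h1, Set.mem_image_of_mem _ ha⟩
  have hfin : (⋃ p ∈ antidiagonal d, (lam^[m - p.1]) '' (A p.2)).Finite := by
    refine Set.Finite.biUnion (finite_toSet _) fun p _ => ?_
    exact (hA p.2).1.image _
  refine (Set.ncard_le_ncard hsub hfin).trans ((Finset.set_ncard_biUnion_le _ _).trans ?_)
  rw [PowerSeries.coeff_mul]
  refine sum_le_sum fun p _ => ?_
  rw [uu, coeff_mk, one_mul]
  exact (Set.ncard_image_le (hA p.2).1).trans (hA p.2).2

lemma ff_chain (B : BTree) (m : ℕ) : Cle (ff (chain B m)) (uu * ff B) := by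
  intro d
  have h1 := ncard_iter (A := del B) (g := ff B) (fun d => by
    rw [← coe_fam]
    exact ⟨finite_toSet _, by rw [Set.ncard_coe_finset, coeff_ff]⟩) m d
  rw [← del_chain, ← coe_fam, Set.ncard_coe_finset] at h1
  rw [coeff_ff]
  exact h1

lemma ff_cat (m : ℕ) : Cle (ff (chain .leaf m)) uu := by
  intro d
  have h1 := ncard_iter (A := emptyF) (g := 1) (fun d => by
    have h2 := bd_empty d
    rw [← coeff_uu, pow_zero] at h2
    exact h2) (m + 1) d
  rw [Function.iterate_succ_apply, ← del_leaf, ← del_chain, ← coe_fam, Set.ncard_coe_finset,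
    mul_one] at h1
  rw [coeff_ff]
  exact h1

lemma lam_injective : Function.Injective lam := by
  intro a b h
  refine joinQ_leaf_inj ?_
  rw [joinQ_comm a, joinQ_comm b]
  exact h

lemma iter_fam {T : BTree} {d : ℕ} {a : Option TreeClass} (ha : a ∈ fam T d) (m : ℕ) :
    lam^[m] a ∈ fam (chain T m) d := by
  induction m with
  | zero => exact ha
  | succ m ih =>
    rw [Function.iterate_succ_apply']
    exact mem_fam_node.2 ⟨0, d, by omega, some leafQ, mem_fam_leaf.2 (Or.inl ⟨rfl, rfl⟩), _, ih,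
      rfl⟩

lemma cls_chain (B : BTree) (m : ℕ) :
    (some ⟦chain B m⟧ : Option TreeClass) = lam^[m] (some ⟦B⟧) := by
  induction m with
  | zero => rfl
  | succ m ih =>
    rw [Function.iterate_succ_apply', ← ih]
    rfl

lemma fam_one_chain {X Y : BTree} (hX : 2 ≤ X.size) (hY : 2 ≤ Y.size) (m : ℕ) :
    (fam (.node X Y) 1).card + 1 ≤ (fam (chain (.node X Y) (m + 1)) 1).card := by
  classical
  have h1 : insert (lam^[m] (some ⟦BTree.node X Y⟧)) ((fam (.node X Y) 1).image lam^[m + 1]) ⊆
      fam (chain (.node X Y) (m + 1)) 1 := by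
    intro x hx
    rw [mem_insert, mem_image] at hx
    rcases hx with rfl | ⟨a, ha, rfl⟩
    · rw [← cls_chain]
      exact mem_fam_node.2 ⟨1, 0, rfl, none, mem_fam_leaf.2 (Or.inr ⟨rfl, rfl⟩),
        some ⟦chain (.node X Y) m⟧, by rw [fam_zero]; simp, rfl⟩
    · exact iter_fam ha _
  have h2 : lam^[m] (some ⟦BTree.node X Y⟧) ∉ (fam (.node X Y) 1).image lam^[m + 1] := by
    intro hx
    obtain ⟨a, ha, hax⟩ := mem_image.1 hx
    rw [Function.iterate_succ_apply] at hax
    have h3 : lam a = some ⟦BTree.node X Y⟧ := (lam_injective.iterate m) hax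
    have hs : (BTree.node X Y).size = X.size + Y.size := rfl
    have ha' := ne_none_of_fam_one (l := .node X Y) (by omega) ha
    rcases joinQ_inj (a := some leafQ) (b := a) (c := some ⟦X⟧) (e := some ⟦Y⟧) (by simp) ha'
      (by simp) (by simp) h3 with ⟨h4, _⟩ | ⟨h4, _⟩
    · have h5 := congrArg qsize h4
      simp at h5
      omega
    · have h5 := congrArg qsize h4
      simp at h5
      omega
  have h3 := card_le_card h1
  rwa [card_insert_of_notMem h2, card_image_of_injective _ (lam_injective.iterate _)] at h3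

/-- the induction statement -/
def Up (T : BTree) (c : ℕ) : Prop := ∃ R r : ℕ, r ≤ (fam T 1).card ∧ r ≤ R ∧
  3 * R + c ≤ 2 * T.size ∧ Cle (2 * ff T) (uu ^ R + uu ^ r * vv ^ (R - r))

lemma uv_le {R r : ℕ} (h : r ≤ R) : Cle (uu ^ r * vv ^ (R - r)) (uu ^ R) := by
  have h1 : Cle (uu ^ r * vv ^ (R - r)) (uu ^ (r + (R - r))) := uv_le_uu
  rwa [Nat.add_sub_cancel' h] at h1

lemma up_branch {X Y : BTree} (hX2 : 2 ≤ X.size) (hY2 : 2 ≤ Y.size) (hX : Up X 1) (hY : Up Y 1) :
    Up (.node X Y) 2 := by
  have hs : (BTree.node X Y).size = X.size + Y.size := rfl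
  obtain ⟨R, r, h1, h2, h3, h4⟩ := hX
  by_cases hne : (⟦X⟧ : TreeClass) = ⟦Y⟧
  · have hiso : Iso X Y := Quotient.exact hne
    have hsz : X.size = Y.size := size_iso hiso
    refine ⟨2 * R, r, h1.trans (fam_one_left hX2), by omega, by omega, ?_⟩
    have h5 : Cle (ff X) (uu ^ R) := by
      refine Cle.of_two_mul (h4.trans ?_)
      rw [two_mul (uu ^ R)]
      exact (Cle.refl _).add (uv_le h2)
    refine (two_ff_node_same hiso).trans ?_
    have h6 : Cle (ff X * ff X) (uu ^ (2 * R)) := by
      rw [two_mul, pow_add]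
      exact h5.mul h5
    refine h6.add ?_
    refine (ee_mono h5).trans ?_
    rw [ee_pow, ee_uu]
    have h7 : 2 * R - r = (R - r) + R := by omega
    rw [h7, pow_add, ← mul_assoc]
    have h8 : Cle (1 * 1 * vv ^ R) (uu ^ r * vv ^ (R - r) * vv ^ R) :=
      ((one_le_uu_pow r).mul (one_le_vv_pow (R - r))).mul (Cle.refl _)
    rwa [one_mul, one_mul] at h8
  · obtain ⟨R', r', h1', h2', h3', h4'⟩ := hY
    refine ⟨R + R', r + r', (Nat.add_le_add h1 h1').trans (fam_one_add hX2 hY2 hne), by omega,
      by omega, ?_⟩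
    refine Cle.of_two_mul ?_
    have h5 : Cle (2 * (2 * ff (.node X Y))) (2 * (2 * (ff X * ff Y))) := by
      have h6 := ff_node X Y
      exact (Cle.refl 2).mul ((Cle.refl 2).mul h6)
    have h6 : 2 * (2 * (ff X * ff Y)) = (2 * ff X) * (2 * ff Y) := by ring
    rw [h6] at h5
    refine h5.trans ((h4.mul h4').trans ?_)
    have h7 := exchange (uv_le h2) (uv_le h2')
    have h8 : uu ^ (R + R') + uu ^ (r + r') * vv ^ (R + R' - (r + r')) =
        uu ^ R * uu ^ R' + uu ^ r * vv ^ (R - r) * (uu ^ r' * vv ^ (R' - r')) := by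
      have h9 : R + R' - (r + r') = (R - r) + (R' - r') := by omega
      rw [h9, pow_add, pow_add, pow_add]
      ring
    rw [h8]
    exact h7

lemma up_all (n : ℕ) : ∀ T : BTree, T.size = n → 2 ≤ T.size → Up T 1 := by
  induction n using Nat.strong_induction_on with
  | _ n ih =>
    intro T hn h2
    obtain ⟨m, B, hiso, hB⟩ := exists_chain T
    have hsz : T.size = m + B.size := by rw [size_iso hiso, size_chain]
    rcases hB with rfl | ⟨X, Y, rfl, hX, hY⟩
    · refine ⟨1, 1, ?_, le_rfl, by omega, ?_⟩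
      · have hl : (BTree.leaf).size = 1 := rfl
        obtain ⟨k, rfl⟩ : ∃ k, m = k + 1 := ⟨m - 1, by omega⟩
        rw [fam_iso hiso]
        exact card_pos.2 ⟨some ⟦chain .leaf k⟧, mem_fam_node.2 ⟨1, 0, rfl, none,
          mem_fam_leaf.2 (Or.inr ⟨rfl, rfl⟩), some ⟦chain .leaf k⟧, by rw [fam_zero]; simp, rfl⟩⟩
      · rw [ff_iso hiso, Nat.sub_self, pow_zero, mul_one, pow_one, two_mul]
        exact (ff_cat m).add (ff_cat m)
    · have hs : (BTree.node X Y).size = X.size + Y.size := rfl
      have hUX : Up X 1 := ih X.size (by omega) X rfl hX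
      have hUY : Up Y 1 := ih Y.size (by omega) Y rfl hY
      obtain ⟨R, r, h3, h4, h5, h6⟩ := up_branch hX hY hUX hUY
      cases m with
      | zero =>
        refine ⟨R, r, ?_, h4, by omega, ?_⟩
        · rw [fam_iso hiso]
          exact h3
        · rw [ff_iso hiso]
          exact h6
      | succ m =>
        refine ⟨R + 1, r + 1, ?_, by omega, by omega, ?_⟩
        · rw [fam_iso hiso]
          exact (Nat.add_le_add_right h3 1).trans (fam_one_chain hX hY m)
        · rw [ff_iso hiso, Nat.add_sub_add_right]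
          refine ((Cle.refl 2).mul (ff_chain _ _)).trans ?_
          have h7 := (Cle.refl uu).mul h6
          have h8 : uu * (uu ^ R + uu ^ r * vv ^ (R - r)) =
              uu ^ (R + 1) + uu ^ (r + 1) * vv ^ (R - r) := by ring
          rw [h8] at h7
          have h9 : 2 * (uu * ff (.node X Y)) = uu * (2 * ff (.node X Y)) := by ring
          rw [h9]
          exact h7

theorem upper (T : BTree) (hT : 2 ≤ T.size) : ∃ R r : ℕ, r ≤ (fam T 1).card ∧ r ≤ R ∧
    3 * R + 1 ≤ 2 * T.size ∧
    ∀ d, 2 * (fam T d).card ≤ coeff d (uu ^ R) + coeff d (uu ^ r * vv ^ (R - r)) := by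
  obtain ⟨R, r, h1, h2, h3, h4⟩ := up_all T.size T rfl hT
  refine ⟨R, r, h1, h2, h3, fun d => ?_⟩
  have h5 := h4 d
  rwa [coeff_two_mul, map_add, coeff_ff] at h5

end LeafDeck
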