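import Pool.Agent.LeafDeck.Levenshtein
import Pool.Agent.LeafDeck.UpperQ

/-!
Asymptotically extremal trees: the number of deleted leaves does not matter.
-/

set_option autoImplicit false

namespace LeafDeck

open Finset BTree Filter

/-- the order of magnitude -/
noncomputable def mag (d n : ℕ) : ℝ := (2 * n / 3) ^ d / d.factorial

lemma mag_pos {d n : ℕ} (hn : 0 < n) : 0 < mag d n := by
  have h1 : (0 : ℝ) < n := by exact_mod_cast hn
  have h2 : (0 : ℝ) < d.factorial := by exact_mod_cast Nat.factorial_pos d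
  unfold mag
  positivity

/-- the maximum -/
lemma maxDeck_tendsto (d : ℕ) :
    Tendsto (fun n : ℕ => (maxDeck n (n - d) : ℝ) / mag d n) atTop (nhds 1) := by
  refine (asymptotics (fun _ => d) ?_).2
  have h : Tendsto (fun n : ℕ => (d : ℝ) ^ 2 / (n : ℝ)) atTop (nhds 0) :=
    tendsto_const_div_atTop_nhds_zero_nat _
  exact h

/-- a sequence of trees, its sizes and the numbers of members -/
lemma ratio_iff (T : ℕ → BTree) (hT : Tendsto (fun k => (T k).size) atTop atTop) (d : ℕ) :
    Tendsto (fun k => ((deck (T k) ((T k).size - d)).ncard : ℝ) /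
        (maxDeck (T k).size ((T k).size - d) : ℝ)) atTop (nhds 1) ↔
      Tendsto (fun k => ((fam (T k) d).card : ℝ) / mag d (T k).size) atTop (nhds 1) := by
  have hM := (maxDeck_tendsto d).comp hT
  have hev : ∀ᶠ k in atTop, d < (T k).size ∧ 0 < maxDeck (T k).size ((T k).size - d) ∧
      0 < (T k).size := by
    have h1 : ∀ᶠ k in atTop, (1 / 2 : ℝ) <
        ((fun n : ℕ => (maxDeck n (n - d) : ℝ) / mag d n) ∘ fun k => (T k).size) k :=
      hM.eventually (lt_mem_nhds (by norm_num))
    filter_upwards [hT.eventually_gt_atTop d, h1] with k h2 h3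
    refine ⟨h2, ?_, by omega⟩
    by_contra h4
    have h5 : maxDeck (T k).size ((T k).size - d) = 0 := by omega
    simp only [Function.comp_apply, h5, Nat.cast_zero, zero_div] at h3
    linarith
  constructor
  · intro h
    have h1 := h.mul hM
    rw [one_mul] at h1
    refine h1.congr' ?_
    filter_upwards [hev] with k ⟨h2, h3, h4⟩
    have h5 : (0 : ℝ) < maxDeck (T k).size ((T k).size - d) := by exact_mod_cast h3
    have h6 := mag_pos (d := d) h4
    simp only [Function.comp_apply]
    rw [card_fam_eq h2]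
    field_simp
  · intro h
    have h1 := h.div hM one_ne_zero
    rw [div_one] at h1
    refine h1.congr' ?_
    filter_upwards [hev] with k ⟨h2, h3, h4⟩
    have h5 : (0 : ℝ) < maxDeck (T k).size ((T k).size - d) := by exact_mod_cast h3
    have h6 := mag_pos (d := d) h4
    simp only [Function.comp_apply, Pi.div_apply]
    rw [card_fam_eq h2]
    field_simp

lemma card_fam_one_le {T : BTree} (hT : 2 ≤ T.size) :
    3 * (fam T 1).card ≤ 2 * T.size := by
  have h1 := (deck_upper T (d := 1) (by omega)).2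
  rw [← card_fam_eq (by omega), Nat.multichoose_one_right] at h1
  omega

lemma choose_ge (r d : ℕ) : ((r : ℝ) - d) ^ d ≤ (d.factorial : ℝ) * (r.choose d : ℕ) ∨ r < d := by
  by_cases h : r < d
  · exact Or.inr h
  · left
    push Not at h
    have h1 : (r + 1 - d) ^ d ≤ r.descFactorial d := Nat.pow_sub_le_descFactorial r d
    rw [Nat.descFactorial_eq_factorial_mul_choose] at h1
    have h2 : (((r + 1 - d : ℕ) : ℝ)) ^ d ≤ (d.factorial : ℝ) * (r.choose d : ℕ) := by
      exact_mod_cast h1
    refine le_trans ?_ h2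
    have h3 : (r : ℝ) - d ≤ ((r + 1 - d : ℕ) : ℝ) := by
      rw [Nat.cast_sub (by omega)]
      push_cast
      linarith
    have h4 : (0 : ℝ) ≤ (r : ℝ) - d := by
      have : (d : ℝ) ≤ r := by exact_mod_cast h
      linarith
    exact pow_le_pow_left₀ h4 h3 d

/-- the error term is of lower order -/
lemma err_tendsto (d : ℕ) : Tendsto (fun n : ℕ => err d n / mag d n) atTop (nhds 0) := by
  by_cases hd : d < 2
  · have : (fun n : ℕ => err d n / mag d n) = fun _ => 0 := by
      funext n
      unfold err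
      rw [if_pos hd, zero_div]
    rw [this]
    exact tendsto_const_nhds
  · obtain ⟨e, rfl⟩ : ∃ e, d = e + 2 := ⟨d - 2, by omega⟩
    have hlim : Tendsto (fun n : ℕ => 100 * 4 ^ (e + 2) * ((e + 2).factorial : ℝ) *
        (3 / 2) ^ (e + 2) * (1 / √(n : ℝ))) atTop (nhds 0) := by
      have h1 : Tendsto (fun n : ℕ => √(n : ℝ)) atTop atTop :=
        Real.tendsto_sqrt_atTop.comp tendsto_natCast_atTop_atTop
      have h2 : Tendsto (fun n : ℕ => 1 / √(n : ℝ)) atTop (nhds 0) :=
        h1.inv_tendsto_atTop.congr fun n => by simp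
      simpa using h2.const_mul (100 * 4 ^ (e + 2) * ((e + 2).factorial : ℝ) * (3 / 2) ^ (e + 2))
    refine squeeze_zero' ?_ ?_ hlim
    · filter_upwards [eventually_gt_atTop 0] with n hn
      have := (mag_pos (d := e + 2) hn).le
      have h2 : 0 ≤ err (e + 2) n := by
        unfold err
        rw [if_neg (by omega)]
        positivity
      positivity
    · filter_upwards [eventually_gt_atTop 0] with n hn
      have hn0 : (0 : ℝ) < n := by exact_mod_cast hn
      have hs : 0 < √(n : ℝ) := Real.sqrt_pos.2 hn0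
      have hss : (n : ℝ) = √(n : ℝ) * √(n : ℝ) := (Real.mul_self_sqrt hn0.le).symm
      have hf : (0 : ℝ) < (e + 2).factorial := by exact_mod_cast Nat.factorial_pos _
      rw [div_le_iff₀ (mag_pos hn)]
      unfold err mag
      rw [if_neg (by omega), show e + 2 - 2 = e by omega]
      have h1 : ((n.choose e : ℕ) : ℝ) ≤ (n : ℝ) ^ e := by
        exact_mod_cast Nat.choose_le_pow n e
      have h2 : 100 * 4 ^ (e + 2) * ((e + 2).factorial : ℝ) * (3 / 2) ^ (e + 2) *
          (1 / √(n : ℝ)) * ((2 * n / 3) ^ (e + 2) / ((e + 2).factorial : ℝ)) =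
          100 * 4 ^ (e + 2) * ((1 / √(n : ℝ)) * ((n : ℝ) * n * (n : ℝ) ^ e)) := by
        have h3 : ((3 / 2 : ℝ)) ^ (e + 2) * (2 * (n : ℝ) / 3) ^ (e + 2) =
            (n : ℝ) * n * (n : ℝ) ^ e := by
          rw [← mul_pow, show (3 / 2 : ℝ) * (2 * (n : ℝ) / 3) = n by ring]
          ring
        rw [← h3]
        field_simp
      rw [h2]
      have h4 : (1 / √(n : ℝ)) * ((n : ℝ) * n * (n : ℝ) ^ e) =
          ((n : ℝ) * √(n : ℝ)) * (n : ℝ) ^ e := by
        have h5 : (1 / √(n : ℝ)) * (n : ℝ) = √(n : ℝ) := by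
          rw [one_div, inv_mul_eq_iff_eq_mul₀ hs.ne']
          exact hss
        calc (1 / √(n : ℝ)) * ((n : ℝ) * n * (n : ℝ) ^ e) =
            ((1 / √(n : ℝ)) * (n : ℝ)) * n * (n : ℝ) ^ e := by ring
          _ = _ := by rw [h5]; ring
      rw [h4]
      have h6 : 100 * 4 ^ (e + 2) * ((n : ℝ) * √(n : ℝ)) * ((n.choose e : ℕ) : ℝ) ≤
          100 * 4 ^ (e + 2) * ((n : ℝ) * √(n : ℝ)) * (n : ℝ) ^ e := by
        gcongr
      linarith

/-- extremal for one deleted leaf gives extremal for `d` -/
lemma forward (T : ℕ → BTree) (hT : Tendsto (fun k => (T k).size) atTop atTop) (d : ℕ)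
    (h : Tendsto (fun k => ((fam (T k) 1).card : ℝ) / ((T k).size : ℝ)) atTop (nhds (2 / 3))) :
    Tendsto (fun k => ((fam (T k) d).card : ℝ) / mag d (T k).size) atTop (nhds 1) := by
  have hM := (maxDeck_tendsto d).comp hT
  have hE := (err_tendsto d).comp hT
  have hN : Tendsto (fun k => (d : ℝ) / ((T k).size : ℝ)) atTop (nhds 0) :=
    (tendsto_const_div_atTop_nhds_zero_nat (d : ℝ)).comp hT
  have hL : Tendsto (fun k => (3 / 2 * (((fam (T k) 1).card : ℝ) / ((T k).size : ℝ) -
      (d : ℝ) / ((T k).size : ℝ))) ^ d - ((fun n : ℕ => err d n / mag d n) ∘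
        fun k => (T k).size) k) atTop (nhds 1) := by
    have h1 := (((h.sub hN).const_mul (3 / 2)).pow d).sub hE
    simpa using h1
  refine tendsto_of_tendsto_of_tendsto_of_le_of_le' hL hM ?_ ?_
  · have hr : ∀ᶠ k in atTop, (d : ℝ) / ((T k).size : ℝ) <
        ((fam (T k) 1).card : ℝ) / ((T k).size : ℝ) := by
      have h2 : ∀ᶠ k in atTop, (1 / 3 : ℝ) < ((fam (T k) 1).card : ℝ) / ((T k).size : ℝ) :=
        h.eventually (lt_mem_nhds (by norm_num))
      have h3 : ∀ᶠ k in atTop, (d : ℝ) / ((T k).size : ℝ) < 1 / 3 :=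
        hN.eventually (gt_mem_nhds (by norm_num))
      filter_upwards [h2, h3] with k h4 h5
      linarith
    filter_upwards [hr, hT.eventually_gt_atTop 0] with k h1 h2
    have hn : (0 : ℝ) < (T k).size := by exact_mod_cast h2
    have hm := mag_pos (d := d) h2
    have h3 : (d : ℝ) < (fam (T k) 1).card := by
      rw [div_lt_div_iff_of_pos_right hn] at h1
      exact h1
    have h4 : ¬ (fam (T k) 1).card < d := by
      have : d < (fam (T k) 1).card := by exact_mod_cast h3
      omega
    have h5 := (choose_ge (fam (T k) 1).card d).resolve_right h4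
    have h6 := levenshtein (T k) d
    have hf : (0 : ℝ) < d.factorial := by exact_mod_cast Nat.factorial_pos d
    rw [Function.comp_apply, le_div_iff₀ hm, sub_mul, div_mul_cancel₀ _ hm.ne']
    have h7 : (3 / 2 * (((fam (T k) 1).card : ℝ) / ((T k).size : ℝ) -
        (d : ℝ) / ((T k).size : ℝ))) ^ d * mag d (T k).size =
        (((fam (T k) 1).card : ℝ) - d) ^ d / d.factorial := by
      unfold mag
      rw [mul_div_assoc', ← mul_pow]
      congr 2
      field_simp
    rw [h7]
    have h8 : (((fam (T k) 1).card : ℝ) - d) ^ d / d.factorial ≤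
        (((fam (T k) 1).card.choose d : ℕ) : ℝ) := by
      rw [div_le_iff₀ hf]
      linarith
    linarith
  · filter_upwards [hT.eventually_gt_atTop d] with k h2
    have hm := mag_pos (d := d) (n := (T k).size) (by omega)
    simp only [Function.comp_apply]
    have h3 : ((fam (T k) d).card : ℝ) ≤ (maxDeck (T k).size ((T k).size - d) : ℝ) := by
      rw [card_fam_eq h2]
      exact_mod_cast deck_le_maxDeck rfl h2
    gcongr

/-- a multiset coefficient -/
lemma multichoose_le {r d : ℕ} (_ : 1 ≤ d) :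
    ((Nat.multichoose r d : ℕ) : ℝ) ≤ ((r : ℝ) + d) ^ d / d.factorial := by
  rw [Nat.multichoose_eq]
  refine (Nat.choose_le_pow_div (α := ℝ) d (r + d - 1)).trans ?_
  have h1 : ((r + d - 1 : ℕ) : ℝ) ≤ (r : ℝ) + d := by
    have : r + d - 1 ≤ r + d := Nat.sub_le _ _
    exact_mod_cast this
  gcongr

/-- extremal for `d` deleted leaves gives extremal for one -/
lemma backward (T : ℕ → BTree) (hT : Tendsto (fun k => (T k).size) atTop atTop) (d : ℕ)
    (hd : 1 ≤ d)
    (h : Tendsto (fun k => ((fam (T k) d).card : ℝ) / mag d (T k).size) atTop (nhds 1)) :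
    Tendsto (fun k => ((fam (T k) 1).card : ℝ) / ((T k).size : ℝ)) atTop (nhds (2 / 3)) := by
  have hN : Tendsto (fun k => (d : ℝ) / ((T k).size : ℝ)) atTop (nhds 0) :=
    (tendsto_const_div_atTop_nhds_zero_nat (d : ℝ)).comp hT
  have hN1 : Tendsto (fun k => (1 : ℝ) / ((T k).size : ℝ)) atTop (nhds 0) :=
    (tendsto_const_div_atTop_nhds_zero_nat (1 : ℝ)).comp hT
  -- the variable
  set x : ℕ → ℝ := fun k => 3 / 2 * (((fam (T k) 1).card : ℝ) / ((T k).size : ℝ) +
    (d : ℝ) / ((T k).size : ℝ)) with hx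
  set y : ℕ → ℝ := fun k => 1 + 3 / 2 * ((d : ℝ) / ((T k).size : ℝ)) with hy
  have hy1 : Tendsto y atTop (nhds 1) := by
    have := (hN.const_mul (3 / 2)).const_add 1
    simpa [hy] using this
  have hy2 : Tendsto (fun k => y k ^ d) atTop (nhds 1) := by
    have := hy1.pow d
    simpa using this
  have hxnn : ∀ k, 0 ≤ x k := fun k => by
    simp only [hx]
    positivity
  have hxy : ∀ᶠ k in atTop, x k ≤ y k := by
    filter_upwards [hT.eventually_ge_atTop 2] with k h1
    have h2 := card_fam_one_le h1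
    have h3 : (3 : ℝ) * (fam (T k) 1).card ≤ 2 * (T k).size := by exact_mod_cast h2
    have hn : (0 : ℝ) < (T k).size := by
      have : 0 < (T k).size := by omega
      exact_mod_cast this
    have h4 : ((fam (T k) 1).card : ℝ) / ((T k).size : ℝ) ≤ 2 / 3 := by
      rw [div_le_div_iff₀ hn (by norm_num)]
      linarith
    simp only [hx, hy]
    linarith
  -- the lower bound
  set g : ℕ → ℝ := fun k => 2 * (((fam (T k) d).card : ℝ) / mag d (T k).size) - y k ^ d -
    (d : ℝ) * d.factorial * (3 / 2 * (1 / ((T k).size : ℝ))) * y k ^ (d - 1) with hg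
  have hg1 : Tendsto g atTop (nhds 1) := by
    have h1 := ((h.const_mul 2).sub hy2).sub
      (((hN1.const_mul (3 / 2)).const_mul ((d : ℝ) * d.factorial)).mul (hy1.pow (d - 1)))
    have h2 : 2 * 1 - 1 - (d : ℝ) * d.factorial * (3 / 2 * 0) * 1 ^ (d - 1) = 1 := by
      rw [mul_zero, mul_zero, zero_mul]
      norm_num
    rw [h2] at h1
    exact h1
  have hgx : ∀ᶠ k in atTop, g k ≤ x k ^ d := by
    filter_upwards [hT.eventually_ge_atTop 2] with k h1
    obtain ⟨R, r, h2, h3, h4, h5⟩ := upper (T k) h1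
    have h6 := h5 d
    have h7 := coeff_uv r (R - r) d
    rw [coeff_uu] at h6
    have h8 : r + (R - r) + d = R + d := by omega
    rw [h8] at h7
    have h9 : 2 * ((fam (T k) d).card : ℝ) ≤ (Nat.multichoose R d : ℕ) +
        ((Nat.multichoose r d : ℕ) + d * ((R : ℝ) + d) ^ (d - 1)) := by
      have h10 : 2 * (fam (T k) d).card ≤ Nat.multichoose R d +
          (Nat.multichoose r d + d * (R + d) ^ (d - 1)) := by omega
      exact_mod_cast h10
    set n := (T k).size with hnT
    have hn0 : 0 < n := by omega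
    have hn : (0 : ℝ) < n := by exact_mod_cast hn0
    have hm := mag_pos (d := d) hn0
    have hf : (0 : ℝ) < d.factorial := by exact_mod_cast Nat.factorial_pos d
    have hR : (R : ℝ) ≤ 2 * n / 3 := by
      have : (3 : ℝ) * R + 1 ≤ 2 * n := by exact_mod_cast h4
      linarith
    have hr : (r : ℝ) ≤ (fam (T k) 1).card := by exact_mod_cast h2
    have hyk : 2 * (n : ℝ) / 3 + d = (2 * n / 3) * y k := by
      simp only [hy, ← hnT]
      field_simp
    have hxk : ((fam (T k) 1).card : ℝ) + d = (2 * n / 3) * x k := by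
      simp only [hx, ← hnT]
      field_simp
    have e1 : ((Nat.multichoose R d : ℕ) : ℝ) ≤ y k ^ d * mag d n := by
      refine (multichoose_le hd).trans ?_
      have : ((R : ℝ) + d) ^ d ≤ ((2 * n / 3) * y k) ^ d := by
        rw [← hyk]
        gcongr
      unfold mag
      rw [mul_div_assoc', mul_comm (y k ^ d), ← mul_pow]
      gcongr
    have e2 : ((Nat.multichoose r d : ℕ) : ℝ) ≤ x k ^ d * mag d n := by
      refine (multichoose_le hd).trans ?_
      have : ((r : ℝ) + d) ^ d ≤ ((2 * n / 3) * x k) ^ d := by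
        rw [← hxk]
        gcongr
      unfold mag
      rw [mul_div_assoc', mul_comm (x k ^ d), ← mul_pow]
      gcongr
    have e3 : (d : ℝ) * ((R : ℝ) + d) ^ (d - 1) ≤
        ((d : ℝ) * d.factorial * (3 / 2 * (1 / (n : ℝ))) * y k ^ (d - 1)) * mag d n := by
      have h11 : ((R : ℝ) + d) ^ (d - 1) ≤ ((2 * n / 3) * y k) ^ (d - 1) := by
        rw [← hyk]
        gcongr
      have h12 : ((d : ℝ) * d.factorial * (3 / 2 * (1 / (n : ℝ))) * y k ^ (d - 1)) * mag d n =
          (d : ℝ) * ((2 * n / 3) * y k) ^ (d - 1) := by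
        unfold mag
        obtain ⟨e, rfl⟩ : ∃ e, d = e + 1 := ⟨d - 1, by omega⟩
        simp only [Nat.add_sub_cancel]
        rw [mul_pow, pow_succ (2 * (n : ℝ) / 3)]
        field_simp
      rw [h12]
      gcongr
    have e4 : g k * mag d n ≤ x k ^ d * mag d n := by
      have e5 : g k * mag d n = 2 * ((fam (T k) d).card : ℝ) - y k ^ d * mag d n -
          ((d : ℝ) * d.factorial * (3 / 2 * (1 / (n : ℝ))) * y k ^ (d - 1)) * mag d n := by
        simp only [hg]
        rw [sub_mul, sub_mul, mul_assoc 2, div_mul_cancel₀ _ hm.ne']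
      rw [e5]
      linarith
    exact le_of_mul_le_mul_right e4 hm
  have hxd : Tendsto (fun k => x k ^ d) atTop (nhds 1) := by
    refine tendsto_of_tendsto_of_tendsto_of_le_of_le' hg1 hy2 hgx ?_
    filter_upwards [hxy] with k h1
    exact pow_le_pow_left₀ (hxnn k) h1 d
  have hx1 : Tendsto x atTop (nhds 1) := by
    have h1 : Tendsto (fun k => (x k ^ d) ^ ((d : ℝ)⁻¹)) atTop (nhds ((1 : ℝ) ^ ((d : ℝ)⁻¹))) :=
      hxd.rpow_const (Or.inl one_ne_zero)
    rw [Real.one_rpow] at h1
    refine h1.congr fun k => ?_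
    exact Real.pow_rpow_inv_natCast (hxnn k) (by omega)
  have h2 := (hx1.const_mul (2 / 3)).sub hN
  rw [mul_one, sub_zero] at h2
  refine h2.congr fun k => ?_
  simp only [hx]
  ring

/-- a sequence of trees is asymptotically extremal for the deletion of `d` leaves iff it is for the
deletion of one leaf -/
theorem extremal_iff (T : ℕ → BTree) (hT : Tendsto (fun k => (T k).size) atTop atTop)
    (d : ℕ) (hd : 1 ≤ d) :
    Tendsto (fun k => ((deck (T k) ((T k).size - d)).ncard : ℝ) /
        (maxDeck (T k).size ((T k).size - d) : ℝ)) atTop (nhds 1) ↔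
      Tendsto (fun k => ((deck (T k) ((T k).size - 1)).ncard : ℝ) / ((T k).size : ℝ)) atTop
        (nhds (2 / 3)) := by
  rw [ratio_iff T hT d]
  have h1 : Tendsto (fun k => ((deck (T k) ((T k).size - 1)).ncard : ℝ) / ((T k).size : ℝ)) atTop
        (nhds (2 / 3)) ↔
      Tendsto (fun k => ((fam (T k) 1).card : ℝ) / ((T k).size : ℝ)) atTop (nhds (2 / 3)) := by
    refine tendsto_congr' ?_
    filter_upwards [hT.eventually_gt_atTop 1] with k hk
    rw [card_fam_eq hk]
  rw [h1]
  exact ⟨backward T hT d hd, forward T hT d⟩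

end LeafDeck
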