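import Pool.Agent.LeafDeck.Main

/-!
The families of classes obtained by deleting `d` leaves, as finite sets, and their basic
properties.
-/

set_option autoImplicit false

namespace LeafDeck

open Finset BTree

open scoped Classical in
/-- the classes (possibly the empty one, `none`) obtained from `T` by deleting `d` leaves -/
noncomputable def fam : BTree → ℕ → Finset (Option TreeClass)
  | .leaf, d => if d = 0 then {some leafQ} else if d = 1 then {none} else ∅
  | .node l r, d => (antidiagonal d).biUnion fun p =>
      (fam l p.1 ×ˢ fam r p.2).image fun x => joinQ x.1 x.2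

lemma mem_fam_node {l r : BTree} {d : ℕ} {o : Option TreeClass} :
    o ∈ fam (.node l r) d ↔
      ∃ i j, i + j = d ∧ ∃ a ∈ fam l i, ∃ b ∈ fam r j, joinQ a b = o := by
  simp only [fam, mem_biUnion, mem_image, mem_product, HasAntidiagonal.mem_antidiagonal,
    Prod.exists]
  constructor
  · rintro ⟨i, j, h, a, b, ⟨ha, hb⟩, rfl⟩
    exact ⟨i, j, h, a, ha, b, hb, rfl⟩
  · rintro ⟨i, j, h, a, ha, b, hb, rfl⟩
    exact ⟨i, j, h, a, b, ⟨ha, hb⟩, rfl⟩

lemma mem_fam_leaf {d : ℕ} {o : Option TreeClass} :
    o ∈ fam .leaf d ↔ (d = 0 ∧ o = some leafQ) ∨ (d = 1 ∧ o = none) := by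
  simp only [fam]
  split_ifs with h h'
  · subst h
    simp
  · subst h'
    simp
  · simp [h, h']

/-- the number of leaves of a class -/
def csize : TreeClass → ℕ := Quotient.lift BTree.size (fun _ _ h => size_iso h)

@[simp] lemma csize_mk (T : BTree) : csize ⟦T⟧ = T.size := rfl

/-- the number of leaves of a possibly empty class -/
def qsize : Option TreeClass → ℕ
  | none => 0
  | some q => csize q

@[simp] lemma qsize_none : qsize none = 0 := rfl
@[simp] lemma qsize_some (q : TreeClass) : qsize (some q) = csize q := rfl

lemma csize_pos (q : TreeClass) : 1 ≤ csize q := by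
  induction q using Quotient.inductionOn with
  | h a => exact size_pos a

lemma qsize_eq_zero {o : Option TreeClass} : qsize o = 0 ↔ o = none := by
  cases o with
  | none => simp
  | some q =>
    have := csize_pos q
    simp
    omega

@[simp] lemma csize_leafQ : csize leafQ = 1 := rfl

lemma csize_nodeQ (x y : TreeClass) : csize (nodeQ x y) = csize x + csize y := by
  induction x using Quotient.inductionOn with
  | h a =>
    induction y using Quotient.inductionOn with
    | h b => rfl

@[simp] lemma qsize_joinQ (a b : Option TreeClass) :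
    qsize (joinQ a b) = qsize a + qsize b := by
  cases a with
  | none => cases b <;> simp [joinQ]
  | some x =>
    cases b with
    | none => simp [joinQ]
    | some y => exact csize_nodeQ x y

@[simp] lemma joinQ_none_left (a : Option TreeClass) : joinQ none a = a := by
  cases a <;> rfl

@[simp] lemma joinQ_none_right (a : Option TreeClass) : joinQ a none = a := by
  cases a <;> rfl

lemma joinQ_eq_none {a b : Option TreeClass} (h : joinQ a b = none) : a = none ∧ b = none := by
  cases a with
  | none => exact ⟨rfl, by simpa using h⟩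
  | some x =>
    cases b with
    | none => simp [joinQ] at h
    | some y => simp [joinQ] at h

lemma fam_qsize {T : BTree} {d : ℕ} {o : Option TreeClass} (h : o ∈ fam T d) :
    qsize o + d = T.size := by
  induction T generalizing d o with
  | leaf =>
    rcases mem_fam_leaf.1 h with ⟨rfl, rfl⟩ | ⟨rfl, rfl⟩ <;> rfl
  | node l r ihl ihr =>
    obtain ⟨i, j, hij, a, ha, b, hb, rfl⟩ := mem_fam_node.1 h
    have h1 := ihl ha
    have h2 := ihr hb
    rw [qsize_joinQ]
    show _ = l.size + r.size
    omega

lemma fam_zero (T : BTree) : fam T 0 = {some ⟦T⟧} := by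
  induction T with
  | leaf => simp [fam]; rfl
  | node l r ihl ihr =>
    ext o
    rw [mem_fam_node, mem_singleton]
    constructor
    · rintro ⟨i, j, hij, a, ha, b, hb, rfl⟩
      obtain ⟨rfl, rfl⟩ : i = 0 ∧ j = 0 := by omega
      rw [ihl, mem_singleton] at ha
      rw [ihr, mem_singleton] at hb
      subst ha
      subst hb
      rfl
    · rintro rfl
      exact ⟨0, 0, rfl, some ⟦l⟧, by rw [ihl]; simp, some ⟦r⟧, by rw [ihr]; simp, rfl⟩

lemma none_mem_fam {T : BTree} {d : ℕ} : none ∈ fam T d ↔ d = T.size := by
  constructor
  · intro h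
    have := fam_qsize h
    simpa using this
  · rintro rfl
    induction T with
    | leaf => exact mem_fam_leaf.2 (Or.inr ⟨rfl, rfl⟩)
    | node l r ihl ihr =>
      exact mem_fam_node.2 ⟨l.size, r.size, rfl, none, ihl, none, ihr, rfl⟩

/-- all deletions of more leaves than there are -/
lemma fam_eq_empty {T : BTree} {d : ℕ} (h : T.size < d) : fam T d = ∅ := by
  rw [Finset.eq_empty_iff_forall_notMem]
  intro o ho
  have := fam_qsize ho
  omega

lemma fam_iso {T T' : BTree} (h : Iso T T') : fam T = fam T' := by
  induction h with
  | leaf => rfl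
  | @node a b a' b' _ _ h1 h2 =>
    funext d
    ext o
    rw [mem_fam_node, mem_fam_node, h1, h2]
  | @swap a b a' b' _ _ h1 h2 =>
    funext d
    ext o
    rw [mem_fam_node, mem_fam_node, h1, h2]
    constructor
    · rintro ⟨i, j, hij, x, hx, y, hy, rfl⟩
      exact ⟨j, i, by omega, y, hy, x, hx, joinQ_comm y x⟩
    · rintro ⟨i, j, hij, x, hx, y, hy, rfl⟩
      exact ⟨j, i, by omega, y, hy, x, hx, joinQ_comm y x⟩

lemma fam_swap (l r : BTree) : fam (.node l r) = fam (.node r l) :=
  fam_iso (Iso.swap (Iso.refl _) (Iso.refl _))

lemma nodeQ_inj {a b c e : TreeClass} (h : nodeQ a b = nodeQ c e) :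
    (a = c ∧ b = e) ∨ (a = e ∧ b = c) := by
  induction a using Quotient.inductionOn with
  | h a =>
  induction b using Quotient.inductionOn with
  | h b =>
  induction c using Quotient.inductionOn with
  | h c =>
  induction e using Quotient.inductionOn with
  | h e =>
  have h' : Iso (.node a b) (.node c e) := Quotient.exact h
  cases h' with
  | node h1 h2 => exact Or.inl ⟨Quotient.sound h1, Quotient.sound h2⟩
  | swap h1 h2 => exact Or.inr ⟨Quotient.sound h1, Quotient.sound h2⟩

lemma joinQ_inj {a b c e : Option TreeClass} (ha : a ≠ none) (hb : b ≠ none) (hc : c ≠ none)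
    (he : e ≠ none) (h : joinQ a b = joinQ c e) : (a = c ∧ b = e) ∨ (a = e ∧ b = c) := by
  cases a with
  | none => exact absurd rfl ha
  | some a =>
  cases b with
  | none => exact absurd rfl hb
  | some b =>
  cases c with
  | none => exact absurd rfl hc
  | some c =>
  cases e with
  | none => exact absurd rfl he
  | some e =>
  rcases nodeQ_inj (Option.some_injective _ h) with ⟨rfl, rfl⟩ | ⟨rfl, rfl⟩
  · exact Or.inl ⟨rfl, rfl⟩
  · exact Or.inr ⟨rfl, rfl⟩

lemma joinQ_leaf_inj {a b : Option TreeClass}
    (h : joinQ a (some leafQ) = joinQ b (some leafQ)) : a = b := by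
  have h1 : qsize a = qsize b := by
    have := congrArg qsize h
    simpa using this
  cases a with
  | none => exact (qsize_eq_zero.1 h1.symm).symm
  | some x =>
    have hb : b ≠ none := by
      rintro rfl
      have := csize_pos x
      simp at h1
      omega
    rcases joinQ_inj (by simp) (by simp) hb (by simp) h with ⟨h2, _⟩ | ⟨h2, h3⟩
    · exact h2
    · rw [h2, h3]

/-- the trivial bound -/
lemma card_fam_le (T : BTree) (d : ℕ) : (fam T d).card ≤ T.size.choose d := by
  classical
  induction T generalizing d with
  | leaf =>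
    have hs : (BTree.leaf).size = 1 := rfl
    simp only [fam, hs]
    split_ifs with h h'
    · subst h
      simp
    · subst h'
      simp
    · simp
  | node l r ihl ihr =>
    have hs : (BTree.node l r).size = l.size + r.size := rfl
    rw [hs, Nat.add_choose_eq]
    refine (Finset.card_biUnion_le).trans (sum_le_sum fun p _ => ?_)
    refine (Finset.card_image_le).trans ?_
    rw [card_product]
    exact Nat.mul_le_mul (ihl _) (ihr _)

/-- a member with a leaf at the root: this leaf may be deleted as well -/
lemma fam_greedy {T : BTree} {d : ℕ} {a : Option TreeClass}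
    (h : joinQ a (some leafQ) ∈ fam T d) : a ∈ fam T (d + 1) := by
  induction T generalizing d a with
  | leaf =>
    have h1 := fam_qsize h
    have hs : (BTree.leaf).size = 1 := rfl
    rw [hs, qsize_joinQ] at h1
    simp only [qsize_some, csize_leafQ] at h1
    have h2 : qsize a = 0 := by omega
    rw [qsize_eq_zero.1 h2]
    exact none_mem_fam.2 (by rw [hs]; omega)
  | node l r ihl ihr =>
    obtain ⟨i, j, hij, x, hx, y, hy, hxy⟩ := mem_fam_node.1 h
    by_cases hx0 : x = none
    · subst hx0
      rw [joinQ_none_left] at hxy
      subst hxy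
      exact mem_fam_node.2 ⟨i, j + 1, by omega, none, hx, a, ihr hy, joinQ_none_left _⟩
    · by_cases hy0 : y = none
      · subst hy0
        rw [joinQ_none_right] at hxy
        subst hxy
        exact mem_fam_node.2 ⟨i + 1, j, by omega, a, ihl hx, none, hy, joinQ_none_right _⟩
      · by_cases ha : a = none
        · subst ha
          have h1 := fam_qsize h
          refine none_mem_fam.2 ?_
          simp only [qsize_joinQ, qsize_none, qsize_some, csize_leafQ] at h1
          omega
        · rcases joinQ_inj hx0 hy0 ha (by simp) hxy with ⟨rfl, rfl⟩ | ⟨rfl, rfl⟩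
          · have h1 := fam_qsize hy
            simp only [qsize_some, csize_leafQ] at h1
            exact mem_fam_node.2 ⟨i, j + 1, by omega, x, hx, none,
              none_mem_fam.2 (by omega), joinQ_none_right _⟩
          · have h1 := fam_qsize hx
            simp only [qsize_some, csize_leafQ] at h1
            exact mem_fam_node.2 ⟨i + 1, j, by omega, none,
              none_mem_fam.2 (by omega), y, hy, joinQ_none_left _⟩

lemma coe_fam (T : BTree) (d : ℕ) : (fam T d : Set (Option TreeClass)) = del T d := by
  induction T generalizing d with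
  | leaf =>
    rw [del_leaf]
    ext o
    rw [mem_coe, mem_fam_leaf]
    constructor
    · rintro (⟨rfl, rfl⟩ | ⟨rfl, rfl⟩)
      · exact Or.inl ⟨none, ⟨rfl, rfl⟩, rfl⟩
      · exact Or.inr ⟨0, rfl, rfl, rfl⟩
    · rintro (⟨a, ⟨rfl, rfl⟩, rfl⟩ | ⟨e, rfl, rfl, rfl⟩)
      · exact Or.inl ⟨rfl, rfl⟩
      · exact Or.inr ⟨rfl, rfl⟩
  | node l r ihl ihr =>
    rw [del_node]
    ext o
    rw [mem_coe, mem_fam_node]
    simp only [prodF, Set.mem_ofPred_eq, ← ihl, ← ihr, mem_coe]

/-- for fewer deletions than leaves the family is the deck -/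
lemma card_fam_eq {T : BTree} {d : ℕ} (hd : d < T.size) :
    (fam T d).card = (deck T (T.size - d)).ncard := by
  have h1 : some '' (deck T (T.size - d)) = del T d := by
    ext o
    constructor
    · rintro ⟨u, ⟨S, hS, U, hU, rfl⟩, rfl⟩
      refine ⟨S, by omega, ?_⟩
      rw [hU]
      rfl
    · rintro ⟨S, hS, rfl⟩
      cases hU : T.restrict S with
      | none =>
        have h2 : (none : Option TreeClass) ∈ del T d := ⟨S, hS, by rw [hU]; rfl⟩
        rw [← coe_fam, mem_coe, none_mem_fam] at h2
        omega
      | some U => exact ⟨⟦U⟧, ⟨S, by omega, U, hU, rfl⟩, rfl⟩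
  rw [← Set.ncard_coe_finset, coe_fam, ← h1, Set.ncard_image_of_injective _
    (Option.some_injective _)]

end LeafDeck
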