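import Pool.Agent.LeafDeck.Collision

/-!
The lower bound (helper56): a tree with `f₁` classes of trees obtained by deleting one leaf has at
least `C(f₁, d)` minus a term of lower order classes obtained by deleting `d` leaves.
-/

set_option autoImplicit false

namespace LeafDeck

open Finset BTree

/-- the error term of the lower bound -/
noncomputable def err (d n : ℕ) : ℝ :=
  if d < 2 then 0 else 100 * 4 ^ d * ((n : ℝ) * √(n : ℝ)) * (n.choose (d - 2) : ℕ)

lemma err_nonneg (d n : ℕ) : 0 ≤ err d n := by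
  unfold err
  split_ifs
  · exact le_rfl
  · positivity

lemma err_mono {d p n : ℕ} (h : p ≤ n) : err d p ≤ err d n := by
  unfold err
  split_ifs
  · exact le_rfl
  · have h1 : (p : ℝ) ≤ n := by exact_mod_cast h
    have h2 : ((p.choose (d - 2) : ℕ) : ℝ) ≤ (n.choose (d - 2) : ℕ) := by
      exact_mod_cast Nat.choose_le_choose (d - 2) h
    gcongr

lemma err_add_two (e n : ℕ) :
    err (e + 2) n = 100 * 4 ^ (e + 2) * ((n : ℝ) * √(n : ℝ)) * (n.choose e : ℕ) := by
  unfold err
  rw [if_neg (by omega)]
  rfl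

lemma joinQ_right_inj {a b : Option TreeClass} {q : TreeClass}
    (h : joinQ a (some q) = joinQ b (some q)) : a = b := by
  have h1 : qsize a = qsize b := by
    have := congrArg qsize h
    simpa using this
  cases a with
  | none => exact (qsize_eq_zero.1 h1.symm).symm
  | some x =>
    have hb : b ≠ none := by
      rintro rfl
      have := csize_pos x
      simp at h1
      omega
    rcases joinQ_inj (by simp) (by simp) hb (by simp) h with ⟨h2, _⟩ | ⟨h2, h3⟩
    · exact h2
    · rw [h2, h3]

lemma card_fam_node_ge (P Q : BTree) (d : ℕ) :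
    (fam P d).card ≤ (fam (.node P Q) d).card := by
  refine card_le_card_of_injOn (fun a => joinQ a (some ⟦Q⟧)) ?_ ?_
  · intro a ha
    rw [mem_coe] at ha
    exact mem_coe.2 (mem_fam_node.2 ⟨d, 0, rfl, a, ha, some ⟦Q⟧, by rw [fam_zero]; simp, rfl⟩)
  · intro a _ b _ h
    exact joinQ_right_inj h

lemma mem_fam_node_one {P Q : BTree} {o : Option TreeClass} :
    o ∈ fam (.node P Q) 1 ↔ (∃ a ∈ fam P 1, joinQ a (some ⟦Q⟧) = o) ∨
      ∃ b ∈ fam Q 1, joinQ (some ⟦P⟧) b = o := by
  rw [mem_fam_node]
  constructor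
  · rintro ⟨i, j, hij, a, ha, b, hb, rfl⟩
    obtain ⟨rfl, rfl⟩ | ⟨rfl, rfl⟩ : (i = 1 ∧ j = 0) ∨ (i = 0 ∧ j = 1) := by omega
    · rw [fam_zero, mem_singleton] at hb
      subst hb
      exact Or.inl ⟨a, ha, rfl⟩
    · rw [fam_zero, mem_singleton] at ha
      subst ha
      exact Or.inr ⟨b, hb, rfl⟩
  · rintro (⟨a, ha, rfl⟩ | ⟨b, hb, rfl⟩)
    · exact ⟨1, 0, rfl, a, ha, some ⟦Q⟧, by rw [fam_zero]; simp, rfl⟩
    · exact ⟨0, 1, rfl, some ⟦P⟧, by rw [fam_zero]; simp, b, hb, rfl⟩

lemma card_fam_one_le_add (P Q : BTree) :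
    (fam (.node P Q) 1).card ≤ (fam P 1).card + (fam Q 1).card := by
  classical
  have h : fam (.node P Q) 1 ⊆ ((fam P 1).image fun a => joinQ a (some ⟦Q⟧)) ∪
      ((fam Q 1).image fun b => joinQ (some ⟦P⟧) b) := by
    intro o ho
    rw [mem_union, mem_image, mem_image]
    exact mem_fam_node_one.1 ho
  refine (card_le_card h).trans ((card_union_le _ _).trans ?_)
  exact Nat.add_le_add card_image_le card_image_le

lemma card_fam_one_of_eq (P Q : BTree) (h : (⟦P⟧ : TreeClass) = ⟦Q⟧) :
    (fam (.node P Q) 1).card ≤ (fam P 1).card := by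
  classical
  have hiso : Iso P Q := Quotient.exact h
  have hs : fam (.node P Q) 1 ⊆ (fam P 1).image fun a => joinQ a (some ⟦Q⟧) := by
    intro o ho
    rw [mem_image]
    rcases mem_fam_node_one.1 ho with h1 | ⟨b, hb, h1⟩
    · exact h1
    · refine ⟨b, by rw [fam_iso hiso]; exact hb, ?_⟩
      rw [joinQ_comm, ← h]
      exact h1
  exact (card_le_card hs).trans card_image_le

/-- the tree above a leaf and a tree which is itself of the form (subtree, leaf) -/
lemma card_fam_one_leaf_of (P : BTree)
    (h : ∃ a ∈ fam P 1, joinQ a (some leafQ) = some ⟦P⟧) :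
    (fam (.node P .leaf) 1).card ≤ (fam P 1).card := by
  classical
  have hs : fam (.node P .leaf) 1 ⊆ (fam P 1).image fun a => joinQ a (some leafQ) := by
    intro o ho
    rw [mem_image]
    rcases mem_fam_node_one.1 ho with h1 | ⟨b, hb, h1⟩
    · exact h1
    · have hb' : b = none := by
        rcases mem_fam_leaf.1 hb with ⟨h2, _⟩ | ⟨_, h2⟩
        · omega
        · exact h2
      subst hb'
      rw [joinQ_none_right] at h1
      subst h1
      exact h
  exact (card_le_card hs).trans card_image_le

lemma choose_succ_le_mul (n k : ℕ) : n.choose (k + 1) ≤ n * n.choose k := by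
  have h1 := Nat.choose_succ_right_eq n k
  calc n.choose (k + 1) ≤ n.choose (k + 1) * (k + 1) := Nat.le_mul_of_pos_right _ (by omega)
    _ = n.choose k * (n - k) := h1
    _ ≤ n.choose k * n := Nat.mul_le_mul_left _ (by omega)
    _ = n * n.choose k := mul_comm _ _

/-- the sum of the errors of one factor -/
lemma err_conv (p q e : ℕ) :
    ∑ x ∈ antidiagonal (e + 2), err x.1 p * ((q.choose x.2 : ℕ) : ℝ) ≤
      100 * 4 ^ (e + 2) * ((p : ℝ) * √(p : ℝ)) * ((p + q).choose e : ℕ) := by
  rw [Finset.Nat.sum_antidiagonal_succ, Finset.Nat.sum_antidiagonal_succ]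
  have h0 : err 0 p = 0 := by simp [err]
  have h1 : err (0 + 1) p = 0 := by simp [err]
  simp only
  rw [h0, h1, zero_mul, zero_mul, zero_add, zero_add, Nat.add_choose_eq]
  push_cast
  rw [mul_sum]
  refine sum_le_sum fun x hx => ?_
  rw [HasAntidiagonal.mem_antidiagonal] at hx
  rw [show x.1 + 1 + 1 = x.1 + 2 by ring, err_add_two]
  have h4 : (4 : ℝ) ^ (x.1 + 2) ≤ 4 ^ (e + 2) := pow_le_pow_right₀ (by norm_num) (by omega)
  have h5 : 0 ≤ (p : ℝ) * √(p : ℝ) := by positivity
  have h6 : (0 : ℝ) ≤ (p.choose x.1 : ℝ) * (q.choose x.2 : ℝ) := by positivity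
  calc 100 * 4 ^ (x.1 + 2) * ((p : ℝ) * √(p : ℝ)) * (p.choose x.1 : ℝ) * (q.choose x.2 : ℝ)
      = 100 * 4 ^ (x.1 + 2) * ((p : ℝ) * √(p : ℝ)) * ((p.choose x.1 : ℝ) * (q.choose x.2 : ℝ)) := by
        ring
    _ ≤ 100 * 4 ^ (e + 2) * ((p : ℝ) * √(p : ℝ)) * ((p.choose x.1 : ℝ) * (q.choose x.2 : ℝ)) := by
        gcongr

/-- superadditivity of `n√n` with a gap -/
lemma gap_le {p q : ℕ} (h : q ≤ p) :
    (p : ℝ) * √(p : ℝ) + (q : ℝ) * √(q : ℝ) + 41 / 100 * ((q : ℝ) * √(q : ℝ)) ≤
      ((p : ℝ) + q) * √((p : ℝ) + q) := by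
  have hpq : (q : ℝ) ≤ p := by exact_mod_cast h
  have hq0 : (0 : ℝ) ≤ q := Nat.cast_nonneg _
  have h1 : √(p : ℝ) ≤ √((p : ℝ) + q) := Real.sqrt_le_sqrt (by linarith)
  have h2 : 141 / 100 * √(q : ℝ) ≤ √((p : ℝ) + q) := by
    refine Real.le_sqrt_of_sq_le ?_
    rw [mul_pow, Real.sq_sqrt hq0]
    nlinarith
  have h3 := mul_le_mul_of_nonneg_left h1 (hq0.trans hpq)
  have h4 := mul_le_mul_of_nonneg_left h2 hq0
  nlinarith

lemma gap_eq (q : ℕ) :
    (q : ℝ) * √(q : ℝ) + (q : ℝ) * √(q : ℝ) + 82 / 100 * ((q : ℝ) * √(q : ℝ)) ≤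
      ((q : ℝ) + q) * √((q : ℝ) + q) := by
  have hq0 : (0 : ℝ) ≤ q := Nat.cast_nonneg _
  have h2 : 141 / 100 * √(q : ℝ) ≤ √((q : ℝ) + q) := by
    refine Real.le_sqrt_of_sq_le ?_
    rw [mul_pow, Real.sq_sqrt hq0]
    nlinarith
  have h4 := mul_le_mul_of_nonneg_left h2 hq0
  nlinarith

lemma swapLoss_comm (d p q : ℕ) : swapLoss d p q = swapLoss d q p := by
  unfold swapLoss
  by_cases h : p = q
  · rw [h]
  · rw [if_neg h, if_neg (Ne.symm h), add_comm p q]
    by_cases h' : p ≤ q + d ∧ q ≤ p + d
    · rw [if_pos h', if_pos h'.symm]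
    · rw [if_neg h', if_neg (fun h2 => h' h2.symm)]

lemma final_b_aux {p q : ℕ} (h : q ≤ p) (hq : 2 ≤ q) (e : ℕ) :
    2 * ((p + q - 2).choose e : ℝ) + swapLoss (e + 2) p q +
        100 * 4 ^ (e + 2) * ((p : ℝ) * √(p : ℝ)) * ((p + q).choose e : ℕ) +
        100 * 4 ^ (e + 2) * ((q : ℝ) * √(q : ℝ)) * ((p + q).choose e : ℕ) ≤
      err (e + 2) (p + q) := by
  rw [err_add_two]
  have hq0 : (2 : ℝ) ≤ q := by exact_mod_cast hq
  have hpq : (q : ℝ) ≤ p := by exact_mod_cast h
  have hc0 : (0 : ℝ) ≤ ((p + q).choose e : ℕ) := Nat.cast_nonneg _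
  have hc1 : ((p + q - 2).choose e : ℝ) ≤ ((p + q).choose e : ℕ) := by
    exact_mod_cast Nat.choose_le_choose e (by omega)
  have hc2 : ((p + q).choose (e + 1) : ℝ) ≤ ((p : ℝ) + q) * ((p + q).choose e : ℕ) := by
    have := choose_succ_le_mul (p + q) e
    exact_mod_cast this
  have hD : (16 : ℝ) ≤ 4 ^ (e + 2) := by
    calc (16 : ℝ) = 4 ^ 2 := by norm_num
      _ ≤ 4 ^ (e + 2) := pow_le_pow_right₀ (by norm_num) (by omega)
  have hDe : ((e + 2 : ℕ) : ℝ) ≤ 4 ^ (e + 2) := by
    have : e + 2 < 4 ^ (e + 2) := Nat.lt_pow_self (by norm_num)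
    exact_mod_cast this.le
  have hb1 : 1 ≤ √(q : ℝ) := by
    rw [Real.one_le_sqrt]
    linarith
  have hqb : 2 ≤ (q : ℝ) * √(q : ℝ) := by nlinarith
  have hqb2 : (q : ℝ) ≤ (q : ℝ) * √(q : ℝ) := by nlinarith
  set c : ℝ := (((p + q).choose e : ℕ) : ℝ) with hc
  set D : ℝ := 4 ^ (e + 2) with hDdef
  push_cast
  by_cases heq : p = q
  · subst heq
    have hs : swapLoss (e + 2) p p ≤ 20 * D * ((p : ℝ) * √(p : ℝ)) * c := by
      unfold swapLoss
      rw [if_pos rfl, show e + 2 - 1 = e + 1 by omega]
      have h1 := mul_le_mul_of_nonneg_left hc2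
        (show 0 ≤ 10 * D * √(p : ℝ) by positivity)
      calc 10 * 4 ^ (e + 2) * √(p : ℝ) * ((p + p).choose (e + 1) : ℕ)
          ≤ 10 * D * √(p : ℝ) * (((p : ℝ) + p) * c) := h1
        _ = 20 * D * ((p : ℝ) * √(p : ℝ)) * c := by ring
    have hg := gap_eq p
    set A : ℝ := (p : ℝ) * √(p : ℝ) with hA
    have h2 : 2 * c + 20 * D * A * c + 100 * D * A * c + 100 * D * A * c ≤
        100 * D * (((p : ℝ) + p) * √((p : ℝ) + p)) * c := by
      have h3 : 2 + 20 * D * A + 100 * D * A + 100 * D * A ≤
          100 * D * (((p : ℝ) + p) * √((p : ℝ) + p)) := by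
        have h4 := mul_le_mul_of_nonneg_left hg (show 0 ≤ 100 * D by positivity)
        have h5 : 32 ≤ D * A := by nlinarith
        nlinarith
      nlinarith [mul_le_mul_of_nonneg_right h3 hc0]
    linarith
  · have hs : swapLoss (e + 2) p q ≤ (2 * q + D) * c := by
      unfold swapLoss
      rw [if_neg heq]
      split_ifs with h'
      · rw [show e + 2 - 1 = e + 1 by omega]
        have h1 : ((p + q - 1).choose (e + 1) : ℝ) ≤ ((p + q).choose (e + 1) : ℝ) := by
          exact_mod_cast Nat.choose_le_choose (e + 1) (by omega)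
        have h2 : (p : ℝ) ≤ q + ((e + 2 : ℕ) : ℝ) := by exact_mod_cast h'.1
        refine h1.trans (hc2.trans ?_)
        refine mul_le_mul_of_nonneg_right ?_ hc0
        linarith
      · positivity
    have hg := gap_le h
    set A : ℝ := (p : ℝ) * √(p : ℝ) with hA
    set B : ℝ := (q : ℝ) * √(q : ℝ) with hB
    have h2 : 2 * c + (2 * q + D) * c + 100 * D * A * c + 100 * D * B * c ≤
        100 * D * (((p : ℝ) + q) * √((p : ℝ) + q)) * c := by
      have h3 : 2 + (2 * q + D) + 100 * D * A + 100 * D * B ≤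
          100 * D * (((p : ℝ) + q) * √((p : ℝ) + q)) := by
        have h4 := mul_le_mul_of_nonneg_left hg (show 0 ≤ 100 * D by positivity)
        have h5 : 2 * D ≤ D * B := by nlinarith
        have h6 : 16 * (q : ℝ) ≤ D * B := by nlinarith
        nlinarith
      nlinarith [mul_le_mul_of_nonneg_right h3 hc0]
    linarith

lemma final_b {p q : ℕ} (hp : 2 ≤ p) (hq : 2 ≤ q) (e : ℕ) :
    2 * ((p + q - 2).choose e : ℝ) + swapLoss (e + 2) p q +
        100 * 4 ^ (e + 2) * ((p : ℝ) * √(p : ℝ)) * ((p + q).choose e : ℕ) +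
        100 * 4 ^ (e + 2) * ((q : ℝ) * √(q : ℝ)) * ((p + q).choose e : ℕ) ≤
      err (e + 2) (p + q) := by
  rcases le_total q p with h | h
  · exact final_b_aux h hq e
  · have := final_b_aux h hp e
    rw [swapLoss_comm, add_comm q p] at this
    linarith

/-- two subtrees with at least two leaves each which are not isomorphic -/
lemma case_b (P Q : BTree) (hP : 2 ≤ P.size) (hQ : 2 ≤ Q.size)
    (hne : (⟦P⟧ : TreeClass) ≠ ⟦Q⟧)
    (ihP : ∀ d, (((fam P 1).card.choose d : ℕ) : ℝ) ≤ ((fam P d).card : ℝ) + err d P.size)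
    (ihQ : ∀ d, (((fam Q 1).card.choose d : ℕ) : ℝ) ≤ ((fam Q d).card : ℝ) + err d Q.size)
    (e : ℕ) :
    (((fam (.node P Q) 1).card.choose (e + 2) : ℕ) : ℝ) ≤
      ((fam (.node P Q) (e + 2)).card : ℝ) + err (e + 2) (P.size + Q.size) := by
  have hr := card_fam_one_le_add P Q
  have hrP : (fam P 1).card ≤ P.size := by simpa using card_fam_le P 1
  have hrQ : (fam Q 1).card ≤ Q.size := by simpa using card_fam_le Q 1
  have h1 : (((fam (.node P Q) 1).card.choose (e + 2) : ℕ) : ℝ) ≤
      ∑ x ∈ antidiagonal (e + 2), (((fam P 1).card.choose x.1 : ℕ) : ℝ) *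
        (((fam Q 1).card.choose x.2 : ℕ) : ℝ) := by
    have h2 := Nat.choose_le_choose (e + 2) hr
    rw [Nat.add_choose_eq] at h2
    exact_mod_cast h2
  have h2 : ∑ x ∈ antidiagonal (e + 2), (((fam P 1).card.choose x.1 : ℕ) : ℝ) *
        (((fam Q 1).card.choose x.2 : ℕ) : ℝ) ≤
      ∑ x ∈ antidiagonal (e + 2), (((fam P x.1).card : ℝ) * ((fam Q x.2).card : ℝ) +
        err x.1 P.size * ((Q.size.choose x.2 : ℕ) : ℝ) +
        err x.2 Q.size * ((P.size.choose x.1 : ℕ) : ℝ)) := by
    refine sum_le_sum fun x _ => ?_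
    have a1 := ihP x.1
    have a2 := ihQ x.2
    have a3 : ((fam P x.1).card : ℝ) ≤ ((P.size.choose x.1 : ℕ) : ℝ) := by
      exact_mod_cast card_fam_le P x.1
    have a4 : (((fam Q 1).card.choose x.2 : ℕ) : ℝ) ≤ ((Q.size.choose x.2 : ℕ) : ℝ) := by
      exact_mod_cast Nat.choose_le_choose x.2 hrQ
    have a5 := err_nonneg x.1 P.size
    have a6 := err_nonneg x.2 Q.size
    have a7 : (0 : ℝ) ≤ (((fam Q 1).card.choose x.2 : ℕ) : ℝ) := Nat.cast_nonneg _
    have a8 : (0 : ℝ) ≤ ((fam P x.1).card : ℝ) := Nat.cast_nonneg _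
    have b1 := mul_le_mul_of_nonneg_right a1 a7
    have b2 := mul_le_mul_of_nonneg_left a2 a8
    have b3 := mul_le_mul_of_nonneg_left a4 a5
    have b4 := mul_le_mul_of_nonneg_left a3 a6
    nlinarith
  rw [sum_add_distrib, sum_add_distrib] at h2
  have h3 := err_conv P.size Q.size e
  have h4 : ∑ x ∈ antidiagonal (e + 2), err x.2 Q.size * ((P.size.choose x.1 : ℕ) : ℝ) ≤
      100 * 4 ^ (e + 2) * ((Q.size : ℝ) * √(Q.size : ℝ)) *
        ((P.size + Q.size).choose e : ℕ) := by
    have h5 := err_conv Q.size P.size e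
    rw [← Finset.Nat.sum_antidiagonal_swap, add_comm Q.size P.size] at h5
    exact h5
  have h5 := collision P Q hP hQ hne (e + 2) (by omega)
  rw [show e + 2 - 2 = e by omega] at h5
  push_cast at h5
  have h6 := final_b hP hQ e
  linarith

/-- a leaf and a subtree both of whose subtrees are not leaves -/
lemma case_c (A B : BTree) (hA : 2 ≤ A.size) (hB : 2 ≤ B.size)
    (ih : ∀ d, (((fam (.node A B) 1).card.choose d : ℕ) : ℝ) ≤
      ((fam (.node A B) d).card : ℝ) + err d (A.size + B.size)) (e : ℕ) :
    (((fam (.node (.node A B) .leaf) 1).card.choose (e + 2) : ℕ) : ℝ) ≤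
      ((fam (.node (.node A B) .leaf) (e + 2)).card : ℝ) +
        err (e + 2) (A.size + B.size + 1) := by
  classical
  -- the number of classes after one deletion
  have hr : (fam (.node (.node A B) .leaf) 1).card ≤ (fam (.node A B) 1).card + 1 := by
    have h1 := card_fam_one_le_add (.node A B) .leaf
    have h2 : (fam .leaf 1).card = 1 := by
      simp [fam]
    omega
  -- the overlap
  have hov : ((fam (.node A B) (e + 1)).filter
      fun o => ∃ a, o = joinQ a (some leafQ)).card ≤ 4 * (A.size + B.size).choose e := by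
    have hsub : ((fam (.node A B) (e + 1)).filter fun o => ∃ a, o = joinQ a (some leafQ)) ⊆
        ((if A.size ≤ e + 1 then fam B (e + 1 - A.size) else ∅) ∪
        (if B.size ≤ e + 1 then fam A (e + 1 - B.size) else ∅)) ∪
        ((if A.size ≤ e + 2 then (fam B (e + 2 - A.size)).image
            fun b => joinQ (some leafQ) b else ∅) ∪
        (if B.size ≤ e + 2 then (fam A (e + 2 - B.size)).image
            fun a => joinQ a (some leafQ) else ∅)) := by
      intro o ho
      rw [mem_filter, mem_fam_node] at ho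
      obtain ⟨⟨i, j, hij, x, hx, y, hy, hxy⟩, a, ha⟩ := ho
      rw [mem_union, mem_union, mem_union]
      have ex := fam_qsize hx
      have ey := fam_qsize hy
      by_cases hx0 : x = none
      · left
        left
        subst hx0
        rw [joinQ_none_left] at hxy
        subst hxy
        simp only [qsize_none] at ex
        rw [if_pos (by omega), show e + 1 - A.size = j by omega]
        exact hy
      by_cases hy0 : y = none
      · left
        right
        subst hy0
        rw [joinQ_none_right] at hxy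
        subst hxy
        simp only [qsize_none] at ey
        rw [if_pos (by omega), show e + 1 - B.size = i by omega]
        exact hx
      have ha0 : a ≠ none := by
        rintro rfl
        rw [joinQ_none_left] at ha
        have h1 := congrArg qsize (hxy.trans ha)
        rw [qsize_joinQ] at h1
        have h2 : qsize x ≠ 0 := fun h => hx0 (qsize_eq_zero.1 h)
        have h3 : qsize y ≠ 0 := fun h => hy0 (qsize_eq_zero.1 h)
        simp only [qsize_some, csize_leafQ] at h1
        omega
      right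
      rcases joinQ_inj hx0 hy0 ha0 (by simp) (hxy.trans ha) with ⟨h1, h2⟩ | ⟨h1, h2⟩
      · right
        subst h2
        simp only [qsize_some, csize_leafQ] at ey
        rw [if_pos (by omega), mem_image]
        exact ⟨x, by rwa [show e + 2 - B.size = i by omega], hxy⟩
      · left
        subst h1
        simp only [qsize_some, csize_leafQ] at ex
        rw [if_pos (by omega), mem_image]
        exact ⟨y, by rwa [show e + 2 - A.size = j by omega], hxy⟩
    have c1 : (if A.size ≤ e + 1 then fam B (e + 1 - A.size) else ∅).card ≤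
        (A.size + B.size).choose e := by
      split_ifs with h
      · have h1 := choose_le_shift B.size (e + 1 - A.size) (A.size - 1)
        rw [show e + 1 - A.size + (A.size - 1) = e by omega] at h1
        exact (card_fam_le _ _).trans (h1.trans (Nat.choose_le_choose e (by omega)))
      · simp
    have c2 : (if B.size ≤ e + 1 then fam A (e + 1 - B.size) else ∅).card ≤
        (A.size + B.size).choose e := by
      split_ifs with h
      · have h1 := choose_le_shift A.size (e + 1 - B.size) (B.size - 1)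
        rw [show e + 1 - B.size + (B.size - 1) = e by omega] at h1
        exact (card_fam_le _ _).trans (h1.trans (Nat.choose_le_choose e (by omega)))
      · simp
    have c3 : (if A.size ≤ e + 2 then (fam B (e + 2 - A.size)).image
            fun b => joinQ (some leafQ) b else ∅).card ≤ (A.size + B.size).choose e := by
      split_ifs with h
      · have h1 := choose_le_shift B.size (e + 2 - A.size) (A.size - 2)
        rw [show e + 2 - A.size + (A.size - 2) = e by omega] at h1
        exact card_image_le.trans ((card_fam_le _ _).trans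
          (h1.trans (Nat.choose_le_choose e (by omega))))
      · simp
    have c4 : (if B.size ≤ e + 2 then (fam A (e + 2 - B.size)).image
            fun a => joinQ a (some leafQ) else ∅).card ≤ (A.size + B.size).choose e := by
      split_ifs with h
      · have h1 := choose_le_shift A.size (e + 2 - B.size) (B.size - 2)
        rw [show e + 2 - B.size + (B.size - 2) = e by omega] at h1
        exact card_image_le.trans ((card_fam_le _ _).trans
          (h1.trans (Nat.choose_le_choose e (by omega))))
      · simp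
    refine (card_le_card hsub).trans ?_
    refine (card_union_le _ _).trans ?_
    refine (Nat.add_le_add (card_union_le _ _) (card_union_le _ _)).trans ?_
    omega
  -- the number of classes after `e + 2` deletions
  have hf : (fam (.node A B) (e + 2)).card + (fam (.node A B) (e + 1)).card ≤
      (fam (.node (.node A B) .leaf) (e + 2)).card + 4 * (A.size + B.size).choose e := by
    have h1 : ((fam (.node A B) (e + 2)).image fun a => joinQ a (some leafQ)) ∪
        ((fam (.node A B) (e + 1)).filter fun o => ¬ ∃ a, o = joinQ a (some leafQ)) ⊆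
        fam (.node (.node A B) .leaf) (e + 2) := by
      intro o ho
      rw [mem_union, mem_image, mem_filter] at ho
      rcases ho with ⟨a, ha, rfl⟩ | ⟨ho, -⟩
      · exact mem_fam_node.2 ⟨e + 2, 0, rfl, a, ha, some leafQ,
          mem_fam_leaf.2 (Or.inl ⟨rfl, rfl⟩), rfl⟩
      · exact mem_fam_node.2 ⟨e + 1, 1, rfl, o, ho, none,
          mem_fam_leaf.2 (Or.inr ⟨rfl, rfl⟩), joinQ_none_right _⟩
    have h2 : Disjoint ((fam (.node A B) (e + 2)).image fun a => joinQ a (some leafQ))
        ((fam (.node A B) (e + 1)).filter fun o => ¬ ∃ a, o = joinQ a (some leafQ)) := by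
      rw [Finset.disjoint_left]
      intro o h3 h4
      rw [mem_image] at h3
      rw [mem_filter] at h4
      obtain ⟨a, -, rfl⟩ := h3
      exact h4.2 ⟨a, rfl⟩
    have h3 := card_le_card h1
    rw [card_union_of_disjoint h2, card_image_of_injective _
      (fun a b h => joinQ_leaf_inj h)] at h3
    have h4 := card_filter_add_card_filter_not (s := fam (.node A B) (e + 1))
      (fun o => ∃ a, o = joinQ a (some leafQ))
    omega
  have h1 : (((fam (.node (.node A B) .leaf) 1).card.choose (e + 2) : ℕ) : ℝ) ≤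
      (((fam (.node A B) 1).card.choose (e + 1) : ℕ) : ℝ) +
        (((fam (.node A B) 1).card.choose (e + 2) : ℕ) : ℝ) := by
    have h2 := Nat.choose_le_choose (e + 2) hr
    rw [Nat.choose_succ_succ'] at h2
    exact_mod_cast h2
  have h2 := ih (e + 1)
  have h3 := ih (e + 2)
  have hf' : ((fam (.node A B) (e + 2)).card : ℝ) + ((fam (.node A B) (e + 1)).card : ℝ) ≤
      ((fam (.node (.node A B) .leaf) (e + 2)).card : ℝ) +
        4 * ((A.size + B.size).choose e : ℕ) := by
    exact_mod_cast hf
  -- the errors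
  have hE : err (e + 1) (A.size + B.size) + err (e + 2) (A.size + B.size) ≤
      100 * 4 ^ (e + 2) * (((A.size + B.size : ℕ) : ℝ) * √((A.size + B.size : ℕ) : ℝ)) *
        ((A.size + B.size + 1).choose e : ℕ) := by
    rw [err_add_two]
    cases e with
    | zero =>
      simp [err]
    | succ k =>
      rw [show k + 1 + 1 = k + 2 by ring, err_add_two, Nat.choose_succ_succ']
      push_cast
      have h4 : (4 : ℝ) ^ (k + 2) ≤ 4 ^ (k + 1 + 2) := pow_le_pow_right₀ (by norm_num) (by omega)
      have h5 : 0 ≤ ((A.size : ℝ) + B.size) * √((A.size : ℝ) + B.size) := by positivity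
      have h6 : (0 : ℝ) ≤ ((A.size + B.size).choose k : ℕ) := Nat.cast_nonneg _
      have h7 := mul_le_mul_of_nonneg_right (mul_le_mul_of_nonneg_right
        (mul_le_mul_of_nonneg_left h4 (show (0 : ℝ) ≤ 100 by norm_num)) h5) h6
      nlinarith
  have hF : 4 * (((A.size + B.size).choose e : ℕ) : ℝ) +
      100 * 4 ^ (e + 2) * (((A.size + B.size : ℕ) : ℝ) * √((A.size + B.size : ℕ) : ℝ)) *
        ((A.size + B.size + 1).choose e : ℕ) ≤ err (e + 2) (A.size + B.size + 1) := by
    rw [err_add_two]
    have g1 : (((A.size + B.size).choose e : ℕ) : ℝ) ≤ ((A.size + B.size + 1).choose e : ℕ) := by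
      exact_mod_cast Nat.choose_le_choose e (by omega)
    have g0 : (0 : ℝ) ≤ ((A.size + B.size + 1).choose e : ℕ) := Nat.cast_nonneg _
    have hm : (1 : ℝ) ≤ ((A.size + B.size : ℕ) : ℝ) := by
      exact_mod_cast (by omega : 1 ≤ A.size + B.size)
    set m : ℝ := ((A.size + B.size : ℕ) : ℝ) with hmdef
    have hcast : ((A.size + B.size + 1 : ℕ) : ℝ) = m + 1 := by
      rw [hmdef]
      push_cast
      ring
    rw [hcast]
    have g2 : √m ≤ √(m + 1) := Real.sqrt_le_sqrt (by linarith)
    have g3 : 1 ≤ √m := by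
      rw [Real.one_le_sqrt]
      exact hm
    have g4 : m * √m + 1 ≤ (m + 1) * √(m + 1) := by nlinarith
    have g5 : (16 : ℝ) ≤ 4 ^ (e + 2) := by
      calc (16 : ℝ) = 4 ^ 2 := by norm_num
        _ ≤ 4 ^ (e + 2) := pow_le_pow_right₀ (by norm_num) (by omega)
    set D : ℝ := 4 ^ (e + 2) with hD
    set c : ℝ := (((A.size + B.size + 1).choose e : ℕ) : ℝ) with hc
    have g6 : 4 + 100 * D * (m * √m) ≤ 100 * D * ((m + 1) * √(m + 1)) := by
      have := mul_le_mul_of_nonneg_left g4 (show 0 ≤ 100 * D by positivity)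
      nlinarith
    nlinarith [mul_le_mul_of_nonneg_right g6 g0]
  linarith

/-- the bound for a tree and a leaf -/
lemma case_leaf (P : BTree)
    (ih : ∀ d, (((fam P 1).card.choose d : ℕ) : ℝ) ≤ ((fam P d).card : ℝ) + err d P.size)
    (e : ℕ) :
    (((fam (.node P .leaf) 1).card.choose (e + 2) : ℕ) : ℝ) ≤
      ((fam (.node P .leaf) (e + 2)).card : ℝ) + err (e + 2) (P.size + 1) := by
  have hd : (∃ a ∈ fam P 1, joinQ a (some leafQ) = some ⟦P⟧) →
      (((fam (.node P .leaf) 1).card.choose (e + 2) : ℕ) : ℝ) ≤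
      ((fam (.node P .leaf) (e + 2)).card : ℝ) + err (e + 2) (P.size + 1) := by
    intro h
    have h1 := card_fam_one_leaf_of P h
    have h2 := card_fam_node_ge P .leaf (e + 2)
    have h3 : (((fam (.node P .leaf) 1).card.choose (e + 2) : ℕ) : ℝ) ≤
        (((fam P 1).card.choose (e + 2) : ℕ) : ℝ) := by
      exact_mod_cast Nat.choose_le_choose (e + 2) h1
    have h4 : ((fam P (e + 2)).card : ℝ) ≤ ((fam (.node P .leaf) (e + 2)).card : ℝ) := by
      exact_mod_cast h2
    have h5 : err (e + 2) P.size ≤ err (e + 2) (P.size + 1) := err_mono (by omega)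
    have h6 := ih (e + 2)
    linarith
  cases P with
  | leaf =>
    exact hd ⟨none, mem_fam_leaf.2 (Or.inr ⟨rfl, rfl⟩), joinQ_none_left _⟩
  | node A B =>
    cases B with
    | leaf =>
      refine hd ⟨some ⟦A⟧, mem_fam_node_one.2 (Or.inr ⟨none,
        mem_fam_leaf.2 (Or.inr ⟨rfl, rfl⟩), joinQ_none_right _⟩), rfl⟩
    | node B1 B2 =>
      cases A with
      | leaf =>
        refine hd ⟨some ⟦.node B1 B2⟧, mem_fam_node_one.2 (Or.inl ⟨none,
          mem_fam_leaf.2 (Or.inr ⟨rfl, rfl⟩), joinQ_none_left _⟩), ?_⟩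
        rw [joinQ_comm]
        rfl
      | node A1 A2 =>
        have hA : 2 ≤ (BTree.node A1 A2).size := by
          have h1 := size_pos A1
          have h2 := size_pos A2
          show 2 ≤ A1.size + A2.size
          omega
        have hB : 2 ≤ (BTree.node B1 B2).size := by
          have h1 := size_pos B1
          have h2 := size_pos B2
          show 2 ≤ B1.size + B2.size
          omega
        exact case_c _ _ hA hB ih e

theorem levenshtein (T : BTree) (d : ℕ) :
    (((fam T 1).card.choose d : ℕ) : ℝ) ≤ ((fam T d).card : ℝ) + err d T.size := by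
  induction T generalizing d with
  | leaf =>
    have h1 : (fam .leaf 1).card = 1 := by simp [fam]
    have h0 := err_nonneg d BTree.leaf.size
    rw [h1]
    match d with
    | 0 =>
      have h2 : (fam .leaf 0).card = 1 := by simp [fam]
      rw [h2]
      simp only [Nat.choose_zero_right]
      linarith
    | 1 =>
      rw [h1]
      simp only [Nat.choose_self]
      linarith
    | e + 2 =>
      have h2 : Nat.choose 1 (e + 2) = 0 := Nat.choose_eq_zero_of_lt (by omega)
      rw [h2]
      have : (0 : ℝ) ≤ ((fam .leaf (e + 2)).card : ℝ) := Nat.cast_nonneg _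
      push_cast
      linarith
  | node P Q ihP ihQ =>
    have h0 := err_nonneg d (BTree.node P Q).size
    match d with
    | 0 =>
      rw [fam_zero]
      simp only [Nat.choose_zero_right, card_singleton]
      linarith
    | 1 =>
      rw [Nat.choose_one_right]
      linarith
    | e + 2 =>
      have hsize : (BTree.node P Q).size = P.size + Q.size := rfl
      by_cases heq : (⟦P⟧ : TreeClass) = ⟦Q⟧
      · have h1 := card_fam_one_of_eq P Q heq
        have h2 := card_fam_node_ge P Q (e + 2)
        have h3 : (((fam (.node P Q) 1).card.choose (e + 2) : ℕ) : ℝ) ≤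
            (((fam P 1).card.choose (e + 2) : ℕ) : ℝ) := by
          exact_mod_cast Nat.choose_le_choose (e + 2) h1
        have h4 : ((fam P (e + 2)).card : ℝ) ≤ ((fam (.node P Q) (e + 2)).card : ℝ) := by
          exact_mod_cast h2
        have h5 : err (e + 2) P.size ≤ err (e + 2) (BTree.node P Q).size :=
          err_mono (by rw [hsize]; omega)
        have h6 := ihP (e + 2)
        linarith
      · cases Q with
        | leaf => exact case_leaf P ihP e
        | node Q1 Q2 =>
          cases P with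
          | leaf =>
            have h1 := case_leaf (.node Q1 Q2) ihQ e
            rw [fam_swap, hsize, add_comm BTree.leaf.size]
            exact h1
          | node P1 P2 =>
            have hP : 2 ≤ (BTree.node P1 P2).size := by
              have h1 := size_pos P1
              have h2 := size_pos P2
              show 2 ≤ P1.size + P2.size
              omega
            have hQ : 2 ≤ (BTree.node Q1 Q2).size := by
              have h1 := size_pos Q1
              have h2 := size_pos Q2
              show 2 ≤ Q1.size + Q2.size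
              omega
            exact case_b _ _ hP hQ heq ihP ihQ e

end LeafDeck
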