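import Pool.Agent.LeafDeck.Token

/-!
The exact solution for few deleted leaves: the structure of the trees and the upper bound.
-/

set_option autoImplicit false

namespace LeafDeck

open Finset BTree PowerSeries

/-- `(z ^ 2 + z ^ 3) / (1 - z ^ 3)` -/
noncomputable def vs : PowerSeries ℕ :=
  PowerSeries.mk fun d => if d % 3 = 1 then 0 else if d = 0 then 0 else 1

lemma vs_rec : vs = PowerSeries.X ^ 2 + PowerSeries.X ^ 3 + PowerSeries.X ^ 3 * vs := by
  ext d
  rw [map_add, map_add, coeff_shift, coeff_X_pow, coeff_X_pow, vs, coeff_mk]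
  rcases Nat.lt_or_ge d 4 with h | h
  · rcases (by omega : d = 0 ∨ d = 1 ∨ d = 2 ∨ d = 3) with rfl | rfl | rfl | rfl <;> simp
  · rw [if_pos (by omega : 3 ≤ d), coeff_mk]
    have h1 : (d - 3) % 3 = d % 3 := by omega
    rw [h1]
    have h2 : d ≠ 2 := by omega
    have h3 : d ≠ 3 := by omega
    have h4 : d ≠ 0 := by omega
    have h5 : d - 3 ≠ 0 := by omega
    simp [h2, h3, h4, h5]

lemma one_add_vs : Cle (1 + vs) ww := by
  intro d
  rw [map_add, coeff_one, vs, ww, coeff_mk, coeff_mk]
  rcases Nat.lt_or_ge d 2 with h | h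
  · rcases (by omega : d = 0 ∨ d = 1) with rfl | rfl <;> simp
  · have h1 : d ≠ 0 := by omega
    have h2 : d ≠ 1 := by omega
    simp only [h1, h2, if_false]
    split_ifs <;> omega

lemma one_le_tt : Cle 1 tt := by
  intro d
  rw [tt, map_add]
  exact Nat.le_add_right _ _

lemma one_le_ww : Cle 1 ww := (Cle.add_right 1 vs).trans one_add_vs

lemma one_le_uu : Cle 1 uu := by
  have := one_le_uu_pow 1
  rwa [pow_one] at this

lemma one_le_pow {g : PowerSeries ℕ} (h : Cle 1 g) (n : ℕ) : Cle 1 (g ^ n) := by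
  have := h.pow n
  rwa [one_pow] at this

lemma le_mul_left {f g : PowerSeries ℕ} (h : Cle 1 g) : Cle f (g * f) := by
  have := h.mul (Cle.refl f)
  rwa [one_mul] at this

lemma le_mul_right {f g : PowerSeries ℕ} (h : Cle 1 g) : Cle f (f * g) := by
  have := (Cle.refl f).mul h
  rwa [mul_one] at this

lemma uu_le_bound (K c e : ℕ) (hc : 1 ≤ c) : Cle uu (tt ^ K * uu ^ c * ww ^ e) := by
  have h1 : Cle uu (uu ^ c) := by
    obtain ⟨c, rfl⟩ : ∃ a, c = a + 1 := ⟨c - 1, by omega⟩
    rw [pow_succ]
    exact le_mul_left (one_le_pow one_le_uu c)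
  exact h1.trans ((le_mul_left (one_le_pow one_le_tt K)).trans
    (le_mul_right (one_le_pow one_le_ww e)))

lemma one_le_coeff {G : PowerSeries ℕ} (h : Cle uu G) (d : ℕ) : 1 ≤ coeff d G := by
  have := h d
  rwa [uu, coeff_mk] at this

lemma bb_le_ff (T : BTree) : Cle (bb T) (ff T) := by
  classical
  intro d
  rw [bb, coeff_mk, coeff_ff, bam]
  exact card_filter_le _ _

/-- the series used in the induction -/
noncomputable def gg (T : BTree) : PowerSeries ℕ := ff T + vs * bb T

lemma ff_le_gg (T : BTree) : Cle (ff T) (gg T) := Cle.add_right _ _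

lemma gg_le (T : BTree) : Cle (gg T) (ww * ff T) := by
  have h1 : Cle (gg T) (ff T + vs * ff T) := (Cle.refl _).add ((Cle.refl _).mul (bb_le_ff T))
  have h2 : ff T + vs * ff T = (1 + vs) * ff T := by ring
  rw [h2] at h1
  exact h1.trans (one_add_vs.mul (Cle.refl _))

lemma bam_iso {T U : BTree} (h : Iso T U) : bam T = bam U := by
  classical
  funext d
  rw [bam, bam, fam_iso h]

lemma bb_iso {T U : BTree} (h : Iso T U) : bb T = bb U := by rw [bb, bb, bam_iso h]

lemma gg_iso {T U : BTree} (h : Iso T U) : gg T = gg U := by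
  rw [gg, gg, ff_iso h, bb_iso h]

/-- a block above a tree -/
lemma gg_block {P : BTree} (hP : 2 ≤ P.size) {G : PowerSeries ℕ} (hG : Cle (gg P) G)
    (hu : Cle uu G) : Cle (gg (.node .leaf (.node cherry P))) (tt * G) := by
  intro d
  have e1 : coeff d (tt * G) = coeff d G + 2 * coeff d (PowerSeries.X ^ 1 * G) := by
    have : tt * G = G + 2 * (PowerSeries.X ^ 1 * G) := by
      rw [tt]
      ring
    rw [this, map_add, coeff_two_mul]
  have hb : coeff d (vs * bb (.node .leaf (.node cherry P))) ≤
      coeff d (vs * (PowerSeries.X ^ 3 * bb P)) := (Cle.refl vs).mul (token_bb hP) d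
  rw [gg, map_add]
  rcases Nat.lt_or_ge (P.size + 1) d with hd | hd
  · have h1 : coeff d (ff (.node .leaf (.node cherry P))) ≤ 1 := by
      rw [coeff_ff]
      refine small_fam ?_
      show 1 + (2 + P.size) ≤ _
      omega
    have h2 : coeff d (vs * (PowerSeries.X ^ 3 * bb P)) ≤ coeff d G := by
      have h3 : Cle (vs * (PowerSeries.X ^ 3 * bb P)) (vs * bb P) := by
        have h4 : vs * bb P = vs * (PowerSeries.X ^ 3 * bb P) +
            (PowerSeries.X ^ 2 + PowerSeries.X ^ 3) * bb P := by
          nth_rw 1 [vs_rec]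
          ring
        rw [h4]
        exact Cle.add_right _ _
      have h5 : Cle (vs * bb P) (gg P) := by
        rw [gg, add_comm]
        exact Cle.add_right _ _
      exact ((h3.trans h5).trans hG) d
    have h6 : 1 ≤ coeff d (PowerSeries.X ^ 1 * G) := by
      rw [coeff_shift, if_pos (by omega)]
      exact one_le_coeff hu _
    rw [e1]
    omega
  · have h1 := token_upper hP hd
    have h2 : coeff d (tt * ff P + (PowerSeries.X ^ 2 + PowerSeries.X ^ 3) * bb P) +
        coeff d (vs * (PowerSeries.X ^ 3 * bb P)) = coeff d (tt * ff P + vs * bb P) := by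
      rw [← map_add]
      congr 1
      nth_rw 2 [vs_rec]
      ring
    have h3 : Cle (tt * ff P + vs * bb P) (tt * gg P) := by
      have e2 : tt * gg P = tt * ff P + tt * (vs * bb P) := by
        rw [gg]
        ring
      rw [e2]
      exact (Cle.refl _).add (le_mul_left one_le_tt)
    have h4 := (h3.trans ((Cle.refl tt).mul hG)) d
    omega

lemma bb_small {T : BTree} (h : T.size < 6) : bb T = 0 := by
  ext d
  rw [bb, coeff_mk, map_zero, card_eq_zero, Finset.eq_empty_iff_forall_notMem]
  intro o ho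
  obtain ⟨h1, x, y, hx, hy, rfl⟩ := mem_bam.1 ho
  have h2 := fam_qsize h1
  rw [qsize_some, csize_nodeQ] at h2
  omega

lemma eq_zero_of_cle {f g : PowerSeries ℕ} (h : Cle f g) (hg : g = 0) : f = 0 := by
  ext d
  have := h d
  rw [hg, map_zero] at this
  rw [map_zero]
  omega

lemma bb_block {P : BTree} (hP : 2 ≤ P.size) (h : bb P = 0) :
    bb (.node .leaf (.node cherry P)) = 0 :=
  eq_zero_of_cle (token_bb hP) (by rw [h, mul_zero])

lemma gg_eq {T : BTree} (h : bb T = 0) : gg T = ff T := by rw [gg, h, mul_zero, add_zero]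

lemma ff_small {T : BTree} (h : T.size ≤ 3) : Cle (ff T) uu := by
  intro d
  rw [coeff_ff, uu, coeff_mk]
  exact small_fam (by omega)

lemma ff_cherry_cherry : Cle (ff (.node cherry cherry)) uu := by
  intro d
  rw [coeff_ff, uu, coeff_mk]
  have hs : (BTree.node cherry cherry).size = 4 := rfl
  rcases Nat.eq_zero_or_pos d with rfl | h
  · rw [card_zero]
  · exact small_fam (by omega)

/-! ### the alternating trees -/

lemma alt_bb (k : ℕ) : bb (alt k cat3) = 0 := by
  induction k with
  | zero => exact bb_small (by decide)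
  | succ k ih => exact bb_block (by rw [size_alt, size_cat3]; omega) ih

lemma alt_gg (k : ℕ) : Cle (gg (alt k cat3)) (tt ^ k * uu) := by
  induction k with
  | zero =>
    rw [gg_eq (alt_bb 0), pow_zero, one_mul]
    exact ff_small le_rfl
  | succ k ih =>
    rw [pow_succ', mul_assoc]
    exact gg_block (by rw [size_alt, size_cat3]; omega) ih
      (le_mul_left (one_le_pow one_le_tt k))

lemma EE.two_le {T : BTree} (h : EE T) : 2 ≤ T.size := by
  cases h with
  | @cher a T h =>
    rw [size_iso h]
    show 2 ≤ 2 + (alt a cat3).size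
    omega
  | base h =>
    rw [size_iso h]
    decide
  | @step P T _ h =>
    rw [size_iso h]
    show 2 ≤ 1 + (2 + P.size)
    omega

lemma EE.bb {T : BTree} (h : EE T) : bb T = 0 := by
  induction h with
  | @cher a T h =>
    rw [bb_iso h]
    exact eq_zero_of_cle (cherry_bb (by rw [size_alt, size_cat3]; omega))
      (by rw [alt_bb, mul_zero])
  | base h =>
    rw [bb_iso h]
    exact bb_small (by decide)
  | step h1 h2 ih =>
    rw [bb_iso h2]
    exact bb_block h1.two_le ih

lemma EE.gg {T : BTree} (h : EE T) :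
    ∃ k : ℕ, T.size = 3 * k + 5 ∧ Cle (gg T) (tt ^ k * uu ^ 2) := by
  induction h with
  | @cher a T h =>
    refine ⟨a, ?_, ?_⟩
    · rw [size_iso h]
      show 2 + (alt a cat3).size = _
      rw [size_alt, size_cat3]
      ring
    · rw [gg_eq (EE.cher h).bb, ff_iso h]
      have h1 := ff_node cherry (alt a cat3)
      have h2 : Cle (ff cherry * ff (alt a cat3)) (uu * (tt ^ a * uu)) :=
        (ff_small (by decide)).mul ((ff_le_gg _).trans (alt_gg a))
      have h3 : uu * (tt ^ a * uu) = tt ^ a * uu ^ 2 := by ring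
      rw [h3] at h2
      exact h1.trans h2
  | @base T h =>
    refine ⟨0, ?_, ?_⟩
    · rw [size_iso h]
      rfl
    · rw [gg_eq (EE.base h).bb, ff_iso h]
      have h1 := ff_node .leaf (.node cherry cherry)
      have h2 : Cle (ff .leaf * ff (.node cherry cherry)) (uu * uu) :=
        (ff_small (by decide)).mul ff_cherry_cherry
      have h3 : uu * uu = tt ^ 0 * uu ^ 2 := by ring
      rw [h3] at h2
      exact h1.trans h2
  | @step P T h1 h2 ih =>
    obtain ⟨k, hk, hg⟩ := ih
    refine ⟨k + 1, ?_, ?_⟩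
    · rw [size_iso h2]
      show 1 + (2 + P.size) = _
      omega
    · rw [gg_iso h2, pow_succ', mul_assoc]
      refine gg_block h1.two_le hg ?_
      have := uu_le_bound k 2 0 (by omega)
      rwa [pow_zero, mul_one] at this

/-! ### the general trees -/

/-- the bound for the trees which are not extremal -/
def Gen (T : BTree) : Prop := ∃ K c e : ℕ, 1 ≤ c ∧ Cle (gg T) (tt ^ K * uu ^ c * ww ^ e) ∧
  6 * K + 3 * c + 5 ≤ 2 * T.size ∧ 2 * (6 * K + 3 * c) + c + e + 6 ≤ 4 * T.size

/-- the statement of the induction -/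
def Hyp2 (T : BTree) : Prop := (∃ k : ℕ, Iso T (alt k cat3)) ∨ EE T ∨ Gen T

/-- the bound for all trees -/
def Weak (T : BTree) : Prop := ∃ K c e : ℕ, 1 ≤ c ∧ Cle (ff T) (tt ^ K * uu ^ c * ww ^ e) ∧
  6 * K + 3 * c + 3 ≤ 2 * T.size ∧ 2 * (6 * K + 3 * c) + c + e + 5 ≤ 4 * T.size

lemma Hyp2.weak {T : BTree} (h : Hyp2 T) : Weak T := by
  rcases h with ⟨k, h⟩ | h | ⟨K, c, e, h1, h2, h3, h4⟩
  · have hs : T.size = 3 * k + 3 := by rw [size_iso h, size_alt, size_cat3]
    refine ⟨k, 1, 0, le_rfl, ?_, by omega, by omega⟩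
    rw [ff_iso h, pow_one, pow_zero, mul_one]
    exact (ff_le_gg _).trans (alt_gg k)
  · obtain ⟨k, hs, h2⟩ := h.gg
    refine ⟨k, 2, 0, by omega, ?_, by omega, by omega⟩
    rw [pow_zero, mul_one]
    exact (ff_le_gg _).trans h2
  · exact ⟨K, c, e, h1, (ff_le_gg _).trans h2, by omega, by omega⟩

lemma Hyp2.iso {T U : BTree} (h : Iso T U) (hT : Hyp2 T) : Hyp2 U := by
  rcases hT with ⟨k, h1⟩ | h1 | ⟨K, c, e, h1, h2, h3, h4⟩
  · exact Or.inl ⟨k, h.symm.trans h1⟩
  · exact Or.inr (Or.inl (h1.iso h))
  · refine Or.inr (Or.inr ⟨K, c, e, h1, ?_, ?_, ?_⟩)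
    · rwa [← gg_iso h]
    · rwa [← size_iso h]
    · rwa [← size_iso h]

lemma gen_of {T : BTree} (K c e : ℕ) (hc : 1 ≤ c) {G : PowerSeries ℕ} (h : Cle (ff T) G)
    (hG : G = tt ^ K * uu ^ c * ww ^ e) (h1 : 6 * K + 3 * c + 5 ≤ 2 * T.size)
    (h2 : 2 * (6 * K + 3 * c) + c + (e + 1) + 6 ≤ 4 * T.size) : Gen T := by
  refine ⟨K, c, e + 1, hc, ?_, h1, h2⟩
  have h3 : tt ^ K * uu ^ c * ww ^ (e + 1) = ww * G := by
    rw [hG]
    ring
  rw [h3]
  exact (gg_le T).trans ((Cle.refl ww).mul h)

/-- a cherry at the root -/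
lemma hyp2_C {P : BTree} (h : P.size = 2 ∨ Hyp2 P) : Hyp2 (.node cherry P) := by
  have hs : (BTree.node cherry P).size = 2 + P.size := rfl
  rcases h with h | h
  · refine Or.inr (Or.inr (gen_of 0 1 0 le_rfl (G := uu) ?_ (by ring) (by omega) (by omega)))
    rw [eq_cherry h]
    exact ff_cherry_cherry
  · have hc : Cle (ff cherry) uu := ff_small (by decide)
    rcases h with ⟨k, h⟩ | h | ⟨K, c, e, h3, h4, h5, h6⟩
    · exact Or.inr (Or.inl (.cher (Iso.node (Iso.refl _) h)))
    · obtain ⟨k, hk, hg⟩ := h.gg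
      refine Or.inr (Or.inr (gen_of k 3 0 (by omega)
        ((ff_node cherry P).trans (hc.mul ((ff_le_gg _).trans hg))) (by ring) ?_ ?_))
      · omega
      · omega
    · refine Or.inr (Or.inr (gen_of K (c + 1) e (by omega)
        ((ff_node cherry P).trans (hc.mul ((ff_le_gg _).trans h4))) (by ring) ?_ ?_))
      · omega
      · omega

/-- a leaf at the root and a cherry below it -/
lemma hyp2_LC {P : BTree} (h2 : 2 ≤ P.size) (h : P.size = 2 ∨ Hyp2 P) :
    Hyp2 (.node .leaf (.node cherry P)) := by
  have hs : (BTree.node .leaf (.node cherry P)).size = 1 + (2 + P.size) := rfl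
  rcases h with h | h
  · rw [eq_cherry h]
    exact Or.inr (Or.inl (.base (Iso.refl _)))
  · rcases h with ⟨k, h⟩ | h | ⟨K, c, e, h3, h4, h5, h6⟩
    · exact Or.inl ⟨k + 1, Iso.node .leaf (Iso.node (Iso.refl _) h)⟩
    · exact Or.inr (Or.inl (.step h (Iso.refl _)))
    · refine Or.inr (Or.inr ⟨K + 1, c, e, h3, ?_, by omega, by omega⟩)
      have h7 := gg_block h2 h4 (uu_le_bound K c e h3)
      have h8 : tt * (tt ^ K * uu ^ c * ww ^ e) = tt ^ (K + 1) * uu ^ c * ww ^ e := by ring
      rwa [h8] at h7

/-- at least two leaves at the root and a cherry below them -/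
lemma hyp2_LLC {P : BTree} {m : ℕ} (hm : 2 ≤ m) (h : P.size = 2 ∨ Hyp2 P) :
    Hyp2 (chain (.node cherry P) m) := by
  have hs : (chain (.node cherry P) m).size = m + (2 + P.size) := size_chain _ _
  rcases h with h | h
  · refine Or.inr (Or.inr (gen_of 0 2 0 (by omega) (G := uu * uu) ?_ (by ring) (by omega)
      (by omega)))
    refine (ff_chain _ _).trans ((Cle.refl _).mul ?_)
    rw [eq_cherry h]
    exact ff_cherry_cherry
  · obtain ⟨K, c, e, h3, h4, h5, h6⟩ := h.weak
    have hc : Cle (ff cherry) uu := ff_small (by decide)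
    refine Or.inr (Or.inr (gen_of K (c + 2) e (by omega)
      ((ff_chain _ _).trans ((Cle.refl _).mul ((ff_node cherry P).trans (hc.mul h4))))
        (by ring) (by omega) (by omega)))

/-- two large children at the root -/
lemma hyp2_B {X Y : BTree} (hX : Weak X) (hY : Weak Y) : Hyp2 (.node X Y) := by
  have hs : (BTree.node X Y).size = X.size + Y.size := rfl
  obtain ⟨K, c, e, h3, h4, h5, h6⟩ := hX
  obtain ⟨K', c', e', h3', h4', h5', h6'⟩ := hY
  exact Or.inr (Or.inr (gen_of (K + K') (c + c') (e + e') (by omega)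
    ((ff_node X Y).trans (h4.mul h4')) (by ring) (by omega) (by omega)))

/-- leaves at the root above two large children -/
lemma hyp2_LB {X Y : BTree} {m : ℕ} (hm : 1 ≤ m) (hX : Weak X) (hY : Weak Y) :
    Hyp2 (chain (.node X Y) m) := by
  have hs : (chain (.node X Y) m).size = m + (X.size + Y.size) := size_chain _ _
  obtain ⟨K, c, e, h3, h4, h5, h6⟩ := hX
  obtain ⟨K', c', e', h3', h4', h5', h6'⟩ := hY
  exact Or.inr (Or.inr (gen_of (K + K') (c + c' + 1) (e + e') (by omega)
    ((ff_chain _ _).trans ((Cle.refl _).mul ((ff_node X Y).trans (h4.mul h4'))))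
      (by ring) (by omega) (by omega)))

lemma hyp2_all (n : ℕ) : ∀ T : BTree, T.size = n → 3 ≤ n → Hyp2 T := by
  induction n using Nat.strong_induction_on with
  | _ n ih =>
    intro T hn h3
    rcases Nat.lt_or_ge n 4 with h4 | h4
    · exact Or.inl ⟨0, iso_cat3 (by omega)⟩
    · obtain ⟨m, B, hiso, hB⟩ := exists_chain T
      have hsz : T.size = m + B.size := by rw [size_iso hiso, size_chain]
      refine Hyp2.iso hiso.symm ?_
      rcases hB with rfl | ⟨X, Y, rfl, hX, hY⟩
      · have hl : (BTree.leaf).size = 1 := rfl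
        have hs : (chain .leaf m).size = m + 1 := size_chain _ _
        exact Or.inr (Or.inr (gen_of 0 1 0 le_rfl (ff_cat m) (by ring) (by omega) (by omega)))
      · have hs : (BTree.node X Y).size = X.size + Y.size := rfl
        -- one child is a cherry
        have key : ∀ P : BTree, 2 ≤ P.size → P.size + 2 + m = n →
            Hyp2 (chain (.node cherry P) m) := by
          intro P hP hPn
          have hh : P.size = 2 ∨ Hyp2 P := by
            rcases Nat.lt_or_ge P.size 3 with h5 | h5
            · exact Or.inl (by omega)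
            · exact Or.inr (ih P.size (by omega) P rfl h5)
          rcases (by omega : m = 0 ∨ m = 1 ∨ 2 ≤ m) with h5 | h5 | h5
          · rw [h5]
            exact hyp2_C hh
          · rw [h5]
            exact hyp2_LC hP hh
          · exact hyp2_LLC h5 hh
        rcases Nat.lt_or_ge X.size 3 with hX3 | hX3
        · rw [eq_cherry (T := X) (by omega)]
          exact key Y hY (by omega)
        · rcases Nat.lt_or_ge Y.size 3 with hY3 | hY3
          · have e1 : Iso (chain (.node cherry X) m) (chain (.node X Y) m) := by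
              rw [eq_cherry (T := Y) (by omega)]
              have : ∀ m : ℕ, Iso (chain (.node cherry X) m) (chain (.node X cherry) m) := by
                intro m
                induction m with
                | zero => exact Iso.swap (Iso.refl _) (Iso.refl _)
                | succ m ih => exact Iso.node .leaf ih
              exact this m
            exact Hyp2.iso e1 (key X hX (by omega))
          · have wX := (ih X.size (by omega) X rfl hX3).weak
            have wY := (ih Y.size (by omega) Y rfl hY3).weak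
            rcases Nat.eq_zero_or_pos m with h5 | h5
            · rw [h5]
              exact hyp2_B wX wY
            · exact hyp2_LB h5 wX wY

theorem hyp2 (T : BTree) (h : 3 ≤ T.size) : Hyp2 T := hyp2_all T.size T rfl h

end LeafDeck
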