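import Pool.Agent.LeafDeck.Token

/-!
The exact solution for few deleted leaves, `n = 3 N + 4`: definitions.
-/

set_option autoImplicit false

namespace LeafDeck

open Finset BTree PowerSeries

/-- an alternating tree in which one cherry is replaced by the tree with three leaves -/
def TT (i j : ℕ) : BTree := alt i (.node .leaf (.node cat3 (alt j cat3)))

/-- the series of the alternating trees -/
noncomputable def AA (j : ℕ) : PowerSeries ℕ :=
  ∑ l ∈ range (j + 1), PowerSeries.X ^ (3 * l) * tt ^ (j - l) * (1 + PowerSeries.X)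

/-- the series of the trees `TT i j`, for low degrees -/
noncomputable def WW (i j : ℕ) : PowerSeries ℕ :=
  tt ^ i * (1 + 2 * PowerSeries.X + 2 * PowerSeries.X ^ 2) * AA j +
    PowerSeries.X ^ 3 * (1 + PowerSeries.X) * AA j *
      ∑ l ∈ range i, tt ^ (i - 1 - l) * PowerSeries.X ^ (3 * l)

/-- the series of the largest decks for `n = 3 N + 4` -/
noncomputable def VV (N : ℕ) : PowerSeries ℕ :=
  ∑ m ∈ range N, PowerSeries.X ^ (3 * m) * tt ^ (N - 1 - m) *
    ((1 + PowerSeries.X) * (1 + 2 * PowerSeries.X + 2 * PowerSeries.X ^ 2) +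
      (m : PowerSeries ℕ) * (1 + PowerSeries.X) ^ 2)

/-- the coefficients of `(1 + z) (1 + 2 z + 2 z ^ 2) + m (1 + z) ^ 2` -/
def cf (m i : ℕ) : ℕ :=
  if i = 0 then m + 1 else if i = 1 then 2 * m + 3 else if i = 2 then m + 4 else 2

/-- the coefficients of `VV` -/
def valO (N d : ℕ) : ℕ := ∑ m ∈ range (d / 3 + 1), ∑ i ∈ range 4,
  if 3 * m + i ≤ d then cf m i * 2 ^ (d - 3 * m - i) * (N - 1 - m).choose (d - 3 * m - i) else 0

end LeafDeck
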