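import Pool.Agent.LeafDeck.Lin
import Pool.Agent.LeafDeck.OneDefs

/-!
The exact solution for few deleted leaves, `n = 3 N + 4`: the structure of the trees.
-/

set_option autoImplicit false

namespace LeafDeck

open Finset BTree PowerSeries

/-- the bottoms of the trees which are extremal for one deleted leaf only -/
inductive BF : BTree → Prop
  | leaf {m : ℕ} {Z : BTree} : Iso Z (.node .leaf (alt m cat3)) → BF Z
  | cc {Z : BTree} : Iso Z (.node cherry cherry) → BF Z
  | ee {E Z : BTree} : EE E → Iso Z (.node cherry E) → BF Z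
  | two {a b : ℕ} {Z : BTree} : 1 ≤ a → 1 ≤ b →
      Iso Z (.node .leaf (.node (alt a cat3) (alt b cat3))) → BF Z
  | one {Z : BTree} : Iso Z (.node .leaf (.node cat3 cat3)) → BF Z

/-- the trees which are extremal for one deleted leaf, `n = 3 N + 4` -/
def Five (T : BTree) : Prop := (∃ i j, 1 ≤ j ∧ Iso T (TT i j)) ∨ ∃ i Z, Iso T (alt i Z) ∧ BF Z

/-- the bound for the other trees -/
def Gen6 (T : BTree) : Prop := ∃ K c e : ℕ, 1 ≤ c ∧ Cle (gg T) (tt ^ K * uu ^ c * ww ^ e) ∧
  6 * K + 3 * c + 6 ≤ 2 * T.size ∧ 2 * (6 * K + 3 * c) + c + e + 6 ≤ 4 * T.size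

/-- the statement of the induction -/
def Hyp3 (T : BTree) : Prop := (∃ k : ℕ, Iso T (alt k cat3)) ∨ EE T ∨ Five T ∨ Gen6 T

lemma Five.iso {T U : BTree} (h : Iso T U) (hT : Five T) : Five U := by
  rcases hT with ⟨i, j, h1, h2⟩ | ⟨i, Z, h1, h2⟩
  · exact Or.inl ⟨i, j, h1, h.symm.trans h2⟩
  · exact Or.inr ⟨i, Z, h.symm.trans h1, h2⟩

lemma Hyp3.iso {T U : BTree} (h : Iso T U) (hT : Hyp3 T) : Hyp3 U := by
  rcases hT with ⟨k, h1⟩ | h1 | h1 | ⟨K, c, e, h1, h2, h3, h4⟩
  · exact Or.inl ⟨k, h.symm.trans h1⟩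
  · exact Or.inr (Or.inl (h1.iso h))
  · exact Or.inr (Or.inr (Or.inl (h1.iso h)))
  · refine Or.inr (Or.inr (Or.inr ⟨K, c, e, h1, ?_, ?_, ?_⟩))
    · rwa [← gg_iso h]
    · rwa [← size_iso h]
    · rwa [← size_iso h]

lemma BF.size {Z : BTree} (h : BF Z) : ∃ k, Z.size = 3 * k + 4 := by
  cases h with
  | @leaf m Z h =>
    refine ⟨m, ?_⟩
    rw [size_iso h]
    show 1 + (alt m cat3).size = _
    rw [size_alt, size_cat3]
    ring
  | cc h =>
    refine ⟨0, ?_⟩
    rw [size_iso h]
    rfl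
  | @ee E Z h1 h =>
    obtain ⟨k, hk, _⟩ := h1.gg
    refine ⟨k + 1, ?_⟩
    rw [size_iso h]
    show 2 + E.size = _
    omega
  | @two a b Z _ _ h =>
    refine ⟨a + b + 1, ?_⟩
    rw [size_iso h]
    show 1 + ((alt a cat3).size + (alt b cat3).size) = _
    rw [size_alt, size_alt, size_cat3]
    ring
  | one h =>
    refine ⟨1, ?_⟩
    rw [size_iso h]
    rfl

lemma size_TT (i j : ℕ) : (TT i j).size = 3 * (i + j + 1) + 4 := by
  rw [TT, size_alt]
  show 3 * i + (1 + (3 + (alt j cat3).size)) = _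
  rw [size_alt, size_cat3]
  ring

lemma Five.size {T : BTree} (h : Five T) : ∃ k, T.size = 3 * k + 4 := by
  rcases h with ⟨i, j, _, h⟩ | ⟨i, Z, h, hZ⟩
  · exact ⟨i + j + 1, by rw [size_iso h, size_TT]⟩
  · obtain ⟨k, hk⟩ := hZ.size
    exact ⟨i + k, by rw [size_iso h, size_alt, hk]; ring⟩

lemma Five.gen {T : BTree} (h : Five T) : Gen T := by
  obtain ⟨k, hk⟩ := h.size
  rcases hyp2 T (by omega) with ⟨m, h⟩ | h | h
  · have h1 := size_iso h
    rw [size_alt, size_cat3] at h1
    omega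
  · obtain ⟨m, h1, _⟩ := h.gg
    omega
  · exact h

lemma Gen6.gen {T : BTree} (h : Gen6 T) : Gen T := by
  obtain ⟨K, c, e, h1, h2, h3, h4⟩ := h
  exact ⟨K, c, e, h1, h2, by omega, h4⟩

lemma Hyp3.weak {T : BTree} (h : Hyp3 T) : Weak T := by
  rcases h with h | h | h | h
  · exact Hyp2.weak (Or.inl h)
  · exact Hyp2.weak (Or.inr (Or.inl h))
  · exact Hyp2.weak (Or.inr (Or.inr h.gen))
  · exact Hyp2.weak (Or.inr (Or.inr h.gen))

/-- the bound for all trees except the alternating ones -/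
def Weak4 (T : BTree) : Prop := ∃ K c e : ℕ, 1 ≤ c ∧ Cle (ff T) (tt ^ K * uu ^ c * ww ^ e) ∧
  6 * K + 3 * c + 4 ≤ 2 * T.size ∧ 2 * (6 * K + 3 * c) + c + e + 5 ≤ 4 * T.size

lemma Gen.weak4 {T : BTree} (h : Gen T) : Weak4 T := by
  obtain ⟨K, c, e, h1, h2, h3, h4⟩ := h
  exact ⟨K, c, e, h1, (ff_le_gg _).trans h2, by omega, by omega⟩

lemma Hyp3.weak4 {T : BTree} (h : Hyp3 T) : (∃ k : ℕ, Iso T (alt k cat3)) ∨ Weak4 T := by
  rcases h with h | h | h | h
  · exact Or.inl h
  · right
    obtain ⟨k, hs, h2⟩ := h.gg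
    refine ⟨k, 2, 0, by omega, ?_, by omega, by omega⟩
    rw [pow_zero, mul_one]
    exact (ff_le_gg _).trans h2
  · exact Or.inr h.gen.weak4
  · exact Or.inr h.gen.weak4

lemma gen6_of {T : BTree} (K c e : ℕ) (hc : 1 ≤ c) {G : PowerSeries ℕ} (h : Cle (ff T) G)
    (hG : G = tt ^ K * uu ^ c * ww ^ e) (h1 : 6 * K + 3 * c + 6 ≤ 2 * T.size)
    (h2 : 2 * (6 * K + 3 * c) + c + (e + 1) + 6 ≤ 4 * T.size) : Gen6 T := by
  refine ⟨K, c, e + 1, hc, ?_, h1, h2⟩
  have h3 : tt ^ K * uu ^ c * ww ^ (e + 1) = ww * G := by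
    rw [hG]
    ring
  rw [h3]
  exact (gg_le T).trans ((Cle.refl ww).mul h)

lemma Hyp3.of6 {T : BTree} (h : Gen6 T) : Hyp3 T := Or.inr (Or.inr (Or.inr h))

lemma Hyp3.of5 {T : BTree} (h : Five T) : Hyp3 T := Or.inr (Or.inr (Or.inl h))

/-- a cherry at the root -/
lemma hyp3_C {P : BTree} (h : P.size = 2 ∨ Hyp3 P) : Hyp3 (.node cherry P) := by
  have hs : (BTree.node cherry P).size = 2 + P.size := rfl
  have gen : Gen P → Hyp3 (.node cherry P) := by
    rintro ⟨K, c, e, h3, h4, h5, h6⟩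
    have hc : Cle (ff cherry) uu := ff_small (by decide)
    refine Hyp3.of6 (gen6_of K (c + 1) e (by omega)
        ((ff_node cherry P).trans (hc.mul ((ff_le_gg _).trans h4))) (by ring) ?_ ?_)
    · omega
    · omega
  rcases h with h | h
  · refine Hyp3.of5 (Or.inr ⟨0, _, Iso.refl _, .cc ?_⟩)
    rw [eq_cherry h]
    exact Iso.refl _
  · rcases h with ⟨k, h⟩ | h | h | h
    · exact Or.inr (Or.inl (.cher (Iso.node (Iso.refl _) h)))
    · exact Hyp3.of5 (Or.inr ⟨0, _, Iso.refl _, .ee h (Iso.refl _)⟩)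
    · exact gen h.gen
    · exact gen h.gen

/-- a leaf at the root and a cherry below it -/
lemma hyp3_LC {P : BTree} (h2 : 2 ≤ P.size) (h : P.size = 2 ∨ Hyp3 P) :
    Hyp3 (.node .leaf (.node cherry P)) := by
  have hs : (BTree.node .leaf (.node cherry P)).size = 1 + (2 + P.size) := rfl
  rcases h with h | h
  · rw [eq_cherry h]
    exact Or.inr (Or.inl (.base (Iso.refl _)))
  · rcases h with ⟨k, h⟩ | h | h | ⟨K, c, e, h3, h4, h5, h6⟩
    · exact Or.inl ⟨k + 1, Iso.node .leaf (Iso.node (Iso.refl _) h)⟩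
    · exact Or.inr (Or.inl (.step h (Iso.refl _)))
    · refine Hyp3.of5 ?_
      rcases h with ⟨i, j, h1, h⟩ | ⟨i, Z, h, hZ⟩
      · exact Or.inl ⟨i + 1, j, h1, Iso.node .leaf (Iso.node (Iso.refl _) h)⟩
      · exact Or.inr ⟨i + 1, Z, Iso.node .leaf (Iso.node (Iso.refl _) h), hZ⟩
    · refine Hyp3.of6 ⟨K + 1, c, e, h3, ?_, by omega, by omega⟩
      have h7 := gg_block h2 h4 (uu_le_bound K c e h3)
      have h8 : tt * (tt ^ K * uu ^ c * ww ^ e) = tt ^ (K + 1) * uu ^ c * ww ^ e := by ring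
      rwa [h8] at h7

/-- at least two leaves at the root and a cherry below them -/
lemma hyp3_LLC {P : BTree} {m : ℕ} (hm : 2 ≤ m) (h : P.size = 2 ∨ Hyp3 P) :
    Hyp3 (chain (.node cherry P) m) := by
  have hs : (chain (.node cherry P) m).size = m + (2 + P.size) := size_chain _ _
  rcases h with h | h
  · refine Hyp3.of6 (gen6_of 0 2 0 (by omega) (G := uu * uu) ?_ (by ring) (by omega)
      (by omega))
    refine (ff_chain _ _).trans ((Cle.refl _).mul ?_)
    rw [eq_cherry h]
    exact ff_cherry_cherry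
  · have hc : Cle (ff cherry) uu := ff_small (by decide)
    rcases h.weak4 with ⟨k, h⟩ | ⟨K, c, e, h3, h4, h5, h6⟩
    · rcases (by omega : m = 2 ∨ 3 ≤ m) with rfl | hm3
      · refine Hyp3.of5 (Or.inr ⟨0, _, Iso.refl _, .leaf (m := k + 1) ?_⟩)
        exact Iso.node .leaf (Iso.node .leaf (Iso.node (Iso.refl _) h))
      · have hPs : P.size = 3 * k + 3 := by rw [size_iso h, size_alt, size_cat3]
        have h4 : Cle (ff P) (tt ^ k * uu) := by
          rw [ff_iso h]
          exact (ff_le_gg _).trans (alt_gg k)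
        refine Hyp3.of6 (gen6_of k 3 0 (by omega)
          ((ff_chain _ _).trans ((Cle.refl _).mul ((ff_node cherry P).trans (hc.mul h4))))
            (by ring) (by omega) (by omega))
    · refine Hyp3.of6 (gen6_of K (c + 2) e (by omega)
        ((ff_chain _ _).trans ((Cle.refl _).mul ((ff_node cherry P).trans (hc.mul h4))))
          (by ring) (by omega) (by omega))

/-- two large children at the root -/
lemma hyp3_B {X Y : BTree} (hX : Weak X) (hY : Weak Y) : Hyp3 (.node X Y) := by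
  have hs : (BTree.node X Y).size = X.size + Y.size := rfl
  obtain ⟨K, c, e, h3, h4, h5, h6⟩ := hX
  obtain ⟨K', c', e', h3', h4', h5', h6'⟩ := hY
  exact Hyp3.of6 (gen6_of (K + K') (c + c') (e + e') (by omega)
    ((ff_node X Y).trans (h4.mul h4')) (by ring) (by omega) (by omega))

lemma hyp3_LB_aux {X Y : BTree} {m K c e K' c' e' : ℕ} (_ : 1 ≤ c)
    (h4 : Cle (ff X) (tt ^ K * uu ^ c * ww ^ e)) (h4' : Cle (ff Y) (tt ^ K' * uu ^ c' * ww ^ e'))
    (h5 : 6 * (K + K') + 3 * (c + c') + 9 ≤ 2 * m + 2 * m + 2 * (X.size + Y.size) - 2 * m)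
    (h6 : 2 * (6 * (K + K') + 3 * (c + c' + 1)) + (c + c' + 1) + (e + e' + 1) + 6 ≤
      4 * (m + (X.size + Y.size))) : Hyp3 (chain (.node X Y) m) := by
  have hs : (chain (.node X Y) m).size = m + (X.size + Y.size) := size_chain _ _
  exact Hyp3.of6 (gen6_of (K + K') (c + c' + 1) (e + e') (by omega)
    ((ff_chain _ _).trans ((Cle.refl _).mul ((ff_node X Y).trans (h4.mul h4'))))
      (by ring) (by omega) (by omega))

/-- leaves at the root above two large children -/
lemma hyp3_LB {X Y : BTree} {m : ℕ} (hm : 1 ≤ m) (hX : Hyp3 X) (hY : Hyp3 Y) :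
    Hyp3 (chain (.node X Y) m) := by
  rcases (by omega : m = 1 ∨ 2 ≤ m) with rfl | hm2
  · rcases hX.weak4 with ⟨a, ha⟩ | ⟨K, c, e, h3, h4, h5, h6⟩
    · rcases hY.weak4 with ⟨b, hb⟩ | ⟨K', c', e', h3', h4', h5', h6'⟩
      · refine Hyp3.of5 ?_
        have hiso : Iso (chain (.node X Y) 1) (.node .leaf (.node (alt a cat3) (alt b cat3))) :=
          Iso.node .leaf (Iso.node ha hb)
        rcases Nat.eq_zero_or_pos a with rfl | ha1
        · rcases Nat.eq_zero_or_pos b with rfl | hb1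
          · exact Or.inr ⟨0, _, Iso.refl _, .one hiso⟩
          · exact Or.inl ⟨0, b, hb1, hiso⟩
        · rcases Nat.eq_zero_or_pos b with rfl | hb1
          · refine Or.inl ⟨0, a, ha1, ?_⟩
            exact hiso.trans (Iso.node .leaf (Iso.swap (Iso.refl _) (Iso.refl _)))
          · exact Or.inr ⟨0, _, Iso.refl _, .two ha1 hb1 hiso⟩
      · obtain ⟨K, c, e, h3, h4, h5, h6⟩ := hX.weak
        exact hyp3_LB_aux h3 h4 h4' (by omega) (by omega)
    · obtain ⟨K', c', e', h3', h4', h5', h6'⟩ := hY.weak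
      exact hyp3_LB_aux h3 h4 h4' (by omega) (by omega)
  · obtain ⟨K, c, e, h3, h4, h5, h6⟩ := hX.weak
    obtain ⟨K', c', e', h3', h4', h5', h6'⟩ := hY.weak
    exact hyp3_LB_aux h3 h4 h4' (by omega) (by omega)

lemma hyp3_all (n : ℕ) : ∀ T : BTree, T.size = n → 3 ≤ n → Hyp3 T := by
  induction n using Nat.strong_induction_on with
  | _ n ih =>
    intro T hn h3
    rcases Nat.lt_or_ge n 4 with h4 | h4
    · exact Or.inl ⟨0, iso_cat3 (by omega)⟩
    · obtain ⟨m, B, hiso, hB⟩ := exists_chain T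
      have hsz : T.size = m + B.size := by rw [size_iso hiso, size_chain]
      refine Hyp3.iso hiso.symm ?_
      rcases hB with rfl | ⟨X, Y, rfl, hX, hY⟩
      · have hl : (BTree.leaf).size = 1 := rfl
        have hs : (chain .leaf m).size = m + 1 := size_chain _ _
        rcases (by omega : m = 3 ∨ 4 ≤ m) with rfl | hm
        · exact Hyp3.of5 (Or.inr ⟨0, _, Iso.refl _, .leaf (m := 0) (Iso.refl _)⟩)
        · exact Hyp3.of6 (gen6_of 0 1 0 le_rfl (ff_cat m) (by ring) (by omega) (by omega))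
      · have hs : (BTree.node X Y).size = X.size + Y.size := rfl
        -- one child is a cherry
        have key : ∀ P : BTree, 2 ≤ P.size → P.size + 2 + m = n →
            Hyp3 (chain (.node cherry P) m) := by
          intro P hP hPn
          have hh : P.size = 2 ∨ Hyp3 P := by
            rcases Nat.lt_or_ge P.size 3 with h5 | h5
            · exact Or.inl (by omega)
            · exact Or.inr (ih P.size (by omega) P rfl h5)
          rcases (by omega : m = 0 ∨ m = 1 ∨ 2 ≤ m) with h5 | h5 | h5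
          · rw [h5]
            exact hyp3_C hh
          · rw [h5]
            exact hyp3_LC hP hh
          · exact hyp3_LLC h5 hh
        rcases Nat.lt_or_ge X.size 3 with hX3 | hX3
        · rw [eq_cherry (T := X) (by omega)]
          exact key Y hY (by omega)
        · rcases Nat.lt_or_ge Y.size 3 with hY3 | hY3
          · have e1 : Iso (chain (.node cherry X) m) (chain (.node X Y) m) := by
              rw [eq_cherry (T := Y) (by omega)]
              have : ∀ m : ℕ, Iso (chain (.node cherry X) m) (chain (.node X cherry) m) := by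
                intro m
                induction m with
                | zero => exact Iso.swap (Iso.refl _) (Iso.refl _)
                | succ m ih => exact Iso.node .leaf ih
              exact this m
            exact Hyp3.iso e1 (key X hX (by omega))
          · have wX := ih X.size (by omega) X rfl hX3
            have wY := ih Y.size (by omega) Y rfl hY3
            rcases Nat.eq_zero_or_pos m with h5 | h5
            · rw [h5]
              exact hyp3_B wX.weak wY.weak
            · exact hyp3_LB h5 wX wY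

theorem hyp3 (T : BTree) (h : 3 ≤ T.size) : Hyp3 T := hyp3_all T.size T rfl h

end LeafDeck
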