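import Pool.Agent.LeafDeck.Lin2

/-!
The exact solution for few deleted leaves, `n = 3 N + 4`: bounds for the trees which are extremal
for one deleted leaf.
-/

set_option autoImplicit false

namespace LeafDeck

open Finset BTree PowerSeries

lemma coeff_cast_mul (a : ℕ) (f : PowerSeries ℕ) (d : ℕ) :
    coeff d ((a : PowerSeries ℕ) * f) = a * coeff d f := by
  have : (a : PowerSeries ℕ) = PowerSeries.C a := (map_natCast (PowerSeries.C (R := ℕ)) a).symm
  rw [this, coeff_C_mul]

/-- comparison with an explicit series -/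
lemma cle_explicit {f : PowerSeries ℕ} (a b c : ℕ) (h0 : coeff 0 f ≤ 1) (h1 : coeff 1 f ≤ a)
    (h2 : coeff 2 f ≤ b) (h3 : ∀ d, 3 ≤ d → coeff d f ≤ c) :
    Cle f (1 + (a : PowerSeries ℕ) * PowerSeries.X ^ 1 + (b : PowerSeries ℕ) * PowerSeries.X ^ 2 +
      (c : PowerSeries ℕ) * (PowerSeries.X ^ 3 * uu)) := by
  intro d
  rw [map_add, map_add, map_add, coeff_cast_mul, coeff_cast_mul, coeff_cast_mul, coeff_one,
    coeff_X_pow, coeff_X_pow, coeff_shift, uu, coeff_mk]
  rcases Nat.lt_or_ge d 3 with h | h
  · rcases (by omega : d = 0 ∨ d = 1 ∨ d = 2) with rfl | rfl | rfl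
    · simpa using h0
    · simpa using h1
    · simpa using h2
  · have := h3 d h
    have e0 : d ≠ 0 := by omega
    have e1 : d ≠ 1 := by omega
    have e2 : d ≠ 2 := by omega
    simp [e0, e1, e2, h]
    exact this

lemma one_X_le : Cle (1 + PowerSeries.X) uu := by
  intro d
  rw [map_add, coeff_one, coeff_X, uu, coeff_mk]
  split_ifs <;> omega

lemma shift_uu (k : ℕ) : Cle (PowerSeries.X ^ k * uu) uu := by
  intro d
  rw [coeff_shift, uu, coeff_mk]
  split_ifs
  · rw [coeff_mk]
  · omega

/-- the series of the alternating trees, exact up to the second order -/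
noncomputable def g2 : PowerSeries ℕ := tt * (1 + PowerSeries.X) + PowerSeries.X ^ 3 * uu

/-- the series of the extremal trees for `n = 3 m + 2`, exact up to the second order -/
noncomputable def hE : PowerSeries ℕ := (1 + PowerSeries.X) ^ 2 + PowerSeries.X ^ 3 * uu

/-- the series for the trees which are extremal for one deleted leaf only -/
noncomputable def hh : PowerSeries ℕ :=
  1 + 3 * PowerSeries.X + 3 * PowerSeries.X ^ 2 + 20 * PowerSeries.X ^ 3 * uu ^ 3

lemma g2_eq : g2 = 1 + ((3 : ℕ) : PowerSeries ℕ) * PowerSeries.X ^ 1 +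
    ((2 : ℕ) : PowerSeries ℕ) * PowerSeries.X ^ 2 +
    ((1 : ℕ) : PowerSeries ℕ) * (PowerSeries.X ^ 3 * uu) := by
  rw [g2, tt]
  push_cast
  ring

lemma hE_eq : hE = 1 + ((2 : ℕ) : PowerSeries ℕ) * PowerSeries.X ^ 1 +
    ((1 : ℕ) : PowerSeries ℕ) * PowerSeries.X ^ 2 +
    ((1 : ℕ) : PowerSeries ℕ) * (PowerSeries.X ^ 3 * uu) := by
  rw [hE]
  push_cast
  ring

lemma uu_rec : uu = 1 + PowerSeries.X ^ 1 * uu := by
  ext d
  rw [map_add, coeff_one, coeff_shift, uu, coeff_mk]
  rcases Nat.eq_zero_or_pos d with rfl | h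
  · simp
  · rw [if_neg (by omega), if_pos (by omega), coeff_mk]

lemma uu_rec3 : uu = 1 + PowerSeries.X + PowerSeries.X ^ 2 + PowerSeries.X ^ 3 * uu := by
  nth_rw 1 [uu_rec, uu_rec, uu_rec]
  ring

lemma uu_le_g2 : Cle uu g2 := by
  have : g2 = uu + (2 * PowerSeries.X + PowerSeries.X ^ 2) := by
    nth_rw 1 [uu_rec3]
    rw [g2, tt]
    ring
  rw [this]
  exact Cle.add_right _ _

lemma uu_le_hE : Cle uu hE := by
  have : hE = uu + PowerSeries.X := by
    nth_rw 1 [uu_rec3]
    rw [hE]
    ring
  rw [this]
  exact Cle.add_right _ _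

lemma uu_le_pow (n : ℕ) (h : 1 ≤ n) : Cle uu (uu ^ n) := by
  obtain ⟨m, rfl⟩ : ∃ m, n = m + 1 := ⟨n - 1, by omega⟩
  rw [pow_succ]
  exact le_mul_left (one_le_pow one_le_uu m)

/-- a series with small third part is at most `hh` -/
lemma le_hh {f h : PowerSeries ℕ} (hf : f = 1 + 3 * PowerSeries.X + 3 * PowerSeries.X ^ 2 +
    PowerSeries.X ^ 3 * h) (hh' : Cle h (20 * uu ^ 3)) : Cle f hh := by
  rw [hf]
  have e : hh = 1 + 3 * PowerSeries.X + 3 * PowerSeries.X ^ 2 +
      PowerSeries.X ^ 3 * (20 * uu ^ 3) := by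
    rw [hh]
    ring
  rw [e]
  exact (Cle.refl _).add ((Cle.refl _).mul hh')

lemma nat_mul_le {a b : ℕ} (h : a ≤ b) {f g : PowerSeries ℕ} (hf : Cle f g) :
    Cle ((a : PowerSeries ℕ) * f) ((b : PowerSeries ℕ) * g) := by
  intro d
  rw [coeff_cast_mul, coeff_cast_mul]
  exact Nat.mul_le_mul h (hf d)

lemma uu_le_hh : Cle uu hh := by
  have h1 : Cle uu (tt * uu) := le_mul_left one_le_tt
  have h2 : tt * uu = 1 + 3 * PowerSeries.X + 3 * PowerSeries.X ^ 2 +
      PowerSeries.X ^ 3 * (3 * uu) := by
    have e1 : tt * uu = uu + 2 * (PowerSeries.X ^ 1 * uu) := by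
      rw [tt]
      ring
    have e2 : PowerSeries.X ^ 1 * uu = PowerSeries.X + PowerSeries.X ^ 2 +
        PowerSeries.X ^ 3 * uu := by
      nth_rw 1 [uu_rec, uu_rec]
      ring
    rw [e1, e2]
    nth_rw 1 [uu_rec3]
    ring
  refine h1.trans (le_hh h2 ?_)
  have := nat_mul_le (a := 3) (b := 20) (by omega) (uu_le_pow 3 (by omega))
  push_cast at this
  exact this

lemma tt_uu_le_hh : Cle (tt * uu) hh := by
  have h2 : tt * uu = 1 + 3 * PowerSeries.X + 3 * PowerSeries.X ^ 2 +
      PowerSeries.X ^ 3 * (3 * uu) := by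
    have e1 : tt * uu = uu + 2 * (PowerSeries.X ^ 1 * uu) := by
      rw [tt]
      ring
    have e2 : PowerSeries.X ^ 1 * uu = PowerSeries.X + PowerSeries.X ^ 2 +
        PowerSeries.X ^ 3 * uu := by
      nth_rw 1 [uu_rec, uu_rec]
      ring
    rw [e1, e2]
    nth_rw 1 [uu_rec3]
    ring
  refine le_hh h2 ?_
  have := nat_mul_le (a := 3) (b := 20) (by omega) (uu_le_pow 3 (by omega))
  push_cast at this
  exact this

/-! ### the alternating trees -/

lemma ff_alt_one : Cle (ff (alt 1 cat3)) g2 := by
  rw [g2_eq]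
  have e : alt 1 cat3 = .node .leaf (.node cherry cat3) := rfl
  have hb : branching (.node cherry cat3) = 1 := rfl
  have h1 : (fam cat3 1).card ≤ 1 := small_fam (by decide)
  have h1' : (fam cat3 2).card ≤ 1 := small_fam (by decide)
  have hf1 : (fam (.node cherry cat3) 1).card ≤ 2 := by
    rw [card_fam_one_node le_rfl (by decide), if_neg (not_iso_cherry (by decide))]
    have := cherry_one
    omega
  refine cle_explicit 3 2 1 ?_ ?_ ?_ ?_
  · rw [coeff_ff, card_zero]
  · rw [coeff_ff, e, card_fam_one_leaf, hb]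
    omega
  · rw [coeff_ff, e]
    have h2 := two_leaf_cherry cat3
    have h3 : (fam (.node cherry cat3) 2).card ≤ 1 := small_fam (by decide)
    omega
  · intro d hd
    rw [coeff_ff]
    refine small_fam ?_
    have : (alt 1 cat3).size = 6 := rfl
    omega

lemma gg_alt (k : ℕ) : Cle (gg (alt (k + 1) cat3)) (tt ^ k * g2) := by
  induction k with
  | zero =>
    rw [gg_eq (alt_bb 1), pow_zero, one_mul]
    exact ff_alt_one
  | succ k ih =>
    rw [pow_succ', mul_assoc]
    exact gg_block (by rw [size_alt, size_cat3]; omega) ih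
      (uu_le_g2.trans (le_mul_left (one_le_pow one_le_tt k)))

/-! ### the extremal trees for `n = 3 m + 2` -/

/-- a cherry above a tree without large classes -/
lemma ff_cherry_node {P : BTree} (hP : 2 ≤ P.size) (hb : bb P = 0) {G : PowerSeries ℕ}
    (hG : Cle (ff P) G) {H : PowerSeries ℕ} (hH : Cle ((1 + PowerSeries.X) * G) H)
    (hu : Cle uu H) : Cle (ff (.node cherry P)) H := by
  intro d
  rcases Nat.lt_or_ge P.size d with hd | hd
  · refine le_trans ?_ (one_le_coeff hu d)
    rw [coeff_ff]
    refine small_fam ?_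
    show 2 + P.size ≤ _
    omega
  · have h1 := cherry_upper hP hd
    rw [hb, mul_zero, add_zero] at h1
    exact h1.trans ((((Cle.refl _).mul hG).trans hH) d)

lemma mul_mono {f g h : PowerSeries ℕ} (hf : Cle f g) : Cle (h * f) (h * g) :=
  (Cle.refl h).mul hf

lemma g2_hE : Cle ((1 + PowerSeries.X) * g2) (tt * hE) := by
  have h : tt * hE = (1 + PowerSeries.X) * g2 + PowerSeries.X * (PowerSeries.X ^ 3 * uu) := by
    rw [g2, hE, tt]
    ring
  rw [h]
  exact Cle.add_right _ _

lemma ff_two_three : Cle (ff (.node cherry cat3)) hE := by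
  rw [hE_eq]
  have h1 : (fam cat3 1).card ≤ 1 := small_fam (by decide)
  have hs : (BTree.node cherry cat3).size = 5 := rfl
  refine cle_explicit 2 1 1 ?_ ?_ ?_ ?_
  · rw [coeff_ff, card_zero]
  · rw [coeff_ff, card_fam_one_node le_rfl (by decide), if_neg (not_iso_cherry (by decide))]
    have := cherry_one
    omega
  · rw [coeff_ff]
    exact small_fam (by decide)
  · intro d hd
    rw [coeff_ff]
    exact small_fam (by omega)

lemma ff_one_cc : Cle (ff (.node .leaf (.node cherry cherry))) hE := by
  rw [hE_eq]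
  have hs : (BTree.node .leaf (.node cherry cherry)).size = 5 := rfl
  have hb : branching (.node cherry cherry) = 1 := rfl
  refine cle_explicit 2 1 1 ?_ ?_ ?_ ?_
  · rw [coeff_ff, card_zero]
  · rw [coeff_ff, card_fam_one_leaf, hb, card_fam_one_node le_rfl le_rfl, if_pos (Iso.refl _)]
    have := cherry_one
    omega
  · rw [coeff_ff]
    exact small_fam (by decide)
  · intro d hd
    rw [coeff_ff]
    exact small_fam (by omega)

lemma EE.gg2 {T : BTree} (h : EE T) :
    ∃ k : ℕ, T.size = 3 * k + 5 ∧ Cle (LeafDeck.gg T) (tt ^ k * hE) := by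
  induction h with
  | @cher a T h =>
    refine ⟨a, ?_, ?_⟩
    · rw [size_iso h]
      show 2 + (alt a cat3).size = _
      rw [size_alt, size_cat3]
      ring
    · rw [gg_eq (EE.cher h).bb, ff_iso h]
      rcases Nat.eq_zero_or_pos a with rfl | ha
      · rw [pow_zero, one_mul]
        exact ff_two_three
      · obtain ⟨k, rfl⟩ : ∃ k, a = k + 1 := ⟨a - 1, by omega⟩
        refine ff_cherry_node (by rw [size_alt, size_cat3]; omega) (alt_bb _)
          ((ff_le_gg _).trans (gg_alt k)) ?_ ?_
        · have e1 : (1 + PowerSeries.X) * (tt ^ k * g2) =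
              tt ^ k * ((1 + PowerSeries.X) * g2) := by ring
          have e2 : tt ^ (k + 1) * hE = tt ^ k * (tt * hE) := by ring
          rw [e1, e2]
          exact mul_mono g2_hE
        · exact uu_le_hE.trans (le_mul_left (one_le_pow one_le_tt _))
  | @base T h =>
    refine ⟨0, ?_, ?_⟩
    · rw [size_iso h]
      rfl
    · rw [gg_eq (EE.base h).bb, ff_iso h, pow_zero, one_mul]
      exact ff_one_cc
  | @step P T h1 h2 ih =>
    obtain ⟨k, hk, hg⟩ := ih
    refine ⟨k + 1, ?_, ?_⟩
    · rw [size_iso h2]
      show 1 + (2 + P.size) = _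
      omega
    · rw [gg_iso h2, pow_succ', mul_assoc]
      exact gg_block h1.two_le hg (uu_le_hE.trans (le_mul_left (one_le_pow one_le_tt _)))

/-! ### the bottoms -/

lemma bam_leaf (Q : BTree) : Cle (bb (.node .leaf Q)) (PowerSeries.X ^ 1 * bb Q) := by
  intro d
  rw [← card_shF_bam, bb, coeff_mk]
  refine card_le_card fun o ho => ?_
  obtain ⟨ho, hB⟩ := mem_bam.1 ho
  obtain ⟨i, j, hij, a, ha, q, hq, rfl⟩ := mem_fam_node.1 ho
  rcases mem_fam_leaf.1 ha with ⟨rfl, rfl⟩ | ⟨rfl, rfl⟩
  · exact absurd hB (not_isB (by rw [csize_leafQ]; omega) _)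
  · rw [joinQ_none_left] at hB ⊢
    have : d = j + 1 := by omega
    subst this
    exact mem_shF (mem_bam.2 ⟨hq, hB⟩)

open scoped Classical in
lemma leaf_alt_subset {P : BTree} (hb : bb P = 0) {d : ℕ} (hd : d ≤ P.size + 2) :
    fam (.node .leaf (.node .leaf (.node cherry P))) d ⊆
      ((fam (.node .leaf (.node cherry P)) d).image fun x => joinQ (some leafQ) x) ∪
        ((shF (fam P) 2 d).image fun p => joinQ (some ⟦cherry⟧) p) := by
  have hbam : ∀ e, bam P e = ∅ := by
    intro e
    have h1 : coeff e (bb P) = 0 := by rw [hb, map_zero]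
    rw [bb, coeff_mk, card_eq_zero] at h1
    exact h1
  intro o ho
  obtain ⟨i, j, hij, a, ha, y, hy, rfl⟩ := mem_fam_node.1 ho
  rcases mem_fam_leaf.1 ha with ⟨rfl, rfl⟩ | ⟨rfl, rfl⟩
  · have : j = d := by omega
    subst this
    exact mem_union_left _ (mem_image_of_mem _ hy)
  · rw [joinQ_none_left]
    obtain ⟨i', l, hil, b, hb', q, hq, rfl⟩ := mem_fam_node.1 hy
    rcases mem_fam_leaf.1 hb' with ⟨rfl, rfl⟩ | ⟨rfl, rfl⟩
    · refine mem_union_left _ (mem_image_of_mem (fun x => joinQ (some leafQ) x) ?_)
      exact mem_fam_node.2 ⟨1, l, by omega, none, mem_fam_leaf.2 (Or.inr ⟨rfl, rfl⟩), q, hq,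
        joinQ_none_left _⟩
    · rw [joinQ_none_left]
      have h1 := cherry_subset (P := P) (d := l) (by omega) hq
      rcases mem_union.1 h1 with h2 | h2
      · obtain ⟨p, hp, rfl⟩ := mem_image.1 h2
        refine mem_union_right _ (mem_image_of_mem (fun p => joinQ (some ⟦cherry⟧) p) ?_)
        have : d = l + 2 := by omega
        subst this
        exact mem_shF hp
      · rcases mem_union.1 h2 with h3 | h3
        · obtain ⟨p, hp, rfl⟩ := mem_image.1 h3
          refine mem_union_left _ (mem_image_of_mem (fun x => joinQ (some leafQ) x) ?_)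
          rw [shF] at hp
          split_ifs at hp with h4
          · refine mem_fam_node.2 ⟨1, l + 1, by omega, none,
              mem_fam_leaf.2 (Or.inr ⟨rfl, rfl⟩), p, ?_, joinQ_none_left _⟩
            exact mem_fam_node.2 ⟨2, l - 1, by omega, none, none_cherry, p, hp,
              joinQ_none_left _⟩
          · simp at hp
        · rw [shF] at h3
          split_ifs at h3 with h4
          · rw [hbam] at h3
            simp at h3
          · simp at h3

lemma ff_leaf_alt {P : BTree} (hb : bb P = 0) {G H : PowerSeries ℕ}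
    (hG : Cle (ff (.node .leaf (.node cherry P))) G) (hH : Cle (ff P) H) (hu : Cle uu G) :
    Cle (ff (.node .leaf (.node .leaf (.node cherry P)))) (G + PowerSeries.X ^ 2 * H) := by
  classical
  intro d
  rcases Nat.lt_or_ge (P.size + 2) d with hd | hd
  · have h1 : coeff d (ff (.node .leaf (.node .leaf (.node cherry P)))) ≤ 1 := by
      rw [coeff_ff]
      refine small_fam ?_
      show 1 + (1 + (2 + P.size)) ≤ _
      omega
    have h2 := one_le_coeff hu d
    rw [map_add]
    omega
  · have h1 := card_le_card (leaf_alt_subset hb hd)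
    have h2 := h1.trans (card_union_le _ _)
    have h3 : ((fam (.node .leaf (.node cherry P)) d).image
      fun x => joinQ (some leafQ) x).card ≤ coeff d G := by
      refine card_image_le.trans ?_
      rw [← coeff_ff]
      exact hG d
    have h4 : ((shF (fam P) 2 d).image fun p => joinQ (some ⟦cherry⟧) p).card ≤
        coeff d (PowerSeries.X ^ 2 * H) := by
      refine card_image_le.trans ?_
      rw [card_shF_fam]
      exact mul_mono hH d
    rw [coeff_ff, map_add]
    omega

lemma vs_le : Cle (PowerSeries.X ^ 1 * vs) (PowerSeries.X ^ 3 * uu) := by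
  intro d
  rw [coeff_shift, coeff_shift, vs, uu]
  simp only [coeff_mk]
  split_ifs <;> omega

lemma leaf_ff : Cle (ff .leaf) (1 + PowerSeries.X) := by
  intro d
  rw [coeff_ff, map_add, coeff_one, coeff_X]
  rcases Nat.lt_or_ge d 2 with h | h
  · rcases (by omega : d = 0 ∨ d = 1) with rfl | rfl <;> simp [fam]
  · have h1 : d ≠ 0 := by omega
    have h2 : d ≠ 1 := by omega
    simp [fam, h1, h2]

/-- the bottoms -/
lemma BF.bound {Z : BTree} (h : BF Z) : (Z.size = 4 ∧ Cle (gg Z) uu) ∨
    ∃ k, Z.size = 3 * (k + 1) + 4 ∧ Cle (gg Z) (tt ^ k * hh) := by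
  cases h with
  | @leaf m Z h =>
    have hbb : bb Z = 0 := by
      rw [bb_iso h]
      exact eq_zero_of_cle (bam_leaf _) (by rw [alt_bb, mul_zero])
    have hs : Z.size = 3 * m + 4 := by
      rw [size_iso h]
      show 1 + (alt m cat3).size = _
      rw [size_alt, size_cat3]
      ring
    rw [gg_eq hbb, ff_iso h]
    rcases Nat.eq_zero_or_pos m with rfl | hm
    · left
      refine ⟨hs, ?_⟩
      intro d
      rw [coeff_ff, uu, coeff_mk]
      rcases Nat.eq_zero_or_pos d with rfl | hd
      · rw [card_zero]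
      · refine small_fam ?_
        show 4 ≤ d + 3
        omega
    · right
      obtain ⟨k, rfl⟩ : ∃ k, m = k + 1 := ⟨m - 1, by omega⟩
      refine ⟨k, by omega, ?_⟩
      have h1 : Cle (ff (.node .leaf (.node cherry (alt k cat3)))) (tt ^ k * g2) :=
        (ff_le_gg _).trans (gg_alt k)
      have h2 : Cle (ff (alt k cat3)) (tt ^ k * uu) := (ff_le_gg _).trans (alt_gg k)
      have h3 := ff_leaf_alt (alt_bb k) h1 h2
        (uu_le_g2.trans (le_mul_left (one_le_pow one_le_tt k)))
      have e1 : tt ^ k * g2 + PowerSeries.X ^ 2 * (tt ^ k * uu) =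
          tt ^ k * (g2 + PowerSeries.X ^ 2 * uu) := by ring
      rw [e1] at h3
      refine h3.trans (mul_mono ?_)
      have e2 : g2 + PowerSeries.X ^ 2 * uu = 1 + 3 * PowerSeries.X + 3 * PowerSeries.X ^ 2 +
          PowerSeries.X ^ 3 * (2 * uu) := by
        have e3 : PowerSeries.X ^ 2 * uu = PowerSeries.X ^ 2 + PowerSeries.X ^ 3 * uu := by
          nth_rw 1 [uu_rec]
          ring
        rw [e3, g2, tt]
        ring
      refine le_hh e2 ?_
      have := nat_mul_le (a := 2) (b := 20) (by omega) (uu_le_pow 3 (by omega))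
      push_cast at this
      exact this
  | cc h =>
    left
    refine ⟨by rw [size_iso h]; rfl, ?_⟩
    rw [gg_eq (bb_small (by rw [size_iso h]; decide)), ff_iso h]
    exact ff_cherry_cherry
  | @ee E Z h1 h =>
    right
    obtain ⟨k, hk, hg⟩ := h1.gg2
    have hbb : bb Z = 0 := by
      rw [bb_iso h]
      exact eq_zero_of_cle (cherry_bb h1.two_le) (by rw [h1.bb, mul_zero])
    refine ⟨k, ?_, ?_⟩
    · rw [size_iso h]
      show 2 + E.size = _
      omega
    · rw [gg_eq hbb, ff_iso h]
      refine ff_cherry_node h1.two_le h1.bb ((ff_le_gg _).trans hg) ?_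
        (uu_le_hh.trans (le_mul_left (one_le_pow one_le_tt k)))
      have e1 : (1 + PowerSeries.X) * (tt ^ k * hE) = tt ^ k * ((1 + PowerSeries.X) * hE) := by
        ring
      rw [e1]
      refine mul_mono (le_hh (h := 1 + (1 + PowerSeries.X) * uu) ?_ ?_)
      · rw [hE]
        ring
      · have h2 : Cle (1 + (1 + PowerSeries.X) * uu) (uu ^ 3 + uu ^ 3) := by
          refine (one_le_pow one_le_uu 3).add ?_
          have h3 : Cle ((1 + PowerSeries.X) * uu) (uu * uu) := one_X_le.mul (Cle.refl _)
          have h4 : uu ^ 3 = uu * (uu * uu) := by ring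
          rw [h4]
          exact h3.trans (le_mul_left one_le_uu)
        have h5 := nat_mul_le (a := 2) (b := 20) (by omega) (Cle.refl (uu ^ 3))
        push_cast at h5
        have h6 : uu ^ 3 + uu ^ 3 = 2 * uu ^ 3 := by ring
        rw [h6] at h2
        exact h2.trans h5
  | @two a b Z ha hb h =>
    right
    obtain ⟨a, rfl⟩ : ∃ k, a = k + 1 := ⟨a - 1, by omega⟩
    obtain ⟨b, rfl⟩ : ∃ k, b = k + 1 := ⟨b - 1, by omega⟩
    refine ⟨a + b + 2, ?_, ?_⟩
    · rw [size_iso h]
      show 1 + ((alt (a + 1) cat3).size + (alt (b + 1) cat3).size) = _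
      rw [size_alt, size_alt, size_cat3]
      ring
    · rw [gg_iso h, gg]
      set X1 := alt (a + 1) cat3 with hX1
      set Y1 := alt (b + 1) cat3 with hY1
      have hX : Cle (ff X1) (tt ^ a * g2) := (ff_le_gg _).trans (gg_alt a)
      have hY : Cle (ff Y1) (tt ^ b * g2) := (ff_le_gg _).trans (gg_alt b)
      have hXY : Cle (ff (.node X1 Y1)) (tt ^ a * g2 * (tt ^ b * g2)) :=
        (ff_node X1 Y1).trans (hX.mul hY)
      have h1 : Cle (ff (.node .leaf (.node X1 Y1)))
          ((1 + PowerSeries.X) * (tt ^ a * g2 * (tt ^ b * g2))) :=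
        (ff_node _ _).trans (leaf_ff.mul hXY)
      have h2 : Cle (vs * bb (.node .leaf (.node X1 Y1)))
          (PowerSeries.X ^ 3 * uu * (tt ^ a * g2 * (tt ^ b * g2))) := by
        have h3 : Cle (vs * bb (.node .leaf (.node X1 Y1)))
            (vs * (PowerSeries.X ^ 1 * (tt ^ a * g2 * (tt ^ b * g2)))) :=
          mul_mono ((bam_leaf _).trans (mul_mono ((bb_le_ff _).trans hXY)))
        have e1 : vs * (PowerSeries.X ^ 1 * (tt ^ a * g2 * (tt ^ b * g2))) =
            PowerSeries.X ^ 1 * vs * (tt ^ a * g2 * (tt ^ b * g2)) := by ring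
        rw [e1] at h3
        exact h3.trans (vs_le.mul (Cle.refl _))
      have h3 := h1.add h2
      have e2 : (1 + PowerSeries.X) * (tt ^ a * g2 * (tt ^ b * g2)) +
          PowerSeries.X ^ 3 * uu * (tt ^ a * g2 * (tt ^ b * g2)) =
          tt ^ (a + b) * ((1 + PowerSeries.X + PowerSeries.X ^ 3 * uu) * (g2 * g2)) := by
        ring
      rw [e2] at h3
      refine h3.trans ?_
      have e3 : tt ^ (a + b + 2) * hh = tt ^ (a + b) * (tt ^ 2 * hh) := by ring
      rw [e3]
      refine mul_mono ?_
      -- the remaining inequality between series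
      have h4 : Cle (g2 * g2) (tt ^ 2 * ((1 + PowerSeries.X) ^ 2 +
          2 * (PowerSeries.X ^ 3 * (1 + PowerSeries.X) * uu) +
            PowerSeries.X ^ 6 * uu ^ 2)) := by
        have e4 : g2 * g2 = tt ^ 2 * (1 + PowerSeries.X) ^ 2 +
            tt * (2 * (PowerSeries.X ^ 3 * (1 + PowerSeries.X) * uu)) +
              PowerSeries.X ^ 6 * uu ^ 2 := by
          rw [g2]
          ring
        have e5 : tt ^ 2 * ((1 + PowerSeries.X) ^ 2 +
            2 * (PowerSeries.X ^ 3 * (1 + PowerSeries.X) * uu) + PowerSeries.X ^ 6 * uu ^ 2) =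
            tt ^ 2 * (1 + PowerSeries.X) ^ 2 +
            tt * (tt * (2 * (PowerSeries.X ^ 3 * (1 + PowerSeries.X) * uu))) +
              tt ^ 2 * (PowerSeries.X ^ 6 * uu ^ 2) := by ring
        rw [e4, e5]
        exact ((Cle.refl _).add (mul_mono (le_mul_left one_le_tt))).add
          (le_mul_left (one_le_pow one_le_tt 2))
      have h5 : Cle ((1 + PowerSeries.X + PowerSeries.X ^ 3 * uu) * (g2 * g2))
          (tt ^ 2 * ((1 + PowerSeries.X + PowerSeries.X ^ 3 * uu) * ((1 + PowerSeries.X) ^ 2 +
          2 * (PowerSeries.X ^ 3 * (1 + PowerSeries.X) * uu) +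
            PowerSeries.X ^ 6 * uu ^ 2))) := by
        have := mul_mono (h := 1 + PowerSeries.X + PowerSeries.X ^ 3 * uu) h4
        have e6 : (1 + PowerSeries.X + PowerSeries.X ^ 3 * uu) * (tt ^ 2 *
            ((1 + PowerSeries.X) ^ 2 + 2 * (PowerSeries.X ^ 3 * (1 + PowerSeries.X) * uu) +
            PowerSeries.X ^ 6 * uu ^ 2)) =
            tt ^ 2 * ((1 + PowerSeries.X + PowerSeries.X ^ 3 * uu) * ((1 + PowerSeries.X) ^ 2 +
          2 * (PowerSeries.X ^ 3 * (1 + PowerSeries.X) * uu) +
            PowerSeries.X ^ 6 * uu ^ 2)) := by ring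
        rwa [e6] at this
      refine h5.trans (mul_mono (le_hh (h := 1 + 3 * ((1 + PowerSeries.X) ^ 2 * uu) +
        3 * (PowerSeries.X ^ 3 * ((1 + PowerSeries.X) * uu ^ 2)) +
          PowerSeries.X ^ 6 * uu ^ 3) ?_ ?_))
      · ring
      · have k1 : Cle 1 (uu ^ 3) := one_le_pow one_le_uu 3
        have k2 : Cle ((1 + PowerSeries.X) ^ 2 * uu) (uu ^ 3) := by
          have : uu ^ 3 = uu ^ 2 * uu := by ring
          rw [this]
          exact (one_X_le.pow 2).mul (Cle.refl _)
        have k3 : Cle ((1 + PowerSeries.X) * uu ^ 2) (uu ^ 3) := by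
          have : uu ^ 3 = uu * uu ^ 2 := by ring
          rw [this]
          exact one_X_le.mul (Cle.refl _)
        have k4 : ∀ n : ℕ, Cle (PowerSeries.X ^ n * uu ^ 3) (uu ^ 3) := by
          intro n
          have e7 : PowerSeries.X ^ n * uu ^ 3 = PowerSeries.X ^ n * uu * uu ^ 2 := by ring
          have e8 : uu ^ 3 = uu * uu ^ 2 := by ring
          rw [e7]
          nth_rw 1 [e8]
          exact (shift_uu n).mul (Cle.refl _)
        have k5 : Cle (PowerSeries.X ^ 3 * ((1 + PowerSeries.X) * uu ^ 2)) (uu ^ 3) :=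
          (mul_mono k3).trans (k4 3)
        have k6 : Cle (3 * ((1 + PowerSeries.X) ^ 2 * uu)) (3 * uu ^ 3) := mul_mono k2
        have k7 : Cle (3 * (PowerSeries.X ^ 3 * ((1 + PowerSeries.X) * uu ^ 2)))
          (3 * uu ^ 3) := mul_mono k5
        have k8 := ((k1.add k6).add k7).add (k4 6)
        refine k8.trans ?_
        have e9 : uu ^ 3 + 3 * uu ^ 3 + 3 * uu ^ 3 + uu ^ 3 = 8 * uu ^ 3 := by ring
        rw [e9]
        have h5 := nat_mul_le (a := 8) (b := 20) (by omega) (Cle.refl (uu ^ 3))
        push_cast at h5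
        exact h5
  | one h =>
    right
    refine ⟨0, by rw [size_iso h]; rfl, ?_⟩
    rw [gg_iso h, gg, pow_zero, one_mul]
    have hcc : (BTree.node cat3 cat3).size = 6 := rfl
    have h1 : Cle (ff (.node .leaf (.node cat3 cat3))) (1 + ((3 : ℕ) : PowerSeries ℕ) *
        PowerSeries.X ^ 1 + ((3 : ℕ) : PowerSeries ℕ) * PowerSeries.X ^ 2 +
          ((3 : ℕ) : PowerSeries ℕ) * (PowerSeries.X ^ 3 * uu)) := by
      have hb : branching (.node cat3 cat3) = 1 := rfl
      have c1 : (fam cat3 1).card ≤ 1 := small_fam (by decide)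
      have c2 : (fam cat3 2).card ≤ 1 := small_fam (by decide)
      have d1 : (fam (.node cat3 cat3) 1).card ≤ 1 := by
        rw [card_fam_one_node (by decide) (by decide), if_pos (Iso.refl _)]
        exact c1
      have d2 : (fam (.node cat3 cat3) 2).card ≤ 2 := by
        have := two_same (Iso.refl cat3)
        nlinarith
      have hs : (BTree.node .leaf (.node cat3 cat3)).size = 7 := rfl
      refine cle_explicit 3 3 3 ?_ ?_ ?_ ?_
      · rw [coeff_ff, card_zero]
      · rw [coeff_ff, card_fam_one_leaf, hb]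
        omega
      · rw [coeff_ff]
        have := two_leaf (.node cat3 cat3)
        omega
      · intro d hd
        rw [coeff_ff]
        rcases Nat.lt_or_ge d 4 with h4 | h4
        · have hd3 : d = 3 := by omega
          subst hd3
          -- four leaves are left
          have h3 := ff_node .leaf (.node cat3 cat3) 3
          classical
          have h5 : fam (.node .leaf (.node cat3 cat3)) 3 ⊆
              ({(some ⟦BTree.node .leaf cat3⟧ : Option TreeClass),
                (some ⟦BTree.node cherry cherry⟧ : Option TreeClass)} :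
                Finset (Option TreeClass)) := by
            intro o ho
            have h6 := fam_qsize ho
            rw [hs] at h6
            cases o with
            | none =>
              rw [qsize_none] at h6
              omega
            | some x =>
              induction x using Quotient.inductionOn with
              | h U =>
              rw [qsize_some, csize_mk] at h6
              cases U with
              | leaf =>
                have : (BTree.leaf).size = 1 := rfl
                omega
              | node x y =>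
                have h7 : x.size + y.size = 4 := by
                  have : (BTree.node x y).size = x.size + y.size := rfl
                  omega
                have hx := size_pos x
                have hy := size_pos y
                rw [mem_insert, mem_singleton]
                rcases (by omega : x.size = 1 ∨ x.size = 2 ∨ x.size = 3) with h8 | h8 | h8
                · left
                  have e1 : Iso (.node x y) (.node .leaf cat3) := by
                    rw [eq_leaf_of_size (T := x) (by omega)]
                    exact Iso.node .leaf (iso_cat3 (by omega))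
                  rw [Quotient.sound e1]
                · right
                  rw [eq_cherry h8, eq_cherry (T := y) (by omega)]
                · left
                  have e1 : Iso (.node x y) (.node .leaf cat3) := by
                    rw [eq_leaf_of_size (T := y) (by omega)]
                    exact Iso.swap (iso_cat3 h8) .leaf
                  rw [Quotient.sound e1]
          have h9 := (card_le_card h5).trans card_le_two
          omega
        · have := small_fam (T := .node .leaf (.node cat3 cat3)) (d := d) (by omega)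
          omega
    have h2 : Cle (vs * bb (.node .leaf (.node cat3 cat3))) (PowerSeries.X ^ 3 * uu) := by
      have h3 : Cle (bb (.node cat3 cat3)) 1 := by
        intro d
        rw [bb, coeff_mk, coeff_one]
        split_ifs with h0
        · subst h0
          have h4 : bam (.node cat3 cat3) 0 ⊆ fam (.node cat3 cat3) 0 :=
            fun o ho => (mem_bam.1 ho).1
          have h5 := card_le_card h4
          rw [card_zero] at h5
          exact h5
        · rw [Nat.le_zero, card_eq_zero, Finset.eq_empty_iff_forall_notMem]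
          intro o ho
          obtain ⟨h4, x, y, hx, hy, rfl⟩ := mem_bam.1 ho
          have h5 := fam_qsize h4
          rw [qsize_some, csize_nodeQ] at h5
          omega
      have h4 : Cle (vs * bb (.node .leaf (.node cat3 cat3)))
          (vs * (PowerSeries.X ^ 1 * 1)) := mul_mono ((bam_leaf _).trans (mul_mono h3))
      have e1 : vs * (PowerSeries.X ^ 1 * 1) = PowerSeries.X ^ 1 * vs := by ring
      rw [e1] at h4
      exact h4.trans vs_le
    refine (h1.add h2).trans (le_hh (h := 4 * uu) ?_ ?_)
    · push_cast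
      ring
    · have := nat_mul_le (a := 4) (b := 20) (by omega) (uu_le_pow 3 (by omega))
      push_cast at this
      exact this

lemma alt_add_gg {Z : BTree} (hZ : 2 ≤ Z.size) {G : PowerSeries ℕ} (hG : Cle (gg Z) G)
    (hu : Cle uu G) (i : ℕ) : Cle (gg (alt i Z)) (tt ^ i * G) := by
  induction i with
  | zero =>
    rw [pow_zero, one_mul]
    exact hG
  | succ i ih =>
    rw [pow_succ', mul_assoc]
    exact gg_block (by rw [size_alt]; omega) ih (hu.trans (le_mul_left (one_le_pow one_le_tt i)))

/-- the bound for the trees which are extremal for one deleted leaf only -/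
theorem five_bound {T : BTree} {N : ℕ} (hN : 1 ≤ N) (hT : T.size = 3 * N + 4)
    (h : ∃ i Z, Iso T (alt i Z) ∧ BF Z) : Cle (gg T) (tt ^ (N - 1) * hh) := by
  obtain ⟨i, Z, h, hZ⟩ := h
  have hs := size_iso h
  rw [size_alt, hT] at hs
  rw [gg_iso h]
  rcases hZ.bound with ⟨h1, h2⟩ | ⟨k, h1, h2⟩
  · have hi : i = N := by omega
    have h3 := alt_add_gg (by omega) h2 (Cle.refl _) i
    refine h3.trans ?_
    obtain ⟨M, rfl⟩ : ∃ M, i = M + 1 := ⟨i - 1, by omega⟩
    have e1 : N - 1 = M := by omega
    have e2 : tt ^ (M + 1) * uu = tt ^ M * (tt * uu) := by ring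
    rw [e1, e2]
    exact mul_mono tt_uu_le_hh
  · have h3 := alt_add_gg (by omega) h2
      (uu_le_hh.trans (le_mul_left (one_le_pow one_le_tt k))) i
    have e1 : N - 1 = i + k := by omega
    rw [e1, pow_add, mul_assoc]
    exact h3

end LeafDeck
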