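import Pool.Agent.LeafDeck.TwoUpper

/-!
Two deleted leaves: the induction for the upper bound with its cases of equality.
-/

set_option autoImplicit false

namespace LeafDeck

open Finset BTree

/-- trees built from the tree with three leaves by `a` blocks with a cherry and `b` blocks with
three leaves -/
inductive Alt2 : ℕ → ℕ → BTree → Prop
  | base {T : BTree} : Iso T cat3 → Alt2 0 0 T
  | two {a b : ℕ} {P T : BTree} : Alt2 a b P → Iso T (.node .leaf (.node cherry P)) →
      Alt2 (a + 1) b T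
  | three {a b : ℕ} {P T : BTree} : Alt2 a b P → 1 ≤ a + b →
      Iso T (.node .leaf (.node cat3 P)) → Alt2 a (b + 1) T

/-- the extremal trees for `n = 3 m + 2` -/
inductive EE : BTree → Prop
  | cher {a : ℕ} {T : BTree} : Iso T (.node cherry (alt a cat3)) → EE T
  | base {T : BTree} : Iso T (.node .leaf (.node cherry cherry)) → EE T
  | step {P T : BTree} : EE P → Iso T (.node .leaf (.node cherry P)) → EE T

lemma Alt2.iso {a b : ℕ} {T T' : BTree} (h : Alt2 a b T) (hT : Iso T T') : Alt2 a b T' := by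
  cases h with
  | base h => exact .base (hT.symm.trans h)
  | two h1 h2 => exact .two h1 (hT.symm.trans h2)
  | three h1 h2 h3 => exact .three h1 h2 (hT.symm.trans h3)

lemma Alt2.size {a b : ℕ} {T : BTree} (h : Alt2 a b T) : T.size = 3 * a + 4 * b + 3 := by
  induction h with
  | base h => rw [size_iso h]; rfl
  | @two a b P T _ h2 ih =>
    rw [size_iso h2]
    show 1 + (2 + P.size) = _
    omega
  | @three a b P T _ _ h2 ih =>
    rw [size_iso h2]
    show 1 + (3 + P.size) = _
    omega

lemma Alt2.zero {a b : ℕ} {T : BTree} (h : Alt2 a b T) (hb : b = 0) : Iso T (alt a cat3) := by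
  induction h with
  | base h => exact h
  | two _ h2 ih => exact h2.trans (Iso.node .leaf (Iso.node (Iso.refl _) (ih hb)))
  | three _ _ _ _ => exact absurd hb (by omega)

lemma Alt2.one {a b : ℕ} {T : BTree} (h : Alt2 a b T) (hb : b = 1) :
    ∃ i j, i + j = a ∧ 1 ≤ j ∧ Iso T (alt i (.node .leaf (.node cat3 (alt j cat3)))) := by
  induction h with
  | base h => exact absurd hb (by omega)
  | two _ h2 ih =>
    obtain ⟨i, j, h3, h4, h5⟩ := ih hb
    exact ⟨i + 1, j, by omega, h4, h2.trans (Iso.node .leaf (Iso.node (Iso.refl _) h5))⟩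
  | @three a b P T h1 h2 h3 _ =>
    refine ⟨0, a, by omega, by omega, ?_⟩
    exact h3.trans (Iso.node .leaf (Iso.node (Iso.refl _) (h1.zero (by omega))))

lemma alt2_alt (a : ℕ) : Alt2 a 0 (alt a cat3) := by
  induction a with
  | zero => exact .base (Iso.refl _)
  | succ a ih => exact .two ih (Iso.refl _)

lemma EE.iso {T T' : BTree} (h : EE T) (hT : Iso T T') : EE T' := by
  cases h with
  | cher h => exact .cher (hT.symm.trans h)
  | base h => exact .base (hT.symm.trans h)
  | step h1 h2 => exact .step h1 (hT.symm.trans h2)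

lemma EE.form {T : BTree} (h : EE T) :
    (∃ i j, Iso T (alt i (.node cherry (alt j cat3)))) ∨
      ∃ i, Iso T (alt i (.node .leaf (.node cherry cherry))) := by
  induction h with
  | @cher a T h => exact Or.inl ⟨0, a, h⟩
  | base h => exact Or.inr ⟨0, h⟩
  | step _ h2 ih =>
    rcases ih with ⟨i, j, h3⟩ | ⟨i, h3⟩
    · exact Or.inl ⟨i + 1, j, h2.trans (Iso.node .leaf (Iso.node (Iso.refl _) h3))⟩
    · exact Or.inr ⟨i + 1, h2.trans (Iso.node .leaf (Iso.node (Iso.refl _) h3))⟩

/-- the number of classes after one deletion -/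
noncomputable abbrev F1 (T : BTree) : ℤ := ((fam T 1).card : ℤ)

/-- the number of classes after two deletions -/
noncomputable abbrev F2 (T : BTree) : ℤ := ((fam T 2).card : ℤ)

/-- the potential -/
noncomputable def psi (T : BTree) (x : ℤ) : ℤ := x ^ 2 + 4 * (T.size : ℤ) - 8 * x - 2 * F2 T

/-- the linear potential -/
noncomputable def dd (T : BTree) (x : ℤ) : ℤ := 2 * (T.size : ℤ) - 3 * x

/-- the bounds for all trees -/
def Good (T : BTree) (x : ℤ) : Prop := F1 T ≤ x ∧ 2 * F2 T ≤ x ^ 2 + x

/-- a leaf at the root -/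
def TL (T : BTree) (x : ℤ) : Prop := ∃ Q, 3 ≤ Q.size ∧ Iso T (.node .leaf Q) ∧
  3 ≤ dd T x ∧ 5 ≤ psi T x ∧ (psi T x = 5 → ∃ a b : ℕ, Alt2 a b T ∧ x = 2 * (a + b) + 1) ∧
  (psi T x = 6 → dd T x = 4 → EE T) ∧ (branching Q = 1 → 2 * F2 T + 2 ≤ x ^ 2 + x)

/-- a cherry at the root -/
def TC (T : BTree) (x : ℤ) : Prop := ∃ P, 2 ≤ P.size ∧ Iso T (.node cherry P) ∧
  4 ≤ dd T x ∧ 6 ≤ psi T x ∧ (psi T x = 6 → ∃ a b : ℕ, Alt2 a b P ∧ x = 2 * (a + b) + 2) ∧
  (psi T x = 7 → dd T x = 5 → EE P ∨ Iso P cherry)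

/-- two large children -/
def TB (T : BTree) (x : ℤ) : Prop := ∃ X Y, 3 ≤ X.size ∧ 3 ≤ Y.size ∧ Iso T (.node X Y) ∧
  6 ≤ dd T x ∧ 8 ≤ psi T x ∧ (psi T x = 8 → F1 T < x ∨
    ∃ (P : BTree) (a b : ℕ), Iso T (.node cat3 P) ∧ Alt2 a b P ∧ 1 ≤ a + b ∧
      x = 2 * (a + b) + 2)

/-- the statement of the induction -/
def Hyp (T : BTree) : Prop := ∃ x : ℤ, Good T x ∧ (TL T x ∨ TC T x ∨ TB T x)

lemma Hyp.iso {T T' : BTree} (h : Iso T T') (hT : Hyp T) : Hyp T' := by
  have e1 : fam T' = fam T := fam_iso h.symm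
  have e2 : T'.size = T.size := size_iso h.symm
  have f1 : F1 T' = F1 T := by rw [F1, e1]
  have f2 : F2 T' = F2 T := by rw [F2, e1]
  have p : ∀ x, psi T' x = psi T x := fun x => by rw [psi, psi, e2, f2]
  have q : ∀ x, dd T' x = dd T x := fun x => by rw [dd, dd, e2]
  obtain ⟨x, hg, hx⟩ := hT
  refine ⟨x, ?_, ?_⟩
  · rw [Good, f1, f2]
    exact hg
  · rcases hx with hx | hx | hx
    · left
      obtain ⟨Q, h1, h2, h3, h4, h5, h6, h7⟩ := hx
      refine ⟨Q, h1, h.symm.trans h2, by rwa [q], by rwa [p], ?_, ?_, by rwa [f2]⟩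
      · rw [p]
        intro h8
        obtain ⟨a, b, h9, h10⟩ := h5 h8
        exact ⟨a, b, h9.iso h, h10⟩
      · rw [p, q]
        exact fun h8 h9 => (h6 h8 h9).iso h
    · right
      left
      obtain ⟨P, h1, h2, h3, h4, h5, h6⟩ := hx
      exact ⟨P, h1, h.symm.trans h2, by rwa [q], by rwa [p], by rwa [p], by rwa [p, q]⟩
    · right
      right
      obtain ⟨X, Y, h1, h2, h3, h4, h5, h6⟩ := hx
      refine ⟨X, Y, h1, h2, h.symm.trans h3, by rwa [q], by rwa [p], ?_⟩
      rw [p, f1]
      intro h8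
      rcases h6 h8 with h7 | ⟨P, a, b, h9, h10, h11, h12⟩
      · exact Or.inl h7
      · exact Or.inr ⟨P, a, b, h.symm.trans h9, h10, h11, h12⟩

/-! ### a leaf at the root -/

lemma size_leaf_node (Q : BTree) : ((BTree.node .leaf Q).size : ℤ) = Q.size + 1 := by
  have : (BTree.node .leaf Q).size = 1 + Q.size := rfl
  rw [this]
  push_cast
  ring

lemma F1_leaf (Q : BTree) : F1 (.node .leaf Q) = F1 Q + branching Q := by
  rw [F1, card_fam_one_leaf]
  push_cast
  rfl

lemma step_L0 {Q : BTree} (hQ : Q.size = 3) : Hyp (.node .leaf Q) := by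
  have h0 : branching Q = 0 := by
    rw [branching_iso (iso_cat3 hQ)]
    rfl
  have h1 : F1 Q ≤ 1 := by
    have : (fam Q 1).card ≤ 1 := small_fam (by omega)
    exact_mod_cast this
  have h2 : F2 (.node .leaf Q) ≤ 1 := by
    have : (fam (.node .leaf Q) 2).card ≤ 1 := small_fam (by
      show 1 + Q.size ≤ _
      omega)
    exact_mod_cast this
  have h3 := F1_leaf Q
  have hs := size_leaf_node Q
  rw [h0] at h3
  rw [hQ] at hs
  have hp : 7 ≤ psi (.node .leaf Q) 1 := by
    rw [psi, hs]
    push_cast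
    linarith
  have hd : dd (.node .leaf Q) 1 = 5 := by
    rw [dd, hs]
    norm_num
  refine ⟨1, ⟨by rw [h3]; simpa using h1, by linarith⟩, Or.inl ⟨Q, by omega, Iso.refl _,
    by rw [hd]; norm_num, by linarith, fun h => by exfalso; linarith,
    fun h => by exfalso; linarith, fun h => by omega⟩⟩

lemma step_LL {Q : BTree} {x : ℤ} (hg : Good Q x) (h : TL Q x) : Hyp (.node .leaf Q) := by
  obtain ⟨Q', h1, h2, h3, h4, h5, h6, h7⟩ := h
  have hb : branching Q = 0 := by
    rw [branching_iso h2, branching_leaf_left]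
  have hf1 := F1_leaf Q
  rw [hb] at hf1
  have hf2 : F2 (.node .leaf Q) ≤ F2 Q + branching Q' := by
    have e : F2 (.node .leaf Q) = F2 (.node .leaf (.node .leaf Q')) := by
      rw [F2, F2, fam_iso (Iso.node .leaf h2)]
    have e' : F2 Q = F2 (.node .leaf Q') := by rw [F2, F2, fam_iso h2]
    rw [e, e', F2, F2]
    exact_mod_cast two_leaf_leaf Q'
  have hs := size_leaf_node Q
  have hb' : (branching Q' : ℤ) ≤ 1 := by exact_mod_cast branching_le Q'
  have hp : 7 ≤ psi (.node .leaf Q) x := by
    rw [psi] at h4 ⊢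
    rw [hs]
    linarith
  have hd : dd (.node .leaf Q) x = dd Q x + 2 := by
    rw [dd, dd, hs]
    ring
  have h3' : 3 ≤ dd (.node .leaf Q) x := by rw [hd]; linarith
  have hsz : 3 ≤ Q.size := by
    rw [size_iso h2]
    show 3 ≤ 1 + Q'.size
    omega
  refine ⟨x, ⟨?_, ?_⟩, Or.inl ⟨Q, hsz, Iso.refl _, h3', by linarith,
    fun h => by exfalso; linarith, fun h => by exfalso; linarith, fun h => by omega⟩⟩
  · rw [hf1]
    simpa using hg.1
  · rcases Nat.lt_or_ge (branching Q') 1 with hq | hq
    · have hq' : branching Q' = 0 := by omega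
      rw [hq'] at hf2
      have := hg.2
      push_cast at hf2
      linarith
    · have hq' : branching Q' = 1 := le_antisymm (branching_le Q') hq
      have := h7 hq'
      rw [hq'] at hf2
      push_cast at hf2
      linarith

lemma step_LC {Q : BTree} {x : ℤ} (hg : Good Q x) (h : TC Q x) : Hyp (.node .leaf Q) := by
  obtain ⟨P, h1, h2, h3, h4, h5, h6⟩ := h
  have hb : branching Q = 1 := by
    rw [branching_iso h2]
    exact branching_node le_rfl h1
  have hf1 := F1_leaf Q
  rw [hb] at hf1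
  have hf2 : F2 (.node .leaf Q) + 1 ≤ F2 Q + F1 Q := by
    have e : F2 (.node .leaf Q) = F2 (.node .leaf (.node cherry P)) := by
      rw [F2, F2, fam_iso (Iso.node .leaf h2)]
    have e' : F2 Q = F2 (.node cherry P) := by rw [F2, F2, fam_iso h2]
    have e'' : F1 Q = F1 (.node cherry P) := by rw [F1, F1, fam_iso h2]
    rw [e, e', e'', F2, F2, F1]
    exact_mod_cast two_leaf_cherry P
  have hs := size_leaf_node Q
  have g1 := hg.1
  have g2 := hg.2
  have hp : psi Q x - 1 ≤ psi (.node .leaf Q) (x + 1) := by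
    rw [psi, psi, hs]
    linarith
  have hd : dd (.node .leaf Q) (x + 1) = dd Q x - 1 := by
    rw [dd, dd, hs]
    ring
  have hsz : 3 ≤ Q.size := by
    rw [size_iso h2]
    show 3 ≤ 2 + P.size
    omega
  refine ⟨x + 1, ⟨?_, by linarith⟩, Or.inl ⟨Q, hsz, Iso.refl _, by rw [hd]; linarith,
    by linarith, fun h => ?_, fun h h' => ?_, fun h => by linarith⟩⟩
  · rw [hf1]
    push_cast
    linarith
  · obtain ⟨a, b, h7, h8⟩ := h5 (by linarith)
    refine ⟨a + 1, b, .two h7 (Iso.node .leaf h2), ?_⟩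
    push_cast
    linarith
  · rw [hd] at h'
    rcases eq_or_ne (psi Q x) 7 with h7 | h7
    · rcases h6 h7 (by linarith) with h8 | h8
      · exact .step h8 (Iso.node .leaf h2)
      · exact .base (Iso.node .leaf (h2.trans (Iso.node (Iso.refl _) h8)))
    · have h8 : psi Q x = 6 := by
        have : psi Q x ≤ 7 := by linarith
        omega
      obtain ⟨a, b, h9, h10⟩ := h5 h8
      have h11 := h9.size
      have h12 : Q.size = 2 + P.size := by rw [size_iso h2]; rfl
      rw [dd, h12, h11, h10] at h'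
      push_cast at h'
      omega

lemma step_LB {Q : BTree} {x : ℤ} (hg : Good Q x) (h : TB Q x) : Hyp (.node .leaf Q) := by
  obtain ⟨X, Y, h1, h2, h3, h4, h5, h6⟩ := h
  have hb : branching Q = 1 := by
    rw [branching_iso h3]
    exact branching_node (by omega) (by omega)
  have hf1 := F1_leaf Q
  rw [hb] at hf1
  have hf2 : F2 (.node .leaf Q) ≤ F2 Q + F1 Q := by
    rw [F2, F2, F1]
    exact_mod_cast two_leaf Q
  have hs := size_leaf_node Q
  have g1 := hg.1
  have g2 := hg.2
  have hp : psi Q x - 3 + 2 * (x - F1 Q) ≤ psi (.node .leaf Q) (x + 1) := by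
    rw [psi, psi, hs]
    linarith
  have hd : dd (.node .leaf Q) (x + 1) = dd Q x - 1 := by
    rw [dd, dd, hs]
    ring
  have hsz : 3 ≤ Q.size := by
    rw [size_iso h3]
    show 3 ≤ X.size + Y.size
    omega
  refine ⟨x + 1, ⟨?_, by linarith⟩, Or.inl ⟨Q, hsz, Iso.refl _, by rw [hd]; linarith,
    by linarith, fun h => ?_, fun h h' => ?_, fun h => by linarith⟩⟩
  · rw [hf1]
    push_cast
    linarith
  · rcases h6 (by linarith) with h7 | ⟨P, a, b, h7, h8, h9, h10⟩
    · exfalso
      have : F1 Q + 1 ≤ x := h7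
      linarith
    · refine ⟨a, b + 1, .three h8 h9 (Iso.node .leaf h7), ?_⟩
      push_cast
      linarith
  · exfalso
    rw [hd] at h'
    linarith

/-! ### a cherry at the root -/

lemma size_cherry_node (P : BTree) : ((BTree.node cherry P).size : ℤ) = P.size + 2 := by
  have : (BTree.node cherry P).size = 2 + P.size := rfl
  rw [this]
  push_cast
  ring

lemma F1_node {X Y : BTree} (hX : 2 ≤ X.size) (hY : 2 ≤ Y.size) (h : ¬ Iso X Y) :
    F1 (.node X Y) = F1 X + F1 Y := by
  rw [F1, card_fam_one_node hX hY, if_neg h]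
  push_cast
  rfl

lemma F1_same {X Y : BTree} (hX : 2 ≤ X.size) (hY : 2 ≤ Y.size) (h : Iso X Y) :
    F1 (.node X Y) = F1 X := by
  rw [F1, card_fam_one_node hX hY, if_pos h]

lemma F1_cherry : F1 cherry ≤ 1 := by exact_mod_cast cherry_one

lemma step_C2 {P : BTree} (hP : P.size = 2) : Hyp (.node cherry P) := by
  rw [eq_cherry hP]
  have h1 : F1 (.node cherry cherry) ≤ 1 := by
    rw [F1_same le_rfl le_rfl (Iso.refl _)]
    exact F1_cherry
  have h2 : F2 (.node cherry cherry) ≤ 1 := by
    have : (fam (.node cherry cherry) 2).card ≤ 1 := small_fam (by decide)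
    exact_mod_cast this
  have hs : ((BTree.node cherry cherry).size : ℤ) = 4 := rfl
  have hp : 7 ≤ psi (.node cherry cherry) 1 := by
    rw [psi, hs]
    linarith
  have hd : dd (.node cherry cherry) 1 = 5 := by
    rw [dd, hs]
    norm_num
  exact ⟨1, ⟨h1, by linarith⟩, Or.inr (Or.inl ⟨cherry, le_rfl, Iso.refl _,
    by rw [hd]; norm_num, by linarith, fun h => by exfalso; linarith,
    fun _ _ => Or.inr (Iso.refl _)⟩)⟩

lemma not_iso_cherry {P : BTree} (hP : 3 ≤ P.size) : ¬ Iso cherry P := by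
  intro h
  have h1 := size_iso h
  rw [size_cherry] at h1
  omega

lemma step_C3 {P : BTree} (hP : P.size = 3) : Hyp (.node cherry P) := by
  have h1 : F1 (.node cherry P) ≤ 2 := by
    rw [F1_node le_rfl (by omega) (not_iso_cherry (by omega))]
    have h3 : (fam P 1).card ≤ 1 := small_fam (by omega)
    have h4 : F1 P ≤ 1 := by exact_mod_cast h3
    have h5 := F1_cherry
    linarith
  have h2 : F2 (.node cherry P) ≤ 1 := by
    have : (fam (.node cherry P) 2).card ≤ 1 := small_fam (by
      show 2 + P.size ≤ _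
      omega)
    exact_mod_cast this
  have hs := size_cherry_node P
  rw [hP] at hs
  have hp : 6 ≤ psi (.node cherry P) 2 := by
    rw [psi, hs]
    push_cast
    linarith
  have hd : dd (.node cherry P) 2 = 4 := by
    rw [dd, hs]
    norm_num
  exact ⟨2, ⟨h1, by linarith⟩, Or.inr (Or.inl ⟨P, by omega, Iso.refl _,
    by rw [hd], hp, fun _ => ⟨0, 0, .base (iso_cat3 hP), by norm_num⟩,
    fun _ h => by exfalso; linarith⟩)⟩

lemma F1_cherry_node {P : BTree} (hP : 3 ≤ P.size) : F1 (.node cherry P) ≤ F1 P + 1 := by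
  rw [F1_node le_rfl (by omega) (not_iso_cherry hP)]
  have h5 := F1_cherry
  linarith

lemma step_CL {P : BTree} {x : ℤ} (hg : Good P x) (h : TL P x) : Hyp (.node cherry P) := by
  obtain ⟨Q, h1, h2, h3, h4, h5, h6, h7⟩ := h
  have hsz : 4 ≤ P.size := by
    rw [size_iso h2]
    show 4 ≤ 1 + Q.size
    omega
  have hf1 := F1_cherry_node (P := P) (by omega)
  have hf2 : F2 (.node cherry P) ≤ F2 P + F1 P := by
    have e : F2 (.node cherry P) = F2 (.node (.node .leaf Q) cherry) := by
      rw [F2, F2, fam_iso (Iso.swap (Iso.refl cherry) h2)]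
    have e' : F2 P = F2 (.node .leaf Q) := by rw [F2, F2, fam_iso h2]
    have e'' : F1 P = F1 (.node .leaf Q) := by rw [F1, F1, fam_iso h2]
    rw [e, e', e'', F2, F2, F1]
    exact_mod_cast two_cherry_leaf Q
  have hs := size_cherry_node P
  have g1 := hg.1
  have g2 := hg.2
  have hp : psi P x + 1 ≤ psi (.node cherry P) (x + 1) := by
    rw [psi, psi, hs]
    linarith
  have hd : dd (.node cherry P) (x + 1) = dd P x + 1 := by
    rw [dd, dd, hs]
    ring
  refine ⟨x + 1, ⟨by linarith, by linarith⟩, Or.inr (Or.inl ⟨P, by omega, Iso.refl _,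
    by rw [hd]; linarith, by linarith, fun h => ?_, fun h h' => ?_⟩)⟩
  · obtain ⟨a, b, h8, h9⟩ := h5 (by linarith)
    exact ⟨a, b, h8, by linarith⟩
  · left
    rcases eq_or_ne (psi P x) 6 with h8 | h8
    · exact h6 h8 (by linarith)
    · have h9 : psi P x = 5 := by
        have : psi P x ≤ 6 := by linarith
        omega
      obtain ⟨a, b, h10, h11⟩ := h5 h9
      have h12 := h10.size
      rw [hd, dd, h12, h11] at h'
      push_cast at h'
      omega

lemma step_CC {P : BTree} {x : ℤ} (hg : Good P x) (h : TC P x) : Hyp (.node cherry P) := by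
  obtain ⟨Q, h1, h2, h3, h4, h5, h6⟩ := h
  have hsz : 4 ≤ P.size := by
    rw [size_iso h2]
    show 4 ≤ 2 + Q.size
    omega
  have hf1 := F1_cherry_node (P := P) (by omega)
  have hf2 : F2 (.node cherry P) ≤ F2 P + F1 P := by
    have e : F2 (.node cherry P) = F2 (.node (.node cherry Q) cherry) := by
      rw [F2, F2, fam_iso (Iso.swap (Iso.refl cherry) h2)]
    have e' : F2 P = F2 (.node cherry Q) := by rw [F2, F2, fam_iso h2]
    have e'' : F1 P = F1 (.node cherry Q) := by rw [F1, F1, fam_iso h2]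
    rw [e, e', e'', F2, F2, F1]
    exact_mod_cast two_cherry_cherry Q
  have hs := size_cherry_node P
  have g1 := hg.1
  have g2 := hg.2
  have hp : psi P x + 1 ≤ psi (.node cherry P) (x + 1) := by
    rw [psi, psi, hs]
    linarith
  have hd : dd (.node cherry P) (x + 1) = dd P x + 1 := by
    rw [dd, dd, hs]
    ring
  refine ⟨x + 1, ⟨by linarith, by linarith⟩, Or.inr (Or.inl ⟨P, by omega, Iso.refl _,
    by rw [hd]; linarith, by linarith, fun h => by exfalso; linarith, fun h h' => ?_⟩)⟩
  left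
  have h8 : psi P x = 6 := by
    have : psi P x ≤ 6 := by linarith
    omega
  obtain ⟨a, b, h10, h11⟩ := h5 h8
  have h12 := h10.size
  have h13 : P.size = 2 + Q.size := by rw [size_iso h2]; rfl
  rw [hd, dd, h13, h12, h11] at h'
  push_cast at h'
  have hb : b = 0 := by omega
  exact .cher (h2.trans (Iso.node (Iso.refl _) (h10.zero hb)))

lemma step_CB {P : BTree} {x : ℤ} (hg : Good P x) (h : TB P x) : Hyp (.node cherry P) := by
  obtain ⟨X, Y, h1, h2, h3, h4, h5, h6⟩ := h
  have hsz : 4 ≤ P.size := by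
    rw [size_iso h3]
    show 4 ≤ X.size + Y.size
    omega
  have hf1 := F1_cherry_node (P := P) (by omega)
  have hf2 : F2 (.node cherry P) ≤ F2 P + F1 P + 1 := by
    rw [F2, F2, F1, fam_swap]
    exact_mod_cast two_cherry P
  have hs := size_cherry_node P
  have g1 := hg.1
  have g2 := hg.2
  have hp : psi P x - 1 ≤ psi (.node cherry P) (x + 1) := by
    rw [psi, psi, hs]
    linarith
  have hd : dd (.node cherry P) (x + 1) = dd P x + 1 := by
    rw [dd, dd, hs]
    ring
  exact ⟨x + 1, ⟨by linarith, by linarith⟩, Or.inr (Or.inl ⟨P, by omega, Iso.refl _,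
    by rw [hd]; linarith, by linarith, fun h => by exfalso; linarith,
    fun h h' => by exfalso; linarith⟩)⟩

/-! ### two large children -/

lemma low_of {P : BTree} {x : ℤ} (h : TL P x ∨ TC P x ∨ TB P x) : 3 ≤ dd P x ∧ 5 ≤ psi P x ∧
    (psi P x = 5 → ∃ a b : ℕ, Alt2 a b P ∧ x = 2 * (a + b) + 1) := by
  rcases h with h | h | h
  · obtain ⟨Q, h1, h2, h3, h4, h5, h6, h7⟩ := h
    exact ⟨h3, h4, h5⟩
  · obtain ⟨Q, h1, h2, h3, h4, h5, h6⟩ := h
    exact ⟨by linarith, by linarith, fun h => by exfalso; linarith⟩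
  · obtain ⟨X, Y, h1, h2, h3, h4, h5, h6⟩ := h
    exact ⟨by linarith, by linarith, fun h => by exfalso; linarith⟩

lemma size_node_cast (X Y : BTree) : ((BTree.node X Y).size : ℤ) = X.size + Y.size := by
  have : (BTree.node X Y).size = X.size + Y.size := rfl
  rw [this]
  push_cast
  ring

lemma F1_three {X : BTree} (hX : X.size = 3) : F1 X ≤ 1 := by
  have h3 : (fam X 1).card ≤ 1 := small_fam (by omega)
  exact_mod_cast h3

lemma F2_three {X : BTree} (hX : X.size = 3) : F2 X ≤ 1 := by
  have h3 : (fam X 2).card ≤ 1 := small_fam (by omega)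
  exact_mod_cast h3

lemma F1_nonneg (X : BTree) : 0 ≤ F1 X := Int.natCast_nonneg _

lemma F2_node (X Y : BTree) : F2 (.node X Y) ≤ F2 X + F2 Y + F1 X * F1 Y := by
  rw [F2, F2, F2, F1, F1]
  exact_mod_cast two_node X Y

lemma F2_same {X Y : BTree} (h : Iso X Y) :
    2 * F2 (.node X Y) ≤ 2 * F2 X + F1 X * F1 X + F1 X := by
  rw [F2, F2, F1]
  exact_mod_cast two_same h

lemma step_33 {X Y : BTree} (hX : X.size = 3) (hY : Y.size = 3) : Hyp (.node X Y) := by
  have hiso : Iso X Y := (iso_cat3 hX).trans (iso_cat3 hY).symm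
  have h0 := F1_nonneg X
  have h1 := F1_three hX
  have h2 := F2_three hX
  have h3 : F1 (.node X Y) = F1 X := F1_same (by omega) (by omega) hiso
  have h4 := F2_same hiso
  have h5 : F1 X * F1 X ≤ 1 := by nlinarith
  have hs := size_node_cast X Y
  rw [hX, hY] at hs
  have hp : 8 ≤ psi (.node X Y) 2 := by
    rw [psi, hs]
    push_cast
    linarith
  have hd : dd (.node X Y) 2 = 6 := by
    rw [dd, hs]
    norm_num
  exact ⟨2, ⟨by linarith, by linarith⟩, Or.inr (Or.inr ⟨X, Y, by omega, by omega, Iso.refl _,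
    by rw [hd], hp, fun _ => Or.inl (by linarith)⟩)⟩

lemma step_3P {X P : BTree} {x : ℤ} (hX : X.size = 3) (hP : 4 ≤ P.size) (hg : Good P x)
    (h : TL P x ∨ TC P x ∨ TB P x) : Hyp (.node X P) := by
  obtain ⟨h3, h4, h5⟩ := low_of h
  have hiso : ¬ Iso X P := fun hi => by
    have := size_iso hi
    omega
  have q0 := F1_nonneg X
  have q1 := F1_three hX
  have q2 := F2_three hX
  have q3 : F1 (.node X P) = F1 X + F1 P := F1_node (by omega) (by omega) hiso
  have q4 := F2_node X P
  have q5 := F1_nonneg P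
  have q6 : F1 X * F1 P ≤ F1 P := by nlinarith
  have g1 := hg.1
  have g2 := hg.2
  have hs := size_node_cast X P
  rw [hX] at hs
  have hp : psi P x + 3 + 2 * (x - F1 P) ≤ psi (.node X P) (x + 1) := by
    rw [psi, psi, hs]
    push_cast
    linarith
  have hd : dd (.node X P) (x + 1) = dd P x + 3 := by
    rw [dd, dd, hs]
    push_cast
    ring
  refine ⟨x + 1, ⟨by linarith, by linarith⟩, Or.inr (Or.inr ⟨X, P, by omega, by omega,
    Iso.refl _, by rw [hd]; linarith, by linarith, fun h => Or.inr ?_⟩)⟩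
  obtain ⟨a, b, h8, h9⟩ := h5 (by linarith)
  have h10 := h8.size
  exact ⟨P, a, b, Iso.node (iso_cat3 hX) (Iso.refl _), h8, by omega, by linarith⟩

lemma step_PQ {P Q : BTree} {x y : ℤ} (hP : 4 ≤ P.size) (hQ : 4 ≤ Q.size) (hgx : Good P x)
    (hgy : Good Q y) (hx : TL P x ∨ TC P x ∨ TB P x) (hy : TL Q y ∨ TC Q y ∨ TB Q y)
    (hiso : ¬ Iso P Q) : Hyp (.node P Q) := by
  obtain ⟨h3, h4, h5⟩ := low_of hx
  obtain ⟨k3, k4, k5⟩ := low_of hy
  have q3 : F1 (.node P Q) = F1 P + F1 Q := F1_node (by omega) (by omega) hiso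
  have q4 := F2_node P Q
  have q5 := F1_nonneg P
  have q6 := F1_nonneg Q
  have g1 := hgx.1
  have g2 := hgx.2
  have g3 := hgy.1
  have g4 := hgy.2
  have q7 : F1 P * F1 Q ≤ x * y := mul_le_mul g1 g3 q6 (by linarith)
  have hs := size_node_cast P Q
  have hp : psi P x + psi Q y ≤ psi (.node P Q) (x + y) := by
    rw [psi, psi, psi, hs]
    linarith
  have hd : dd (.node P Q) (x + y) = dd P x + dd Q y := by
    rw [dd, dd, dd, hs]
    ring
  exact ⟨x + y, ⟨by linarith, by linarith⟩, Or.inr (Or.inr ⟨P, Q, by omega, by omega,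
    Iso.refl _, by rw [hd]; linarith, by linarith, fun h => by exfalso; linarith⟩)⟩

lemma step_PP {P Q : BTree} {x : ℤ} (hP : 4 ≤ P.size) (hg : Good P x)
    (h : TL P x ∨ TC P x ∨ TB P x) (hiso : Iso P Q) : Hyp (.node P Q) := by
  obtain ⟨h3, h4, h5⟩ := low_of h
  have hQ := size_iso hiso
  have q3 : F1 (.node P Q) = F1 P := F1_same (by omega) (by omega) hiso
  have q4 := F2_same hiso
  have q5 := F1_nonneg P
  have g1 := hg.1
  have g2 := hg.2
  have q7 : F1 P * F1 P ≤ x * x := mul_le_mul g1 g1 q5 (by linarith)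
  have hs := size_node_cast P Q
  rw [← hQ] at hs
  have hx0 : 0 ≤ x := by linarith
  have hx2 : x ≤ x ^ 2 := by
    rcases eq_or_lt_of_le hx0 with h0 | h0
    · rw [← h0]
      norm_num
    · nlinarith
  rw [dd] at h3
  have hp : psi P x + 5 ≤ psi (.node P Q) (2 * x) := by
    rw [psi, psi, hs]
    nlinarith [sq_nonneg (x - 1)]
  have hd : dd (.node P Q) (2 * x) = 2 * (2 * (P.size : ℤ) - 3 * x) := by
    rw [dd, hs]
    ring
  exact ⟨2 * x, ⟨by linarith, by nlinarith⟩, Or.inr (Or.inr ⟨P, Q, by omega, by omega,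
    Iso.refl _, by rw [hd]; linarith, by linarith, fun h => by exfalso; linarith⟩)⟩

/-! ### the induction -/

lemma hyp_all (n : ℕ) : ∀ T : BTree, T.size = n → 4 ≤ n → Hyp T := by
  induction n using Nat.strong_induction_on with
  | _ n ih =>
    -- the case in which the left child is not larger than the right one
    have main : ∀ l r : BTree, (BTree.node l r).size = n → 4 ≤ n → l.size ≤ r.size →
        Hyp (.node l r) := by
      intro l r hn h4 hlr
      have hs : l.size + r.size = n := hn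
      have hl1 := size_pos l
      rcases Nat.lt_or_ge l.size 2 with hl | hl
      · rw [eq_leaf_of_size hl]
        rcases Nat.lt_or_ge r.size 4 with hr | hr
        · exact step_L0 (by omega)
        · obtain ⟨x, hg, h⟩ := ih r.size (by omega) r rfl hr
          rcases h with h | h | h
          · exact step_LL hg h
          · exact step_LC hg h
          · exact step_LB hg h
      · rcases Nat.lt_or_ge l.size 3 with hl3 | hl3
        · rw [eq_cherry (T := l) (by omega)]
          rcases Nat.lt_or_ge r.size 4 with hr | hr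
          · rcases (by omega : r.size = 2 ∨ r.size = 3) with hr2 | hr2
            · exact step_C2 hr2
            · exact step_C3 hr2
          · obtain ⟨x, hg, h⟩ := ih r.size (by omega) r rfl hr
            rcases h with h | h | h
            · exact step_CL hg h
            · exact step_CC hg h
            · exact step_CB hg h
        · rcases Nat.lt_or_ge r.size 4 with hr | hr
          · exact step_33 (by omega) (by omega)
          · obtain ⟨x, hg, h⟩ := ih r.size (by omega) r rfl hr
            rcases Nat.lt_or_ge l.size 4 with hl4 | hl4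
            · exact step_3P (by omega) hr hg h
            · obtain ⟨y, hgy, hy⟩ := ih l.size (by omega) l rfl hl4
              by_cases hiso : Iso l r
              · exact step_PP hl4 hgy hy hiso
              · exact step_PQ hl4 hr hgy hg hy h hiso
    intro T hn h4
    cases T with
    | leaf =>
      have : (BTree.leaf).size = 1 := rfl
      omega
    | node l r =>
      rcases Nat.le_total l.size r.size with h | h
      · exact main l r hn h4 h
      · refine (main r l ?_ h4 h).iso (Iso.swap (Iso.refl _) (Iso.refl _))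
        rw [← hn]
        exact Nat.add_comm _ _

theorem hyp (T : BTree) (h : 4 ≤ T.size) : Hyp T := hyp_all T.size T rfl h

end LeafDeck
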