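import Pool.Agent.LeafDeck.TwoLower
import Pool.Agent.LeafDeck.TwoMain

/-!
The exact solution for few deleted leaves: definitions.
-/

set_option autoImplicit false

namespace LeafDeck

open Finset BTree PowerSeries

/-- `1 + 2 z` -/
noncomputable def tt : PowerSeries ℕ := 1 + 2 * PowerSeries.X

/-- `1 + z ^ 2 + z ^ 3 + …` -/
noncomputable def ww : PowerSeries ℕ := PowerSeries.mk fun d => if d = 1 then 0 else 1

/-- the class has two children with at least three leaves -/
def isB (o : Option TreeClass) : Prop :=
  ∃ x y : TreeClass, 3 ≤ csize x ∧ 3 ≤ csize y ∧ o = some (nodeQ x y)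

open scoped Classical in
/-- the members with two children with at least three leaves -/
noncomputable def bam (T : BTree) (d : ℕ) : Finset (Option TreeClass) := (fam T d).filter isB

/-- the generating function of `bam` -/
noncomputable def bb (T : BTree) : PowerSeries ℕ := PowerSeries.mk fun d => (bam T d).card

/-- the exact number of members of the deck: the coefficient of `z ^ d` in
`∑ j, z ^ (3 j) (1 + 2 z) ^ (N - j) (1 + z) ^ b` -/
def val (b N d : ℕ) : ℕ := ∑ j ∈ range (d / 3 + 1), ∑ i ∈ range (b + 1),
  if 3 * j + i ≤ d then b.choose i * 2 ^ (d - 3 * j - i) * (N - j).choose (d - 3 * j - i) else 0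

end LeafDeck
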