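import Pool.Agent.LeafDeck.Upper

/-!
Decks near the diagonal: the lower bound. In a caterpillar with pendant subtrees
leaf, cherry, leaf, cherry, .. every block (leaf, cherry) may be kept or shortened by one leaf in
two ways, and the results are decoded by reading the pendant sizes `12, 11, 2` block by block.
-/

set_option autoImplicit false

namespace LeafDeck

open Finset BTree

/-- the sizes of the smaller subtrees along the path of larger subtrees -/
def spine : BTree → List ℕ
  | .leaf => []
  | .node l r => if l.size < r.size then l.size :: spine r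
      else if r.size < l.size then r.size :: spine l else [l.size, r.size]

lemma size_iso {a b : BTree} (h : Iso a b) : a.size = b.size := by
  induction h with
  | leaf => rfl
  | node _ _ h1 h2 =>
    simp only [BTree.size]
    omega
  | swap _ _ h1 h2 =>
    simp only [BTree.size]
    omega

lemma spine_iso {a b : BTree} (h : Iso a b) : spine a = spine b := by
  induction h with
  | leaf => rfl
  | node k1 k2 h1 h2 =>
    have e1 := size_iso k1
    have e2 := size_iso k2
    simp only [spine]
    rw [e1, e2, h1, h2]
  | @swap a b a' b' k1 k2 h1 h2 =>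
    have e1 := size_iso k1
    have e2 := size_iso k2
    simp only [spine]
    rw [e1, e2, h1, h2]
    rcases lt_trichotomy a'.size b'.size with h | h | h
    · rw [if_pos h, if_neg (by omega), if_pos h]
    · rw [if_neg (by omega), if_neg (by omega), if_neg (by omega), if_neg (by omega), h]
    · rw [if_neg (by omega), if_pos h, if_pos h]

/-- the spine of a class -/
def spineQ : TreeClass → List ℕ := Quotient.lift spine (fun _ _ h => spine_iso h)

lemma size_base (r : ℕ) : (base r).size = 4 + r := by
  induction r with
  | zero => rfl
  | succ r ih =>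
    show 1 + (base r).size = _
    omega

lemma size_comb (r m : ℕ) : (comb r m).size = 3 * m + 4 + r := by
  induction m with
  | zero =>
    show (base r).size = _
    rw [size_base, mul_zero, zero_add]
  | succ m ih =>
    show 1 + (2 + (comb r m).size) = _
    omega

/-- the spines of the results -/
def words (r : ℕ) : ℕ → ℕ → Finset (List ℕ)
  | 0, 0 => {spine (base r)}
  | 0, _ + 1 => ∅
  | m + 1, 0 => (words r m 0).image (fun L => 1 :: 2 :: L)
  | m + 1, d + 1 => (words r m (d + 1)).image (fun L => 1 :: 2 :: L) ∪
      ((words r m d).image (fun L => 1 :: 1 :: L) ∪ (words r m d).image (fun L => 2 :: L))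

lemma card_words (r m : ℕ) : ∀ d, (words r m d).card = 2 ^ d * m.choose d := by
  induction m with
  | zero =>
    intro d
    cases d with
    | zero => rfl
    | succ d => simp [words]
  | succ m ih =>
    intro d
    cases d with
    | zero =>
      simp only [words]
      rw [card_image_of_injective _ (fun a b h => by simpa using h), ih]
      simp
    | succ d =>
      simp only [words]
      rw [card_union_of_disjoint, card_union_of_disjoint,
        card_image_of_injective _ (fun a b h => by simpa using h),
        card_image_of_injective _ (fun a b h => by simpa using h),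
        card_image_of_injective _ (fun a b h => by simpa using h), ih, ih,
        Nat.choose_succ_succ]
      · ring
      · rw [disjoint_left]
        intro L h1 h2
        rw [mem_image] at h1 h2
        obtain ⟨L1, -, rfl⟩ := h1
        obtain ⟨L2, -, h⟩ := h2
        simp at h
      · rw [disjoint_left]
        intro L h1 h2
        rw [mem_union, mem_image, mem_image] at h2
        rw [mem_image] at h1
        obtain ⟨L1, -, rfl⟩ := h1
        rcases h2 with ⟨L2, -, h⟩ | ⟨L2, -, h⟩ <;> simp at h

lemma mem_leaf_zero : some leafQ ∈ del .leaf 0 := by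
  rw [del_leaf]
  exact Or.inl ⟨none, ⟨rfl, rfl⟩, rfl⟩

lemma mem_leaf_one : none ∈ del .leaf 1 := by
  rw [del_leaf]
  exact Or.inr ⟨0, rfl, rfl, rfl⟩

lemma mem_self (T : BTree) : some ⟦T⟧ ∈ del T 0 := by
  induction T with
  | leaf => exact mem_leaf_zero
  | node l r ihl ihr =>
    rw [del_node]
    exact ⟨0, 0, rfl, _, ihl, _, ihr, rfl⟩

lemma mem_cherry_one : some leafQ ∈ del cherry 1 := by
  rw [cherry, del_node]
  exact ⟨0, 1, rfl, _, mem_leaf_zero, _, mem_leaf_one, rfl⟩

lemma comb_words (r m : ℕ) : ∀ d, ∀ L ∈ words r m d, ∃ U : BTree,
    4 ≤ U.size ∧ spine U = L ∧ some ⟦U⟧ ∈ del (comb r m) d := by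
  induction m with
  | zero =>
    intro d L hL
    cases d with
    | zero =>
      simp only [words, mem_singleton] at hL
      refine ⟨base r, ?_, hL.symm, mem_self _⟩
      rw [size_base]
      omega
    | succ d => simp [words] at hL
  | succ m ih =>
    have hdel : del (comb r (m + 1)) = prodF (del .leaf) (prodF (del cherry) (del (comb r m))) := by
      rw [comb, del_node, del_node]
    have keep : ∀ d, ∀ L ∈ words r m d, ∃ U : BTree, 4 ≤ U.size ∧ spine U = 1 :: 2 :: L ∧
        some ⟦U⟧ ∈ del (comb r (m + 1)) d := by
      intro d L hL
      obtain ⟨U, hU, rfl, hm⟩ := ih d L hL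
      refine ⟨.node .leaf (.node cherry U), ?_, ?_, ?_⟩
      · show 4 ≤ 1 + (2 + U.size)
        omega
      · have h1 : (BTree.leaf).size < (BTree.node cherry U).size := by
          show 1 < 2 + U.size
          omega
        have h2 : cherry.size < U.size := by
          show 2 < U.size
          omega
        rw [spine, if_pos h1, spine, if_pos h2]
        rfl
      · rw [hdel]
        exact ⟨0, d, by omega, _, mem_leaf_zero, _, ⟨0, d, by omega, _, mem_self cherry, _, hm,
          rfl⟩, rfl⟩
    have cut1 : ∀ d, ∀ L ∈ words r m d, ∃ U : BTree, 4 ≤ U.size ∧ spine U = 1 :: 1 :: L ∧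
        some ⟦U⟧ ∈ del (comb r (m + 1)) (d + 1) := by
      intro d L hL
      obtain ⟨U, hU, rfl, hm⟩ := ih d L hL
      refine ⟨.node .leaf (.node .leaf U), ?_, ?_, ?_⟩
      · show 4 ≤ 1 + (1 + U.size)
        omega
      · have h1 : (BTree.leaf).size < (BTree.node .leaf U).size := by
          show 1 < 1 + U.size
          omega
        have h2 : (BTree.leaf).size < U.size := by
          show 1 < U.size
          omega
        rw [spine, if_pos h1, spine, if_pos h2]
        rfl
      · rw [hdel]
        exact ⟨0, d + 1, by omega, _, mem_leaf_zero, _, ⟨1, d, by omega, _, mem_cherry_one, _, hm,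
          rfl⟩, rfl⟩
    have cut2 : ∀ d, ∀ L ∈ words r m d, ∃ U : BTree, 4 ≤ U.size ∧ spine U = 2 :: L ∧
        some ⟦U⟧ ∈ del (comb r (m + 1)) (d + 1) := by
      intro d L hL
      obtain ⟨U, hU, rfl, hm⟩ := ih d L hL
      refine ⟨.node cherry U, ?_, ?_, ?_⟩
      · show 4 ≤ 2 + U.size
        omega
      · have h2 : cherry.size < U.size := by
          show 2 < U.size
          omega
        rw [spine, if_pos h2]
        rfl
      · rw [hdel]
        exact ⟨1, d, by omega, _, mem_leaf_one, _, ⟨0, d, by omega, _, mem_self cherry, _, hm,
          rfl⟩, rfl⟩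
    intro d L hL
    cases d with
    | zero =>
      simp only [words, mem_image] at hL
      obtain ⟨L', hL', rfl⟩ := hL
      exact keep 0 L' hL'
    | succ d =>
      simp only [words, mem_union, mem_image] at hL
      rcases hL with ⟨L', hL', rfl⟩ | ⟨L', hL', rfl⟩ | ⟨L', hL', rfl⟩
      · exact keep _ L' hL'
      · exact cut1 _ L' hL'
      · exact cut2 _ L' hL'

/-- the alternating caterpillar has many classes of deletions of `d` leaves -/
theorem deck_lower (r m d : ℕ) (hd : d < (comb r m).size) :
    2 ^ d * m.choose d ≤ (deck (comb r m) ((comb r m).size - d)).ncard := by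
  have hfin := (deck_upper (comb r m) hd).1
  rw [← card_words r m d, ← Set.ncard_coe_finset]
  have hsub : ((words r m d : Finset (List ℕ)) : Set (List ℕ)) ⊆
      spineQ '' (deck (comb r m) ((comb r m).size - d)) := by
    intro L hL
    obtain ⟨U, -, hU, S, hS, hSU⟩ := comb_words r m d L hL
    refine ⟨⟦U⟧, ⟨S, by omega, ?_⟩, hU⟩
    cases hres : (comb r m).restrict S with
    | none =>
      rw [hres] at hSU
      cases hSU
    | some V =>
      rw [hres] at hSU
      exact ⟨V, rfl, Option.some_injective _ hSU⟩
  exact (Set.ncard_le_ncard hsub (hfin.image _)).trans (Set.ncard_image_le hfin)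

end LeafDeck
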