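import Pool.Agent.LeafDeck.Lower

/-!
Decks near the diagonal: the bounds for the largest decks and the asymptotic formula.
-/

set_option autoImplicit false

namespace LeafDeck

open Finset BTree Filter

lemma size_altCat {n : ℕ} (hn : 4 ≤ n) : (altCat n).size = n := by
  rw [altCat, size_comb]
  omega

lemma altCat_lower {n d : ℕ} (hn : 4 ≤ n) (hd : d < n) :
    2 ^ d * ((n - 4) / 3).choose d ≤ (deck (altCat n) (n - d)).ncard := by
  have hs := size_altCat hn
  have h := deck_lower ((n - 4) % 3) ((n - 4) / 3) d (by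
    rw [← altCat, hs]
    exact hd)
  rw [← altCat, hs] at h
  exact h

lemma maxDeck_bdd {n d : ℕ} (hd : d < n) :
    BddAbove {k | ∃ T : BTree, T.size = n ∧ (deck T (n - d)).ncard = k} := by
  refine ⟨Nat.multichoose ((2 * n - 1) / 3) d, ?_⟩
  rintro k ⟨T, rfl, rfl⟩
  exact (deck_upper T hd).2

lemma deck_le_maxDeck {T : BTree} {n d : ℕ} (hT : T.size = n) (hd : d < n) :
    (deck T (n - d)).ncard ≤ maxDeck n (n - d) :=
  le_csSup (maxDeck_bdd hd) ⟨T, hT, rfl⟩

lemma maxDeck_upper {n d : ℕ} (hn : 4 ≤ n) (hd : d < n) :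
    maxDeck n (n - d) ≤ ((2 * n - 1) / 3 + d - 1).choose d := by
  rw [← Nat.multichoose_eq]
  refine csSup_le ⟨_, altCat n, size_altCat hn, rfl⟩ ?_
  rintro k ⟨T, rfl, rfl⟩
  exact (deck_upper T hd).2

lemma upper_real {n d : ℕ} (hn : 4 ≤ n) (hd : d < n) :
    (maxDeck n (n - d) : ℝ) / ((2 * n / 3) ^ d / d.factorial) ≤
      Real.exp (3 / 2 * ((d : ℝ) ^ 2 / n)) := by
  have hn0 : (0 : ℝ) < n := by
    have : 0 < n := by omega
    exact_mod_cast this
  have hx : (0 : ℝ) < 2 * n / 3 := by positivity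
  have hf : (0 : ℝ) < d.factorial := by exact_mod_cast Nat.factorial_pos d
  rw [div_le_iff₀ (by positivity)]
  have h1 : (maxDeck n (n - d) : ℝ) ≤ (((2 * n - 1) / 3 + d - 1).choose d : ℕ) := by
    exact_mod_cast maxDeck_upper hn hd
  have h2 := Nat.choose_le_pow_div (α := ℝ) d ((2 * n - 1) / 3 + d - 1)
  have h3 : (((2 * n - 1) / 3 + d - 1 : ℕ) : ℝ) ≤ 2 * n / 3 + d := by
    have h4 : ((2 * n - 1) / 3 + d - 1) * 3 ≤ 2 * n + 3 * d := by omega
    have h5 : ((((2 * n - 1) / 3 + d - 1 : ℕ) : ℝ)) * 3 ≤ 2 * n + 3 * d := by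
      exact_mod_cast h4
    linarith
  have h6 : (2 * (n : ℝ) / 3 + d) = (2 * n / 3) * (1 + 3 / 2 * (d / n)) := by
    field_simp
  have h7 : (1 + 3 / 2 * ((d : ℝ) / n)) ^ d ≤ Real.exp (3 / 2 * ((d : ℝ) ^ 2 / n)) := by
    have h8 : (1 + 3 / 2 * ((d : ℝ) / n)) ≤ Real.exp (3 / 2 * ((d : ℝ) / n)) := by
      have := Real.add_one_le_exp (3 / 2 * ((d : ℝ) / n))
      linarith
    have h9 : (0 : ℝ) ≤ 1 + 3 / 2 * ((d : ℝ) / n) := by positivity
    refine (pow_le_pow_left₀ h9 h8 d).trans (le_of_eq ?_)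
    rw [← Real.exp_nat_mul]
    congr 1
    ring
  calc (maxDeck n (n - d) : ℝ) ≤ (((2 * n - 1) / 3 + d - 1 : ℕ) : ℝ) ^ d / d.factorial :=
        h1.trans h2
    _ ≤ (2 * (n : ℝ) / 3 + d) ^ d / d.factorial := by
        gcongr
    _ = (1 + 3 / 2 * ((d : ℝ) / n)) ^ d * ((2 * n / 3) ^ d / d.factorial) := by
        rw [h6, mul_pow]
        ring
    _ ≤ _ := by
        gcongr

lemma lower_core {n d : ℕ} (hn : 4 ≤ n) (hd : d < n) (hb : (3 * d + 3 : ℝ) ≤ n) :
    (1 + -((3 + 3 * (d : ℝ)) / n)) ^ d ≤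
      ((deck (altCat n) (n - d)).ncard : ℝ) / ((2 * n / 3) ^ d / d.factorial) := by
  have hn0 : (0 : ℝ) < n := by
    have : 0 < n := by omega
    exact_mod_cast this
  have hx : (0 : ℝ) < 2 * n / 3 := by positivity
  have hf : (0 : ℝ) < d.factorial := by exact_mod_cast Nat.factorial_pos d
  have h1 : ((2 ^ d * ((n - 4) / 3).choose d : ℕ) : ℝ) ≤
      ((deck (altCat n) (n - d)).ncard : ℝ) := by
    exact_mod_cast altCat_lower hn hd
  have h2 := Nat.pow_le_choose (α := ℝ) d ((n - 4) / 3)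
  have h3 : ((n : ℝ) - 3 - 3 * d) / 3 ≤ (((n - 4) / 3 + 1 - d : ℕ) : ℝ) := by
    have h4 : n ≤ ((n - 4) / 3 + 1 - d) * 3 + 3 + 3 * d := by omega
    have h5 : (n : ℝ) ≤ (((n - 4) / 3 + 1 - d : ℕ) : ℝ) * 3 + 3 + 3 * d := by
      exact_mod_cast h4
    linarith
  have h6 : (0 : ℝ) ≤ ((n : ℝ) - 3 - 3 * d) / 3 := by
    have : (0 : ℝ) ≤ (n : ℝ) - 3 - 3 * d := by linarith
    positivity
  rw [le_div_iff₀ (by positivity)]
  have h10 : (1 + -((3 + 3 * (d : ℝ)) / n)) ^ d * ((2 * n / 3) ^ d) =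
      2 ^ d * (((n : ℝ) - 3 - 3 * d) / 3) ^ d := by
    rw [← mul_pow, ← mul_pow]
    congr 1
    field_simp
    ring
  calc (1 + -((3 + 3 * (d : ℝ)) / n)) ^ d * ((2 * n / 3) ^ d / d.factorial)
      = 2 ^ d * ((((n : ℝ) - 3 - 3 * d) / 3) ^ d / d.factorial) := by
        rw [mul_div_assoc', h10]
        ring
    _ ≤ 2 ^ d * ((((n - 4) / 3 + 1 - d : ℕ) : ℝ) ^ d / d.factorial) := by
        gcongr
    _ ≤ 2 ^ d * (((n - 4) / 3).choose d : ℝ) := by
        gcongr
    _ ≤ _ := by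
        push_cast at h1
        exact h1

lemma one_le_ratio {n : ℕ} (hn : 4 ≤ n) : (1 : ℝ) ≤
    ((deck (altCat n) (n - 0)).ncard : ℝ) / ((2 * n / 3) ^ 0 / (Nat.factorial 0)) := by
  have h1 := altCat_lower hn (d := 0) (by omega)
  have h2 : (1 : ℝ) ≤ ((deck (altCat n) (n - 0)).ncard : ℝ) := by
    have : 1 ≤ (deck (altCat n) (n - 0)).ncard := by simpa using h1
    exact_mod_cast this
  simpa using h2

lemma lower_real {n d : ℕ} (hn : 4 ≤ n) (hd : d < n) :
    1 - 6 * ((d : ℝ) ^ 2 / n) ≤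
      ((deck (altCat n) (n - d)).ncard : ℝ) / ((2 * n / 3) ^ d / d.factorial) := by
  have hn0 : (0 : ℝ) < n := by
    have : 0 < n := by omega
    exact_mod_cast this
  have hnn : (0 : ℝ) ≤
      ((deck (altCat n) (n - d)).ncard : ℝ) / ((2 * n / 3) ^ d / d.factorial) := by positivity
  rcases Nat.eq_zero_or_pos d with h0 | h0
  · subst h0
    refine le_trans ?_ (one_le_ratio hn)
    simp
  have hd1 : (1 : ℝ) ≤ d := by exact_mod_cast h0
  by_cases hb : (3 * d + 3 : ℝ) ≤ n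
  · refine le_trans ?_ (lower_core hn hd hb)
    have h8 : (-2 : ℝ) ≤ -((3 + 3 * d) / n) := by
      have : ((3 + 3 * d) / n : ℝ) ≤ 1 := by
        rw [div_le_one hn0]
        linarith
      linarith
    refine le_trans ?_ (one_add_mul_le_pow h8 d)
    have h9 : (d : ℝ) * ((3 + 3 * d) / n) ≤ 6 * ((d : ℝ) ^ 2 / n) := by
      rw [mul_div_assoc', mul_div_assoc']
      have h9' : (d : ℝ) * (3 + 3 * d) ≤ 6 * (d : ℝ) ^ 2 := by nlinarith
      exact div_le_div_of_nonneg_right h9' hn0.le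
    linarith
  · refine le_trans ?_ hnn
    have h1 : (n : ℝ) < 3 * d + 3 := not_le.1 hb
    have h2 : 1 ≤ 6 * ((d : ℝ) ^ 2 / n) := by
      rw [mul_div_assoc', le_div_iff₀ hn0]
      nlinarith
    linarith

lemma lower_exp {n d : ℕ} (hn : 4 ≤ n) (hd : 12 * d ≤ n) :
    Real.exp (-(12 * ((d : ℝ) ^ 2 / n))) ≤
      ((deck (altCat n) (n - d)).ncard : ℝ) / ((2 * n / 3) ^ d / d.factorial) := by
  have hn0 : (0 : ℝ) < n := by
    have : 0 < n := by omega
    exact_mod_cast this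
  rcases Nat.eq_zero_or_pos d with h0 | h0
  · subst h0
    refine le_trans ?_ (one_le_ratio hn)
    simp
  have hd1 : (1 : ℝ) ≤ d := by exact_mod_cast h0
  have hd' : 12 * (d : ℝ) ≤ n := by exact_mod_cast hd
  refine le_trans ?_ (lower_core hn (by omega) (by linarith))
  set y : ℝ := (3 + 3 * d) / n with hy
  have hy0 : 0 ≤ y := by positivity
  have hy1 : y ≤ 1 / 2 := by
    rw [hy, div_le_iff₀ hn0]
    linarith
  have h1 : Real.exp (-(2 * y)) ≤ 1 + -y := by
    have h2 := Real.add_one_le_exp (2 * y)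
    have h3 : 0 < 1 + -y := by linarith
    rw [Real.exp_neg, inv_le_comm₀ (Real.exp_pos _) h3]
    refine le_trans ?_ h2
    rw [inv_le_iff_one_le_mul₀ h3]
    nlinarith
  calc Real.exp (-(12 * ((d : ℝ) ^ 2 / n))) ≤ Real.exp (d * (-(2 * y))) := by
        rw [Real.exp_le_exp]
        have h4 : (d : ℝ) * (2 * y) ≤ 12 * ((d : ℝ) ^ 2 / n) := by
          rw [hy, mul_div_assoc', mul_div_assoc', mul_div_assoc']
          have h5 : (d : ℝ) * (2 * (3 + 3 * d)) ≤ 12 * (d : ℝ) ^ 2 := by nlinarith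
          exact div_le_div_of_nonneg_right h5 hn0.le
        linarith
    _ = Real.exp (-(2 * y)) ^ d := by rw [← Real.exp_nat_mul]
    _ ≤ (1 + -y) ^ d := by
        gcongr

/-- the two bounds in exponential form -/
theorem exp_bounds {n d : ℕ} (hn : 4 ≤ n) (hd : 12 * d ≤ n) :
    Real.exp (-(12 * ((d : ℝ) ^ 2 / n))) * ((2 * n / 3) ^ d / d.factorial) ≤
        ((deck (altCat n) (n - d)).ncard : ℝ) ∧
      (maxDeck n (n - d) : ℝ) ≤
        Real.exp (3 / 2 * ((d : ℝ) ^ 2 / n)) * ((2 * n / 3) ^ d / d.factorial) := by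
  have hn0 : (0 : ℝ) < n := by
    have : 0 < n := by omega
    exact_mod_cast this
  have hf : (0 : ℝ) < d.factorial := by exact_mod_cast Nat.factorial_pos d
  have hpos : (0 : ℝ) < (2 * n / 3) ^ d / d.factorial := by positivity
  constructor
  · rw [← le_div_iff₀ hpos]
    exact lower_exp hn hd
  · rw [← div_le_iff₀ hpos]
    exact upper_real hn (by omega)

theorem asymptotics (δ : ℕ → ℕ)
    (hδ : Tendsto (fun n : ℕ => (δ n : ℝ) ^ 2 / n) atTop (nhds 0)) :
    Tendsto (fun n : ℕ => ((deck (altCat n) (n - δ n)).ncard : ℝ) /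
        ((2 * n / 3) ^ δ n / (δ n).factorial)) atTop (nhds 1) ∧
      Tendsto (fun n : ℕ => (maxDeck n (n - δ n) : ℝ) /
        ((2 * n / 3) ^ δ n / (δ n).factorial)) atTop (nhds 1) := by
  have hlt : ∀ᶠ n : ℕ in atTop, 4 ≤ n ∧ δ n < n := by
    filter_upwards [eventually_ge_atTop 4, hδ.eventually (gt_mem_nhds zero_lt_one)] with n h1 h2
    refine ⟨h1, ?_⟩
    have hn0 : (0 : ℝ) < n := by
      have : 0 < n := by omega
      exact_mod_cast this
    rw [div_lt_one hn0] at h2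
    have h3 : δ n ^ 2 < n := by exact_mod_cast h2
    have h4 : δ n ≤ δ n ^ 2 := Nat.le_self_pow (by norm_num) _
    omega
  have hlow : Tendsto (fun n : ℕ => 1 - 6 * ((δ n : ℝ) ^ 2 / n)) atTop (nhds 1) := by
    have := (hδ.const_mul 6).const_sub 1
    simpa using this
  have hup : Tendsto (fun n : ℕ => Real.exp (3 / 2 * ((δ n : ℝ) ^ 2 / n))) atTop (nhds 1) := by
    have := (Real.continuous_exp.tendsto _).comp (hδ.const_mul (3 / 2))
    simpa [Function.comp_def] using this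
  have hmid : ∀ᶠ n : ℕ in atTop, ((deck (altCat n) (n - δ n)).ncard : ℝ) /
        ((2 * n / 3) ^ δ n / (δ n).factorial) ≤ (maxDeck n (n - δ n) : ℝ) /
        ((2 * n / 3) ^ δ n / (δ n).factorial) := by
    filter_upwards [hlt] with n hn
    have h1 : ((deck (altCat n) (n - δ n)).ncard : ℝ) ≤ (maxDeck n (n - δ n) : ℝ) := by
      exact_mod_cast deck_le_maxDeck (size_altCat hn.1) hn.2
    gcongr
  have hl : ∀ᶠ n : ℕ in atTop, 1 - 6 * ((δ n : ℝ) ^ 2 / n) ≤
      ((deck (altCat n) (n - δ n)).ncard : ℝ) / ((2 * n / 3) ^ δ n / (δ n).factorial) := by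
    filter_upwards [hlt] with n hn
    exact lower_real hn.1 hn.2
  have hu : ∀ᶠ n : ℕ in atTop, (maxDeck n (n - δ n) : ℝ) /
      ((2 * n / 3) ^ δ n / (δ n).factorial) ≤ Real.exp (3 / 2 * ((δ n : ℝ) ^ 2 / n)) := by
    filter_upwards [hlt] with n hn
    exact upper_real hn.1 hn.2
  constructor
  · refine tendsto_of_tendsto_of_tendsto_of_le_of_le' hlow hup hl ?_
    filter_upwards [hmid, hu] with n h1 h2
    exact h1.trans h2
  · refine tendsto_of_tendsto_of_tendsto_of_le_of_le' hlow hup ?_ hu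
    filter_upwards [hmid, hl] with n h1 h2
    exact h2.trans h1

end LeafDeck
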