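import Pool.Agent.LeafDeck.Fam

/-!
Two trees of the same size which are not isomorphic have few common members after the deletion
of a given number of leaves.
-/

set_option autoImplicit false

namespace LeafDeck

open Finset BTree

/-- the constants of the separation theorem -/
noncomputable def kap (i : ℕ) : ℝ := 10 * 4 ^ i

lemma choose_le_add (a b m : ℕ) : a.choose b ≤ (a + m).choose (b + m) := by
  induction m with
  | zero => exact le_rfl
  | succ m ih =>
    refine ih.trans ?_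
    rw [← add_assoc, ← add_assoc, Nat.choose_succ_succ]
    omega

open scoped Classical in
/-- the matches of the first children and of the second children -/
noncomputable def str (P1 P2 Q1 Q2 : BTree) (i : ℕ) : Finset (Option TreeClass) :=
  (fam (.node P1 P2) i).filter fun w => ∃ a b a' b' A B, a + b = i ∧ a' + b' = i ∧
    A ∈ fam P1 a ∧ A ∈ fam Q1 a' ∧ B ∈ fam P2 b ∧ B ∈ fam Q2 b' ∧ joinQ A B = w

lemma mem_str {P1 P2 Q1 Q2 : BTree} {i : ℕ} {w : Option TreeClass} :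
    w ∈ str P1 P2 Q1 Q2 i ↔ ∃ a b a' b' A B, a + b = i ∧ a' + b' = i ∧
    A ∈ fam P1 a ∧ A ∈ fam Q1 a' ∧ B ∈ fam P2 b ∧ B ∈ fam Q2 b' ∧ joinQ A B = w := by
  classical
  rw [str, mem_filter]
  constructor
  · exact fun h => h.2
  · intro h
    refine ⟨?_, h⟩
    obtain ⟨a, b, a', b', A, B, h1, h2, h3, h4, h5, h6, h7⟩ := h
    exact mem_fam_node.2 ⟨a, b, h1, A, h3, B, h5, h7⟩

lemma str_symm (P1 P2 Q1 Q2 : BTree) (i : ℕ) : str P1 P2 Q1 Q2 i = str Q1 Q2 P1 P2 i := by
  ext w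
  rw [mem_str, mem_str]
  constructor
  · rintro ⟨a, b, a', b', A, B, h1, h2, h3, h4, h5, h6, h7⟩
    exact ⟨a', b', a, b, A, B, h2, h1, h4, h3, h6, h5, h7⟩
  · rintro ⟨a, b, a', b', A, B, h1, h2, h3, h4, h5, h6, h7⟩
    exact ⟨a', b', a, b, A, B, h2, h1, h4, h3, h6, h5, h7⟩

lemma str_swap (P1 P2 Q1 Q2 : BTree) (i : ℕ) : str P1 P2 Q1 Q2 i = str P2 P1 Q2 Q1 i := by
  ext w
  rw [mem_str, mem_str]
  constructor
  · rintro ⟨a, b, a', b', A, B, h1, h2, h3, h4, h5, h6, h7⟩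
    exact ⟨b, a, b', a', B, A, by omega, by omega, h5, h6, h3, h4, by rw [joinQ_comm, h7]⟩
  · rintro ⟨a, b, a', b', A, B, h1, h2, h3, h4, h5, h6, h7⟩
    exact ⟨b, a, b', a', B, A, by omega, by omega, h5, h6, h3, h4, by rw [joinQ_comm, h7]⟩

lemma str_lt {P1 P2 Q1 Q2 : BTree} (h : P1.size + P2.size = Q1.size + Q2.size)
    (hlt : Q1.size < P1.size) (i : ℕ) :
    (str P1 P2 Q1 Q2 i).card ≤ (P1.size + P2.size - 1).choose (i - 1) ∧
      (i + Q1.size < P1.size → str P1 P2 Q1 Q2 i = ∅) := by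
  have key : ∀ w ∈ str P1 P2 Q1 Q2 i, P1.size ≤ i + Q1.size ∧
      w ∈ fam (.node Q1 P2) (i - (P1.size - Q1.size)) := by
    intro w hw
    obtain ⟨a, b, a', b', A, B, h1, h2, h3, h4, h5, h6, h7⟩ := mem_str.1 hw
    have e1 := fam_qsize h3
    have e2 := fam_qsize h4
    refine ⟨by omega, mem_fam_node.2 ⟨a', b, by omega, A, h4, B, h5, h7⟩⟩
  constructor
  · rcases (str P1 P2 Q1 Q2 i).eq_empty_or_nonempty with h0 | ⟨w, hw⟩
    · rw [h0]
      simp
    · have h1 := (key w hw).1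
      have h2 : (str P1 P2 Q1 Q2 i).card ≤
          (fam (.node Q1 P2) (i - (P1.size - Q1.size))).card :=
        card_le_card fun w hw => (key w hw).2
      refine h2.trans ((card_fam_le _ _).trans ?_)
      have hs : (BTree.node Q1 P2).size = Q1.size + P2.size := rfl
      rw [hs]
      have h3 := choose_le_add (Q1.size + P2.size) (i - (P1.size - Q1.size))
        (P1.size - Q1.size - 1)
      refine h3.trans_eq ?_
      congr 1 <;> omega
  · intro h1
    rw [Finset.eq_empty_iff_forall_notMem]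
    intro w hw
    have := (key w hw).1
    omega

lemma str_ne {P1 P2 Q1 Q2 : BTree} (h : P1.size + P2.size = Q1.size + Q2.size)
    (hne : P1.size ≠ Q1.size) (i : ℕ) :
    (str P1 P2 Q1 Q2 i).card ≤ (P1.size + P2.size - 1).choose (i - 1) ∧
      (i + Q1.size < P1.size ∨ i + P1.size < Q1.size → str P1 P2 Q1 Q2 i = ∅) := by
  rcases Nat.lt_or_gt_of_ne hne with h1 | h1
  · have h2 := str_lt h.symm h1 i
    rw [str_symm, h]
    refine ⟨h2.1, fun h3 => h2.2 (by omega)⟩
  · have h2 := str_lt h h1 i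
    refine ⟨h2.1, fun h3 => h2.2 (by omega)⟩

open scoped Classical in
lemma str_eq {P1 P2 Q1 Q2 : BTree} (h1 : P1.size = Q1.size) (h2 : P2.size = Q2.size) (i : ℕ) :
    (str P1 P2 Q1 Q2 i).card ≤ ∑ x ∈ antidiagonal i,
      (fam P1 x.1 ∩ fam Q1 x.1).card * (fam P2 x.2 ∩ fam Q2 x.2).card := by
  have hsub : str P1 P2 Q1 Q2 i ⊆ (antidiagonal i).biUnion fun x =>
      ((fam P1 x.1 ∩ fam Q1 x.1) ×ˢ (fam P2 x.2 ∩ fam Q2 x.2)).image
        fun y => joinQ y.1 y.2 := by
    intro w hw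
    obtain ⟨a, b, a', b', A, B, e1, e2, e3, e4, e5, e6, e7⟩ := mem_str.1 hw
    have f1 := fam_qsize e3
    have f2 := fam_qsize e4
    have f3 := fam_qsize e5
    have f4 := fam_qsize e6
    obtain rfl : a = a' := by omega
    obtain rfl : b = b' := by omega
    rw [mem_biUnion]
    refine ⟨(a, b), by simpa using e1, ?_⟩
    rw [mem_image]
    exact ⟨(A, B), by simp [e3, e4, e5, e6], e7⟩
  refine (card_le_card hsub).trans ((Finset.card_biUnion_le).trans (sum_le_sum fun x _ => ?_))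
  refine (Finset.card_image_le).trans ?_
  rw [card_product]

/-- the deletions of a whole child -/
noncomputable def deg (P1 P2 : BTree) (i : ℕ) : Finset (Option TreeClass) :=
  if P1.size ≤ i then fam P2 (i - P1.size) else ∅

lemma card_deg (P1 P2 : BTree) (i k : ℕ) (hk : k ≤ P1.size) :
    (deg P1 P2 i).card ≤ (P1.size + P2.size - k).choose (i - k) := by
  unfold deg
  split_ifs with h
  · refine (card_fam_le _ _).trans ?_
    have h3 := choose_le_add P2.size (i - P1.size) (P1.size - k)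
    refine h3.trans_eq ?_
    congr 1 <;> omega
  · simp

open scoped Classical in
/-- the common members of two trees -/
lemma cover (P1 P2 Q1 Q2 : BTree) (i : ℕ) :
    fam (.node P1 P2) i ∩ fam (.node Q1 Q2) i ⊆
      (str P1 P2 Q1 Q2 i ∪ str P1 P2 Q2 Q1 i) ∪
        ((deg P1 P2 i ∪ deg P2 P1 i) ∪ (deg Q1 Q2 i ∪ deg Q2 Q1 i)) := by
  intro w hw
  rw [mem_inter] at hw
  obtain ⟨a, b, h1, A, hA, B, hB, hAB⟩ := mem_fam_node.1 hw.1
  obtain ⟨a', b', h2, A', hA', B', hB', hAB'⟩ := mem_fam_node.1 hw.2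
  have hdeg : ∀ {X Y : BTree} {a b : ℕ} {B : Option TreeClass}, a + b = i →
      none ∈ fam X a → B ∈ fam Y b → B ∈ deg X Y i := by
    intro X Y a b B h1 h2 h3
    have h4 := none_mem_fam.1 h2
    unfold deg
    rw [if_pos (by omega), show i - X.size = b by omega]
    exact h3
  simp only [mem_union]
  by_cases hA0 : A = none
  · subst hA0
    rw [joinQ_none_left] at hAB
    subst hAB
    exact Or.inr (Or.inl (Or.inl (hdeg h1 hA hB)))
  by_cases hB0 : B = none
  · subst hB0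
    rw [joinQ_none_right] at hAB
    subst hAB
    exact Or.inr (Or.inl (Or.inr (hdeg (by omega) hB hA)))
  by_cases hA0' : A' = none
  · subst hA0'
    rw [joinQ_none_left] at hAB'
    subst hAB'
    exact Or.inr (Or.inr (Or.inl (hdeg h2 hA' hB')))
  by_cases hB0' : B' = none
  · subst hB0'
    rw [joinQ_none_right] at hAB'
    subst hAB'
    exact Or.inr (Or.inr (Or.inr (hdeg (by omega) hB' hA')))
  left
  rcases joinQ_inj hA0 hB0 hA0' hB0' (hAB.trans hAB'.symm) with ⟨rfl, rfl⟩ | ⟨rfl, rfl⟩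
  · exact Or.inl (mem_str.2 ⟨a, b, a', b', A, B, h1, h2, hA, hA', hB, hB', hAB⟩)
  · exact Or.inr (mem_str.2 ⟨a, b, b', a', A, B, h1, by omega, hA, hB', hB, hA', hAB⟩)

open scoped Classical in
/-- both trees have a leaf at the root -/
lemma leaf_case (P Q : BTree) (i : ℕ) :
    fam (.node P .leaf) (i + 1) ∩ fam (.node Q .leaf) (i + 1) ⊆
      ((fam P (i + 1) ∩ fam Q (i + 1)).image fun a => joinQ a (some leafQ)) ∪
        (fam P i ∩ fam Q i) := by
  have key : ∀ {X : BTree} {w : Option TreeClass}, w ∈ fam (.node X .leaf) (i + 1) →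
      (∃ a ∈ fam X (i + 1), joinQ a (some leafQ) = w) ∨
        (w ∈ fam X i ∧ ∀ a, joinQ a (some leafQ) ≠ w) := by
    intro X w hw
    obtain ⟨a, b, h1, A, hA, B, hB, hAB⟩ := mem_fam_node.1 hw
    rcases mem_fam_leaf.1 hB with ⟨rfl, rfl⟩ | ⟨rfl, rfl⟩
    · left
      refine ⟨A, ?_, hAB⟩
      rwa [show i + 1 = a by omega]
    · rw [joinQ_none_right] at hAB
      subst hAB
      have ha : a = i := by omega
      subst ha
      by_cases h2 : ∃ c, joinQ c (some leafQ) = A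
      · obtain ⟨c, hc⟩ := h2
        left
        rw [← hc] at hA
        exact ⟨c, fam_greedy hA, hc⟩
      · right
        exact ⟨hA, fun c hc => h2 ⟨c, hc⟩⟩
  intro w hw
  rw [mem_inter] at hw
  rw [mem_union, mem_image, mem_inter]
  rcases key hw.1 with ⟨a, ha, h1⟩ | ⟨h1, h2⟩
  · rcases key hw.2 with ⟨b, hb, h3⟩ | ⟨h3, h4⟩
    · left
      obtain rfl := joinQ_leaf_inj (h1.trans h3.symm)
      exact ⟨a, mem_inter.2 ⟨ha, hb⟩, h1⟩
    · exact absurd h1 (h4 a)
  · rcases key hw.2 with ⟨b, hb, h3⟩ | ⟨h3, h4⟩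
    · exact absurd h3 (h2 b)
    · exact Or.inr ⟨h1, h3⟩

open scoped Classical in
/-- the number of common members -/
noncomputable def ic (P Q : BTree) (i : ℕ) : ℕ := (fam P i ∩ fam Q i).card

lemma ic_comm (P Q : BTree) (i : ℕ) : ic P Q i = ic Q P i := by
  classical
  unfold ic
  rw [inter_comm]

lemma ic_le (P Q : BTree) (i : ℕ) : ic P Q i ≤ P.size.choose i := by
  classical
  exact (card_le_card inter_subset_left).trans (card_fam_le _ _)

lemma ic_zero {P Q : BTree} (hne : (⟦P⟧ : TreeClass) ≠ ⟦Q⟧) : ic P Q 0 = 0 := by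
  classical
  unfold ic
  rw [card_eq_zero, fam_zero, fam_zero, Finset.eq_empty_iff_forall_notMem]
  intro w hw
  rw [mem_inter, mem_singleton, mem_singleton] at hw
  exact hne (Option.some_injective _ (hw.1.symm.trans hw.2))

/-- the bound of the separation theorem -/
def Sep (P Q : BTree) : Prop :=
  ∀ j, (ic P Q (j + 1) : ℝ) ≤ kap (j + 1) * √(P.size : ℝ) * (P.size.choose j : ℕ)

lemma Sep.symm {P Q : BTree} (hs : P.size = Q.size) (h : Sep P Q) : Sep Q P := by
  intro j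
  rw [ic_comm, ← hs]
  exact h j

lemma kap_pos (i : ℕ) : 0 < kap i := by
  unfold kap
  positivity

lemma kap_mono {i j : ℕ} (h : i ≤ j) : kap i ≤ kap j := by
  unfold kap
  have : (4 : ℝ) ^ i ≤ 4 ^ j := pow_le_pow_right₀ (by norm_num) h
  linarith

/-- one nontrivial factor -/
lemma single {P1 Q1 P2 Q2 : BTree} (hne : (⟦P1⟧ : TreeClass) ≠ ⟦Q1⟧) (hS : Sep P1 Q1) (j : ℕ) :
    ((∑ x ∈ antidiagonal (j + 1), ic P1 Q1 x.1 * ic P2 Q2 x.2 : ℕ) : ℝ) ≤
      kap (j + 1) * √(P1.size : ℝ) * ((P1.size + P2.size).choose j : ℕ) := by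
  rw [Finset.Nat.sum_antidiagonal_succ, ic_zero hne, zero_mul, zero_add, Nat.add_choose_eq]
  push_cast
  rw [mul_sum]
  refine sum_le_sum fun x hx => ?_
  have hx' : x.1 + x.2 = j := by simpa using hx
  have h1 := hS x.1
  have h2 : (ic P2 Q2 x.2 : ℝ) ≤ (P2.size.choose x.2 : ℕ) := by exact_mod_cast ic_le P2 Q2 x.2
  have h3 : kap (x.1 + 1) ≤ kap (j + 1) := kap_mono (by omega)
  have h4 : (0 : ℝ) ≤ √(P1.size : ℝ) := Real.sqrt_nonneg _
  calc (ic P1 Q1 (x.1 + 1) : ℝ) * (ic P2 Q2 x.2 : ℝ) ≤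
      (kap (x.1 + 1) * √(P1.size : ℝ) * (P1.size.choose x.1 : ℕ)) * (P2.size.choose x.2 : ℕ) :=
        mul_le_mul h1 h2 (by positivity) (by have := kap_pos (x.1 + 1); positivity)
    _ ≤ (kap (j + 1) * √(P1.size : ℝ) * (P1.size.choose x.1 : ℕ)) * (P2.size.choose x.2 : ℕ) := by
        gcongr
    _ = _ := by ring

/-- two nontrivial factors -/
lemma double {P1 Q1 P2 Q2 : BTree} (hne : (⟦P1⟧ : TreeClass) ≠ ⟦Q1⟧)
    (hne2 : (⟦P2⟧ : TreeClass) ≠ ⟦Q2⟧) (hS : Sep P1 Q1) (hS2 : Sep P2 Q2) (k : ℕ) :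
    ((∑ x ∈ antidiagonal (k + 2), ic P1 Q1 x.1 * ic P2 Q2 x.2 : ℕ) : ℝ) ≤
      10 * kap (k + 2) * (√(P1.size : ℝ) * √(P2.size : ℝ)) *
        ((P1.size + P2.size).choose k : ℕ) := by
  rw [Finset.Nat.sum_antidiagonal_succ, ic_zero hne, zero_mul, zero_add,
    Finset.Nat.sum_antidiagonal_succ', ic_zero hne2, mul_zero, zero_add, Nat.add_choose_eq]
  push_cast
  rw [mul_sum]
  refine sum_le_sum fun x hx => ?_
  have hx' : x.1 + x.2 = k := by simpa using hx
  have h1 := hS x.1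
  have h2 := hS2 x.2
  have h3 : kap (x.1 + 1) * kap (x.2 + 1) = 10 * kap (k + 2) := by
    unfold kap
    rw [← hx', show x.1 + x.2 + 2 = (x.1 + 1) + (x.2 + 1) by omega, pow_add]
    ring
  have h4 : (0 : ℝ) ≤ √(P1.size : ℝ) := Real.sqrt_nonneg _
  have h5 : (0 : ℝ) ≤ √(P2.size : ℝ) := Real.sqrt_nonneg _
  have h6 := kap_pos (x.1 + 1)
  calc (ic P1 Q1 (x.1 + 1) : ℝ) * (ic P2 Q2 (x.2 + 1) : ℝ) ≤
      (kap (x.1 + 1) * √(P1.size : ℝ) * (P1.size.choose x.1 : ℕ)) *
        (kap (x.2 + 1) * √(P2.size : ℝ) * (P2.size.choose x.2 : ℕ)) :=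
        mul_le_mul h1 h2 (by positivity) (by positivity)
    _ = (kap (x.1 + 1) * kap (x.2 + 1)) * (√(P1.size : ℝ) * √(P2.size : ℝ)) *
        ((P1.size.choose x.1 : ℕ) * (P2.size.choose x.2 : ℕ)) := by ring
    _ = _ := by rw [h3]

lemma str_le_sum {P1 P2 Q1 Q2 : BTree} (h1 : P1.size = Q1.size) (h2 : P2.size = Q2.size)
    (i : ℕ) : (str P1 P2 Q1 Q2 i).card ≤ ∑ x ∈ antidiagonal i, ic P1 Q1 x.1 * ic P2 Q2 x.2 :=
  str_eq h1 h2 i

/-- the bound in the trivial range -/
lemma sep_small {P Q : BTree} {j : ℕ} (h : √(P.size : ℝ) ≤ kap (j + 1) * (j + 1)) :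
    (ic P Q (j + 1) : ℝ) ≤ kap (j + 1) * √(P.size : ℝ) * (P.size.choose j : ℕ) := by
  set n := P.size
  have h1 : (ic P Q (j + 1) : ℝ) ≤ (n.choose (j + 1) : ℕ) := by exact_mod_cast ic_le P Q (j + 1)
  have h2 : n.choose (j + 1) * (j + 1) ≤ n.choose j * n := by
    rw [Nat.choose_succ_right_eq]
    exact Nat.mul_le_mul le_rfl (Nat.sub_le _ _)
  have h3 : ((n.choose (j + 1) : ℕ) : ℝ) * (j + 1) ≤ (n.choose j : ℕ) * n := by
    exact_mod_cast h2
  have h4 : (n : ℝ) = √(n : ℝ) * √(n : ℝ) := (Real.mul_self_sqrt (Nat.cast_nonneg _)).symm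
  have h5 : (0 : ℝ) ≤ √(n : ℝ) := Real.sqrt_nonneg _
  have h6 : (0 : ℝ) < (j : ℝ) + 1 := by positivity
  refine h1.trans ?_
  refine le_of_mul_le_mul_right ?_ h6
  refine h3.trans ?_
  have h7 : ((n.choose j : ℕ) : ℝ) * n = √(n : ℝ) * (n.choose j : ℕ) * √(n : ℝ) := by
    conv_lhs => rw [h4]
    ring
  rw [h7]
  calc √(n : ℝ) * (n.choose j : ℕ) * √(n : ℝ) ≤
      √(n : ℝ) * (n.choose j : ℕ) * (kap (j + 1) * (j + 1)) := by gcongr
    _ = _ := by ring

lemma cover_card (P1 P2 Q1 Q2 : BTree) (i : ℕ) :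
    ic (.node P1 P2) (.node Q1 Q2) i ≤
      ((str P1 P2 Q1 Q2 i).card + (str P1 P2 Q2 Q1 i).card) +
        (((deg P1 P2 i).card + (deg P2 P1 i).card) +
          ((deg Q1 Q2 i).card + (deg Q2 Q1 i).card)) := by
  classical
  refine (card_le_card (cover P1 P2 Q1 Q2 i)).trans ((card_union_le _ _).trans ?_)
  refine Nat.add_le_add (card_union_le _ _) ((card_union_le _ _).trans ?_)
  exact Nat.add_le_add (card_union_le _ _) (card_union_le _ _)

open scoped Classical in
lemma cover_card' {P1 P2 Q1 Q2 : BTree} {i : ℕ}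
    (hsub : str P1 P2 Q2 Q1 i ⊆ str P1 P2 Q1 Q2 i) :
    ic (.node P1 P2) (.node Q1 Q2) i ≤ (str P1 P2 Q1 Q2 i).card +
        (((deg P1 P2 i).card + (deg P2 P1 i).card) +
          ((deg Q1 Q2 i).card + (deg Q2 Q1 i).card)) := by
  refine (card_le_card (cover P1 P2 Q1 Q2 i)).trans ((card_union_le _ _).trans ?_)
  rw [union_eq_left.2 hsub]
  refine Nat.add_le_add le_rfl ((card_union_le _ _).trans ?_)
  exact Nat.add_le_add (card_union_le _ _) (card_union_le _ _)

lemma choose_pred_le (n j : ℕ) : (n - 1).choose j ≤ n.choose j :=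
  Nat.choose_le_choose j (Nat.sub_le _ _)

/-- the four terms of complete deletions, rough bound -/
lemma degs_rough {P1 P2 Q1 Q2 : BTree} (h : P1.size + P2.size = Q1.size + Q2.size) (j : ℕ) :
    (((deg P1 P2 (j + 1)).card + (deg P2 P1 (j + 1)).card) +
      ((deg Q1 Q2 (j + 1)).card + (deg Q2 Q1 (j + 1)).card)) ≤
        4 * (P1.size + P2.size).choose j := by
  have h1 := card_deg P1 P2 (j + 1) 1 (size_pos _)
  have h2 := card_deg P2 P1 (j + 1) 1 (size_pos _)
  have h3 := card_deg Q1 Q2 (j + 1) 1 (size_pos _)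
  have h4 := card_deg Q2 Q1 (j + 1) 1 (size_pos _)
  rw [add_comm P2.size P1.size] at h2
  rw [← h] at h3
  rw [add_comm Q2.size Q1.size, ← h] at h4
  have h5 := choose_pred_le (P1.size + P2.size) j
  simp only [Nat.add_sub_cancel] at h1 h2 h3 h4
  omega

/-- the four terms of complete deletions, children which are not leaves -/
lemma degs_fine {P1 P2 Q1 Q2 : BTree} (h : P1.size + P2.size = Q1.size + Q2.size)
    (h1 : 2 ≤ P1.size) (h2 : 2 ≤ P2.size) (h3 : 2 ≤ Q1.size) (h4 : 2 ≤ Q2.size) (k : ℕ) :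
    (((deg P1 P2 (k + 2)).card + (deg P2 P1 (k + 2)).card) +
      ((deg Q1 Q2 (k + 2)).card + (deg Q2 Q1 (k + 2)).card)) ≤
        4 * (P1.size + P2.size).choose k := by
  have h1 := card_deg P1 P2 (k + 2) 2 h1
  have h2 := card_deg P2 P1 (k + 2) 2 h2
  have h3 := card_deg Q1 Q2 (k + 2) 2 h3
  have h4 := card_deg Q2 Q1 (k + 2) 2 h4
  rw [add_comm P2.size P1.size] at h2
  rw [← h] at h3
  rw [add_comm Q2.size Q1.size, ← h] at h4
  have h5 : (P1.size + P2.size - 2).choose k ≤ (P1.size + P2.size).choose k :=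
    Nat.choose_le_choose k (Nat.sub_le _ _)
  simp only [Nat.add_sub_cancel] at h1 h2 h3 h4
  omega

lemma degs_zero {P1 P2 Q1 Q2 : BTree}
    (h1 : 2 ≤ P1.size) (h2 : 2 ≤ P2.size) (h3 : 2 ≤ Q1.size) (h4 : 2 ≤ Q2.size) :
    (((deg P1 P2 1).card + (deg P2 P1 1).card) +
      ((deg Q1 Q2 1).card + (deg Q2 Q1 1).card)) = 0 := by
  unfold deg
  rw [if_neg (by omega), if_neg (by omega), if_neg (by omega), if_neg (by omega)]
  simp

lemma str_bound {P1 P2 Q1 Q2 : BTree} (h1 : P1.size = Q1.size) (h2 : P2.size = Q2.size)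
    (hne : ¬((⟦P1⟧ : TreeClass) = ⟦Q1⟧ ∧ (⟦P2⟧ : TreeClass) = ⟦Q2⟧))
    (hS1 : (⟦P1⟧ : TreeClass) ≠ ⟦Q1⟧ → Sep P1 Q1)
    (hS2 : (⟦P2⟧ : TreeClass) ≠ ⟦Q2⟧ → Sep P2 Q2) (j : ℕ) {M : ℝ}
    (hM1 : √(P1.size : ℝ) ≤ M) (hM2 : √(P2.size : ℝ) ≤ M) :
    ((str P1 P2 Q1 Q2 (j + 1)).card : ℝ) ≤
      kap (j + 1) * M * ((P1.size + P2.size).choose j : ℕ) := by
  have hk := kap_pos (j + 1)
  by_cases ha : (⟦P1⟧ : TreeClass) = ⟦Q1⟧
  · have hb : (⟦P2⟧ : TreeClass) ≠ ⟦Q2⟧ := fun hb => hne ⟨ha, hb⟩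
    rw [str_swap]
    have e1 : ((str P2 P1 Q2 Q1 (j + 1)).card : ℝ) ≤
        ((∑ x ∈ antidiagonal (j + 1), ic P2 Q2 x.1 * ic P1 Q1 x.2 : ℕ) : ℝ) := by
      exact_mod_cast str_le_sum h2 h1 (j + 1)
    refine e1.trans ((single hb (hS2 hb) j).trans ?_)
    rw [add_comm P2.size P1.size]
    gcongr
  · have e1 : ((str P1 P2 Q1 Q2 (j + 1)).card : ℝ) ≤
        ((∑ x ∈ antidiagonal (j + 1), ic P1 Q1 x.1 * ic P2 Q2 x.2 : ℕ) : ℝ) := by
      exact_mod_cast str_le_sum h1 h2 (j + 1)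
    refine e1.trans ((single ha (hS1 ha) j).trans ?_)
    gcongr

/-- the bound for two nontrivial pairs -/
noncomputable def prb (j m : ℕ) : ℝ :=
  if j = 0 then 0 else 10 * kap (j + 1) * m * ((m + m).choose (j - 1) : ℕ)

lemma prb_nonneg (j m : ℕ) : 0 ≤ prb j m := by
  unfold prb
  have := kap_pos (j + 1)
  split_ifs
  · exact le_rfl
  · positivity

lemma str_double {P1 P2 Q1 Q2 : BTree} {m : ℕ} (hm : P1.size = m) (hm2 : P2.size = m)
    (h1 : P1.size = Q1.size) (h2 : P2.size = Q2.size)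
    (hne : (⟦P1⟧ : TreeClass) ≠ ⟦Q1⟧) (hne2 : (⟦P2⟧ : TreeClass) ≠ ⟦Q2⟧) (hS : Sep P1 Q1)
    (hS2 : Sep P2 Q2) (j : ℕ) :
    ((str P1 P2 Q1 Q2 (j + 1)).card : ℝ) ≤ prb j m := by
  have e1 : ((str P1 P2 Q1 Q2 (j + 1)).card : ℝ) ≤
      ((∑ x ∈ antidiagonal (j + 1), ic P1 Q1 x.1 * ic P2 Q2 x.2 : ℕ) : ℝ) := by
    exact_mod_cast str_le_sum h1 h2 (j + 1)
  refine e1.trans ?_
  cases j with
  | zero =>
    rw [Finset.Nat.sum_antidiagonal_succ, ic_zero hne]
    simp [ic_zero hne2, prb]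
  | succ k =>
    have h3 := double hne hne2 hS hS2 k
    rw [hm, hm2] at h3
    refine h3.trans_eq ?_
    have h4 : √(m : ℝ) * √(m : ℝ) = m := Real.mul_self_sqrt (Nat.cast_nonneg _)
    unfold prb
    rw [if_neg (by omega), h4]
    simp

/-- sizes of the children of the trees in `str` differ -/
lemma case_ne {P1 P2 Q1 Q2 : BTree} (h : P1.size + P2.size = Q1.size + Q2.size)
    (h1 : P1.size ≠ Q1.size) (h2 : P1.size ≠ Q2.size) (j : ℕ) :
    (ic (.node P1 P2) (.node Q1 Q2) (j + 1) : ℝ) ≤ 6 * ((P1.size + P2.size).choose j : ℕ) := by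
  have e1 := cover_card P1 P2 Q1 Q2 (j + 1)
  have e2 := (str_ne h h1 (j + 1)).1
  have e3 := (str_ne (P1 := P1) (P2 := P2) (Q1 := Q2) (Q2 := Q1) (by omega) h2 (j + 1)).1
  have e4 := degs_rough h j
  have e5 := choose_pred_le (P1.size + P2.size) j
  simp only [Nat.add_sub_cancel] at e2 e3
  have e6 : ic (.node P1 P2) (.node Q1 Q2) (j + 1) ≤ 6 * (P1.size + P2.size).choose j := by
    omega
  exact_mod_cast e6

lemma kap_ge (j : ℕ) : 40 ≤ kap (j + 1) := by
  have := kap_mono (show 1 ≤ j + 1 by omega)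
  unfold kap at this ⊢
  linarith

lemma kap_ge' (k : ℕ) : 160 ≤ kap (k + 2) := by
  have := kap_mono (show 2 ≤ k + 2 by omega)
  unfold kap at this ⊢
  linarith

/-- a binomial coefficient and its predecessor -/
lemma choose_pred (n k : ℕ) (hn : (k : ℝ) ≤ n / 2) :
    ((n.choose k : ℕ) : ℝ) * (n / 2) ≤ (n.choose (k + 1) : ℕ) * (k + 1) := by
  have h1 : n.choose (k + 1) * (k + 1) = n.choose k * (n - k) := Nat.choose_succ_right_eq n k
  have h2 : k ≤ n := by
    have h3 : (k : ℝ) ≤ n := by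
      have : (0 : ℝ) ≤ n := Nat.cast_nonneg _
      linarith
    exact_mod_cast h3
  have h3 : ((n.choose (k + 1) : ℕ) : ℝ) * (k + 1) = (n.choose k : ℕ) * (n - k) := by
    have := congrArg (Nat.cast : ℕ → ℝ) h1
    push_cast [Nat.cast_sub h2] at this
    exact this
  rw [h3]
  have h4 : (n : ℝ) / 2 ≤ n - k := by linarith
  gcongr

/-- consequences of the large range -/
lemma large {n j : ℕ} (hs : kap (j + 1) * (j + 1) < √(n : ℝ)) :
    (n : ℝ) = √(n : ℝ) * √(n : ℝ) ∧ 40 * ((j : ℝ) + 1) ≤ √(n : ℝ) ∧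
      40 * ((j : ℝ) + 1) ≤ n := by
  have h1 : (n : ℝ) = √(n : ℝ) * √(n : ℝ) := (Real.mul_self_sqrt (Nat.cast_nonneg _)).symm
  have h2 := kap_ge j
  have h3 : (0 : ℝ) ≤ j := Nat.cast_nonneg _
  have h4 : 40 * ((j : ℝ) + 1) ≤ √(n : ℝ) := by nlinarith
  refine ⟨h1, h4, ?_⟩
  have h5 : (1 : ℝ) ≤ √(n : ℝ) := by linarith
  rw [h1]
  nlinarith

/-- three quarters of the root -/
lemma sqrt_three {m n : ℝ} (hm : m ≤ 9 / 16 * n) : √m ≤ 3 / 4 * √n := by
  have h1 : √(9 / 16 * n) = 3 / 4 * √n := by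
    rw [Real.sqrt_mul (by norm_num), show (9 / 16 : ℝ) = (3 / 4) ^ 2 by norm_num,
      Real.sqrt_sq (by norm_num)]
  rw [← h1]
  exact Real.sqrt_le_sqrt hm

/-- the root of `n - 2` -/
lemma sqrt_sub_two {m n : ℝ} (hm : m ≤ n - 2) (hn : 1 ≤ √n) : √m ≤ √n - 1 / √n := by
  have h0 : 0 ≤ n := by
    by_contra h
    rw [Real.sqrt_eq_zero_of_nonpos (by linarith)] at hn
    linarith
  have h1 : 0 < √n := by linarith
  have h2 : 1 / √n ≤ 1 := by
    rw [div_le_one h1]
    exact hn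
  apply Real.sqrt_le_iff.2
  refine ⟨by linarith, ?_⟩
  have h3 : (√n - 1 / √n) ^ 2 = n - 2 + (1 / √n) ^ 2 := by
    have h4 : √n * (1 / √n) = 1 := mul_one_div_cancel h1.ne'
    have h5 : √n ^ 2 = n := Real.sq_sqrt h0
    calc (√n - 1 / √n) ^ 2 = √n ^ 2 - 2 * (√n * (1 / √n)) + (1 / √n) ^ 2 := by ring
      _ = _ := by rw [h4, h5]; ring
  rw [h3]
  have : 0 ≤ (1 / √n) ^ 2 := by positivity
  linarith

/-- equal sizes of the first children, different sizes of the two children -/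
lemma case_eq_ne {P1 P2 Q1 Q2 : BTree} (h1 : P1.size = Q1.size) (h2 : P2.size = Q2.size)
    (h12 : P1.size ≠ P2.size) (hP1 : 2 ≤ P1.size) (hP2 : 2 ≤ P2.size)
    (hne : ¬((⟦P1⟧ : TreeClass) = ⟦Q1⟧ ∧ (⟦P2⟧ : TreeClass) = ⟦Q2⟧))
    (hS1 : (⟦P1⟧ : TreeClass) ≠ ⟦Q1⟧ → Sep P1 Q1)
    (hS2 : (⟦P2⟧ : TreeClass) ≠ ⟦Q2⟧ → Sep P2 Q2) (j : ℕ)
    (hs : kap (j + 1) * (j + 1) < √((P1.size + P2.size : ℕ) : ℝ)) :
    (ic (.node P1 P2) (.node Q1 Q2) (j + 1) : ℝ) ≤
      kap (j + 1) * √((P1.size + P2.size : ℕ) : ℝ) * ((P1.size + P2.size).choose j : ℕ) := by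
  obtain ⟨g1, g2, g3⟩ := large hs
  have hk := kap_ge j
  have hj : (0 : ℝ) ≤ j := Nat.cast_nonneg _
  have hsum : P1.size + P2.size = Q1.size + Q2.size := by omega
  set n := P1.size + P2.size with hn
  set s := √(n : ℝ)
  have hs1 : 1 ≤ s := by linarith
  have e1 := cover_card P1 P2 Q1 Q2 (j + 1)
  have e2 := str_ne (P1 := P1) (P2 := P2) (Q1 := Q2) (Q2 := Q1) (by omega) (by omega) (j + 1)
  have e1' : (ic (.node P1 P2) (.node Q1 Q2) (j + 1) : ℝ) ≤
      ((str P1 P2 Q1 Q2 (j + 1)).card + (str P1 P2 Q2 Q1 (j + 1)).card) +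
        (((deg P1 P2 (j + 1)).card + (deg P2 P1 (j + 1)).card) +
          ((deg Q1 Q2 (j + 1)).card + (deg Q2 Q1 (j + 1)).card)) := by
    exact_mod_cast e1
  have hC0 : (0 : ℝ) ≤ (n.choose j : ℕ) := Nat.cast_nonneg _
  by_cases hx : (j + 1) + Q2.size < P1.size ∨ (j + 1) + P1.size < Q2.size
  · -- no exchanged matches
    have e3 := e2.2 hx
    rw [e3] at e1'
    simp only [card_empty, Nat.cast_zero, add_zero] at e1'
    have hM1 : √(P1.size : ℝ) ≤ s - 1 / s := by
      apply sqrt_sub_two _ hs1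
      have : P1.size + 2 ≤ n := by omega
      have h3 : ((P1.size : ℝ)) + 2 ≤ n := by exact_mod_cast this
      linarith
    have hM2 : √(P2.size : ℝ) ≤ s - 1 / s := by
      apply sqrt_sub_two _ hs1
      have : P2.size + 2 ≤ n := by omega
      have h3 : ((P2.size : ℝ)) + 2 ≤ n := by exact_mod_cast this
      linarith
    have e4 := str_bound h1 h2 hne hS1 hS2 j hM1 hM2
    have hs0 : 0 < s := by linarith
    cases j with
    | zero =>
      have e5 := degs_zero (P1 := P1) (P2 := P2) (Q1 := Q1) (Q2 := Q2) hP1 hP2 (by omega)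
        (by omega)
      have e6 : (((deg P1 P2 (0 + 1)).card + (deg P2 P1 (0 + 1)).card) +
          ((deg Q1 Q2 (0 + 1)).card + (deg Q2 Q1 (0 + 1)).card) : ℝ) = 0 := by
        exact_mod_cast e5
      rw [e6, add_zero] at e1'
      refine e1'.trans (e4.trans ?_)
      have h7 : s - 1 / s ≤ s := by
        have : 0 ≤ 1 / s := by positivity
        linarith
      have := kap_pos (0 + 1)
      gcongr
    | succ k =>
      have e5 := degs_fine hsum hP1 hP2 (by omega) (by omega) k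
      have e6 : (((deg P1 P2 (k + 1 + 1)).card + (deg P2 P1 (k + 1 + 1)).card) +
          ((deg Q1 Q2 (k + 1 + 1)).card + (deg Q2 Q1 (k + 1 + 1)).card) : ℝ) ≤
          4 * (n.choose k : ℕ) := by
        exact_mod_cast e5
      have hC := choose_pred n k (by push_cast at g3 hj; linarith)
      set C : ℝ := ((n.choose (k + 1) : ℕ) : ℝ)
      set D : ℝ := ((n.choose k : ℕ) : ℝ)
      set K := kap (k + 1 + 1)
      have hD : 0 ≤ D := Nat.cast_nonneg _
      -- it is enough to pay for the complete deletions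
      have h8 : 4 * D ≤ K * (1 / s) * C := by
        rw [mul_one_div, div_mul_eq_mul_div, le_div_iff₀ hs0]
        push_cast at g2 hj
        have h9 : D * (s * s / 2) ≤ C * (k + 1) := by rw [← g1]; exact hC
        -- 4 D s (k + 1) ≤ K D s s / 2 ≤ K C (k + 1)
        have h10 : (0 : ℝ) < k + 1 := by positivity
        refine le_of_mul_le_mul_right ?_ h10
        have h11 : 8 * ((k : ℝ) + 1) ≤ K * s := by nlinarith
        have h12 : 4 * D * s * (k + 1) ≤ K * (D * (s * s / 2)) := by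
          have h13 : 0 ≤ D * s := by positivity
          nlinarith
        have h14 : K * (D * (s * s / 2)) ≤ K * (C * (k + 1)) := by
          have : 0 ≤ K := by linarith
          exact mul_le_mul_of_nonneg_left h9 this
        linarith
      have h15 : K * (s - 1 / s) * C + K * (1 / s) * C = K * s * C := by ring
      linarith
  · -- nearly balanced
    have hb : P1.size ≤ (j + 1) + Q2.size ∧ Q2.size ≤ (j + 1) + P1.size := by omega
    have hcast : (n : ℝ) = P1.size + P2.size := by rw [hn]; push_cast; ring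
    have hb1 : (P1.size : ℝ) ≤ (j + 1) + P2.size := by
      have := hb.1
      rw [← h2] at this
      exact_mod_cast this
    have hb2 : (P2.size : ℝ) ≤ (j + 1) + P1.size := by
      have := hb.2
      rw [← h2] at this
      exact_mod_cast this
    have hM1 : √(P1.size : ℝ) ≤ 3 / 4 * s := sqrt_three (by linarith)
    have hM2 : √(P2.size : ℝ) ≤ 3 / 4 * s := sqrt_three (by linarith)
    have e4 := str_bound h1 h2 hne hS1 hS2 j hM1 hM2
    have e5 := degs_rough hsum j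
    have e6 : (((deg P1 P2 (j + 1)).card + (deg P2 P1 (j + 1)).card) +
        ((deg Q1 Q2 (j + 1)).card + (deg Q2 Q1 (j + 1)).card) : ℝ) ≤
        4 * (n.choose j : ℕ) := by
      exact_mod_cast e5
    have e7 : ((str P1 P2 Q2 Q1 (j + 1)).card : ℝ) ≤ (n.choose j : ℕ) := by
      have := e2.1.trans (by simpa using choose_pred_le n j)
      exact_mod_cast this
    set C : ℝ := ((n.choose j : ℕ) : ℝ)
    set K := kap (j + 1)
    have h8 : 5 * C ≤ K * (1 / 4 * s) * C := by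
      have : 5 ≤ K * (1 / 4 * s) := by nlinarith
      exact mul_le_mul_of_nonneg_right this hC0
    have h9 : K * (3 / 4 * s) * C + K * (1 / 4 * s) * C = K * s * C := by ring
    linarith

lemma fam_of_eq {P Q : BTree} (h : (⟦P⟧ : TreeClass) = ⟦Q⟧) : fam P = fam Q :=
  fam_iso (Quotient.exact h)

/-- all children have the same size -/
lemma case_eq_eq {P1 P2 Q1 Q2 : BTree} {m : ℕ} (hP1 : P1.size = m) (hP2 : P2.size = m)
    (hQ1 : Q1.size = m) (hQ2 : Q2.size = m)
    (hne : ¬((⟦P1⟧ : TreeClass) = ⟦Q1⟧ ∧ (⟦P2⟧ : TreeClass) = ⟦Q2⟧))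
    (hne2 : ¬((⟦P1⟧ : TreeClass) = ⟦Q2⟧ ∧ (⟦P2⟧ : TreeClass) = ⟦Q1⟧))
    (hS : ∀ X Y : BTree, X.size = m → Y.size = m → (⟦X⟧ : TreeClass) ≠ ⟦Y⟧ → Sep X Y) (j : ℕ)
    (hs : kap (j + 1) * (j + 1) < √((m + m : ℕ) : ℝ)) :
    (ic (.node P1 P2) (.node Q1 Q2) (j + 1) : ℝ) ≤
      kap (j + 1) * √((m + m : ℕ) : ℝ) * ((m + m).choose j : ℕ) := by
  obtain ⟨g1, g2, g3⟩ := large hs
  have hk := kap_ge j
  have hj : (0 : ℝ) ≤ j := Nat.cast_nonneg _
  have hsum : P1.size + P2.size = Q1.size + Q2.size := by omega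
  have e5 := degs_rough hsum j
  rw [hP1, hP2] at e5
  have e1 := cover_card P1 P2 Q1 Q2 (j + 1)
  set n := m + m with hn
  set s := √(n : ℝ) with hsdef
  have hcast : (n : ℝ) = m + m := by rw [hn]; push_cast; ring
  have hM : √(m : ℝ) ≤ 3 / 4 * s := sqrt_three (by linarith)
  have e1' : (ic (.node P1 P2) (.node Q1 Q2) (j + 1) : ℝ) ≤
      ((str P1 P2 Q1 Q2 (j + 1)).card + (str P1 P2 Q2 Q1 (j + 1)).card) +
        (((deg P1 P2 (j + 1)).card + (deg P2 P1 (j + 1)).card) +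
          ((deg Q1 Q2 (j + 1)).card + (deg Q2 Q1 (j + 1)).card)) := by
    exact_mod_cast e1
  have e6 : (((deg P1 P2 (j + 1)).card + (deg P2 P1 (j + 1)).card) +
      ((deg Q1 Q2 (j + 1)).card + (deg Q2 Q1 (j + 1)).card) : ℝ) ≤
      4 * (n.choose j : ℕ) := by
    exact_mod_cast e5
  have hb1 : ∀ {A B E F : BTree}, A.size = m → B.size = m → E.size = m → F.size = m →
      ¬((⟦A⟧ : TreeClass) = ⟦E⟧ ∧ (⟦B⟧ : TreeClass) = ⟦F⟧) →
      ((str A B E F (j + 1)).card : ℝ) ≤ kap (j + 1) * (3 / 4 * s) * (n.choose j : ℕ) := by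
    intro A B E F hA hB hE hF h
    have := str_bound (P1 := A) (P2 := B) (Q1 := E) (Q2 := F) (by omega) (by omega) h
      (hS A E hA hE) (hS B F hB hF) j (M := 3 / 4 * s) (by rw [hA]; exact hM)
      (by rw [hB]; exact hM)
    rwa [hA, hB] at this
  have hb2 : ∀ {A B E F : BTree}, A.size = m → B.size = m → E.size = m → F.size = m →
      (⟦A⟧ : TreeClass) ≠ ⟦E⟧ → (⟦B⟧ : TreeClass) ≠ ⟦F⟧ →
      ((str A B E F (j + 1)).card : ℝ) ≤ prb j m := by
    intro A B E F hA hB hE hF h1 h2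
    exact str_double hA hB (by omega) (by omega) h1 h2 (hS A E hA hE h1) (hS B F hB hF h2) j
  have hp := prb_nonneg j m
  have hmain : (ic (.node P1 P2) (.node Q1 Q2) (j + 1) : ℝ) ≤
      kap (j + 1) * (3 / 4 * s) * (n.choose j : ℕ) + prb j m + 4 * (n.choose j : ℕ) := by
    have hsubcase : str P1 P2 Q2 Q1 (j + 1) ⊆ str P1 P2 Q1 Q2 (j + 1) →
        (ic (.node P1 P2) (.node Q1 Q2) (j + 1) : ℝ) ≤
        kap (j + 1) * (3 / 4 * s) * (n.choose j : ℕ) + prb j m + 4 * (n.choose j : ℕ) := by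
      intro hsub
      have e7 := cover_card' hsub
      have e8 : (ic (.node P1 P2) (.node Q1 Q2) (j + 1) : ℝ) ≤
          (str P1 P2 Q1 Q2 (j + 1)).card +
          (((deg P1 P2 (j + 1)).card + (deg P2 P1 (j + 1)).card) +
            ((deg Q1 Q2 (j + 1)).card + (deg Q2 Q1 (j + 1)).card)) := by
        exact_mod_cast e7
      have e9 := hb1 hP1 hP2 hQ1 hQ2 hne
      linarith
    by_cases ha : (⟦P1⟧ : TreeClass) = ⟦Q1⟧
    · have hb : (⟦P2⟧ : TreeClass) ≠ ⟦Q2⟧ := fun hb => hne ⟨ha, hb⟩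
      by_cases hc : (⟦P1⟧ : TreeClass) = ⟦Q2⟧
      · apply hsubcase
        intro w hw
        obtain ⟨a, b, a', b', A, B, e1, e2, e3, e4, e5, e6, e7⟩ := mem_str.1 hw
        rw [← fam_of_eq hc, fam_of_eq ha] at e4
        rw [← fam_of_eq ha, fam_of_eq hc] at e6
        exact mem_str.2 ⟨a, b, a', b', A, B, e1, e2, e3, e4, e5, e6, e7⟩
      · by_cases hd : (⟦P2⟧ : TreeClass) = ⟦Q1⟧
        · apply hsubcase
          intro w hw
          obtain ⟨a, b, a', b', A, B, e1, e2, e3, e4, e5, e6, e7⟩ := mem_str.1 hw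
          rw [fam_of_eq ha, ← fam_of_eq hd] at e3
          rw [fam_of_eq hd, ← fam_of_eq ha] at e5
          exact mem_str.2 ⟨b, a, b', a', B, A, by omega, by omega, e5, e6, e3, e4,
            by rw [joinQ_comm, e7]⟩
        · have e9 := hb1 hP1 hP2 hQ1 hQ2 hne
          have e10 := hb2 hP1 hP2 hQ2 hQ1 hc hd
          linarith
    · by_cases hb : (⟦P2⟧ : TreeClass) = ⟦Q2⟧
      · by_cases hc : (⟦P1⟧ : TreeClass) = ⟦Q2⟧
        · apply hsubcase
          intro w hw
          obtain ⟨a, b, a', b', A, B, e1, e2, e3, e4, e5, e6, e7⟩ := mem_str.1 hw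
          rw [fam_of_eq hc, ← fam_of_eq hb] at e3
          rw [fam_of_eq hb, ← fam_of_eq hc] at e5
          exact mem_str.2 ⟨b, a, b', a', B, A, by omega, by omega, e5, e6, e3, e4,
            by rw [joinQ_comm, e7]⟩
        · by_cases hd : (⟦P2⟧ : TreeClass) = ⟦Q1⟧
          · apply hsubcase
            intro w hw
            obtain ⟨a, b, a', b', A, B, e1, e2, e3, e4, e5, e6, e7⟩ := mem_str.1 hw
            rw [← fam_of_eq hb, fam_of_eq hd] at e4
            rw [← fam_of_eq hd, fam_of_eq hb] at e6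
            exact mem_str.2 ⟨a, b, a', b', A, B, e1, e2, e3, e4, e5, e6, e7⟩
          · have e9 := hb1 hP1 hP2 hQ1 hQ2 hne
            have e10 := hb2 hP1 hP2 hQ2 hQ1 hc hd
            linarith
      · have e9 := hb2 hP1 hP2 hQ1 hQ2 ha hb
        have e10 := hb1 hP1 hP2 hQ2 hQ1 hne2
        linarith
  refine hmain.trans ?_
  have hC0 : (0 : ℝ) ≤ (n.choose j : ℕ) := Nat.cast_nonneg _
  have h9 : kap (j + 1) * (3 / 4 * s) * (n.choose j : ℕ) +
      kap (j + 1) * (1 / 4 * s) * (n.choose j : ℕ) = kap (j + 1) * s * (n.choose j : ℕ) := by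
    ring
  rw [← h9, add_assoc]
  refine add_le_add le_rfl ?_
  cases j with
  | zero =>
    have h10 : prb 0 m = 0 := by simp [prb]
    rw [h10, zero_add]
    have : 4 ≤ kap (0 + 1) * (1 / 4 * s) := by nlinarith
    exact mul_le_mul_of_nonneg_right this hC0
  | succ k =>
    have hC := choose_pred n k (by push_cast at g3 hj; linarith)
    have hk' := kap_ge' k
    have h10 : prb (k + 1) m = 10 * kap (k + 1 + 1) * m * (n.choose k : ℕ) := by
      unfold prb
      rw [if_neg (by omega), ← hn]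
      simp
    rw [h10]
    push_cast at hs g2 hj
    set C : ℝ := ((n.choose (k + 1) : ℕ) : ℝ)
    set D : ℝ := ((n.choose k : ℕ) : ℝ)
    have hK : kap (k + 1 + 1) = kap (k + 2) := rfl
    rw [hK] at hs ⊢
    set K := kap (k + 2)
    have hm : (m : ℝ) = n / 2 := by linarith
    have h11 : 10 * K * m * D ≤ 10 * K * (C * (k + 1)) := by
      have : D * m ≤ C * (k + 1) := by rw [hm]; exact hC
      have h12 : 0 ≤ 10 * K := by linarith
      calc 10 * K * m * D = 10 * K * (D * m) := by ring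
        _ ≤ _ := mul_le_mul_of_nonneg_left this h12
    refine (add_le_add h11 le_rfl).trans ?_
    have h13 : 10 * K * (C * (k + 1)) + 4 * C = (10 * K * (k + 1) + 4) * C := by ring
    rw [h13]
    refine mul_le_mul_of_nonneg_right ?_ hC0
    -- 10 K (k + 1) + 4 ≤ K s / 4
    have h14 : 160 * ((k : ℝ) + 2) ≤ s := by nlinarith
    nlinarith

lemma leaf_of_size {T : BTree} (h : T.size < 2) : T = .leaf := by
  cases T with
  | leaf => rfl
  | node a c =>
    have h1 := size_pos a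
    have h2 := size_pos c
    have h3 : (BTree.node a c).size = a.size + c.size := rfl
    omega

/-- a tree with at least two leaves has a leaf at the root or not -/
lemma leaf_or {T : BTree} (h : 2 ≤ T.size) :
    (∃ P : BTree, Iso T (.node P .leaf)) ∨
      ∃ P1 P2 : BTree, T = .node P1 P2 ∧ 2 ≤ P1.size ∧ 2 ≤ P2.size := by
  cases T with
  | leaf => exact absurd h (by decide)
  | node l r =>
    by_cases hl : l.size < 2
    · left
      rw [leaf_of_size hl]
      exact ⟨r, Iso.swap (Iso.refl _) (Iso.refl _)⟩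
    · by_cases hr : r.size < 2
      · left
        rw [leaf_of_size hr]
        exact ⟨l, Iso.refl _⟩
      · exact Or.inr ⟨l, r, rfl, by omega, by omega⟩

lemma ic_iso {P P' Q Q' : BTree} (h : Iso P P') (h' : Iso Q Q') (i : ℕ) :
    ic P Q i = ic P' Q' i := by
  unfold ic
  rw [fam_iso h, fam_iso h']

lemma leaf_card (P Q : BTree) (i : ℕ) :
    ic (.node P .leaf) (.node Q .leaf) (i + 1) ≤ ic P Q (i + 1) + ic P Q i := by
  classical
  refine (card_le_card (leaf_case P Q i)).trans ((card_union_le _ _).trans ?_)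
  exact Nat.add_le_add card_image_le le_rfl

/-- both trees have a leaf at the root -/
lemma sep_leaf {P Q : BTree} (hne : (⟦P⟧ : TreeClass) ≠ ⟦Q⟧)
    (hS : Sep P Q) : Sep (.node P .leaf) (.node Q .leaf) := by
  intro j
  have hs : (BTree.node P .leaf).size = P.size + 1 := rfl
  rw [hs]
  have h1 : (ic (.node P .leaf) (.node Q .leaf) (j + 1) : ℝ) ≤
      (ic P Q (j + 1) : ℝ) + (ic P Q j : ℝ) := by exact_mod_cast leaf_card P Q j
  refine h1.trans ?_
  have h2 := hS j
  have h5 : √(P.size : ℝ) ≤ √((P.size + 1 : ℕ) : ℝ) := by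
    apply Real.sqrt_le_sqrt
    push_cast
    linarith
  have hk := kap_pos (j + 1)
  cases j with
  | zero =>
    rw [ic_zero hne]
    simp only [Nat.cast_zero, add_zero, Nat.choose_zero_right, Nat.cast_one, mul_one] at h2 ⊢
    exact h2.trans (mul_le_mul_of_nonneg_left h5 hk.le)
  | succ k =>
    have h3 := hS k
    have h4 : kap (k + 1) ≤ kap (k + 1 + 1) := kap_mono (by omega)
    have h6 : (0 : ℝ) ≤ √(P.size : ℝ) := Real.sqrt_nonneg _
    have h7 : (ic P Q (k + 1) : ℝ) ≤ kap (k + 1 + 1) * √(P.size : ℝ) * (P.size.choose k : ℕ) := by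
      refine h3.trans ?_
      gcongr
    have h8 : (((P.size + 1).choose (k + 1) : ℕ) : ℝ) =
        (P.size.choose k : ℕ) + (P.size.choose (k + 1) : ℕ) := by
      rw [Nat.choose_succ_succ]
      push_cast
      ring
    rw [h8]
    have h9 : kap (k + 1 + 1) * √(P.size : ℝ) * (P.size.choose (k + 1) : ℕ) +
        kap (k + 1 + 1) * √(P.size : ℝ) * (P.size.choose k : ℕ) =
        kap (k + 1 + 1) * √(P.size : ℝ) *
          ((P.size.choose k : ℕ) + (P.size.choose (k + 1) : ℕ)) := by ring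
    refine (add_le_add h2 h7).trans ?_
    rw [h9]
    gcongr

lemma sep_main (N : ℕ) : ∀ P Q : BTree, P.size = N → Q.size = N →
    (⟦P⟧ : TreeClass) ≠ ⟦Q⟧ → Sep P Q := by
  induction N using Nat.strong_induction_on with
  | _ N IH =>
  intro P Q hP hQ hne
  by_cases hN : N < 2
  · rw [leaf_of_size (hP.trans_lt hN), leaf_of_size (hQ.trans_lt hN)] at hne
    exact absurd rfl hne
  push Not at hN
  -- the case of one tree with a leaf at the root
  have hmix : ∀ P Q : BTree, P.size = N → Q.size = N → (∃ P' : BTree, Iso P (.node P' .leaf)) →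
      (∃ Q1 Q2 : BTree, Q = .node Q1 Q2 ∧ 2 ≤ Q1.size ∧ 2 ≤ Q2.size) → Sep P Q := by
    rintro P Q hP hQ ⟨P', hP'⟩ ⟨Q1, Q2, rfl, hQ1, hQ2⟩ j
    by_cases hs : √(P.size : ℝ) ≤ kap (j + 1) * (j + 1)
    · exact sep_small hs
    push Not at hs
    obtain ⟨g1, g2, g3⟩ := large hs
    have e1 : P'.size + 1 = N := by
      have := size_iso hP'
      rw [hP] at this
      exact this.symm
    have e2 : Q1.size + Q2.size = N := hQ
    have hl : (BTree.leaf).size = 1 := rfl
    rw [ic_iso hP' (Iso.refl _)]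
    have e3 := case_ne (P1 := P') (P2 := .leaf) (Q1 := Q1) (Q2 := Q2) (by omega) (by omega)
      (by omega) j
    rw [hl, e1] at e3
    rw [hP] at hs g2 ⊢
    refine e3.trans ?_
    have hk := kap_ge j
    have hj : (0 : ℝ) ≤ j := Nat.cast_nonneg _
    have : 6 ≤ kap (j + 1) * √(N : ℝ) := by nlinarith
    exact mul_le_mul_of_nonneg_right this (Nat.cast_nonneg _)
  rcases leaf_or (T := P) (by omega) with hPl | hPn
  · rcases leaf_or (T := Q) (by omega) with hQl | hQn
    · obtain ⟨P', hP'⟩ := hPl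
      obtain ⟨Q', hQ'⟩ := hQl
      have e1 : P'.size + 1 = N := by
        have := size_iso hP'
        rw [hP] at this
        exact this.symm
      have e2 : Q'.size + 1 = N := by
        have := size_iso hQ'
        rw [hQ] at this
        exact this.symm
      have hne' : (⟦P'⟧ : TreeClass) ≠ ⟦Q'⟧ := by
        intro h
        apply hne
        have h1 : Iso P' Q' := Quotient.exact h
        exact Quotient.sound ((hP'.trans (Iso.node h1 (Iso.refl _))).trans hQ'.symm)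
      have hS := sep_leaf hne' (IH P'.size (by omega) P' Q' rfl (by omega) hne')
      intro j
      have h1 := hS j
      rw [ic_iso hP' hQ', size_iso hP']
      exact h1
    · exact hmix P Q hP hQ hPl hQn
  · rcases leaf_or (T := Q) (by omega) with hQl | hQn
    · exact (hmix Q P hQ hP hQl hPn).symm (by omega)
    · obtain ⟨P1, P2, rfl, hP1, hP2⟩ := hPn
      obtain ⟨Q1, Q2, rfl, hQ1, hQ2⟩ := hQn
      have e1 : P1.size + P2.size = N := hP
      have e2 : Q1.size + Q2.size = N := hQ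
      have hne1 : ¬((⟦P1⟧ : TreeClass) = ⟦Q1⟧ ∧ (⟦P2⟧ : TreeClass) = ⟦Q2⟧) := by
        rintro ⟨h1, h2⟩
        exact hne (Quotient.sound (Iso.node (Quotient.exact h1) (Quotient.exact h2)))
      have hne2 : ¬((⟦P1⟧ : TreeClass) = ⟦Q2⟧ ∧ (⟦P2⟧ : TreeClass) = ⟦Q1⟧) := by
        rintro ⟨h1, h2⟩
        exact hne (Quotient.sound (Iso.swap (Quotient.exact h1) (Quotient.exact h2)))
      intro j
      by_cases hs : √((BTree.node P1 P2).size : ℝ) ≤ kap (j + 1) * (j + 1)
      · exact sep_small hs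
      push Not at hs
      have hsz : (BTree.node P1 P2).size = P1.size + P2.size := rfl
      rw [hsz] at hs ⊢
      have IH' : ∀ X Y : BTree, X.size < N → X.size = Y.size →
          (⟦X⟧ : TreeClass) ≠ ⟦Y⟧ → Sep X Y := fun X Y h1 h2 h3 =>
        IH X.size h1 X Y rfl h2.symm h3
      by_cases h11 : P1.size = Q1.size
      · by_cases h12 : P1.size = P2.size
        · have e3 := case_eq_eq (P1 := P1) (P2 := P2) (Q1 := Q1) (Q2 := Q2) (m := P1.size) rfl
            (by omega) (by omega) (by omega) hne1 hne2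
            (fun X Y h1 h2 h3 => IH' X Y (by omega) (by omega) h3) j (by rwa [← h12] at hs)
          rwa [← h12]
        · exact case_eq_ne h11 (by omega) h12 hP1 hP2 hne1
            (fun h => IH' _ _ (by omega) (by omega) h) (fun h => IH' _ _ (by omega) (by omega) h)
            j hs
      · by_cases h12 : P1.size = Q2.size
        · rw [ic_iso (Iso.refl _) (Iso.swap (Iso.refl Q1) (Iso.refl Q2))]
          exact case_eq_ne h12 (by omega) (by omega) hP1 hP2 hne2
            (fun h => IH' _ _ (by omega) (by omega) h) (fun h => IH' _ _ (by omega) (by omega) h)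
            j hs
        · refine (case_ne (by omega) h11 h12 j).trans ?_
          obtain ⟨g1, g2, g3⟩ := large hs
          have hk := kap_ge j
          have hj : (0 : ℝ) ≤ j := Nat.cast_nonneg _
          have : 6 ≤ kap (j + 1) * √((P1.size + P2.size : ℕ) : ℝ) := by nlinarith
          exact mul_le_mul_of_nonneg_right this (Nat.cast_nonneg _)

open scoped Classical in
/-- **Separation.** Two trees with `n` leaves which are not isomorphic have at most
`10 * 4 ^ i * √n * C(n, i - 1)` common members after the deletion of `i` leaves. -/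
theorem separation (P Q : BTree) (h : P.size = Q.size) (hne : (⟦P⟧ : TreeClass) ≠ ⟦Q⟧) (j : ℕ) :
    ((fam P (j + 1) ∩ fam Q (j + 1)).card : ℝ) ≤
      kap (j + 1) * √(P.size : ℝ) * P.size.choose j :=
  sep_main P.size P Q rfl h.symm hne j

end LeafDeck
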