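import Pool.Agent.LeafDeck.Fam

/-!
Runs of pendant leaves, free runs and cherries, and the structure of the asymptotically extremal
trees.
-/

set_option autoImplicit false

namespace LeafDeck

open Finset BTree Filter

/-- `1` if both children of the root exist and are not leaves, `0` otherwise -/
def branching : BTree → ℕ
  | .node (.node _ _) (.node _ _) => 1
  | _ => 0

/-- the number of runs: a run is a maximal set of leaves hanging at consecutive vertices of a
path going down -/
def runs : BTree → ℕ
  | .leaf => 1
  | .node .leaf r => runs r + branching r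
  | .node l .leaf => runs l + branching l
  | .node l r => runs l + runs r

open scoped Classical in
/-- the number of free runs: the runs which do not lie in a subtree with at least two leaves whose
sibling subtree is isomorphic to it -/
noncomputable def freeRuns : BTree → ℕ
  | .leaf => 1
  | .node .leaf r => freeRuns r + branching r
  | .node l .leaf => freeRuns l + branching l
  | .node l r => if Iso l r then 0 else freeRuns l + freeRuns r

/-- the number of cherries: the vertices with two children which are leaves -/
def cherries : BTree → ℕ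
  | .leaf => 0
  | .node .leaf .leaf => 1
  | .node l r => cherries l + cherries r

lemma branching_le (T : BTree) : branching T ≤ 1 := by
  cases T with
  | leaf => exact Nat.zero_le _
  | node l r => cases l <;> cases r <;> simp [branching]

lemma branching_leaf_left (r : BTree) : branching (.node .leaf r) = 0 := by
  cases r <;> rfl

lemma branching_leaf_right (l : BTree) : branching (.node l .leaf) = 0 := by
  cases l <;> rfl

lemma runs_leaf_left (r : BTree) : runs (.node .leaf r) = runs r + branching r := by
  cases r <;> rfl

lemma runs_leaf_right (l : BTree) : runs (.node l .leaf) = runs l + branching l := by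
  cases l <;> rfl

lemma freeRuns_leaf_left (r : BTree) :
    freeRuns (.node .leaf r) = freeRuns r + branching r := by
  cases r <;> rfl

lemma freeRuns_leaf_right (l : BTree) :
    freeRuns (.node l .leaf) = freeRuns l + branching l := by
  cases l <;> rfl

/-- a tree is a leaf, or one child of the root is a leaf, or none is -/
lemma cases_tree {P : BTree → Prop} (h1 : P .leaf) (h2 : ∀ r, P r → P (.node .leaf r))
    (h3 : ∀ l, P l → P (.node l .leaf))
    (h4 : ∀ l r, 2 ≤ l.size → 2 ≤ r.size → P l → P r → P (.node l r)) : ∀ T, P T := by
  intro T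
  induction T with
  | leaf => exact h1
  | node l r ihl ihr =>
    cases l with
    | leaf => exact h2 r ihr
    | node a b =>
      cases r with
      | leaf => exact h3 _ ihl
      | node c e =>
        refine h4 _ _ ?_ ?_ ihl ihr
        · have := size_pos a
          have := size_pos b
          show 2 ≤ a.size + b.size
          omega
        · have := size_pos c
          have := size_pos e
          show 2 ≤ c.size + e.size
          omega

lemma eq_leaf_of_size {T : BTree} (h : T.size < 2) : T = .leaf := by
  cases T with
  | leaf => rfl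
  | node a b =>
    have := size_pos a
    have := size_pos b
    have : a.size + b.size < 2 := h
    omega

lemma branching_node {l r : BTree} (hl : 2 ≤ l.size) (hr : 2 ≤ r.size) :
    branching (.node l r) = 1 := by
  cases l with
  | leaf =>
    have : (BTree.leaf).size = 1 := rfl
    omega
  | node a b =>
    cases r with
    | leaf =>
      have : (BTree.leaf).size = 1 := rfl
      omega
    | node c e => rfl

lemma runs_node {l r : BTree} (hl : 2 ≤ l.size) (hr : 2 ≤ r.size) :
    runs (.node l r) = runs l + runs r := by
  cases l with
  | leaf =>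
    have : (BTree.leaf).size = 1 := rfl
    omega
  | node a b =>
    cases r with
    | leaf =>
      have : (BTree.leaf).size = 1 := rfl
      omega
    | node c e => rfl

open scoped Classical in
lemma freeRuns_node {l r : BTree} (hl : 2 ≤ l.size) (hr : 2 ≤ r.size) :
    freeRuns (.node l r) = if Iso l r then 0 else freeRuns l + freeRuns r := by
  cases l with
  | leaf =>
    have : (BTree.leaf).size = 1 := rfl
    omega
  | node a b =>
    cases r with
    | leaf =>
      have : (BTree.leaf).size = 1 := rfl
      omega
    | node c e => rfl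

lemma cherries_leaf_left {r : BTree} (hr : 2 ≤ r.size) :
    cherries (.node .leaf r) = cherries r := by
  cases r with
  | leaf =>
    have : (BTree.leaf).size = 1 := rfl
    omega
  | node c e => exact Nat.zero_add _

lemma cherries_node {l r : BTree} (hl : 2 ≤ l.size) :
    cherries (.node l r) = cherries l + cherries r := by
  cases l with
  | leaf =>
    have : (BTree.leaf).size = 1 := rfl
    omega
  | node a b => cases r <;> rfl

/-! ### inequalities between the numbers of leaves, runs and cherries -/

lemma runs_le_aux (T : BTree) : (2 ≤ T.size → 3 * runs T + 1 ≤ 2 * T.size) ∧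
    (branching T = 1 → 3 * runs T + 2 ≤ 2 * T.size) := by
  refine cases_tree (P := fun T => (2 ≤ T.size → 3 * runs T + 1 ≤ 2 * T.size) ∧
    (branching T = 1 → 3 * runs T + 2 ≤ 2 * T.size)) ?_ ?_ ?_ ?_ T
  · refine ⟨fun h => ?_, fun h => ?_⟩
    · have : (BTree.leaf).size = 1 := rfl
      omega
    · exact absurd h (by decide)
  · intro r ih
    have hs : (BTree.node .leaf r).size = 1 + r.size := rfl
    rw [hs, runs_leaf_left, branching_leaf_left]
    refine ⟨fun _ => ?_, fun h => absurd h (by decide)⟩
    have hb := branching_le r
    rcases Nat.lt_or_ge r.size 2 with h | h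
    · rw [eq_leaf_of_size h]
      decide
    · have h1 := ih.1 h
      rcases Nat.lt_or_ge (branching r) 1 with h2 | h2
      · omega
      · have h3 := ih.2 (by omega)
        omega
  · intro l ih
    have hs : (BTree.node l .leaf).size = l.size + 1 := rfl
    rw [hs, runs_leaf_right, branching_leaf_right]
    refine ⟨fun _ => ?_, fun h => absurd h (by decide)⟩
    have hb := branching_le l
    rcases Nat.lt_or_ge l.size 2 with h | h
    · rw [eq_leaf_of_size h]
      decide
    · have h1 := ih.1 h
      rcases Nat.lt_or_ge (branching l) 1 with h2 | h2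
      · omega
      · have h3 := ih.2 (by omega)
        omega
  · intro l r hl hr ihl ihr
    have hs : (BTree.node l r).size = l.size + r.size := rfl
    rw [hs, runs_node hl hr]
    have h1 := ihl.1 hl
    have h2 := ihr.1 hr
    exact ⟨fun _ => by omega, fun _ => by omega⟩

/-- there are at most `(2 n - 1) / 3` runs -/
theorem runs_le {T : BTree} (h : 2 ≤ T.size) : 3 * runs T + 1 ≤ 2 * T.size :=
  (runs_le_aux T).1 h

lemma cherries_aux (T : BTree) : (2 ≤ T.size → runs T + 1 ≤ 2 * cherries T) ∧
    (branching T = 1 → runs T + 2 ≤ 2 * cherries T) := by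
  refine cases_tree (P := fun T => (2 ≤ T.size → runs T + 1 ≤ 2 * cherries T) ∧
    (branching T = 1 → runs T + 2 ≤ 2 * cherries T)) ?_ ?_ ?_ ?_ T
  · refine ⟨fun h => ?_, fun h => ?_⟩
    · have : (BTree.leaf).size = 1 := rfl
      omega
    · exact absurd h (by decide)
  · intro r ih
    rw [runs_leaf_left, branching_leaf_left]
    refine ⟨fun _ => ?_, fun h => absurd h (by decide)⟩
    have hb := branching_le r
    rcases Nat.lt_or_ge r.size 2 with h | h
    · rw [eq_leaf_of_size h]
      decide
    · rw [cherries_leaf_left h]
      have h1 := ih.1 h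
      rcases Nat.lt_or_ge (branching r) 1 with h2 | h2
      · omega
      · have h3 := ih.2 (by omega)
        omega
  · intro l ih
    rw [runs_leaf_right, branching_leaf_right]
    refine ⟨fun _ => ?_, fun h => absurd h (by decide)⟩
    have hb := branching_le l
    rcases Nat.lt_or_ge l.size 2 with h | h
    · rw [eq_leaf_of_size h]
      decide
    · have hc : cherries (BTree.leaf) = 0 := rfl
      rw [cherries_node h, hc]
      have h1 := ih.1 h
      rcases Nat.lt_or_ge (branching l) 1 with h2 | h2
      · omega
      · have h3 := ih.2 (by omega)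
        omega
  · intro l r hl hr ihl ihr
    rw [runs_node hl hr, cherries_node hl]
    have h1 := ihl.1 hl
    have h2 := ihr.1 hr
    exact ⟨fun _ => by omega, fun _ => by omega⟩

/-- there are at most `2 c - 1` runs -/
theorem runs_cherries {T : BTree} (h : 2 ≤ T.size) : runs T + 1 ≤ 2 * cherries T :=
  (cherries_aux T).1 h

/-- runs and cherries together are at most the number of leaves -/
theorem runs_add_cherries (T : BTree) : runs T + cherries T ≤ T.size := by
  refine cases_tree (P := fun T => runs T + cherries T ≤ T.size) ?_ ?_ ?_ ?_ T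
  · exact le_rfl
  · intro r ih
    have hs : (BTree.node .leaf r).size = 1 + r.size := rfl
    rw [hs, runs_leaf_left]
    have hb := branching_le r
    rcases Nat.lt_or_ge r.size 2 with h | h
    · rw [eq_leaf_of_size h]
      decide
    · rw [cherries_leaf_left h]
      omega
  · intro l ih
    have hs : (BTree.node l .leaf).size = l.size + 1 := rfl
    rw [hs, runs_leaf_right]
    have hb := branching_le l
    rcases Nat.lt_or_ge l.size 2 with h | h
    · rw [eq_leaf_of_size h]
      decide
    · have hc : cherries (BTree.leaf) = 0 := rfl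
      rw [cherries_node h, hc]
      omega
  · intro l r hl hr ihl ihr
    have hs : (BTree.node l r).size = l.size + r.size := rfl
    rw [hs, runs_node hl hr, cherries_node hl]
    omega

/-! ### the classes obtained by deleting one leaf -/

lemma mem_fam_one_node {l r : BTree} {o : Option TreeClass} :
    o ∈ fam (.node l r) 1 ↔ (∃ b ∈ fam r 1, joinQ (some ⟦l⟧) b = o) ∨
      (∃ a ∈ fam l 1, joinQ a (some ⟦r⟧) = o) := by
  rw [mem_fam_node]
  constructor
  · rintro ⟨i, j, h, a, ha, b, hb, rfl⟩
    rcases Nat.eq_zero_or_pos i with hi | hi
    · subst hi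
      have hj : j = 1 := by omega
      subst hj
      rw [fam_zero, mem_singleton] at ha
      subst ha
      exact Or.inl ⟨b, hb, rfl⟩
    · have hi' : i = 1 := by omega
      have hj : j = 0 := by omega
      subst hi'
      subst hj
      rw [fam_zero, mem_singleton] at hb
      subst hb
      exact Or.inr ⟨a, ha, rfl⟩
  · rintro (⟨b, hb, rfl⟩ | ⟨a, ha, rfl⟩)
    · exact ⟨0, 1, rfl, some ⟦l⟧, by rw [fam_zero]; simp, b, hb, rfl⟩
    · exact ⟨1, 0, rfl, a, ha, some ⟦r⟧, by rw [fam_zero]; simp, rfl⟩

lemma leafQ_eq : (⟦BTree.leaf⟧ : TreeClass) = leafQ := rfl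

open scoped Classical in
lemma fam_leaf_node (r : BTree) : fam (.node .leaf r) 1 =
    insert (some ⟦r⟧) ((fam r 1).image fun b => joinQ b (some leafQ)) := by
  ext o
  rw [mem_fam_one_node, mem_insert, mem_image]
  constructor
  · rintro (⟨b, hb, rfl⟩ | ⟨a, ha, rfl⟩)
    · right
      exact ⟨b, hb, by rw [joinQ_comm]; rfl⟩
    · left
      rcases mem_fam_leaf.1 ha with ⟨h, _⟩ | ⟨_, rfl⟩
      · exact absurd h (by decide)
      · exact joinQ_none_left _
  · rintro (rfl | ⟨b, hb, rfl⟩)
    · right
      exact ⟨none, mem_fam_leaf.2 (Or.inr ⟨rfl, rfl⟩), joinQ_none_left _⟩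
    · left
      exact ⟨b, hb, joinQ_comm _ _⟩

open scoped Classical in
/-- the number of classes obtained by deleting one leaf, if one child of the root is a leaf -/
theorem card_fam_one_leaf (r : BTree) :
    (fam (.node .leaf r) 1).card = (fam r 1).card + branching r := by
  have hinj : ((fam r 1).image fun b => joinQ b (some leafQ)).card = (fam r 1).card :=
    card_image_of_injective _ fun a b h => joinQ_leaf_inj h
  rw [fam_leaf_node]
  have key : ∀ {s : Finset (Option TreeClass)} {x : Option TreeClass}, x ∈ s →
      (insert x s).card = s.card + 0 := fun h => by rw [insert_eq_of_mem h, add_zero]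
  cases r with
  | leaf =>
    rw [← hinj]
    refine key (mem_image.2 ⟨none, ?_, ?_⟩)
    · exact mem_fam_leaf.2 (Or.inr ⟨rfl, rfl⟩)
    · exact joinQ_none_left _
  | node a b =>
    cases a with
    | leaf =>
      rw [branching_leaf_left, ← hinj]
      refine key (mem_image.2 ⟨some ⟦b⟧, ?_, ?_⟩)
      · exact mem_fam_one_node.2 (Or.inr ⟨none, mem_fam_leaf.2 (Or.inr ⟨rfl, rfl⟩),
          joinQ_none_left _⟩)
      · rw [joinQ_comm]
        rfl
    | node a1 a2 =>
      cases b with
      | leaf =>
        rw [branching_leaf_right, ← hinj]
        refine key (mem_image.2 ⟨some ⟦BTree.node a1 a2⟧, ?_, ?_⟩)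
        · exact mem_fam_one_node.2 (Or.inl ⟨none, mem_fam_leaf.2 (Or.inr ⟨rfl, rfl⟩),
            joinQ_none_right _⟩)
        · rfl
      | node b1 b2 =>
        rw [card_insert_of_notMem, hinj]
        · rfl
        · intro h
          obtain ⟨x, hx, hx'⟩ := mem_image.1 h
          have e : (some ⟦BTree.node (.node a1 a2) (.node b1 b2)⟧ : Option TreeClass) =
            joinQ (some ⟦BTree.node a1 a2⟧) (some ⟦BTree.node b1 b2⟧) := rfl
          have p1 := size_pos a1
          have p2 := size_pos a2
          have p3 := size_pos b1
          have p4 := size_pos b2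
          have s1 : (BTree.node a1 a2).size = a1.size + a2.size := rfl
          have s2 : (BTree.node b1 b2).size = b1.size + b2.size := rfl
          have hx0 : x ≠ none := by
            rintro rfl
            have h1 := congrArg qsize hx'
            rw [e] at h1
            simp only [qsize_joinQ, qsize_none, qsize_some, csize_mk, csize_leafQ] at h1
            omega
          rw [e] at hx'
          rcases joinQ_inj hx0 (by simp) (by simp) (by simp) hx' with ⟨_, h2⟩ | ⟨_, h2⟩
          · have h3 := congrArg qsize h2
            simp only [qsize_some, csize_mk, csize_leafQ] at h3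
            omega
          · have h3 := congrArg qsize h2
            simp only [qsize_some, csize_mk, csize_leafQ] at h3
            omega

lemma ne_none_of_mem {T : BTree} (hT : 2 ≤ T.size) {o : Option TreeClass} (h : o ∈ fam T 1) :
    o ≠ none := by
  rintro rfl
  have := none_mem_fam.1 h
  omega

open scoped Classical in
lemma fam_node_one (l r : BTree) : fam (.node l r) 1 =
    ((fam r 1).image fun b => joinQ (some ⟦l⟧) b) ∪
      ((fam l 1).image fun a => joinQ a (some ⟦r⟧)) := by
  ext o
  rw [mem_fam_one_node, mem_union, mem_image, mem_image]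

open scoped Classical in
/-- the number of classes obtained by deleting one leaf, if the children of the root are not
leaves -/
theorem card_fam_one_node {l r : BTree} (hl : 2 ≤ l.size) (hr : 2 ≤ r.size) :
    (fam (.node l r) 1).card =
      if Iso l r then (fam l 1).card else (fam l 1).card + (fam r 1).card := by
  have i1 : ((fam r 1).image fun b => joinQ (some ⟦l⟧) b).card = (fam r 1).card := by
    refine card_image_of_injOn fun b hb c hc h => ?_
    have hb0 := ne_none_of_mem hr hb
    have hc0 := ne_none_of_mem hr hc
    rcases joinQ_inj (by simp) hb0 (by simp) hc0 h with ⟨_, h2⟩ | ⟨h1, h2⟩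
    · exact h2
    · rw [h2, h1]
  have i2 : ((fam l 1).image fun a => joinQ a (some ⟦r⟧)).card = (fam l 1).card := by
    refine card_image_of_injOn fun b hb c hc h => ?_
    have hb0 := ne_none_of_mem hl hb
    have hc0 := ne_none_of_mem hl hc
    rcases joinQ_inj hb0 (by simp) hc0 (by simp) h with ⟨h1, _⟩ | ⟨h1, h2⟩
    · exact h1
    · rw [h1, h2]
  rw [fam_node_one]
  split_ifs with hi
  · have e : (⟦l⟧ : TreeClass) = ⟦r⟧ := Quotient.sound hi
    have hu : ((fam r 1).image fun b => joinQ (some ⟦l⟧) b) =
        ((fam l 1).image fun a => joinQ a (some ⟦r⟧)) := by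
      rw [fam_iso hi, e]
      refine image_congr fun b _ => ?_
      exact joinQ_comm _ _
    rw [hu, union_idempotent, i2]
  · rw [card_union_of_disjoint, i1, i2, add_comm]
    rw [disjoint_left]
    intro o ho ho'
    obtain ⟨b, hb, rfl⟩ := mem_image.1 ho
    obtain ⟨a, ha, h⟩ := mem_image.1 ho'
    rcases joinQ_inj (ne_none_of_mem hl ha) (by simp) (by simp) (ne_none_of_mem hr hb) h with
      ⟨h1, _⟩ | ⟨_, h2⟩
    · have h3 := fam_qsize ha
      rw [h1] at h3
      simp only [qsize_some, csize_mk] at h3
      omega
    · exact hi (Quotient.exact (Option.some_injective _ h2).symm)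

/-- the free runs are at most the classes obtained by deleting one leaf -/
theorem freeRuns_le (T : BTree) : freeRuns T ≤ (fam T 1).card := by
  refine cases_tree (P := fun T => freeRuns T ≤ (fam T 1).card) ?_ ?_ ?_ ?_ T
  · show 1 ≤ (fam .leaf 1).card
    simp [fam]
  · intro r ih
    rw [card_fam_one_leaf, freeRuns_leaf_left]
    omega
  · intro l ih
    rw [fam_swap, card_fam_one_leaf, freeRuns_leaf_right]
    omega
  · intro l r hl hr ihl ihr
    classical
    rw [card_fam_one_node hl hr, freeRuns_node hl hr]
    split_ifs
    · exact Nat.zero_le _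
    · omega

/-- twice the number of classes obtained by deleting one leaf is at most the number of runs plus
the number of free runs -/
theorem two_card_fam_one_le (T : BTree) : 2 * (fam T 1).card ≤ runs T + freeRuns T := by
  refine cases_tree (P := fun T => 2 * (fam T 1).card ≤ runs T + freeRuns T) ?_ ?_ ?_ ?_ T
  · show 2 * (fam .leaf 1).card ≤ 1 + 1
    simp [fam]
  · intro r ih
    rw [card_fam_one_leaf, freeRuns_leaf_left, runs_leaf_left]
    omega
  · intro l ih
    rw [fam_swap, card_fam_one_leaf, freeRuns_leaf_right, runs_leaf_right]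
    omega
  · intro l r hl hr ihl ihr
    classical
    rw [card_fam_one_node hl hr, freeRuns_node hl hr, runs_node hl hr]
    split_ifs with hi
    · have h1 := freeRuns_le l
      have h2 := freeRuns_le r
      have h3 : (fam l 1).card = (fam r 1).card := by rw [fam_iso hi]
      omega
    · omega

/-- the classes obtained by deleting one leaf are at most as many as the runs -/
theorem card_fam_one_le_runs (T : BTree) : (fam T 1).card ≤ runs T := by
  have h1 := freeRuns_le T
  have h2 := two_card_fam_one_le T
  omega

/-! ### independence of the drawing -/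

lemma iso_leaf {T : BTree} (h : Iso .leaf T) : T = .leaf :=
  eq_leaf_of_size (by rw [← size_iso h]; decide)

lemma branching_iso {a b : BTree} (h : Iso a b) : branching a = branching b := by
  have h1 : ∀ T : BTree, branching T = 1 ↔ ∃ l r, T = .node l r ∧ 2 ≤ l.size ∧ 2 ≤ r.size := by
    intro T
    constructor
    · intro hT
      cases T with
      | leaf => exact absurd hT (by decide)
      | node l r =>
        refine ⟨l, r, rfl, ?_, ?_⟩
        · by_contra hc
          rw [eq_leaf_of_size (Nat.lt_of_not_le hc), branching_leaf_left] at hT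
          omega
        · by_contra hc
          rw [eq_leaf_of_size (Nat.lt_of_not_le hc), branching_leaf_right] at hT
          omega
    · rintro ⟨l, r, rfl, hl, hr⟩
      exact branching_node hl hr
  have h2 : ∀ {a b : BTree}, Iso a b → branching a = 1 → branching b = 1 := by
    intro a b h ha
    obtain ⟨l, r, rfl, hl, hr⟩ := (h1 a).1 ha
    cases h with
    | node k1 k2 =>
      rw [size_iso k1] at hl
      rw [size_iso k2] at hr
      exact branching_node hl hr
    | swap k1 k2 =>
      rw [size_iso k1] at hl
      rw [size_iso k2] at hr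
      exact branching_node hr hl
  have h3 := branching_le a
  have h4 := branching_le b
  rcases Nat.lt_or_ge (branching a) 1 with h5 | h5
  · rcases Nat.lt_or_ge (branching b) 1 with h6 | h6
    · omega
    · have := h2 h.symm (by omega)
      omega
  · have := h2 h (by omega)
    omega

/-- the three numbers only depend on the isomorphism class -/
theorem numbers_iso {a b : BTree} (h : Iso a b) :
    runs a = runs b ∧ freeRuns a = freeRuns b ∧ cherries a = cherries b := by
  classical
  have comm : ∀ l r : BTree, runs (.node l r) = runs (.node r l) ∧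
      freeRuns (.node l r) = freeRuns (.node r l) ∧
        cherries (.node l r) = cherries (.node r l) := by
    intro l r
    rcases Nat.lt_or_ge l.size 2 with hl | hl
    · rw [eq_leaf_of_size hl]
      refine ⟨by rw [runs_leaf_left, runs_leaf_right],
        by rw [freeRuns_leaf_left, freeRuns_leaf_right], ?_⟩
      rcases Nat.lt_or_ge r.size 2 with hr | hr
      · rw [eq_leaf_of_size hr]
      · rw [cherries_leaf_left hr, cherries_node hr]
        rfl
    · rcases Nat.lt_or_ge r.size 2 with hr | hr
      · rw [eq_leaf_of_size hr]
        refine ⟨by rw [runs_leaf_left, runs_leaf_right],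
          by rw [freeRuns_leaf_left, freeRuns_leaf_right], ?_⟩
        rw [cherries_leaf_left hl, cherries_node hl]
        rfl
      · rw [runs_node hl hr, runs_node hr hl, freeRuns_node hl hr, freeRuns_node hr hl,
          cherries_node hl, cherries_node hr]
        refine ⟨add_comm _ _, ?_, add_comm _ _⟩
        by_cases hi : Iso l r
        · rw [if_pos hi, if_pos hi.symm]
        · rw [if_neg hi, if_neg (fun hc => hi hc.symm), add_comm]
  have hnode : ∀ l r l' r' : BTree, Iso l l' → Iso r r' →
      (runs l = runs l' ∧ freeRuns l = freeRuns l' ∧ cherries l = cherries l') →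
      (runs r = runs r' ∧ freeRuns r = freeRuns r' ∧ cherries r = cherries r') →
      runs (.node l r) = runs (.node l' r') ∧ freeRuns (.node l r) = freeRuns (.node l' r') ∧
        cherries (.node l r) = cherries (.node l' r') := by
    intro l r l' r' kl kr hl hr
    have sl := size_iso kl
    have sr := size_iso kr
    have bl := branching_iso kl
    have br := branching_iso kr
    rcases Nat.lt_or_ge l.size 2 with h2 | h2
    · have e1 := eq_leaf_of_size h2
      have e2 : l' = .leaf := eq_leaf_of_size (by omega)
      subst e1
      subst e2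
      rw [runs_leaf_left, runs_leaf_left, freeRuns_leaf_left, freeRuns_leaf_left, br, hr.1,
        hr.2.1]
      refine ⟨rfl, rfl, ?_⟩
      rcases Nat.lt_or_ge r.size 2 with h3 | h3
      · rw [eq_leaf_of_size h3, eq_leaf_of_size (show r'.size < 2 by omega)]
      · rw [cherries_leaf_left h3, cherries_leaf_left (by omega), hr.2.2]
    · rcases Nat.lt_or_ge r.size 2 with h3 | h3
      · have e1 := eq_leaf_of_size h3
        have e2 : r' = .leaf := eq_leaf_of_size (by omega)
        subst e1
        subst e2
        rw [runs_leaf_right, runs_leaf_right, freeRuns_leaf_right, freeRuns_leaf_right, bl, hl.1,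
          hl.2.1, cherries_node h2, cherries_node (by omega), hl.2.2]
        exact ⟨rfl, rfl, rfl⟩
      · rw [runs_node h2 h3, runs_node (by omega) (by omega), freeRuns_node h2 h3,
          freeRuns_node (by omega) (by omega), cherries_node h2, cherries_node (by omega), hl.1,
          hl.2.1, hl.2.2, hr.1, hr.2.1, hr.2.2]
        refine ⟨rfl, ?_, rfl⟩
        by_cases hi : Iso l r
        · rw [if_pos hi, if_pos ((kl.symm.trans hi).trans kr)]
        · rw [if_neg hi, if_neg (fun hc => hi ((kl.trans hc).trans kr.symm))]
  induction h with
  | leaf => exact ⟨rfl, rfl, rfl⟩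
  | node k1 k2 h1 h2 => exact hnode _ _ _ _ k1 k2 h1 h2
  | @swap a b a' b' k1 k2 h1 h2 =>
    obtain ⟨c1, c2, c3⟩ := comm b' a'
    obtain ⟨d1, d2, d3⟩ := hnode _ _ _ _ k1 k2 h1 h2
    exact ⟨d1.trans c1.symm, d2.trans c2.symm, d3.trans c3.symm⟩

/-! ### the asymptotic structure -/

lemma deck_one_eq {T : BTree} (h : 2 ≤ T.size) :
    (deck T (T.size - 1)).ncard = (fam T 1).card := (card_fam_eq (by omega)).symm

/-- the inequalities after division by the number of leaves -/
lemma ratios {T : BTree} (h : 2 ≤ T.size) :
    (freeRuns T : ℝ) / T.size ≤ ((deck T (T.size - 1)).ncard : ℝ) / T.size ∧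
      2 * (((deck T (T.size - 1)).ncard : ℝ) / T.size) ≤
        (runs T : ℝ) / T.size + (freeRuns T : ℝ) / T.size ∧
      (runs T : ℝ) / T.size ≤ 2 / 3 ∧
      (runs T : ℝ) / T.size ≤ 2 * ((cherries T : ℝ) / T.size) ∧
      (runs T : ℝ) / T.size + (cherries T : ℝ) / T.size ≤ 1 := by
  have h0 : (0 : ℝ) < T.size := by
    have : 0 < T.size := by omega
    exact_mod_cast this
  rw [deck_one_eq h]
  have h1 : (freeRuns T : ℝ) ≤ (fam T 1).card := by exact_mod_cast freeRuns_le T
  have h2 : 2 * ((fam T 1).card : ℝ) ≤ runs T + freeRuns T := by
    exact_mod_cast two_card_fam_one_le T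
  have h3 : 3 * (runs T : ℝ) + 1 ≤ 2 * T.size := by exact_mod_cast runs_le h
  have h4 : (runs T : ℝ) + 1 ≤ 2 * cherries T := by exact_mod_cast runs_cherries h
  have h5 : (runs T : ℝ) + cherries T ≤ T.size := by exact_mod_cast runs_add_cherries T
  refine ⟨?_, ?_, ?_, ?_, ?_⟩
  · exact (div_le_div_iff_of_pos_right h0).2 h1
  · rw [← add_div, ← mul_div_assoc]
    exact (div_le_div_iff_of_pos_right h0).2 h2
  · rw [div_le_div_iff₀ h0 (by norm_num)]
    linarith
  · rw [← mul_div_assoc]
    exact (div_le_div_iff_of_pos_right h0).2 (by linarith)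
  · rw [← add_div, div_le_one h0]
    exact h5

/-- the number of classes obtained by deleting one leaf is asymptotically `2 n / 3` iff the number
of free runs is -/
theorem tendsto_free_iff (T : ℕ → BTree) (hT : Tendsto (fun k => (T k).size) atTop atTop) :
    Tendsto (fun k => ((deck (T k) ((T k).size - 1)).ncard : ℝ) / ((T k).size : ℝ)) atTop
        (nhds (2 / 3)) ↔
      Tendsto (fun k => (freeRuns (T k) : ℝ) / ((T k).size : ℝ)) atTop (nhds (2 / 3)) := by
  have hev := hT.eventually_ge_atTop 2
  constructor
  · intro h
    have h1 : Tendsto (fun k => 2 * (((deck (T k) ((T k).size - 1)).ncard : ℝ) /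
        ((T k).size : ℝ)) - 2 / 3) atTop (nhds (2 / 3)) := by
      have := (h.const_mul 2).sub_const (2 / 3)
      have e : (2 : ℝ) * (2 / 3) - 2 / 3 = 2 / 3 := by norm_num
      rwa [e] at this
    refine tendsto_of_tendsto_of_tendsto_of_le_of_le' h1 h ?_ ?_
    · filter_upwards [hev] with k hk
      obtain ⟨-, r2, r3, -, -⟩ := ratios hk
      linarith
    · filter_upwards [hev] with k hk
      exact (ratios hk).1
  · intro h
    have h1 : Tendsto (fun k => ((freeRuns (T k) : ℝ) / ((T k).size : ℝ) + 2 / 3) / 2) atTop
        (nhds (2 / 3)) := by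
      have := (h.add_const (2 / 3)).div_const 2
      have e : ((2 : ℝ) / 3 + 2 / 3) / 2 = 2 / 3 := by norm_num
      rwa [e] at this
    refine tendsto_of_tendsto_of_tendsto_of_le_of_le' h h1 ?_ ?_
    · filter_upwards [hev] with k hk
      exact (ratios hk).1
    · filter_upwards [hev] with k hk
      obtain ⟨-, r2, r3, -, -⟩ := ratios hk
      linarith

/-- if the number of free runs is asymptotically `2 n / 3`, then so is the number of runs, and
the number of cherries is asymptotically `n / 3` -/
theorem tendsto_runs_cherries (T : ℕ → BTree)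
    (hT : Tendsto (fun k => (T k).size) atTop atTop)
    (h : Tendsto (fun k => (freeRuns (T k) : ℝ) / ((T k).size : ℝ)) atTop (nhds (2 / 3))) :
    Tendsto (fun k => (runs (T k) : ℝ) / ((T k).size : ℝ)) atTop (nhds (2 / 3)) ∧
      Tendsto (fun k => (cherries (T k) : ℝ) / ((T k).size : ℝ)) atTop (nhds (1 / 3)) := by
  have hev := hT.eventually_ge_atTop 2
  have hR : Tendsto (fun k => (runs (T k) : ℝ) / ((T k).size : ℝ)) atTop (nhds (2 / 3)) := by
    refine tendsto_of_tendsto_of_tendsto_of_le_of_le' h
      (tendsto_const_nhds (x := (2 / 3 : ℝ))) ?_ ?_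
    · filter_upwards [hev] with k hk
      obtain ⟨r1, r2, -, -, -⟩ := ratios hk
      linarith
    · filter_upwards [hev] with k hk
      exact (ratios hk).2.2.1
  refine ⟨hR, ?_⟩
  have h1 : Tendsto (fun k => ((runs (T k) : ℝ) / ((T k).size : ℝ)) / 2) atTop
      (nhds (1 / 3)) := by
    have := hR.div_const 2
    have e : ((2 : ℝ) / 3) / 2 = 1 / 3 := by norm_num
    rwa [e] at this
  have h2 : Tendsto (fun k => 1 - (runs (T k) : ℝ) / ((T k).size : ℝ)) atTop
      (nhds (1 / 3)) := by
    have := hR.const_sub 1
    have e : (1 : ℝ) - 2 / 3 = 1 / 3 := by norm_num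
    rwa [e] at this
  refine tendsto_of_tendsto_of_tendsto_of_le_of_le' h1 h2 ?_ ?_
  · filter_upwards [hev] with k hk
    obtain ⟨-, -, -, r4, -⟩ := ratios hk
    linarith
  · filter_upwards [hev] with k hk
    obtain ⟨-, -, -, -, r5⟩ := ratios hk
    linarith

end LeafDeck
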