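import Pool.Agent.LeafDeck.Extremal
import Pool.Agent.LeafDeck.Struct

/-!
Stability: a tree whose deck is nearly as large as possible has nearly `2 n / 3` classes after the
deletion of one leaf, uniformly in the number `d` of deleted leaves, for `100 d ^ 2 ≤ n`.
-/

set_option autoImplicit false

namespace LeafDeck

open Finset BTree Filter

section Series

open PowerSeries

lemma vv_eq : vv = 1 + X ^ 2 * vv := by
  ext d
  rw [map_add, coeff_X_pow_mul']
  simp only [vv, coeff_mk, coeff_one]
  rcases Nat.lt_or_ge d 2 with h | h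
  · rw [if_neg (by omega : ¬ 2 ≤ d)]
    rcases Nat.lt_or_ge d 1 with h' | h'
    · obtain rfl : d = 0 := by omega
      simp
    · obtain rfl : d = 1 := by omega
      simp
  · rw [if_pos h, if_neg (by omega : ¬ d = 0)]
    have h1 : (d - 2) % 2 = d % 2 := by omega
    rw [h1, zero_add]

/-- the error of the sharper bound for the coefficients -/
def tail (r s d : ℕ) : ℕ := if d < 2 then 0 else s * Nat.multichoose (r + s) (d - 2)

lemma coeff_uv_sharp (r s d : ℕ) :
    coeff d (uu ^ r * vv ^ s) ≤ Nat.multichoose r d + tail r s d := by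
  induction s with
  | zero =>
    rw [pow_zero, mul_one, coeff_uu]
    omega
  | succ s ih =>
    have h1 : uu ^ r * vv ^ (s + 1) = uu ^ r * vv ^ s + X ^ 2 * (uu ^ r * vv ^ (s + 1)) := by
      have h2 : uu ^ r * vv ^ (s + 1) = uu ^ r * vv ^ s * vv := by rw [pow_succ, mul_assoc]
      calc uu ^ r * vv ^ (s + 1) = uu ^ r * vv ^ s * vv := h2
        _ = uu ^ r * vv ^ s * (1 + X ^ 2 * vv) := by rw [← vv_eq]
        _ = uu ^ r * vv ^ s + X ^ 2 * (uu ^ r * vv ^ s * vv) := by ring
        _ = _ := by rw [← h2]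
    rw [h1, map_add, coeff_X_pow_mul']
    unfold tail at ih ⊢
    by_cases hd : d < 2
    · rw [if_pos hd] at ih ⊢
      rw [if_neg (by omega : ¬ 2 ≤ d)]
      exact ih
    · rw [if_neg hd] at ih ⊢
      rw [if_pos (by omega : 2 ≤ d)]
      have h3 : coeff (d - 2) (uu ^ r * vv ^ (s + 1)) ≤
          Nat.multichoose (r + (s + 1)) (d - 2) := by
        have := uv_le_uu (r := r) (s := s + 1) (d - 2)
        rwa [coeff_uu] at this
      have h4 : Nat.multichoose (r + s) (d - 2) ≤ Nat.multichoose (r + (s + 1)) (d - 2) :=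
        multichoose_mono (by omega) _
      have h5 := Nat.mul_le_mul_left s h4
      have h6 : (s + 1) * Nat.multichoose (r + (s + 1)) (d - 2) =
          s * Nat.multichoose (r + (s + 1)) (d - 2) +
            Nat.multichoose (r + (s + 1)) (d - 2) := by ring
      rw [h6]
      omega

end Series

/-- `exp t ≤ 1 + 2 t` for small `t` -/
lemma exp_le {t : ℝ} (h0 : 0 ≤ t) (h1 : t ≤ 1) : Real.exp t ≤ 1 + 2 * t := by
  have h2 := Real.abs_exp_sub_one_le (x := t) (by rw [abs_of_nonneg h0]; exact h1)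
  rw [abs_of_nonneg h0] at h2
  have h3 := (abs_le.1 h2).2
  linarith

/-- `exp (-2 u) ≤ 1 - u` for small `u` -/
lemma exp_neg_le {u : ℝ} (h0 : 0 ≤ u) (h1 : u ≤ 1 / 2) : Real.exp (-(2 * u)) ≤ 1 - u := by
  rw [Real.exp_neg, inv_le_comm₀ (Real.exp_pos _) (by linarith)]
  have h2 := Real.add_one_le_exp (2 * u)
  refine le_trans ?_ h2
  rw [inv_le_iff_one_le_mul₀ (by linarith)]
  nlinarith

theorem stab {T : BTree} {d : ℕ} {δ : ℝ} (hd : 1 ≤ d) (hn : 100 * d ^ 2 ≤ T.size)
    (hδ0 : 0 ≤ δ) (hδ : δ ≤ 1 / 8)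
    (h : (1 - δ) * (maxDeck T.size (T.size - d) : ℝ) ≤
      ((deck T (T.size - d)).ncard : ℝ)) :
    (1 - 4 * δ / d) * (2 * T.size / 3) - 27 * d ≤ ((deck T (T.size - 1)).ncard : ℝ) := by
  set n := T.size with hnT
  have hd2 : d ≤ d ^ 2 := Nat.le_self_pow (by norm_num) _
  have hdn : d < n := by omega
  have hn4 : 4 ≤ n := by omega
  have hn0 : (0 : ℝ) < n := by
    have : 0 < n := by omega
    exact_mod_cast this
  have hd0 : (1 : ℝ) ≤ d := by exact_mod_cast hd
  have hdpos : (0 : ℝ) < d := by linarith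
  have hnd : 100 * (d : ℝ) ^ 2 ≤ n := by exact_mod_cast hn
  have hf : (0 : ℝ) < d.factorial := by exact_mod_cast Nat.factorial_pos d
  rw [← card_fam_eq (T := T) (by omega : d < T.size)] at h
  rw [← card_fam_eq (T := T) (by omega : 1 < T.size)]
  set N : ℝ := 2 * n / 3 with hN
  have hNpos : 0 < N := by positivity
  have hm := mag_pos (d := d) (n := n) (by omega)
  have hmag : mag d n = N ^ d / d.factorial := rfl
  set t : ℝ := (d : ℝ) ^ 2 / N with ht
  have ht0 : 0 ≤ t := by positivity
  have ht1 : t ≤ 3 / 200 := by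
    rw [ht, div_le_iff₀ hNpos, hN]
    linarith
  -- lower bound for the maximum
  have hlow : (1 - 4 * t) * mag d n ≤ (maxDeck n (n - d) : ℝ) := by
    have h1 := lower_real hn4 hdn
    have h2 : ((deck (altCat n) (n - d)).ncard : ℝ) ≤ (maxDeck n (n - d) : ℝ) := by
      exact_mod_cast deck_le_maxDeck (size_altCat hn4) hdn
    rw [le_div_iff₀ (show (0 : ℝ) < (2 * n / 3) ^ d / d.factorial from hm)] at h1
    have h3 : 6 * ((d : ℝ) ^ 2 / n) = 4 * t := by
      rw [ht, hN]
      field_simp
      norm_num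
    rw [h3] at h1
    exact h1.trans h2
  -- the upper bound
  obtain ⟨R, r, h2, h3, h4, h5⟩ := upper T (by omega)
  have h6 := h5 d
  have h7 := coeff_uv_sharp r (R - r) d
  rw [coeff_uu] at h6
  set y : ℝ := 1 + d / N with hy
  set x : ℝ := (((fam T 1).card : ℝ) + d) / N with hx
  have hx0 : 0 ≤ x := by positivity
  have hy0 : 1 ≤ y := by
    have : 0 ≤ (d : ℝ) / N := by positivity
    rw [hy]
    linarith
  have hNy : N + d = N * y := by
    rw [hy]
    field_simp
  have hNx : ((fam T 1).card : ℝ) + d = N * x := by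
    rw [hx]
    field_simp
  have hR : (R : ℝ) ≤ N := by
    have : (3 : ℝ) * R + 1 ≤ 2 * n := by exact_mod_cast h4
    rw [hN]
    linarith
  have hr : (r : ℝ) ≤ (fam T 1).card := by exact_mod_cast h2
  have e1 : ((Nat.multichoose R d : ℕ) : ℝ) ≤ y ^ d * mag d n := by
    refine (multichoose_le hd).trans ?_
    have : ((R : ℝ) + d) ^ d ≤ (N * y) ^ d := by
      rw [← hNy]
      gcongr
    rw [hmag, mul_div_assoc', mul_comm (y ^ d), ← mul_pow]
    gcongr
  have e2 : ((Nat.multichoose r d : ℕ) : ℝ) ≤ x ^ d * mag d n := by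
    refine (multichoose_le hd).trans ?_
    have : ((r : ℝ) + d) ^ d ≤ (N * x) ^ d := by
      rw [← hNx]
      gcongr
    rw [hmag, mul_div_assoc', mul_comm (x ^ d), ← mul_pow]
    gcongr
  have e3 : ((tail r (R - r) d : ℕ) : ℝ) ≤ t * y ^ d * mag d n := by
    unfold tail
    split_ifs with hd'
    · rw [Nat.cast_zero]
      positivity
    · obtain ⟨e, rfl⟩ : ∃ e, d = e + 2 := ⟨d - 2, by omega⟩
      rw [show e + 2 - 2 = e by omega, show r + (R - r) = R by omega]
      have k1 : ((Nat.multichoose R e : ℕ) : ℝ) ≤ (N * y) ^ e / e.factorial := by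
        rcases Nat.eq_zero_or_pos e with rfl | he
        · simp
        · refine (multichoose_le he).trans ?_
          have : ((R : ℝ) + e) ^ e ≤ (N * y) ^ e := by
            rw [← hNy]
            have : (e : ℝ) ≤ ((e + 2 : ℕ) : ℝ) := by push_cast; linarith
            gcongr
          gcongr
      have k2 : ((R - r : ℕ) : ℝ) ≤ N := by
        have : R - r ≤ R := Nat.sub_le _ _
        have k3 : ((R - r : ℕ) : ℝ) ≤ (R : ℝ) := by exact_mod_cast this
        linarith
      have k4 : (((R - r) * Nat.multichoose R e : ℕ) : ℝ) ≤ N * ((N * y) ^ e / e.factorial) := by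
        push_cast
        gcongr
      refine k4.trans ?_
      have hfe : (0 : ℝ) < e.factorial := by exact_mod_cast Nat.factorial_pos e
      have k5 : ((e + 2).factorial : ℝ) = (e + 2) * ((e + 1) * e.factorial) := by
        rw [Nat.factorial_succ, Nat.factorial_succ]
        push_cast
        ring
      have k6 : t * y ^ (e + 2) * mag (e + 2) n =
          (((e + 2 : ℕ) : ℝ) ^ 2 / ((e + 2) * (e + 1))) * y ^ 2 *
            (N * ((N * y) ^ e / e.factorial)) := by
        rw [ht, hmag, k5, mul_pow]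
        push_cast
        field_simp
        ring
      rw [k6]
      have k7 : (1 : ℝ) ≤ (((e + 2 : ℕ) : ℝ) ^ 2 / ((e + 2) * (e + 1))) * y ^ 2 := by
        have k8 : (1 : ℝ) ≤ ((e + 2 : ℕ) : ℝ) ^ 2 / ((e + 2) * (e + 1)) := by
          rw [le_div_iff₀ (by positivity)]
          push_cast
          have : (0 : ℝ) ≤ e := Nat.cast_nonneg _
          nlinarith
        have k9 : (1 : ℝ) ≤ y ^ 2 := one_le_pow₀ hy0
        exact one_le_mul_of_one_le_of_one_le k8 k9
      have k10 : 0 ≤ N * ((N * y) ^ e / e.factorial) := by positivity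
      exact le_mul_of_one_le_left k10 k7
  have e4 : 2 * ((fam T d).card : ℝ) ≤ y ^ d * mag d n + x ^ d * mag d n +
      t * y ^ d * mag d n := by
    have k1 : 2 * (fam T d).card ≤ Nat.multichoose R d +
        (Nat.multichoose r d + tail r (R - r) d) := by omega
    have k2 : 2 * ((fam T d).card : ℝ) ≤ (Nat.multichoose R d : ℕ) +
        ((Nat.multichoose r d : ℕ) + (tail r (R - r) d : ℕ)) := by exact_mod_cast k1
    linarith
  -- the inequality for `x ^ d`
  have hyd : y ^ d ≤ 1 + 2 * t := by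
    refine le_trans ?_ (exp_le ht0 (by linarith))
    have k1 : y ≤ Real.exp (d / N) := by
      have := Real.add_one_le_exp ((d : ℝ) / N)
      rw [hy]
      linarith
    refine (pow_le_pow_left₀ (by linarith) k1 d).trans (le_of_eq ?_)
    rw [← Real.exp_nat_mul]
    congr 1
    rw [ht]
    ring
  have e5 : 2 * ((1 - δ) * (1 - 4 * t)) ≤ (1 + t) * y ^ d + x ^ d := by
    refine le_of_mul_le_mul_right ?_ hm
    have k1 : (1 - δ) * ((1 - 4 * t) * mag d n) ≤ (1 - δ) * (maxDeck n (n - d) : ℝ) :=
      mul_le_mul_of_nonneg_left hlow (by linarith)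
    have k2 : 2 * ((1 - δ) * (1 - 4 * t)) * mag d n =
        2 * ((1 - δ) * ((1 - 4 * t) * mag d n)) := by ring
    have k3 : ((1 + t) * y ^ d + x ^ d) * mag d n =
        y ^ d * mag d n + x ^ d * mag d n + t * y ^ d * mag d n := by ring
    rw [k2, k3]
    linarith
  set u : ℝ := 2 * δ + 13 * t with hu
  have hu0 : 0 ≤ u := by positivity
  have hu1 : u ≤ 1 / 2 := by linarith
  have e6 : 1 - u ≤ x ^ d := by
    have k1 : (1 + t) * y ^ d ≤ (1 + t) * (1 + 2 * t) := by gcongr
    have k2 : 0 ≤ δ * t := by positivity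
    have k3 : t * t ≤ t := by nlinarith
    nlinarith
  -- the root
  have e7 : 1 - 2 * u / d ≤ x := by
    by_contra hcon
    push Not at hcon
    have k1 : x ^ d < (1 - 2 * u / d) ^ d := pow_lt_pow_left₀ hcon hx0 (by omega)
    have k2 : (1 - 2 * u / d) ^ d ≤ Real.exp (-(2 * u)) := by
      have k3 : 1 - 2 * u / d ≤ Real.exp (-(2 * u / d)) := by
        have := Real.add_one_le_exp (-(2 * u / d))
        linarith
      have k4 : 0 ≤ 1 - 2 * u / d := hx0.trans hcon.le
      refine (pow_le_pow_left₀ k4 k3 d).trans (le_of_eq ?_)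
      rw [← Real.exp_nat_mul]
      congr 1
      field_simp
    have k5 := exp_neg_le hu0 hu1
    linarith
  have e8 : N * (1 - 2 * u / d) ≤ ((fam T 1).card : ℝ) + d := by
    rw [hNx]
    exact mul_le_mul_of_nonneg_left e7 hNpos.le
  have e9 : N * (1 - 2 * u / d) = (1 - 4 * δ / d) * N - 26 * d := by
    have k1 : t * N = (d : ℝ) ^ 2 := by
      rw [ht]
      field_simp
    have k2 : N * (1 - 2 * u / d) = (1 - 4 * δ / d) * N - 26 * (t * N) / d := by
      rw [hu]
      field_simp
      ring
    rw [k2, k1]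
    field_simp
  linarith

end LeafDeck
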