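import Pool.Agent.LeafDeck.LinDefs

/-!
The exact solution for few deleted leaves: blocks and cherries above a tree.
-/

set_option autoImplicit false

namespace LeafDeck

open Finset BTree PowerSeries

/-- deleting leaves twice -/
theorem fam_trans {T U : BTree} {d e : ℕ} {o : Option TreeClass} (hU : some ⟦U⟧ ∈ fam T d)
    (ho : o ∈ fam U e) : o ∈ fam T (d + e) := by
  induction T generalizing U d e o with
  | leaf =>
    rcases mem_fam_leaf.1 hU with ⟨rfl, h⟩ | ⟨_, h⟩
    · have h1 : Iso U .leaf := Quotient.exact (Option.some.inj h)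
      rw [fam_iso h1] at ho
      rwa [Nat.zero_add]
    · exact absurd h (by simp)
  | node l r ihl ihr =>
    obtain ⟨i, j, hij, a, ha, b, hb, hab⟩ := mem_fam_node.1 hU
    cases a with
    | none =>
      rw [joinQ_none_left] at hab
      rw [hab] at hb
      exact mem_fam_node.2 ⟨i, j + e, by omega, none, ha, o, ihr hb ho, joinQ_none_left _⟩
    | some x =>
      cases b with
      | none =>
        rw [joinQ_none_right] at hab
        rw [hab] at ha
        exact mem_fam_node.2 ⟨i + e, j, by omega, o, ihl ha ho, none, hb, joinQ_none_right _⟩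
      | some y =>
        induction x using Quotient.inductionOn with
        | h A =>
        induction y using Quotient.inductionOn with
        | h B =>
        have hU' : Iso (.node A B) U := Quotient.exact (Option.some.inj hab)
        rw [← fam_iso hU'] at ho
        obtain ⟨i', j', h', a', ha', b', hb', rfl⟩ := mem_fam_node.1 ho
        exact mem_fam_node.2 ⟨i + i', j + j', by omega, a', ihl ha ha', b', ihr hb hb', rfl⟩

lemma mem_fam_cherry {i : ℕ} {b : Option TreeClass} (h : b ∈ fam cherry i) :
    (i = 0 ∧ b = some ⟦cherry⟧) ∨ (i = 1 ∧ b = some leafQ) ∨ (i = 2 ∧ b = none) := by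
  have h1 := fam_qsize h
  rw [size_cherry] at h1
  rcases (by omega : i = 0 ∨ i = 1 ∨ i = 2) with rfl | rfl | rfl
  · rw [fam_zero, mem_singleton] at h
    exact Or.inl ⟨rfl, h⟩
  · exact Or.inr (Or.inl ⟨rfl, card_le_one.1 cherry_one _ h _ leafQ_mem_cherry⟩)
  · exact Or.inr (Or.inr ⟨rfl, card_le_one.1 cherry_two _ h _ none_cherry⟩)

/-- the members with at least two leaves -/
lemma tshape {P : BTree} {e : ℕ} {o : Option TreeClass} (h : o ∈ fam P e)
    (he : e + 2 ≤ P.size) : isB o ∨ (∃ q ∈ fam P (e + 1), o = joinQ (some leafQ) q) ∨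
      (∃ q ∈ fam P (e + 2), o = joinQ (some ⟦cherry⟧) q) := by
  have h1 := fam_qsize h
  cases o with
  | none =>
    rw [qsize_none] at h1
    omega
  | some x =>
    induction x using Quotient.inductionOn with
    | h U =>
    rw [qsize_some, csize_mk] at h1
    cases U with
    | leaf =>
      have : (BTree.leaf).size = 1 := rfl
      omega
    | node x y =>
      have key : ∀ x y : BTree, some ⟦BTree.node x y⟧ ∈ fam P e → x.size ≤ 2 →
          (∃ q ∈ fam P (e + 1), (some ⟦BTree.node x y⟧ : Option TreeClass) =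
            joinQ (some leafQ) q) ∨
          (∃ q ∈ fam P (e + 2), (some ⟦BTree.node x y⟧ : Option TreeClass) =
            joinQ (some ⟦cherry⟧) q) := by
        intro x y hxy hx
        have hx1 := size_pos x
        rcases (by omega : x.size = 1 ∨ x.size = 2) with hx2 | hx2
        · left
          rw [eq_leaf_of_size (T := x) (by omega)] at hxy ⊢
          refine ⟨some ⟦y⟧, fam_trans hxy ?_, rfl⟩
          exact mem_fam_node.2 ⟨1, 0, rfl, none, mem_fam_leaf.2 (Or.inr ⟨rfl, rfl⟩), _,
            self_mem_fam y, rfl⟩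
        · right
          rw [eq_cherry hx2] at hxy ⊢
          refine ⟨some ⟦y⟧, fam_trans hxy ?_, rfl⟩
          exact mem_fam_node.2 ⟨2, 0, rfl, none, none_cherry, _, self_mem_fam y, rfl⟩
      rcases Nat.lt_or_ge x.size 3 with hx | hx
      · exact Or.inr (key x y h (by omega))
      · rcases Nat.lt_or_ge y.size 3 with hy | hy
        · have e1 : (⟦BTree.node x y⟧ : TreeClass) = ⟦BTree.node y x⟧ :=
            Quotient.sound (Iso.swap (Iso.refl _) (Iso.refl _))
          rw [e1] at h ⊢
          exact Or.inr (key y x h (by omega))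
        · exact Or.inl ⟨⟦x⟧, ⟦y⟧, hx, hy, rfl⟩

lemma not_isB {s : TreeClass} (hs : csize s ≤ 2) (q : Option TreeClass) :
    ¬ isB (joinQ (some s) q) := by
  rintro ⟨x, y, hx, hy, h⟩
  cases q with
  | none =>
    rw [joinQ_none_right] at h
    have h1 := congrArg qsize h
    rw [qsize_some, qsize_some, csize_nodeQ] at h1
    omega
  | some t =>
    have h1 : nodeQ s t = nodeQ x y := Option.some.inj h
    rcases nodeQ_inj h1 with ⟨h2, _⟩ | ⟨h2, _⟩
    · rw [h2] at hs
      omega
    · rw [h2] at hs
      omega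

/-- shifting a family -/
def shF (F : ℕ → Finset (Option TreeClass)) (i d : ℕ) : Finset (Option TreeClass) :=
  if i ≤ d then F (d - i) else ∅

lemma mem_shF {F : ℕ → Finset (Option TreeClass)} {i e : ℕ} {o : Option TreeClass}
    (h : o ∈ F e) : o ∈ shF F i (e + i) := by
  rw [shF, if_pos (by omega), Nat.add_sub_cancel]
  exact h

lemma coeff_shift (g : PowerSeries ℕ) (i d : ℕ) :
    coeff d (PowerSeries.X ^ i * g) = if i ≤ d then coeff (d - i) g else 0 :=
  PowerSeries.coeff_X_pow_mul' g i d

lemma card_shF_fam (P : BTree) (i d : ℕ) :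
    (shF (fam P) i d).card = coeff d (PowerSeries.X ^ i * ff P) := by
  rw [coeff_shift, shF]
  split_ifs
  · rw [coeff_ff]
  · rfl

lemma card_shF_bam (P : BTree) (i d : ℕ) :
    (shF (bam P) i d).card = coeff d (PowerSeries.X ^ i * bb P) := by
  rw [coeff_shift, shF]
  split_ifs
  · rw [bb, coeff_mk]
  · rfl

lemma mem_bam {P : BTree} {d : ℕ} {o : Option TreeClass} : o ∈ bam P d ↔ o ∈ fam P d ∧ isB o := by
  classical
  rw [bam, mem_filter]

open scoped Classical in
lemma token_subset {P : BTree} (_ : 2 ≤ P.size) {d : ℕ} (hd : d ≤ P.size + 1) :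
    fam (.node .leaf (.node cherry P)) d ⊆
      ((fam P d).image fun p => joinQ (some leafQ) (joinQ (some ⟦cherry⟧) p)) ∪
      (((shF (fam P) 1 d).image fun p => joinQ (some leafQ) (joinQ (some leafQ) p)) ∪
      (((shF (fam P) 1 d).image fun p => joinQ (some ⟦cherry⟧) p) ∪
      (((shF (bam P) 2 d).image fun p => joinQ (some leafQ) p) ∪ shF (bam P) 3 d))) := by
  -- a leaf above a member
  have L1 : ∀ e p, p ∈ fam P e → e + 2 = d → joinQ (some leafQ) p ∈
      ((fam P d).image fun p => joinQ (some leafQ) (joinQ (some ⟦cherry⟧) p)) ∪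
      (((shF (fam P) 1 d).image fun p => joinQ (some leafQ) (joinQ (some leafQ) p)) ∪
      (((shF (fam P) 1 d).image fun p => joinQ (some ⟦cherry⟧) p) ∪
      (((shF (bam P) 2 d).image fun p => joinQ (some leafQ) p) ∪ shF (bam P) 3 d))) := by
    intro e p hp he
    subst he
    have h1 := fam_qsize hp
    rcases Nat.lt_or_ge (e + 1) P.size with h2 | h2
    · rcases tshape hp (by omega) with h3 | ⟨q, hq, rfl⟩ | ⟨q, hq, rfl⟩
      · refine mem_union_right _ (mem_union_right _ (mem_union_right _ (mem_union_left _ ?_)))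
        exact mem_image_of_mem _ (mem_shF (mem_bam.2 ⟨hp, h3⟩))
      · refine mem_union_right _ (mem_union_left _ ?_)
        exact mem_image_of_mem (fun p => joinQ (some leafQ) (joinQ (some leafQ) p))
          (mem_shF (i := 1) hq)
      · refine mem_union_left _ ?_
        exact mem_image_of_mem (fun p => joinQ (some leafQ) (joinQ (some ⟦cherry⟧) p)) hq
    · -- one leaf is left
      have h3 : e + 1 = P.size := by omega
      have h4 : p = some leafQ := by
        cases p with
        | none =>
          rw [qsize_none] at h1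
          omega
        | some x =>
          induction x using Quotient.inductionOn with
          | h U =>
          rw [qsize_some, csize_mk] at h1
          rw [eq_leaf_of_size (T := U) (by omega)]
          rfl
      refine mem_union_right _ (mem_union_left _ ?_)
      rw [mem_image]
      refine ⟨none, ?_, by rw [h4]; rfl⟩
      exact mem_shF (F := fam P) (i := 1) (e := e + 1) (none_mem_fam.2 h3)
  intro o ho
  obtain ⟨i, j, hij, a, ha, q, hq, rfl⟩ := mem_fam_node.1 ho
  obtain ⟨i', l, hil, b, hb, p, hp, rfl⟩ := mem_fam_node.1 hq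
  rcases mem_fam_leaf.1 ha with ⟨rfl, rfl⟩ | ⟨rfl, rfl⟩
  · rcases mem_fam_cherry hb with ⟨rfl, rfl⟩ | ⟨rfl, rfl⟩ | ⟨rfl, rfl⟩
    · refine mem_union_left _ ?_
      have : l = d := by omega
      subst this
      exact mem_image_of_mem (fun p => joinQ (some leafQ) (joinQ (some ⟦cherry⟧) p)) hp
    · refine mem_union_right _ (mem_union_left _ ?_)
      have : d = l + 1 := by omega
      subst this
      exact mem_image_of_mem (fun p => joinQ (some leafQ) (joinQ (some leafQ) p))
        (mem_shF (i := 1) hp)
    · rw [joinQ_none_left]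
      exact L1 l p hp (by omega)
  · rw [joinQ_none_left]
    rcases mem_fam_cherry hb with ⟨rfl, rfl⟩ | ⟨rfl, rfl⟩ | ⟨rfl, rfl⟩
    · refine mem_union_right _ (mem_union_right _ (mem_union_left _ ?_))
      have : d = l + 1 := by omega
      subst this
      exact mem_image_of_mem (fun p => joinQ (some ⟦cherry⟧) p) (mem_shF (i := 1) hp)
    · exact L1 l p hp (by omega)
    · rw [joinQ_none_left]
      have hl : l + 3 = d := by omega
      rcases tshape hp (by omega) with h3 | ⟨s, hs, rfl⟩ | ⟨s, hs, rfl⟩
      · refine mem_union_right _ (mem_union_right _ (mem_union_right _ (mem_union_right _ ?_)))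
        subst hl
        exact mem_shF (mem_bam.2 ⟨hp, h3⟩)
      · exact L1 (l + 1) s hs (by omega)
      · refine mem_union_right _ (mem_union_right _ (mem_union_left _ ?_))
        have : d = l + 2 + 1 := by omega
        subst this
        exact mem_image_of_mem (fun p => joinQ (some ⟦cherry⟧) p) (mem_shF (i := 1) hs)

/-- one block above a tree -/
theorem token_upper {P : BTree} (hP : 2 ≤ P.size) {d : ℕ} (hd : d ≤ P.size + 1) :
    coeff d (ff (.node .leaf (.node cherry P))) ≤
      coeff d (tt * ff P + (PowerSeries.X ^ 2 + PowerSeries.X ^ 3) * bb P) := by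
  classical
  have h1 := card_le_card (token_subset hP hd)
  have h2 : coeff d (tt * ff P + (PowerSeries.X ^ 2 + PowerSeries.X ^ 3) * bb P) =
      (fam P d).card + (shF (fam P) 1 d).card + (shF (fam P) 1 d).card +
        (shF (bam P) 2 d).card + (shF (bam P) 3 d).card := by
    rw [card_shF_fam, card_shF_bam, card_shF_bam, ← coeff_ff]
    have e1 : tt * ff P + (PowerSeries.X ^ 2 + PowerSeries.X ^ 3) * bb P =
        ff P + PowerSeries.X ^ 1 * ff P + PowerSeries.X ^ 1 * ff P +
          PowerSeries.X ^ 2 * bb P + PowerSeries.X ^ 3 * bb P := by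
      rw [tt]
      ring
    rw [e1]
    simp only [map_add]
  rw [h2, coeff_ff]
  refine h1.trans ?_
  refine (card_union_le _ _).trans ?_
  have g1 : ∀ (s : Finset (Option TreeClass)) (f : Option TreeClass → Option TreeClass),
    (s.image f).card ≤ s.card := fun s f => card_image_le
  have g2 := card_union_le
    ((shF (fam P) 1 d).image fun p => joinQ (some leafQ) (joinQ (some leafQ) p))
    (((shF (fam P) 1 d).image fun p => joinQ (some ⟦cherry⟧) p) ∪
      (((shF (bam P) 2 d).image fun p => joinQ (some leafQ) p) ∪ shF (bam P) 3 d))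
  have g3 := card_union_le ((shF (fam P) 1 d).image fun p => joinQ (some ⟦cherry⟧) p)
      (((shF (bam P) 2 d).image fun p => joinQ (some leafQ) p) ∪ shF (bam P) 3 d)
  have g4 := card_union_le ((shF (bam P) 2 d).image fun p => joinQ (some leafQ) p)
    (shF (bam P) 3 d)
  have k1 := g1 (fam P d) fun p => joinQ (some leafQ) (joinQ (some ⟦cherry⟧) p)
  have k2 := g1 (shF (fam P) 1 d) fun p => joinQ (some leafQ) (joinQ (some leafQ) p)
  have k3 := g1 (shF (fam P) 1 d) fun p => joinQ (some ⟦cherry⟧) p
  have k4 := g1 (shF (bam P) 2 d) fun p => joinQ (some leafQ) p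
  omega

/-- the large classes of a block above a tree -/
theorem token_bb {P : BTree} (_ : 2 ≤ P.size) :
    Cle (bb (.node .leaf (.node cherry P))) (PowerSeries.X ^ 3 * bb P) := by
  intro d
  rw [← card_shF_bam, bb, coeff_mk]
  refine card_le_card fun o ho => ?_
  obtain ⟨ho, hB⟩ := mem_bam.1 ho
  obtain ⟨i, j, hij, a, ha, q, hq, rfl⟩ := mem_fam_node.1 ho
  obtain ⟨i', l, hil, b, hb, p, hp, rfl⟩ := mem_fam_node.1 hq
  rcases mem_fam_leaf.1 ha with ⟨rfl, rfl⟩ | ⟨rfl, rfl⟩
  · exact absurd hB (not_isB (by rw [csize_leafQ]; omega) _)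
  · rw [joinQ_none_left] at hB ⊢
    rcases mem_fam_cherry hb with ⟨rfl, rfl⟩ | ⟨rfl, rfl⟩ | ⟨rfl, rfl⟩
    · exact absurd hB (not_isB (by rw [csize_mk, size_cherry]) _)
    · exact absurd hB (not_isB (by rw [csize_leafQ]; omega) _)
    · rw [joinQ_none_left] at hB ⊢
      have : d = l + 3 := by omega
      subst this
      exact mem_shF (mem_bam.2 ⟨hp, hB⟩)

open scoped Classical in
lemma cherry_subset {P : BTree} {d : ℕ} (hd : d ≤ P.size) :
    fam (.node cherry P) d ⊆
      ((fam P d).image fun p => joinQ (some ⟦cherry⟧) p) ∪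
      (((shF (fam P) 1 d).image fun p => joinQ (some leafQ) p) ∪ shF (bam P) 2 d) := by
  intro o ho
  obtain ⟨i', l, hil, b, hb, p, hp, rfl⟩ := mem_fam_node.1 ho
  rcases mem_fam_cherry hb with ⟨rfl, rfl⟩ | ⟨rfl, rfl⟩ | ⟨rfl, rfl⟩
  · have : l = d := by omega
    subst this
    exact mem_union_left _ (mem_image_of_mem (fun p => joinQ (some ⟦cherry⟧) p) hp)
  · have : d = l + 1 := by omega
    subst this
    exact mem_union_right _ (mem_union_left _
      (mem_image_of_mem (fun p => joinQ (some leafQ) p) (mem_shF (i := 1) hp)))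
  · rw [joinQ_none_left]
    have hl : l + 2 = d := by omega
    rcases tshape hp (by omega) with h3 | ⟨q, hq, rfl⟩ | ⟨q, hq, rfl⟩
    · subst hl
      exact mem_union_right _ (mem_union_right _ (mem_shF (mem_bam.2 ⟨hp, h3⟩)))
    · have : d = l + 1 + 1 := by omega
      subst this
      exact mem_union_right _ (mem_union_left _
        (mem_image_of_mem (fun p => joinQ (some leafQ) p) (mem_shF (i := 1) hq)))
    · rw [hl] at hq
      exact mem_union_left _ (mem_image_of_mem (fun p => joinQ (some ⟦cherry⟧) p) hq)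

/-- a cherry above a tree -/
theorem cherry_upper {P : BTree} (_ : 2 ≤ P.size) {d : ℕ} (hd : d ≤ P.size) :
    coeff d (ff (.node cherry P)) ≤
      coeff d ((1 + PowerSeries.X) * ff P + PowerSeries.X ^ 2 * bb P) := by
  classical
  have h1 := card_le_card (cherry_subset hd)
  have h2 : coeff d ((1 + PowerSeries.X) * ff P + PowerSeries.X ^ 2 * bb P) =
      (fam P d).card + (shF (fam P) 1 d).card + (shF (bam P) 2 d).card := by
    rw [card_shF_fam, card_shF_bam, ← coeff_ff]
    have e1 : (1 + PowerSeries.X) * ff P + PowerSeries.X ^ 2 * bb P =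
        ff P + PowerSeries.X ^ 1 * ff P + PowerSeries.X ^ 2 * bb P := by
      ring
    rw [e1]
    simp only [map_add]
  rw [h2, coeff_ff]
  refine h1.trans ?_
  refine (card_union_le _ _).trans ?_
  have g1 : ∀ (s : Finset (Option TreeClass)) (f : Option TreeClass → Option TreeClass),
    (s.image f).card ≤ s.card := fun s f => card_image_le
  have g4 := card_union_le ((shF (fam P) 1 d).image fun p => joinQ (some leafQ) p)
    (shF (bam P) 2 d)
  have k1 := g1 (fam P d) fun p => joinQ (some ⟦cherry⟧) p
  have k2 := g1 (shF (fam P) 1 d) fun p => joinQ (some leafQ) p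
  omega

/-- the large classes of a cherry above a tree -/
theorem cherry_bb {P : BTree} (_ : 2 ≤ P.size) :
    Cle (bb (.node cherry P)) (PowerSeries.X ^ 2 * bb P) := by
  intro d
  rw [← card_shF_bam, bb, coeff_mk]
  refine card_le_card fun o ho => ?_
  obtain ⟨ho, hB⟩ := mem_bam.1 ho
  obtain ⟨i', l, hil, b, hb, p, hp, rfl⟩ := mem_fam_node.1 ho
  rcases mem_fam_cherry hb with ⟨rfl, rfl⟩ | ⟨rfl, rfl⟩ | ⟨rfl, rfl⟩
  · exact absurd hB (not_isB (by rw [csize_mk, size_cherry]) _)
  · exact absurd hB (not_isB (by rw [csize_leafQ]; omega) _)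
  · rw [joinQ_none_left] at hB ⊢
    have : d = l + 2 := by omega
    subst this
    exact mem_shF (mem_bam.2 ⟨hp, hB⟩)

end LeafDeck
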