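import Pool.Agent.LeafDeck.UpperQ
import Pool.Agent.LeafDeck.Struct

/-!
Two deleted leaves: the extremal trees.
-/

set_option autoImplicit false

namespace LeafDeck

open Finset BTree

/-- the tree with three leaves -/
def cat3 : BTree := .node .leaf cherry

/-- `k` blocks above `Z`; a block consists of a leaf and, below it, a cherry -/
def alt : ℕ → BTree → BTree
  | 0, Z => Z
  | k + 1, Z => .node .leaf (.node cherry (alt k Z))

lemma size_cherry : cherry.size = 2 := rfl

lemma size_cat3 : cat3.size = 3 := rfl

lemma size_alt (k : ℕ) (Z : BTree) : (alt k Z).size = 3 * k + Z.size := by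
  induction k with
  | zero => simp [alt]
  | succ k ih =>
    show 1 + (2 + (alt k Z).size) = _
    rw [ih]
    ring

end LeafDeck
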