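import Pool.Agent.LeafDeck.TwoDefs

/-!
Two deleted leaves: upper bounds for the number of classes of a tree in terms of its subtrees.
-/

set_option autoImplicit false

namespace LeafDeck

open Finset BTree PowerSeries

lemma anti_two : antidiagonal 2 = {((0 : ℕ), (2 : ℕ)), (1, 1), (2, 0)} := rfl

lemma card_zero (T : BTree) : (fam T 0).card = 1 := by
  rw [fam_zero, card_singleton]

lemma card_leaf_one : (fam .leaf 1).card = 1 := by simp [fam]

lemma card_leaf_two : (fam .leaf 2).card = 0 := by simp [fam]

/-- the general bound -/
lemma two_node (l r : BTree) : (fam (.node l r) 2).card ≤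
    (fam l 2).card + (fam r 2).card + (fam l 1).card * (fam r 1).card := by
  have h := ff_node l r 2
  rw [coeff_ff, PowerSeries.coeff_mul, anti_two] at h
  rw [sum_insert (by decide), sum_insert (by decide), sum_singleton] at h
  simp only [coeff_ff, card_zero] at h
  omega

/-- the bound for two isomorphic children -/
lemma two_same {l r : BTree} (h : Iso l r) : 2 * (fam (.node l r) 2).card ≤
    2 * (fam l 2).card + (fam l 1).card * (fam l 1).card + (fam l 1).card := by
  have h := two_ff_node_same h 2
  rw [coeff_two_mul, coeff_ff, map_add, PowerSeries.coeff_mul, anti_two, coeff_ee,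
    if_pos (by decide)] at h
  rw [sum_insert (by decide), sum_insert (by decide), sum_singleton] at h
  have h2 : 2 / 2 = 1 := rfl
  rw [h2] at h
  simp only [coeff_ff, card_zero] at h
  omega

/-! ### trees with at most three leaves -/

lemma eq_cherry {T : BTree} (h : T.size = 2) : T = cherry := by
  cases T with
  | leaf => exact absurd h (by decide)
  | node a b =>
    have ha := size_pos a
    have hb := size_pos b
    have hs : a.size + b.size = 2 := h
    rw [eq_leaf_of_size (T := a) (by omega), eq_leaf_of_size (T := b) (by omega)]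
    rfl

lemma iso_cat3 {T : BTree} (h : T.size = 3) : Iso T cat3 := by
  cases T with
  | leaf => exact absurd h (by decide)
  | node a b =>
    have ha := size_pos a
    have hb := size_pos b
    have hs : a.size + b.size = 3 := h
    rcases Nat.lt_or_ge a.size 2 with h1 | h1
    · rw [eq_leaf_of_size (T := a) h1, eq_cherry (T := b) (by omega)]
      exact Iso.refl _
    · rw [eq_leaf_of_size (T := b) (by omega), eq_cherry (T := a) (by omega)]
      exact Iso.swap (Iso.refl _) (Iso.refl _)

/-- at most one class with at most three leaves -/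
lemma small_fam {T : BTree} {d : ℕ} (h : T.size ≤ d + 3) : (fam T d).card ≤ 1 := by
  rw [card_le_one]
  intro a ha b hb
  have h1 := fam_qsize ha
  have h2 := fam_qsize hb
  cases a with
  | none =>
    have h3 : qsize b = 0 := by
      rw [qsize_none] at h1
      omega
    exact (qsize_eq_zero.1 h3).symm
  | some x =>
    cases b with
    | none =>
      rw [qsize_none] at h2
      exact qsize_eq_zero.1 (by omega)
    | some y =>
      induction x using Quotient.inductionOn with
      | h s =>
      induction y using Quotient.inductionOn with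
      | h t =>
      rw [qsize_some, csize_mk] at h1 h2
      have hst : s.size = t.size := by omega
      have hs3 : s.size ≤ 3 := by omega
      have hs1 := size_pos s
      have key : Iso s t := by
        rcases (by omega : s.size = 1 ∨ s.size = 2 ∨ s.size = 3) with h | h | h
        · rw [eq_leaf_of_size (T := s) (by omega), eq_leaf_of_size (T := t) (by omega)]
          exact Iso.refl _
        · rw [eq_cherry h, eq_cherry (T := t) (by omega)]
          exact Iso.refl _
        · exact (iso_cat3 h).trans (iso_cat3 (by omega)).symm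
      rw [Quotient.sound key]

lemma cherry_one : (fam cherry 1).card ≤ 1 := small_fam (by decide)

lemma cherry_two : (fam cherry 2).card ≤ 1 := small_fam (by decide)

/-! ### a cherry at the root -/

open scoped Classical in
lemma fam_cherry (P : BTree) : fam (.node P cherry) 2 ⊆
    insert (some ⟦P⟧) (((fam P 2).image fun a => joinQ a (some ⟦cherry⟧)) ∪
      (fam P 1).image fun a => joinQ a (some leafQ)) := by
  intro o ho
  obtain ⟨i, j, hij, a, ha, b, hb, rfl⟩ := mem_fam_node.1 ho
  rw [mem_insert, mem_union, mem_image, mem_image]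
  rcases (by omega : (i = 0 ∧ j = 2) ∨ (i = 1 ∧ j = 1) ∨ (i = 2 ∧ j = 0)) with h | h | h
  · left
    rw [h.1, fam_zero, mem_singleton] at ha
    rw [h.2] at hb
    have h1 : none ∈ fam cherry 2 := none_mem_fam.2 rfl
    have h2 := card_le_one.1 cherry_two _ hb _ h1
    rw [ha, h2, joinQ_none_right]
  · right
    right
    rw [h.1] at ha
    rw [h.2] at hb
    have h1 : some leafQ ∈ fam cherry 1 :=
      mem_fam_node.2 ⟨0, 1, rfl, some leafQ, mem_fam_leaf.2 (Or.inl ⟨rfl, rfl⟩), none,
        mem_fam_leaf.2 (Or.inr ⟨rfl, rfl⟩), rfl⟩
    have h2 := card_le_one.1 cherry_one _ hb _ h1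
    exact ⟨a, ha, by rw [h2]⟩
  · right
    left
    rw [h.1] at ha
    rw [h.2, fam_zero, mem_singleton] at hb
    exact ⟨a, ha, by rw [hb]⟩

open scoped Classical in
lemma two_cherry_of_mem {P : BTree} (h : some ⟦P⟧ ∈
    ((fam P 2).image fun a => joinQ a (some ⟦cherry⟧)) ∪
      (fam P 1).image fun a => joinQ a (some leafQ)) :
    (fam (.node P cherry) 2).card ≤ (fam P 2).card + (fam P 1).card := by
  have h1 := card_le_card (fam_cherry P)
  rw [insert_eq_of_mem h] at h1
  refine h1.trans ((card_union_le _ _).trans ?_)
  exact Nat.add_le_add card_image_le card_image_le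

/-- a cherry next to any tree -/
lemma two_cherry (P : BTree) :
    (fam (.node P cherry) 2).card ≤ (fam P 2).card + (fam P 1).card + 1 := by
  classical
  have h1 := card_le_card (fam_cherry P)
  refine h1.trans ((card_insert_le _ _).trans ?_)
  refine Nat.add_le_add_right ((card_union_le _ _).trans ?_) 1
  exact Nat.add_le_add card_image_le card_image_le

/-- a cherry next to a tree with a leaf at the root -/
lemma two_cherry_leaf (P : BTree) : (fam (.node (.node .leaf P) cherry) 2).card ≤
    (fam (.node .leaf P) 2).card + (fam (.node .leaf P) 1).card := by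
  classical
  refine two_cherry_of_mem ?_
  rw [mem_union, mem_image, mem_image]
  right
  refine ⟨some ⟦P⟧, ?_, ?_⟩
  · rw [fam_leaf_node]
    exact mem_insert_self _ _
  · rw [joinQ_comm]
    rfl

lemma none_cherry : none ∈ fam cherry 2 := none_mem_fam.2 rfl

/-- a cherry next to a tree with a cherry at the root -/
lemma two_cherry_cherry (P : BTree) : (fam (.node (.node cherry P) cherry) 2).card ≤
    (fam (.node cherry P) 2).card + (fam (.node cherry P) 1).card := by
  classical
  refine two_cherry_of_mem ?_
  rw [mem_union, mem_image, mem_image]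
  left
  refine ⟨some ⟦P⟧, ?_, ?_⟩
  · exact mem_fam_node.2 ⟨2, 0, rfl, none, none_cherry, some ⟦P⟧, by rw [fam_zero]; simp, rfl⟩
  · rw [joinQ_comm]
    rfl

/-! ### a leaf at the root -/

open scoped Classical in
lemma fam_leaf_two (Q : BTree) : fam (.node .leaf Q) 2 =
    ((fam Q 2).image fun a => joinQ a (some leafQ)) ∪ fam Q 1 := by
  ext o
  rw [mem_fam_node, mem_union, mem_image]
  constructor
  · rintro ⟨i, j, hij, a, ha, b, hb, rfl⟩
    rcases mem_fam_leaf.1 ha with ⟨rfl, rfl⟩ | ⟨rfl, rfl⟩
    · left
      have hj : j = 2 := by omega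
      subst hj
      exact ⟨b, hb, joinQ_comm _ _⟩
    · right
      have hj : j = 1 := by omega
      subst hj
      rwa [joinQ_none_left]
  · rintro (⟨a, ha, rfl⟩ | h)
    · exact ⟨0, 2, rfl, some leafQ, mem_fam_leaf.2 (Or.inl ⟨rfl, rfl⟩), a, ha, joinQ_comm _ _⟩
    · exact ⟨1, 1, rfl, none, mem_fam_leaf.2 (Or.inr ⟨rfl, rfl⟩), o, h, joinQ_none_left _⟩

/-- a leaf at the root -/
lemma two_leaf (Q : BTree) :
    (fam (.node .leaf Q) 2).card ≤ (fam Q 2).card + (fam Q 1).card := by
  classical
  rw [fam_leaf_two]
  exact (card_union_le _ _).trans (Nat.add_le_add_right card_image_le _)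

/-- a leaf at the root and a cherry below it -/
lemma two_leaf_cherry (P : BTree) : (fam (.node .leaf (.node cherry P)) 2).card + 1 ≤
    (fam (.node cherry P) 2).card + (fam (.node cherry P) 1).card := by
  classical
  have hA : joinQ (some ⟦P⟧) (some leafQ) ∈
      (fam (.node cherry P) 2).image fun a => joinQ a (some leafQ) := by
    rw [mem_image]
    exact ⟨some ⟦P⟧, mem_fam_node.2
      ⟨2, 0, rfl, none, none_cherry, some ⟦P⟧, by rw [fam_zero]; simp, rfl⟩, rfl⟩
  have hB : joinQ (some ⟦P⟧) (some leafQ) ∈ fam (.node cherry P) 1 := by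
    refine mem_fam_node.2 ⟨1, 0, rfl, some leafQ, ?_, some ⟦P⟧, by rw [fam_zero]; simp,
      joinQ_comm _ _⟩
    exact mem_fam_node.2 ⟨0, 1, rfl, some leafQ, mem_fam_leaf.2 (Or.inl ⟨rfl, rfl⟩), none,
        mem_fam_leaf.2 (Or.inr ⟨rfl, rfl⟩), rfl⟩
  rw [fam_leaf_two]
  have h1 := card_union_add_card_inter
    ((fam (.node cherry P) 2).image fun a => joinQ a (some leafQ)) (fam (.node cherry P) 1)
  have h2 : 1 ≤ (((fam (.node cherry P) 2).image fun a => joinQ a (some leafQ)) ∩
      fam (.node cherry P) 1).card := card_pos.2 ⟨_, mem_inter.2 ⟨hA, hB⟩⟩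
  have h3 : ((fam (.node cherry P) 2).image fun a => joinQ a (some leafQ)).card ≤
    (fam (.node cherry P) 2).card := card_image_le
  omega

open scoped Classical in
lemma fam_leaf_leaf (Q : BTree) : fam (.node .leaf (.node .leaf Q)) 2 ⊆
    insert (some ⟦Q⟧) ((fam (.node .leaf Q) 2).image fun a => joinQ a (some leafQ)) := by
  rw [fam_leaf_two (.node .leaf Q)]
  intro o ho
  rw [mem_insert]
  rcases mem_union.1 ho with h | h
  · exact Or.inr h
  · rw [fam_leaf_node, mem_insert] at h
    rcases h with rfl | h
    · exact Or.inl rfl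
    · right
      rw [mem_image] at h ⊢
      obtain ⟨b, hb, rfl⟩ := h
      refine ⟨b, ?_, rfl⟩
      rw [fam_leaf_two]
      exact mem_union_right _ hb

/-- two leaves at the root -/
lemma two_leaf_leaf (Q : BTree) : (fam (.node .leaf (.node .leaf Q)) 2).card ≤
    (fam (.node .leaf Q) 2).card + branching Q := by
  classical
  have h1 := card_le_card (fam_leaf_leaf Q)
  have h3 : ((fam (.node .leaf Q) 2).image fun a => joinQ a (some leafQ)).card ≤
    (fam (.node .leaf Q) 2).card := card_image_le
  have key : branching Q = 1 ∨ some ⟦Q⟧ ∈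
      ((fam (.node .leaf Q) 2).image fun a => joinQ a (some leafQ)) := by
    cases Q with
    | leaf =>
      right
      rw [mem_image]
      exact ⟨none, none_mem_fam.2 rfl, rfl⟩
    | node a b =>
      cases a with
      | leaf =>
        right
        rw [mem_image]
        refine ⟨some ⟦b⟧, ?_, ?_⟩
        · rw [fam_leaf_two]
          refine mem_union_right _ ?_
          rw [fam_leaf_node]
          exact mem_insert_self _ _
        · rw [joinQ_comm]
          rfl
      | node a1 a2 =>
        cases b with
        | leaf =>
          right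
          rw [mem_image]
          refine ⟨some ⟦BTree.node a1 a2⟧, ?_, rfl⟩
          rw [fam_leaf_two, fam_swap]
          refine mem_union_right _ ?_
          rw [fam_leaf_node]
          exact mem_insert_self _ _
        | node b1 b2 => exact Or.inl rfl
  rcases key with h | h
  · have h2 := card_insert_le (some ⟦Q⟧)
      ((fam (.node .leaf Q) 2).image fun a => joinQ a (some leafQ))
    omega
  · rw [insert_eq_of_mem h] at h1
    omega

end LeafDeck
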