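import Pool.Agent.LeafDeck.Defs

/-!
Decks near the diagonal: the upper bound. Deleting leaves from a run of consecutive pendant
leaves only depends on the number of deleted leaves, and there are at most `(2 n - 1) / 3` runs.
-/

set_option autoImplicit false

namespace LeafDeck

open Finset BTree

/-- the join of two classes -/
def nodeQ : TreeClass → TreeClass → TreeClass :=
  Quotient.map₂ BTree.node (fun _ _ h1 _ _ h2 => Iso.node h1 h2)

lemma nodeQ_mk (a b : BTree) : nodeQ ⟦a⟧ ⟦b⟧ = ⟦BTree.node a b⟧ := rfl

lemma nodeQ_comm (x y : TreeClass) : nodeQ x y = nodeQ y x := by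
  induction x using Quotient.inductionOn with
  | h a =>
    induction y using Quotient.inductionOn with
    | h b => exact Quotient.sound (Iso.swap (Iso.refl a) (Iso.refl b))

/-- the join of two possibly empty classes -/
def joinQ : Option TreeClass → Option TreeClass → Option TreeClass
  | none, y => y
  | some a, none => some a
  | some a, some b => some (nodeQ a b)

lemma joinQ_comm (x y : Option TreeClass) : joinQ x y = joinQ y x := by
  cases x with
  | none => cases y <;> rfl
  | some a =>
    cases y with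
    | none => rfl
    | some b => exact congrArg some (nodeQ_comm a b)

/-- the class of a possibly empty tree -/
def cls (o : Option BTree) : Option TreeClass := o.map (fun T => (⟦T⟧ : TreeClass))

lemma cls_join (x y : Option BTree) : cls (join x y) = joinQ (cls x) (cls y) := by
  cases x with
  | none => cases y <;> rfl
  | some a => cases y <;> rfl

/-- the classes obtained by deleting `d` leaves -/
def del (T : BTree) (d : ℕ) : Set (Option TreeClass) :=
  {o | ∃ S : Finset T.Leaves, S.card + d = T.size ∧ cls (T.restrict S) = o}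

/-- the class of the one vertex tree -/
def leafQ : TreeClass := ⟦BTree.leaf⟧

/-- attaching a leaf -/
def lam : Option TreeClass → Option TreeClass := joinQ (some leafQ)

/-- the family of the empty tree -/
def emptyF (d : ℕ) : Set (Option TreeClass) := {o | d = 0 ∧ o = none}

/-- the family of a tree with one more leaf at the top -/
def addF (A : ℕ → Set (Option TreeClass)) (d : ℕ) : Set (Option TreeClass) :=
  {o | (∃ a ∈ A d, lam a = o) ∨ ∃ e, e + 1 = d ∧ o ∈ A e}

/-- the family of the join of two trees -/
def prodF (A B : ℕ → Set (Option TreeClass)) (d : ℕ) : Set (Option TreeClass) :=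
  {o | ∃ i j, i + j = d ∧ ∃ a ∈ A i, ∃ b ∈ B j, joinQ a b = o}

lemma prodF_comm (A B : ℕ → Set (Option TreeClass)) : prodF A B = prodF B A := by
  funext d
  ext o
  constructor
  · rintro ⟨i, j, h, a, ha, b, hb, rfl⟩
    exact ⟨j, i, by omega, b, hb, a, ha, joinQ_comm b a⟩
  · rintro ⟨i, j, h, a, ha, b, hb, rfl⟩
    exact ⟨j, i, by omega, b, hb, a, ha, joinQ_comm b a⟩

/-- the part of a leaf set in the left subtree -/
abbrev toL {l r : BTree} (S : Finset (BTree.node l r).Leaves) : Finset l.Leaves :=
  Finset.toLeft (α := Leaves l) (β := Leaves r) S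

/-- the part of a leaf set in the right subtree -/
abbrev toR {l r : BTree} (S : Finset (BTree.node l r).Leaves) : Finset r.Leaves :=
  Finset.toRight (α := Leaves l) (β := Leaves r) S

lemma card_split {l r : BTree} (S : Finset (BTree.node l r).Leaves) :
    (toL S).card + (toR S).card = S.card :=
  Finset.card_toLeft_add_card_toRight (α := Leaves l) (β := Leaves r) (u := S)

lemma card_le_size : ∀ (T : BTree) (S : Finset T.Leaves), S.card ≤ T.size
  | .leaf, S => Finset.card_le_one_of_subsingleton (α := Unit) S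
  | .node l r, S => by
    have h1 := card_le_size l (toL S)
    have h2 := card_le_size r (toR S)
    have h3 := card_split S
    show S.card ≤ l.size + r.size
    omega

lemma size_pos : ∀ T : BTree, 1 ≤ T.size
  | .leaf => le_rfl
  | .node l r => by
    have := size_pos l
    show 1 ≤ l.size + r.size
    omega

lemma del_leaf : del .leaf = addF emptyF := by
  funext d
  ext o
  constructor
  · rintro ⟨S, hS, rfl⟩
    have h1 := card_le_size _ S
    have hs : (BTree.leaf).size = 1 := rfl
    rw [hs] at h1 hS
    rcases Nat.eq_zero_or_pos S.card with h | h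
    · refine Or.inr ⟨0, by omega, rfl, ?_⟩
      show cls (if S.card = 0 then none else some .leaf) = none
      rw [if_pos h]
      rfl
    · refine Or.inl ⟨none, ⟨by omega, rfl⟩, ?_⟩
      show lam none = cls (if S.card = 0 then none else some .leaf)
      rw [if_neg (by omega)]
      rfl
  · rintro (⟨a, ⟨h0, rfl⟩, rfl⟩ | ⟨e, he, h0, rfl⟩)
    · refine ⟨({()} : Finset Unit), ?_, ?_⟩
      · rw [h0]
        rfl
      · show cls (if ({()} : Finset Unit).card = 0 then none else some .leaf) = lam none
        rw [if_neg (by simp)]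
        rfl
    · refine ⟨(∅ : Finset Unit), ?_, ?_⟩
      · show 0 + d = 1
        omega
      · rfl

lemma del_node (l r : BTree) : del (.node l r) = prodF (del l) (del r) := by
  funext d
  ext o
  constructor
  · rintro ⟨S, hS, rfl⟩
    have h1 := card_le_size l (toL S)
    have h2 := card_le_size r (toR S)
    have h3 := card_split S
    have hs : (BTree.node l r).size = l.size + r.size := rfl
    refine ⟨l.size - (toL S).card, r.size - (toR S).card, by omega,
      cls (l.restrict (toL S)), ⟨toL S, by omega, rfl⟩,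
      cls (r.restrict (toR S)), ⟨toR S, by omega, rfl⟩, ?_⟩
    exact (cls_join _ _).symm
  · rintro ⟨i, j, h, _, ⟨S1, h1, rfl⟩, _, ⟨S2, h2, rfl⟩, rfl⟩
    refine ⟨(S1.disjSum S2 : Finset (Leaves l ⊕ Leaves r)), ?_, ?_⟩
    · show (S1.disjSum S2).card + d = l.size + r.size
      rw [Finset.card_disjSum]
      omega
    · show cls (join (restrict l (Finset.toLeft (S1.disjSum S2)))
        (restrict r (Finset.toRight (S1.disjSum S2)))) = _
      rw [Finset.toLeft_disjSum, Finset.toRight_disjSum, cls_join]

lemma del_leaf_node (X : BTree) : del (.node .leaf X) = addF (del X) := by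
  rw [del_node, del_leaf]
  funext d
  ext o
  constructor
  · rintro ⟨i, j, h, a, ha, b, hb, rfl⟩
    rcases ha with ⟨a', ⟨h0, rfl⟩, rfl⟩ | ⟨e, he, h0, rfl⟩
    · left
      have : j = d := by omega
      rw [this] at hb
      exact ⟨b, hb, rfl⟩
    · right
      exact ⟨j, by omega, hb⟩
  · rintro (⟨a, ha, rfl⟩ | ⟨e, he, ho⟩)
    · exact ⟨0, d, by omega, lam none, Or.inl ⟨none, ⟨rfl, rfl⟩, rfl⟩, a, ha, rfl⟩
    · exact ⟨1, e, by omega, none, Or.inr ⟨0, rfl, rfl, rfl⟩, o, ho, rfl⟩

lemma del_node_leaf (X : BTree) : del (.node X .leaf) = addF (del X) := by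
  rw [← del_leaf_node, del_node, del_node, prodF_comm]

/-- the bound by numbers of multisets -/
def Bd (A : ℕ → Set (Option TreeClass)) (r : ℕ) : Prop :=
  ∀ d, (A d).Finite ∧ (A d).ncard ≤ Nat.multichoose r d

lemma vandermonde (r s : ℕ) : ∀ d, ∑ p ∈ antidiagonal d,
    Nat.multichoose r p.1 * Nat.multichoose s p.2 = Nat.multichoose (r + s) d := by
  induction r with
  | zero =>
    intro d
    cases d with
    | zero => simp
    | succ d =>
      rw [Finset.Nat.sum_antidiagonal_succ]
      simp
  | succ r ih =>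
    intro d
    induction d with
    | zero => simp
    | succ d ihd =>
      have h1 := ih (d + 1)
      rw [Finset.Nat.sum_antidiagonal_succ] at h1 ⊢
      simp only [Nat.multichoose_zero_right, one_mul] at h1 ⊢
      have h2 : ∀ p : ℕ × ℕ, Nat.multichoose (r + 1) (p.1 + 1) * Nat.multichoose s p.2 =
          Nat.multichoose r (p.1 + 1) * Nat.multichoose s p.2 +
          Nat.multichoose (r + 1) p.1 * Nat.multichoose s p.2 := by
        intro p
        rw [Nat.multichoose_succ_succ]
        ring
      rw [sum_congr rfl (fun p _ => h2 p), sum_add_distrib, ihd]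
      have h3 : r + 1 + s = (r + s) + 1 := by ring
      rw [h3, Nat.multichoose_succ_succ, ← h1]
      ring

lemma multichoose_mono {r s : ℕ} (h : r ≤ s) (d : ℕ) :
    Nat.multichoose r d ≤ Nat.multichoose s d := by
  obtain ⟨t, rfl⟩ := Nat.exists_eq_add_of_le h
  rw [← vandermonde]
  have h1 : (d, 0) ∈ antidiagonal d := by simp
  have h2 := single_le_sum (f := fun p : ℕ × ℕ =>
    Nat.multichoose r p.1 * Nat.multichoose t p.2) (fun _ _ => Nat.zero_le _) h1
  simpa using h2

lemma Bd.mono {A : ℕ → Set (Option TreeClass)} {r s : ℕ} (h : Bd A r) (hrs : r ≤ s) :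
    Bd A s := fun d => ⟨(h d).1, (h d).2.trans (multichoose_mono hrs d)⟩

lemma bd_empty : Bd emptyF 0 := by
  intro d
  cases d with
  | zero =>
    have : emptyF 0 = {none} := by
      ext o
      simp [emptyF]
    rw [this]
    simp
  | succ d =>
    have : emptyF (d + 1) = ∅ := by
      ext o
      simp [emptyF]
    rw [this]
    simp

lemma Bd.prod {A B : ℕ → Set (Option TreeClass)} {r s : ℕ} (hA : Bd A r) (hB : Bd B s) :
    Bd (prodF A B) (r + s) := by
  intro d
  have hsub : prodF A B d ⊆ ⋃ p ∈ antidiagonal d, Set.image2 joinQ (A p.1) (B p.2) := by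
    rintro o ⟨i, j, h, a, ha, b, hb, rfl⟩
    simp only [Set.mem_iUnion]
    exact ⟨(i, j), by simpa using h, Set.mem_image2_of_mem ha hb⟩
  have hfin : (⋃ p ∈ antidiagonal d, Set.image2 joinQ (A p.1) (B p.2)).Finite := by
    refine Set.Finite.biUnion (finite_toSet _) fun p _ => ?_
    exact Set.Finite.image2 _ (hA p.1).1 (hB p.2).1
  refine ⟨hfin.subset hsub, ?_⟩
  refine (Set.ncard_le_ncard hsub hfin).trans ((Finset.set_ncard_biUnion_le _ _).trans ?_)
  rw [← vandermonde]
  refine sum_le_sum fun p _ => ?_
  have h1 : (Set.image2 joinQ (A p.1) (B p.2)).ncard ≤ (A p.1).ncard * (B p.2).ncard := by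
    rw [← Set.image_prod, ← Set.ncard_prod]
    exact Set.ncard_image_le ((hA p.1).1.prod (hB p.2).1)
  exact h1.trans (Nat.mul_le_mul (hA p.1).2 (hB p.2).2)

lemma iter_sub (A : ℕ → Set (Option TreeClass)) (m : ℕ) : ∀ d, ∀ o ∈ addF^[m] A d,
    ∃ i j, i + j = d ∧ i ≤ m ∧ ∃ a ∈ A j, lam^[m - i] a = o := by
  induction m with
  | zero => intro d o ho; exact ⟨0, d, by omega, le_rfl, o, ho, rfl⟩
  | succ m ih =>
    intro d o ho
    rw [Function.iterate_succ_apply'] at ho
    rcases ho with ⟨a, ha, rfl⟩ | ⟨e, he, ho⟩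
    · obtain ⟨i, j, h1, h2, a', ha', rfl⟩ := ih d a ha
      refine ⟨i, j, h1, by omega, a', ha', ?_⟩
      rw [show m + 1 - i = (m - i) + 1 by omega, Function.iterate_succ_apply']
    · obtain ⟨i, j, h1, h2, a', ha', rfl⟩ := ih e o ho
      refine ⟨i + 1, j, by omega, by omega, a', ha', ?_⟩
      rw [show m + 1 - (i + 1) = m - i by omega]

lemma Bd.iter {A : ℕ → Set (Option TreeClass)} {r : ℕ} (hA : Bd A r) (m : ℕ) :
    Bd (addF^[m] A) (r + 1) := by
  intro d
  have hsub : addF^[m] A d ⊆ ⋃ p ∈ antidiagonal d, (lam^[m - p.1]) '' (A p.2) := by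
    intro o ho
    obtain ⟨i, j, h1, h2, a, ha, rfl⟩ := iter_sub A m d o ho
    simp only [Set.mem_iUnion]
    exact ⟨(i, j), by simpa using h1, Set.mem_image_of_mem _ ha⟩
  have hfin : (⋃ p ∈ antidiagonal d, (lam^[m - p.1]) '' (A p.2)).Finite := by
    refine Set.Finite.biUnion (finite_toSet _) fun p _ => ?_
    exact (hA p.2).1.image _
  refine ⟨hfin.subset hsub, ?_⟩
  refine (Set.ncard_le_ncard hsub hfin).trans ((Finset.set_ncard_biUnion_le _ _).trans ?_)
  rw [add_comm r 1, ← vandermonde]
  refine sum_le_sum fun p _ => ?_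
  rw [Nat.multichoose_one, one_mul]
  exact (Set.ncard_image_le (hA p.2).1).trans (hA p.2).2

/-- the shape of the families of deletions -/
lemma shape : ∀ T : BTree, ∃ (m : ℕ) (A : ℕ → Set (Option TreeClass)) (ρ s : ℕ),
    del T = addF^[m] A ∧ Bd A ρ ∧ T.size = m + s ∧
      ((ρ = 0 ∧ s = 0) ∨ 3 * ρ + 2 ≤ 2 * s) ∧
      (2 ≤ T.size → ∃ R, Bd (del T) R ∧ 3 * R + 1 ≤ 2 * T.size) := by
  have fin : ∀ T : BTree, ∀ (m : ℕ) (A : ℕ → Set (Option TreeClass)) (ρ s : ℕ),
      del T = addF^[m] A → Bd A ρ → T.size = m + s →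
      ((ρ = 0 ∧ s = 0) ∨ 3 * ρ + 2 ≤ 2 * s) → 2 ≤ T.size →
      ∃ R, Bd (del T) R ∧ 3 * R + 1 ≤ 2 * T.size := by
    intro T m A ρ s h1 h2 h3 h4 h5
    rw [h1, h3]
    rw [h3] at h5
    rcases Nat.eq_zero_or_pos m with hm | hm
    · subst hm
      refine ⟨ρ, h2, ?_⟩
      rcases h4 with ⟨_, h⟩ | h
      · omega
      · omega
    · refine ⟨ρ + 1, h2.iter m, ?_⟩
      rcases h4 with ⟨h, h'⟩ | h
      · omega
      · omega
  intro T
  induction T with
  | leaf =>
    refine ⟨1, emptyF, 0, 0, del_leaf, bd_empty, rfl, Or.inl ⟨rfl, rfl⟩, ?_⟩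
    intro h
    have hs : (BTree.leaf).size = 1 := rfl
    omega
  | node l r ihl ihr =>
    have hs : (BTree.node l r).size = l.size + r.size := rfl
    have key : ∃ (m : ℕ) (A : ℕ → Set (Option TreeClass)) (ρ s : ℕ),
        del (.node l r) = addF^[m] A ∧ Bd A ρ ∧ (BTree.node l r).size = m + s ∧
          ((ρ = 0 ∧ s = 0) ∨ 3 * ρ + 2 ≤ 2 * s) := by
      rcases Nat.lt_or_ge l.size 2 with hl | hl
      · have hl' : l = .leaf := by
          cases l with
          | leaf => rfl
          | node a c =>
            have h1 := size_pos a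
            have h2 := size_pos c
            have h3 : (BTree.node a c).size = a.size + c.size := rfl
            omega
        subst hl'
        obtain ⟨m, A, ρ, s, h1, h2, h3, h4, -⟩ := ihr
        refine ⟨m + 1, A, ρ, s, ?_, h2, ?_, h4⟩
        · rw [del_leaf_node, h1, Function.iterate_succ_apply']
        · rw [hs, h3]
          show 1 + (m + s) = _
          omega
      · rcases Nat.lt_or_ge r.size 2 with hr | hr
        · have hr' : r = .leaf := by
            cases r with
            | leaf => rfl
            | node a c =>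
              have h1 := size_pos a
              have h2 := size_pos c
              have h3 : (BTree.node a c).size = a.size + c.size := rfl
              omega
          subst hr'
          obtain ⟨m, A, ρ, s, h1, h2, h3, h4, -⟩ := ihl
          refine ⟨m + 1, A, ρ, s, ?_, h2, ?_, h4⟩
          · rw [del_node_leaf, h1, Function.iterate_succ_apply']
          · rw [hs, h3]
            show (m + s) + 1 = _
            omega
        · obtain ⟨_, _, _, _, _, _, _, _, h5⟩ := ihl
          obtain ⟨_, _, _, _, _, _, _, _, h6⟩ := ihr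
          obtain ⟨R, hR, hR'⟩ := h5 hl
          obtain ⟨R2, hR2, hR2'⟩ := h6 hr
          refine ⟨0, prodF (del l) (del r), R + R2, l.size + r.size, ?_, hR.prod hR2, ?_, ?_⟩
          · rw [del_node]
            rfl
          · rw [hs]
            omega
          · right
            omega
    obtain ⟨m, A, ρ, s, h1, h2, h3, h4⟩ := key
    exact ⟨m, A, ρ, s, h1, h2, h3, h4, fin _ m A ρ s h1 h2 h3 h4⟩

/-- the number of classes obtained by deleting `d` leaves from a tree with `n` leaves is at most
the number of multisets of size `d` from `(2 n - 1) / 3` elements -/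
theorem deck_upper (T : BTree) {d : ℕ} (hd : d < T.size) :
    (deck T (T.size - d)).Finite ∧
      (deck T (T.size - d)).ncard ≤ Nat.multichoose ((2 * T.size - 1) / 3) d := by
  have hsub : some '' (deck T (T.size - d)) ⊆ del T d := by
    rintro _ ⟨u, ⟨S, hS, U, hU, rfl⟩, rfl⟩
    refine ⟨S, by omega, ?_⟩
    rw [hU]
    rfl
  have hB : Bd (del T) ((2 * T.size - 1) / 3) ∨ d = 0 := by
    rcases Nat.lt_or_ge T.size 2 with h | h
    · right
      omega
    · left
      obtain ⟨_, _, _, _, _, _, _, _, h5⟩ := shape T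
      obtain ⟨R, hR, hR'⟩ := h5 h
      refine hR.mono ?_
      omega
  have hfin : (del T d).Finite ∧
      (del T d).ncard ≤ Nat.multichoose ((2 * T.size - 1) / 3) d := by
    rcases hB with h | h
    · exact h d
    · subst h
      obtain ⟨m, A, ρ, s, h1, h2, h3, h4, -⟩ := shape T
      have h5 := h2.iter m 0
      rw [← h1] at h5
      simpa using h5
  have hinj : Function.Injective (some : TreeClass → Option TreeClass) :=
    Option.some_injective _
  have hdf : (deck T (T.size - d)).Finite :=
    Set.Finite.of_finite_image (hfin.1.subset hsub) hinj.injOn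
  refine ⟨hdf, ?_⟩
  rw [← Set.ncard_image_of_injective _ hinj]
  exact (Set.ncard_le_ncard hsub hfin.1).trans hfin.2

end LeafDeck
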